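import Pool.Agent.DMS.StA

namespace DMS

theorem Sc_add (m : ℕ) (q : ℕ → ℕ → ℕ) (l x y z : ℕ) (h : x ≤ y) (h' : y ≤ z) :
    Sc m q l x y + Sc m q l y z = Sc m q l x z := by
  unfold Sc
  rw [← Finset.Ico_union_Ico_eq_Ico h h', Finset.filter_union, Finset.card_union_of_disjoint]
  apply Finset.disjoint_filter_filter
  exact Finset.Ico_disjoint_Ico_consecutive x y z

theorem Uc_add (m : ℕ) (q : ℕ → ℕ → ℕ) (l x y z : ℕ) (h : x ≤ y) (h' : y ≤ z) :
    Uc m q l x y + Uc m q l y z = Uc m q l x z := by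
  unfold Uc
  rw [← Finset.Ico_union_Ico_eq_Ico h h', Finset.filter_union, Finset.card_union_of_disjoint]
  apply Finset.disjoint_filter_filter
  exact Finset.Ico_disjoint_Ico_consecutive x y z

theorem Sc_one (m : ℕ) (q : ℕ → ℕ → ℕ) (l x : ℕ) :
    Sc m q l x (x + 1) = if q l (x + 1) = q l x + m then 1 else 0 := by
  unfold Sc
  rw [Nat.Ico_succ_singleton, Finset.filter_singleton]
  split_ifs <;> simp

theorem Uc_one (m : ℕ) (q : ℕ → ℕ → ℕ) (l x : ℕ) :
    Uc m q l x (x + 1) = if q l (x + 1) = q l x + m then 0 else 1 := by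
  unfold Uc
  rw [Nat.Ico_succ_singleton, Finset.filter_singleton]
  split_ifs <;> simp_all

theorem Sc_self (m : ℕ) (q : ℕ → ℕ → ℕ) (l x : ℕ) : Sc m q l x x = 0 := by simp [Sc]
theorem Uc_self (m : ℕ) (q : ℕ → ℕ → ℕ) (l x : ℕ) : Uc m q l x x = 0 := by simp [Uc]

theorem q_mono {m g : ℕ} (S : Sys m g) {l : ℕ} (hl : l < S.H) :
    ∀ x y, x ≤ y → y ≤ S.n (l + 1) → S.q l x + (y - x) ≤ S.q l y := by
  intro x y hxy
  obtain ⟨d, rfl⟩ := Nat.exists_eq_add_of_le hxy
  induction d with
  | zero => intro _; simp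
  | succ d ih =>
    intro hd
    have h1 := ih (by omega) (by omega)
    have h2 := S.q_lt l hl (x + d) (by omega)
    rw [show x + (d + 1) = x + d + 1 by omega]
    omega

theorem thm_S1 : St_S1 := by
  intro m g S hg hm l hl
  have hqle : ∀ y, y ≤ S.n (l + 1) → S.q l y ≤ S.n l := by
    intro y hy
    have := q_mono S hl y (S.n (l + 1)) hy le_rfl
    rw [S.q_end l hl] at this
    omega
  refine ⟨?_, ?_, ?_⟩
  · intro x y hxy hy
    have key : ∀ d, x + d ≤ S.n (l + 1) →
        Sc m S.q l x (x + d) + Uc m S.q l x (x + d) = d ∧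
        S.q l x + m * Sc m S.q l x (x + d) + Uc m S.q l x (x + d) ≤ S.q l (x + d) ∧
        S.q l (x + d) + Uc m S.q l x (x + d) ≤ S.q l x + m * d := by
      intro d
      induction d with
      | zero => intro _; simp [Sc_self, Uc_self]
      | succ d ih =>
        intro hd
        obtain ⟨i1, i2, i3⟩ := ih (by omega)
        have h2 := S.q_lt l hl (x + d) (by omega)
        have h3 := S.q_le l hl (x + d) (by omega)
        rw [show x + (d + 1) = x + d + 1 by omega,
          ← Sc_add m S.q l x (x + d) (x + d + 1) (by omega) (by omega),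
          ← Uc_add m S.q l x (x + d) (x + d + 1) (by omega) (by omega), Sc_one, Uc_one]
        have e1 : m * (d + 1) = m * d + m := by ring
        split_ifs with h4
        · refine ⟨by omega, ?_, ?_⟩
          · rw [Nat.mul_add]; omega
          · rw [e1]; omega
        · refine ⟨by omega, ?_, ?_⟩
          · rw [Nat.add_zero]; omega
          · rw [e1]; omega
    obtain ⟨d, rfl⟩ := Nat.exists_eq_add_of_le hxy
    obtain ⟨k1, k2, k3⟩ := key d hy
    rw [Nat.add_sub_cancel_left]
    exact ⟨k1, k2, k3, hqle _ hy⟩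
  · intro x y z hxy hyz
    exact ⟨Sc_add _ _ _ _ _ _ hxy hyz, Uc_add _ _ _ _ _ _ hxy hyz⟩
  · have key : ∀ d, d ≤ S.H → 1 ≤ S.n (S.H - d) := by
      intro d
      induction d with
      | zero => intro _; simp [S.n_top]
      | succ d ih =>
        intro hd
        have h1 := ih (by omega)
        have e : S.H - d = (S.H - (d + 1)) + 1 := by omega
        rw [e] at h1
        have h2 := q_mono S (by omega : S.H - (d + 1) < S.H) 0 _ (Nat.zero_le _) le_rfl
        rw [S.q_end _ (by omega)] at h2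
        omega
    intro l' hl'
    have := key (S.H - l') (by omega)
    rwa [show S.H - (S.H - l') = l' by omega] at this

end DMS
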