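import Pool.Agent.DMS.S1

namespace DMS

/-- parent of a cut. -/
theorem exists_par {m g : ℕ} (S : Sys m g) {l : ℕ} (hl : l < S.H) {x : ℕ}
    (hx : x ≤ S.n l) : ∃ k, k ≤ S.n (l + 1) ∧ S.q l k ≤ x ∧
      (k < S.n (l + 1) → x < S.q l (k + 1)) := by
  refine ⟨Nat.findGreatest (fun k => S.q l k ≤ x) (S.n (l + 1)), Nat.findGreatest_le _, ?_, ?_⟩
  · exact @Nat.findGreatest_spec 0 (fun k => S.q l k ≤ x) _ (S.n (l + 1)) (Nat.zero_le _)
      (by simp [S.q_zero l hl])
  · intro h
    have := @Nat.findGreatest_is_greatest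
      (Nat.findGreatest (fun k => S.q l k ≤ x) (S.n (l + 1)) + 1) (fun k => S.q l k ≤ x) _
      (S.n (l + 1)) (by omega) (by omega)
    simpa using this

theorem thm_S2 : St_S2 := by
  intro m g S hg hm l hl
  have hn : S.n (l + 1 + 1) = S.n (l + 2) := rfl
  obtain ⟨A1, -, -⟩ := thm_S1 m g S hg hm l (by omega)
  have hq2 : ∀ k, k ≤ S.n (l + 2) → S.q (l + 1) k ≤ S.n (l + 1) := by
    intro k hk
    have := q_mono S (by omega : l + 1 < S.H) k (S.n (l + 2)) hk le_rfl
    rw [S.q_end (l + 1) (by omega)] at this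
    omega
  have hone : ∀ k, k < S.n (l + 2) →
      Uc m S.q l (S.q (l + 1) k) (S.q (l + 1) (k + 1)) ≤ g ∧
      Uc m S.q l (S.q (l + 1) k) (S.q (l + 1) (k + 1)) ≤
        Sc m S.q l (S.q (l + 1) k) (S.q (l + 1) (k + 1)) ∧
      m * Uc m S.q l (S.q (l + 1) k) (S.q (l + 1) (k + 1)) ≤
        m + 2 * g * (S.q (l + 1) (k + 1) - S.q (l + 1) k) := by
    intro k hk
    have h1 := S.q_lt (l + 1) (by omega) k hk
    have h2 := S.q_le (l + 1) (by omega) k hk
    obtain ⟨b1, b2, b3, b4⟩ := A1 (S.q (l + 1) k) (S.q (l + 1) (k + 1)) h1.le (hq2 _ (by omega))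
    have h3 := S.s_pos l hl k hk
    rcases S.u_or l hl k hk with h4 | h4
    · refine ⟨by omega, by omega, ?_⟩
      calc m * Uc m S.q l (S.q (l + 1) k) (S.q (l + 1) (k + 1)) ≤ m * 1 :=
            Nat.mul_le_mul le_rfl h4
        _ ≤ _ := by omega
    · have hU : Uc m S.q l (S.q (l + 1) k) (S.q (l + 1) (k + 1)) ≤ g := by omega
      refine ⟨hU, by omega, ?_⟩
      have h5 : m ≤ 2 * (S.q (l + 1) (k + 1) - S.q (l + 1) k) := by omega
      calc m * Uc m S.q l (S.q (l + 1) k) (S.q (l + 1) (k + 1)) ≤ m * g :=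
            Nat.mul_le_mul le_rfl hU
        _ ≤ (2 * (S.q (l + 1) (k + 1) - S.q (l + 1) k)) * g := Nat.mul_le_mul h5 le_rfl
        _ = 2 * g * (S.q (l + 1) (k + 1) - S.q (l + 1) k) := by ring
        _ ≤ _ := by omega
  refine ⟨fun k hk => (hone k hk).1, ?_, ?_⟩
  · intro k₁ k₂ hk
    obtain ⟨d, rfl⟩ := Nat.exists_eq_add_of_le hk
    clear hk
    induction d with
    | zero => intro _; simp [Uc_self]
    | succ d ih =>
      intro hd
      have h1 := ih (by omega)
      have h2 := (hone (k₁ + d) (by omega)).2.2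
      have m1 := q_mono S (by omega : l + 1 < S.H) k₁ (k₁ + d) (by omega) (by omega)
      have m2 := q_mono S (by omega : l + 1 < S.H) (k₁ + d) (k₁ + d + 1) (by omega) (by omega)
      rw [show k₁ + (d + 1) = k₁ + d + 1 by omega,
        ← Uc_add m S.q l _ (S.q (l + 1) (k₁ + d)) _ (by omega) (by omega), Nat.mul_add]
      have e1 : m * (k₁ + d + 1 - k₁) = m * (k₁ + d - k₁) + m := by
        rw [show k₁ + d + 1 - k₁ = (k₁ + d - k₁) + 1 by omega]; ring
      have e2 : 2 * g * (S.q (l + 1) (k₁ + d + 1) - S.q (l + 1) k₁) =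
          2 * g * (S.q (l + 1) (k₁ + d) - S.q (l + 1) k₁) +
          2 * g * (S.q (l + 1) (k₁ + d + 1) - S.q (l + 1) (k₁ + d)) := by
        rw [← Nat.mul_add]; congr 1; omega
      rw [e1, e2]
      omega
  · -- full nodes
    have hfull : ∀ k₁ d, k₁ + d ≤ S.n (l + 2) →
        Uc m S.q l (S.q (l + 1) k₁) (S.q (l + 1) (k₁ + d)) ≤
        Sc m S.q l (S.q (l + 1) k₁) (S.q (l + 1) (k₁ + d)) := by
      intro k₁ d
      induction d with
      | zero => intro _; simp [Uc_self]
      | succ d ih =>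
        intro hd
        have h1 := ih (by omega)
        have h2 := (hone (k₁ + d) (by omega)).2.1
        have m1 := q_mono S (by omega : l + 1 < S.H) k₁ (k₁ + d) (by omega) (by omega)
        have m2 := q_mono S (by omega : l + 1 < S.H) (k₁ + d) (k₁ + d + 1) (by omega) (by omega)
        rw [show k₁ + (d + 1) = k₁ + d + 1 by omega,
          ← Uc_add m S.q l _ (S.q (l + 1) (k₁ + d)) _ (by omega) (by omega),
          ← Sc_add m S.q l _ (S.q (l + 1) (k₁ + d)) _ (by omega) (by omega)]
        omega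
    intro x y hxy hy
    obtain ⟨k₁, c1, c2, c3⟩ := exists_par S (by omega : l + 1 < S.H) (by omega : x ≤ S.n (l + 1))
    obtain ⟨k₂, d1, d2, d3⟩ := exists_par S (by omega : l + 1 < S.H) hy
    rcases Nat.lt_or_ge k₁ (S.n (l + 2)) with hk1 | hk1
    · have c4 := c3 hk1
      rcases Nat.lt_or_ge (S.q (l + 1) (k₁ + 1)) y with h | h
      · -- several nodes
        have hk12 : k₁ + 1 ≤ k₂ := by
          by_contra hc
          have hk2' : k₂ < S.n (l + 2) := by omega
          have h5 := d3 hk2'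
          have h6 := q_mono S (by omega : l + 1 < S.H) (k₂ + 1) (k₁ + 1) (by omega) (by omega)
          omega
        obtain ⟨d, rfl⟩ := Nat.exists_eq_add_of_le hk12
        have h7 := hfull (k₁ + 1) d (by omega)
        have h8 : Uc m S.q l x (S.q (l + 1) (k₁ + 1)) ≤ g := by
          have := (hone k₁ hk1).1
          rw [← Uc_add m S.q l _ x _ c2 c4.le] at this
          omega
        have h9 : Uc m S.q l (S.q (l + 1) (k₁ + 1 + d)) y ≤ g := by
          rcases Nat.lt_or_ge (k₁ + 1 + d) (S.n (l + 2)) with h' | h'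
          · have := (hone _ h').1
            rw [← Uc_add m S.q l _ y _ d2 (d3 h').le] at this
            omega
          · have : k₁ + 1 + d = S.n (l + 2) := by omega
            have e : S.q (l + 1) (k₁ + 1 + d) = S.n (l + 1) := by
              rw [this]; exact S.q_end (l + 1) (by omega)
            rw [e]
            have : S.n (l + 1) = y := by omega
            rw [this, Uc_self]; omega
        have m1 := q_mono S (by omega : l + 1 < S.H) (k₁ + 1) (k₁ + 1 + d) (by omega) (by omega)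
        rw [← Uc_add m S.q l x (S.q (l + 1) (k₁ + 1)) y c4.le (by omega),
          ← Sc_add m S.q l x (S.q (l + 1) (k₁ + 1)) y c4.le (by omega),
          ← Uc_add m S.q l (S.q (l + 1) (k₁ + 1)) (S.q (l + 1) (k₁ + 1 + d)) y (by omega) d2,
          ← Sc_add m S.q l (S.q (l + 1) (k₁ + 1)) (S.q (l + 1) (k₁ + 1 + d)) y (by omega) d2]
        omega
      · have := (hone k₁ hk1).1
        rw [← Uc_add m S.q l _ x _ c2 c4.le] at this
        have h5 := Uc_add m S.q l x y (S.q (l + 1) (k₁ + 1)) hxy h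
        omega
    · have : k₁ = S.n (l + 2) := by omega
      rw [this, S.q_end (l + 1) (by omega)] at c2
      have : x = y := by omega
      rw [this, Uc_self]; omega

end DMS
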