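import Pool.Agent.DMS.S1

namespace DMS

theorem thm_S3 : St_S3 := by
  intro m g S hg hm
  have hqn : ∀ l, l < S.H → ∀ k, k ≤ S.n (l + 1) → S.q l k ≤ S.n l := by
    intro l hl k hk
    have := q_mono S hl k (S.n (l + 1)) hk le_rfl
    rw [S.q_end l hl] at this
    omega
  have hup : ∀ l, l ≤ S.H → ∀ k k', k ≤ k' → k' ≤ S.n l →
      pos S.q l k' ≤ pos S.q l k + m ^ l * (k' - k) := by
    intro l
    induction l with
    | zero => intro _ k k' hk _; simp only [pos, pow_zero, one_mul]; omega
    | succ l ih =>
      intro hl k k' hk hk'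
      have m1 := q_mono S (by omega : l < S.H) k k' hk hk'
      have h1 := ih (by omega) (S.q l k) (S.q l k') (by omega) (hqn l (by omega) k' hk')
      have h2 := ((thm_S1 m g S hg hm l (by omega)).1 k k' hk hk').2.2.1
      show pos S.q l (S.q l k') ≤ pos S.q l (S.q l k) + _
      calc pos S.q l (S.q l k') ≤ pos S.q l (S.q l k) + m ^ l * (S.q l k' - S.q l k) := h1
        _ ≤ pos S.q l (S.q l k) + m ^ l * (m * (k' - k)) :=
            Nat.add_le_add_left (Nat.mul_le_mul le_rfl (by omega)) _
        _ = _ := by ring
  have hlow1 : ∀ l, l + 1 ≤ S.H →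
      (∀ k k', k ≤ k' → k' ≤ S.n l → pos S.q l k + m ^ (l / 2) * (k' - k) ≤ pos S.q l k') →
      ∀ k k', k ≤ k' → k' ≤ S.n (l + 1) →
        pos S.q (l + 1) k + m ^ (l / 2) * (k' - k) ≤ pos S.q (l + 1) k' := by
    intro l hl ih k k' hk hk'
    have m1 := q_mono S (by omega : l < S.H) k k' hk hk'
    have h1 := ih (S.q l k) (S.q l k') (by omega) (hqn l (by omega) k' hk')
    show pos S.q l (S.q l k) + _ ≤ pos S.q l (S.q l k')
    calc pos S.q l (S.q l k) + m ^ (l / 2) * (k' - k)
        ≤ pos S.q l (S.q l k) + m ^ (l / 2) * (S.q l k' - S.q l k) :=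
          Nat.add_le_add_left (Nat.mul_le_mul le_rfl (by omega)) _
      _ ≤ _ := h1
  have hlow : ∀ l, l ≤ S.H → ∀ k k', k ≤ k' → k' ≤ S.n l →
      pos S.q l k + m ^ (l / 2) * (k' - k) ≤ pos S.q l k' := by
    intro l
    induction l using Nat.strong_induction_on with
    | _ l ih =>
      intro hl
      match l, ih, hl with
      | 0, _, _ => intro k k' hk _; simp only [pos, Nat.zero_div, pow_zero, one_mul]; omega
      | 1, ih, hl =>
        have := hlow1 0 hl (ih 0 (by omega) (by omega))
        simpa using this
      | l + 2, ih, hl =>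
        have hn : S.n (l + 1 + 1) = S.n (l + 2) := rfl
        have hmon : ∀ k k', k ≤ k' → k' ≤ S.n (l + 1) →
            pos S.q (l + 1) k ≤ pos S.q (l + 1) k' := by
          intro k k' hk hk'
          have := ih (l + 1) (by omega) (by omega) k k' hk hk'
          have := Nat.zero_le (m ^ ((l + 1) / 2) * (k' - k))
          omega
        -- one node
        have hstep : ∀ k, k < S.n (l + 2) →
            pos S.q (l + 2) k + m ^ ((l + 2) / 2) ≤ pos S.q (l + 2) (k + 1) := by
          intro k hk
          have h1 := S.s_pos l (by omega) k hk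
          unfold Sc at h1
          obtain ⟨j, hj⟩ := Finset.card_pos.mp h1
          simp only [Finset.mem_filter, Finset.mem_Ico] at hj
          obtain ⟨⟨j1, j2⟩, j3⟩ := hj
          have hq1 := hqn (l + 1) (by omega) (k + 1) (by omega)
          have h2 := hmon (S.q (l + 1) k) j j1 (by omega)
          have h3 := hmon (j + 1) (S.q (l + 1) (k + 1)) (by omega) hq1
          have h4 := ih l (by omega) (by omega) (S.q l j) (S.q l (j + 1))
            (by omega) (hqn l (by omega) (j + 1) (by omega))
          have e : m ^ (l / 2) * (S.q l (j + 1) - S.q l j) = m ^ ((l + 2) / 2) := by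
            rw [j3, Nat.add_sub_cancel_left, Nat.add_div_right _ (by omega)]
            rw [pow_succ]
          rw [e] at h4
          show pos S.q (l + 1) (S.q (l + 1) k) + _ ≤ pos S.q (l + 1) (S.q (l + 1) (k + 1))
          have h5 : pos S.q (l + 1) j = pos S.q l (S.q l j) := rfl
          have h6 : pos S.q (l + 1) (j + 1) = pos S.q l (S.q l (j + 1)) := rfl
          omega
        intro k k' hk
        obtain ⟨d, rfl⟩ := Nat.exists_eq_add_of_le hk
        clear hk
        rw [Nat.add_sub_cancel_left]
        induction d with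
        | zero => intro _; simp
        | succ d ih2 =>
          intro hd
          have h1 := ih2 (by omega)
          have h2 := hstep (k + d) (by omega)
          rw [show k + (d + 1) = k + d + 1 by omega, Nat.mul_add, Nat.mul_one]
          omega
  intro l hl
  refine ⟨?_, ?_, fun k k' hk hk' => ⟨hup l hl k k' hk hk', hlow l hl k k' hk hk'⟩⟩
  · induction l with
    | zero => rfl
    | succ l ih =>
      show pos S.q l (S.q l 0) = 0
      rw [S.q_zero l (by omega)]
      exact ih (by omega)
  · induction l with
    | zero => rfl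
    | succ l ih =>
      show pos S.q l (S.q l (S.n (l + 1))) = S.n 0
      rw [S.q_end l (by omega)]
      exact ih (by omega)

end DMS
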