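import Pool.Agent.DMS.S1

namespace DMS

theorem thm_S4 (h1 : St_W1) (h2 : St_W2) (h7 : St_W7) : St_S4 := by
  intro p S hok hn0 l
  have hok' := hok
  obtain ⟨hg, hm, hb⟩ := hok'
  obtain ⟨-, -, -, -, hposlt⟩ := h7 p hok
  have hposle : ∀ l, l ≤ 4 * p.b + 1 → ∀ k k', k ≤ k' → k' ≤ len p l →
      pos (c p) l k ≤ pos (c p) l k' := by
    intro l hl k k' hk hk'
    rcases Nat.lt_or_ge k k' with h | h
    · exact (hposlt l hl k k' h hk').le
    · rw [show k = k' by omega]
  induction l with
  | zero =>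
    intro _ _
    refine ⟨rfl, ?_, ?_, ?_, ?_, ?_⟩
    · show S.n 0 - 1 = len p 0
      omega
    · intro x y hxy hy
      show x - 1 ≤ y - 1 ∧ y - 1 ≤ len p 0
      omega
    · intro k hk hk1
      show k - 1 + 1 ≤ k
      have : 1 ≤ k := hk1
      omega
    · intro k hk _
      show k < k - 1 + 1 + 1
      omega
    · intro l' hl'
      omega
  | succ l ih =>
    intro hH hl4
    obtain ⟨i1, i2, i3, i4, i5, -⟩ := ih (by omega) (by omega)
    obtain ⟨-, -, hW⟩ := h1 p
    obtain ⟨hc0, hcs, hlen, hV⟩ := hW l (by omega)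
    obtain ⟨hmono, hpar, hparm, hparc⟩ := h2 p hok l (by omega)
    have hqn : ∀ k, k ≤ S.n (l + 1) → S.q l k ≤ S.n l := by
      intro k hk
      have := q_mono S (by omega : l < S.H) k (S.n (l + 1)) hk le_rfl
      rw [S.q_end l (by omega)] at this
      omega
    have hph : ∀ k, ph p S.q l k = f p S.q l (S.q l k) := fun k => rfl
    have hf : ∀ k, f p S.q (l + 1) k = par p l (ph p S.q l k) := fun k => rfl
    have hphmono : ∀ x y, x ≤ y → y ≤ S.n (l + 1) → ph p S.q l x ≤ ph p S.q l y := by
      intro x y hxy hy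
      have m1 := q_mono S (by omega : l < S.H) x y hxy hy
      exact (i3 (S.q l x) (S.q l y) (by omega) (hqn y hy)).1
    have hphle : ∀ k, k ≤ S.n (l + 1) → ph p S.q l k ≤ len p l := by
      intro k hk
      exact (i3 _ _ le_rfl (hqn k hk)).2
    have hph0 : ph p S.q l 0 = 0 := by rw [hph, S.q_zero l (by omega)]; exact i1
    have hphn : ph p S.q l (S.n (l + 1)) = len p l := by
      rw [hph, S.q_end l (by omega)]; exact i2
    have hcle : ∀ k, k ≤ len p (l + 1) → c p l k ≤ len p l := by
      intro k hk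
      have := (hmono k (len p (l + 1)) hk le_rfl).1
      rw [← hlen] at this
      omega
    refine ⟨?_, ?_, ?_, ?_, ?_, ?_⟩
    · rw [hf, hph0]
      have := hparc 0 (Nat.zero_le _)
      rwa [hc0] at this
    · rw [hf, hphn, hlen]
      exact hparc _ le_rfl
    · intro x y hxy hy
      rw [hf, hf]
      exact ⟨hparm _ _ (hphmono x y hxy hy), (hpar _).1⟩
    · intro k hk hk1
      have h5 := i4 (S.q l k) (hqn k hk) hk1
      have h6 := (hpar (ph p S.q l k)).2.1
      have h8 := hposle l (by omega) _ _ h6 (hphle k hk)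
      show pos (c p) l (c p l (f p S.q (l + 1) k)) + 1 ≤ pos S.q l (S.q l k)
      rw [hf]
      have h9 : pos (c p) l (f p S.q l (S.q l k)) = pos (c p) l (ph p S.q l k) := rfl
      omega
    · intro k hk hk1
      rw [hf] at hk1
      have h6 := (hpar (ph p S.q l k)).2.2 hk1
      have hcl := hcle (par p l (ph p S.q l k) + 1) (by omega)
      have h5 := i5 (S.q l k) (hqn k hk) (by rw [← hph]; omega)
      have h8 := hposle l (by omega) (ph p S.q l k + 1) (c p l (par p l (ph p S.q l k) + 1))
        (by omega) hcl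
      show pos S.q l (S.q l k) < pos (c p) l (c p l (f p S.q (l + 1) k + 1)) + 1
      rw [hf]
      have h9 : pos (c p) l (f p S.q l (S.q l k) + 1) = pos (c p) l (ph p S.q l k + 1) := rfl
      omega
    · intro l' hl'
      have e : l = l' := by omega
      subst e
      refine ⟨?_, hphmono, hph0, hphn⟩
      intro k hk
      refine ⟨(hpar _).2.1, (hpar _).2.2, hphle k hk⟩

end DMS
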