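import Pool.Agent.DMS.StC

/-!
# DMS, statements D: from trees to index systems, and the final assembly
-/

namespace DMS

/-! ## The system of a tree -/

/-- number of nodes of level `l` of a tree of height `h`. -/
def tn (h : ℕ) (t : Tree) (l : ℕ) : ℕ := (lev (h - l) t).length

/-- first child of node `k` of level `l + 1`. -/
def tq (h : ℕ) (t : Tree) (l k : ℕ) : ℕ :=
  (((lev (h - 1 - l) t).take k).map fun v => v.kids.length).sum

/-- **D1** (a dense tree is a system).  Proof.  For `l < h` the list of nodes of level `l` is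
`lev (h - l) t = (lev (h - 1 - l) t).flatMap Tree.kids`; all nodes `v` of level `l` satisfy
`Wf m r l v` (downward induction), so those of level `l + 1` have `1 ≤ kids.length ≤ m`
children (`keys.length + 1 = kids.length`).  `tq h t l k` is the sum of the numbers of children
of the first `k` nodes, so `tq l 0 = 0`, `tq l (n (l+1)) = n l`, and the steps are the numbers
of children.  A node `j` of level `l + 1` is saturated (`sat`) iff it has `m` children iff
`tq l (j+1) = tq l j + m` (it is not a leaf).  For `l + 1 < h` the children of node `k` of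
level `l + 2` are the nodes `tq (l+1) k ≤ j < tq (l+1) (k+1)` of level `l + 1`, in order, so
`Sc`, `Uc` over this interval count the saturated and unsaturated children of this node.  If
there is an unsaturated child `i`: either all others are saturated and there is another one
(`Uc = 1`, `Sc ≥ 1`), or `r ≤ Sc`, and `r ≥ 1`, `m - (m - r) = r`.  If all children are
saturated: `Uc = 0`, `Sc ≥ 1`. -/
def St_D1 : Prop := ∀ (m r : ℕ), 1 ≤ r → r < m → ∀ h t, Wf m r h t →
  ∃ S : Sys m (m - r), S.H = h ∧ S.n = tn h t ∧ S.q = tq h t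

/-- **D2** (key lists).  Proof.  For `v` of level `l + 1` (`Wf`), `inorder (l+1) v =
weave v.keys (v.kids.map (inorder l))`.  (1) By downward induction on `l ≤ h` there is a list
`seps l` with `(seps l).length + 1 = n l` and
`inorder h t = weave (seps l) ((lev (h-l) t).map (inorder l))`: for `l = h` take `[]`; from `l + 1`
to `l` insert the key lists of the nodes: `seps l = keys v₀ ++ [s₀] ++ keys v₁ ++ [s₁] ++ ...`
for `seps (l+1) = [s₀, s₁, ...]` (list induction; `|keys| + 1 = |kids|`), and then entry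
number `tq l k + i` of `seps l` is entry `i` of `keys v_k`, `i < |keys v_k|`.  (2) If
`|s| + 1 = |L|` then entry `j` of `s` is entry number `∑_{i ≤ j} (|L_i| + 1) - 1` of `weave s L`.
(3) `pos (tq h t) l (j+1) - pos (tq h t) l j = |inorder l v_j| + 1` for node `j` of level
`l` (induction on `l`; the length of `weave s L` is `∑ |L_i| + |s|`), so the sum in (2) is
`pos (tq h t) l (j+1)`.  For `l = h` this also gives `n 0 = |inorder h t| + 1`. -/
def St_D2 : Prop := ∀ (m r : ℕ), ∀ h t, Wf m r h t →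
  tn h t 0 = (inorder h t).length + 1 ∧
  ∀ l, l < h → ∀ k v, (lev (h - 1 - l) t)[k]? = some v →
    v.kids.length = tq h t l (k + 1) - tq h t l k ∧
    v.keys = (List.range' (tq h t l k + 1) (tq h t l (k + 1) - tq h t l k - 1)).map
      fun j => (inorder h t).getD (pos (tq h t) l j - 1) 0

/-! ## The hard tree as a tree -/

/-- number of leaves below a node of level `l` and type `τ`. -/
def lf (p : Par) : ℕ → Ty → ℕ
  | 0, _ => 1
  | l + 1, τ => ((List.range (sz p τ)).map fun s => lf p l (ch p l τ s)).sum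

/-- number of leaves below the first `s` children. -/
def ps (p : Par) (l : ℕ) (τ : Ty) (s : ℕ) : ℕ :=
  ((List.range s).map fun i => lf p l (ch p l τ i)).sum

/-- the subtree of type `τ` and level `l` whose leftmost leaf has number `o`; the key between
the leaves `i - 1` and `i` is `i`. -/
def bt (p : Par) : ℕ → Ty → ℕ → Tree
  | 0, _, _ => .leaf
  | l + 1, τ, o => .node ((List.range (sz p τ - 1)).map fun s => o + ps p l τ (s + 1))
      ((List.range (sz p τ)).map fun s => bt p l (ch p l τ s) (o + ps p l τ s))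

/-- the hard tree. -/
def hard (p : Par) : Tree := bt p (4 * p.b + 1) .Q 0

/-- **D3** (it is dense).  Proof: induction on `l` for `bt p l τ o`, `l ≤ 4 b + 1`, any type `τ`.
Number of keys and of children: `sz p τ - 1`, `sz p τ` with `1 ≤ sz p τ ≤ m`.  A child of level
`l ≥ 1` and type `τ'` is `sat` iff `sz p τ' = m` iff `τ' ≠ U` (`m / 2 ≠ m`); for `l = 0` all
children are leaves, hence `sat`.  The number of `s < sz p τ` with `ch p l τ s = U` is: `0` for
`τ = C, P`; `g` for `τ = R, Q` (the `s` with `m - 1 - s = 21 e`, `e < g`) and `τ = L`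
(`s = 20 + 21 e`, `e < g`), `1` for `τ = U` (`s = 20`).  So for `C, P` nothing to show; for
`R, L, Q` the number of saturated children is at least `m - g` (`countP`); for `U` the only
unsaturated child has `m / 2 - 1 ≥ 1` brothers, all saturated. -/
def St_D3 : Prop := ∀ p : Par, p.Ok → Wf p.m (p.m - p.g) (4 * p.b + 1) (hard p)

/-- **D4** (its key sequence and its levels).  Proof.  (1) `inorder l (bt p l τ o) =
List.range' (o + 1) (lf p l τ - 1)`: induction on `l`, `weave` of consecutive intervals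
(`lf ≥ 1`, `ps (s+1) = ps s + lf`).  (2) `lf` and `pos`: `pos (c p) l (k+1) = pos (c p) l k +
lf p l (V p l k)` for `k < len p l`, `l ≤ 4 b + 1`, and
`pos (c p) l (c p l k + s) = pos (c p) (l+1) k + ps p l (V p (l+1) k) s` for
`s ≤ sz p (V p (l+1) k)`: induction on `l` and `s` with W1.
(3) `lev (4b+1-l) (hard p)` is the list of `bt p l (V p l k) (pos (c p) l k)`, `k < len p l`:
downward induction on `l`; the children of `bt p (l+1) (V p (l+1) k) (pos (c p) (l+1) k)` are by
(2) and W1 the `bt p l (V p l j) (pos (c p) l j)` with `j = c p l k + s`, `s < sz`.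
`len p 0 = pos (c p) (4b+1) 1 = lf p (4b+1) Q`. -/
def St_D4 : Prop := ∀ p : Par, p.Ok →
  inorder (4 * p.b + 1) (hard p) = List.range' 1 (len p 0 - 1) ∧
  ∀ l, l ≤ 4 * p.b + 1 → lev (4 * p.b + 1 - l) (hard p) =
    (List.range (len p l)).map fun k => bt p l (V p l k) (pos (c p) l k)

/-- key list of node `k` of level `l + 1` of the hard tree. -/
def keysT (p : Par) (l k : ℕ) : List ℕ :=
  (List.range' (c p l k + 1) (sz p (V p (l + 1) k) - 1)).map (pos (c p) l)

/-- key list of node `k` of level `l + 1` of a system with the keys `0, 1, 2, ...`. -/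
def keysN (q : ℕ → ℕ → ℕ) (l k : ℕ) : List ℕ :=
  (List.range' (q l k + 1) (q l (k + 1) - q l k - 1)).map fun j => pos q l j - 1

/-- **D5** (old key lists).  Proof: `Old` says that `v.keys` is the key list of a node of depth
`d ≤ 4 b`, i.e. of level `l + 1 = 4 b + 1 - d`, which by D4 is
`bt p (l+1) (V p (l+1) k) (pos (c p) (l+1) k)`; its keys are
`pos (c p) (l+1) k + ps (s + 1) = pos (c p) l (c p l k + s + 1)` (D4 (2), reprove it here),
`s < sz - 1`. -/
def St_D5 : Prop := ∀ p : Par, p.Ok → ∀ v : Tree,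
  Old (4 * p.b + 1) (hard p) v ↔ ∃ l k, l ≤ 4 * p.b ∧ k < len p (l + 1) ∧ v.keys = keysT p l k

/-- node `k` of level `l + 1` of the system has the key list of a node of the hard tree. -/
def OldN (p : Par) (q : ℕ → ℕ → ℕ) (l k : ℕ) : Prop :=
  ∃ l₂ k₂, l₂ ≤ 4 * p.b ∧ k₂ < len p (l₂ + 1) ∧ keysN q l k = keysT p l₂ k₂

open Classical in
/-- number of nodes of the system which are not old. -/
noncomputable def cost (p : Par) (S : Sys p.m p.g) : ℕ :=
  ∑ l ∈ Finset.range S.H, ((Finset.range (S.n (l + 1))).filter fun k => ¬ OldN p S.q l k).card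

/-- **D6** (the cost of a tree is the cost of its system).  Let `T'` be dense with the key
sequence `0, 1, ..., N` and `S` its system (D1).  Proof: D2 with
`(List.range (N+1)).getD (pos - 1) 0 = pos - 1` (`pos q l j ≤ n 0 = N + 2`,
for `j ≤ n l`; the `j` in `keys` are interior, so `1 ≤ pos q l j ≤ N + 1`): the key list of node
`k` of level `l + 1` is `keysN S.q l k`.  The sum over `d < h'` in `newNodes` is the sum over
`l = h' - 1 - d`; `countP` of a list is the number of indices. -/
def St_D6 : Prop := ∀ (p : Par), p.Ok → ∀ (h' : ℕ) (T' : Tree) (N : ℕ),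
  Wf p.m (p.m - p.g) h' T' →
    inorder h' T' = List.range (N + 1) →
    ∀ S : Sys p.m p.g, S.H = h' → S.n = tn h' T' → S.q = tq h' T' →
      newNodes (4 * p.b + 1) (hard p) h' T' = cost p S

/-- **D7** (new nodes of level 1).  Proof.  Let `j < n 1` with `OldN 0 j`:
`keysN q 0 j = [q 0 j, ..., q 0 (j+1) - 2]` equals `keysT p l₂ k₂`, a list of length
`sz - 1 ≥ 2`.  If `l₂ ≥ 1`, its first two entries are `pos (c p) l₂ i`, `pos (c p) l₂ (i+1)`,
which differ by at least `2` (`pos (c p) l₂ i = pos (c p) (l₂ - 1) (c p (l₂-1) i)`, W2, W7),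
but the entries of `keysN q 0 j` are consecutive.  If `l₂ = 0`: first entries:
`q 0 j = c p 0 k₂ + 1`, and the lengths give `q 0 (j+1) - q 0 j = sz = c p 0 (k₂+1) - c p 0 k₂`;
`ph 0 j = q 0 j - 1`, so `Exact p q j`.  Hence `nw 0 (n 1)` is at most the term
`l = 0` of `cost` (`1 ≤ H`). -/
def St_D7 : Prop := ∀ (p : Par) (S : Sys p.m p.g), Cx p S → 1 ≤ S.H →
  nw p S.q 0 (S.n 1) ≤ cost p S

/-- all nodes of level between `1` and `l` below node `k` of level `l` are old. -/
def AO (p : Par) (q : ℕ → ℕ → ℕ) : ℕ → ℕ → Prop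
  | 0, _ => True
  | l + 1, k => OldN p q l k ∧ ∀ j, q l k ≤ j → j < q l (k + 1) → AO p q l j

/-- **D8** (old subtrees in the left part are complete and aligned).  Proof: induction on `l`.
`l = 0`: `pos q 0 k = k`.  Step: let node `k` of level `l + 1 ≤ 2 b` satisfy `AO`, with
`1 ≤ pos q (l+1) k` and `pos q (l+1) (k+1) ≤ 1 + m ^ (2b)`.  Its children `j` satisfy the
hypothesis, so `pos q l j = 1 + z_j m ^ l` and `pos q l (j+1) = pos q l j + m ^ l`: with
`s = q l (k+1) - q l k` children the positions are `1 + (z + i) m ^ l`, `0 ≤ i ≤ s`, and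
`keysN q l k = [(z + i) m ^ l : 0 < i < s]`.  It equals `keysT p l₂ k₂`, of length `sz - 1 ≥ 2`, so
`s ≥ 3`.  The first key `κ = (z+1) m ^ l = pos (c p) l₂ (c p l₂ k₂ + 1)` satisfies
`0 < κ < m ^ (2b)`.  `l₂ < 2 b`: otherwise
`κ ≥ pos (c p) l₂ 1 ≥ pos (c p) (2b) 1 = m ^ (2b)` (`pos (c p) (l+1) 1 = pos (c p) l (c p l 1)
≥ pos (c p) l 1`, W7).  Then `c p l₂ k₂ + 1 ≤ K l₂` (W7: `pos (c p) l₂ (K l₂) = m ^ (2b) > κ`,
monotone), so `k₂ < K (l₂+1)` or (`l₂ + 1 = 2b`, `k₂ = 0`), in both cases `k₂ < K (l₂ + 1)` as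
`c p l₂ k₂ = m k₂` there (W3; if `k₂ ≥ K (l₂+1)` then `c p l₂ k₂ ≥ m K (l₂+1) = K l₂`); the node
`k₂` has type `C` (W3) and `m` children, `s = m`; the keys are `m k₂ m ^ l₂ + i m ^ l₂` (W7, all
indices `≤ K l₂`).  The difference of two consecutive keys is
`m ^ l = m ^ l₂`, so `l = l₂`, and `z + 1 = m k₂ + 1`.  So
`pos q (l+1) k = 1 + k₂ m ^ (l+1)`, `pos q (l+1) (k+1) = 1 + (k₂ + 1) m ^ (l+1)`. -/
def St_D8 : Prop := ∀ (p : Par) (S : Sys p.m p.g), Cx p S → ∀ l, l ≤ S.H → l ≤ 2 * p.b →
  ∀ k, k < S.n l → AO p S.q l k → 1 ≤ pos S.q l k → pos S.q l (k + 1) ≤ 1 + p.m ^ (2 * p.b) →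
    ∃ z, pos S.q l k = 1 + z * p.m ^ l ∧ pos S.q l (k + 1) = 1 + (z + 1) * p.m ^ l

/-- **D9** (few new nodes give an aligned cut).  Proof.  `n 0 = len 0 + 1 ≥ m ^ (2b) + 2` and
`n 0 ≤ m ^ H` (S3), so `H > 2 b`.  Let `xb` be the greatest cut of level `b` with
`pos q b xb ≤ 1 + m ^ (2b)`; `xb < n b`, `pos q b (xb + 1) ≤ pos q b xb + m ^ b` (S3), so
`m ^ b xb ≥ pos q b xb > 1 + m ^ (2b) - m ^ b`, `xb ≥ m ^ b`.  The nodes `1 ≤ k < xb` of level `b`
have `1 ≤ pos q b k`, `pos q b (k+1) ≤ 1 + m ^ (2b)`; there are `xb - 1 ≥ m ^ b - 1` of them.  If none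
of them satisfied `AO`, each would have a node of level `≤ b` below it (or itself) which is not
old; these are distinct for distinct `k`, so `cost ≥ m ^ b - 1`.  (Formally: define
`NC 0 k = 0`, `NC (l+1) k = (if OldN l k then 0 else 1) + ∑_{q l k ≤ j < q l (k+1)} NC l j`; then
`NC l k = 0 → AO l k`, and `∑_{k < n l} NC l k = ∑_{l' < l} #{k < n (l'+1), not old} ≤ cost`.)
So some `k` satisfies `AO`, and D8 gives `pos q b k = 1 + z m ^ b`, with
`z m ^ b ≤ m ^ (2b)`, so `z ≤ m ^ b`. -/
def St_D9 : Prop := ∀ (p : Par) (S : Sys p.m p.g), Cx p S →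
  cost p S + 2 ≤ p.m ^ p.b →
  ∃ x z, x ≤ S.n p.b ∧ z ≤ p.m ^ p.b ∧ pos S.q p.b x = 1 + z * p.m ^ p.b

/-- **D10** (final assembly).  Proof.  Let `m`, `r` be given, `g = m - r`,
`p = ⟨m, g, b⟩`, `b ≥ 4` large, `T = hard p`, `h = 4 b + 1`, `x = 0`.  `T` is dense (D3, D4:
`range'` is strictly increasing; the root has `m ≥ 2` children), has `N = len p 0 - 1` keys
`1, ..., N`, `N ≥ m ^ (2b) - 1`, `N ≤ m ^ (4b+1)` (W7), `0` is not one of them.  Let `T'` be dense
with the key set `{0, ..., N}`: a strictly increasing list with this set of entries is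
`List.range (N + 1)`.  `1 ≤ h'` (it has keys).  With its system `S` (D1), `S.n 0 = N + 2 =
len p 0 + 1` (D2), so `Cx`.  `newNodes = cost` (D5, D6).  If `cost + 2 ≤ m ^ b` then D9, C12 and
D7 give `cost ≥ 2 ^ (b-2)`; otherwise `cost ≥ m ^ b - 1 ≥ 2 ^ (b - 2)`.  With
`c = log 2 / (20 log m)`: `N ^ c ≤ m ^ ((4b+1) c) = 2 ^ ((4b+1)/20) ≤ 2 ^ (b-2)` for `b ≥ 4`. -/
def St_D10 : Prop := St_MAIN

end DMS
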