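import Pool.Agent.DMS.StA

namespace DMS

theorem sz_bounds (p : Par) (τ : Ty) : p.m / 2 ≤ sz p τ ∧ sz p τ ≤ p.m := by
  cases τ <;> simp [sz] <;> omega

theorem thm_W2 (h1 : St_W1) : St_W2 := by
  intro p hok l hl
  obtain ⟨hg, hm, hb⟩ := hok
  obtain ⟨-, -, hW⟩ := h1 p
  obtain ⟨hc0, hcs, hlen, -⟩ := hW l hl
  have hstep : ∀ k d, k + d ≤ len p (l + 1) →
      c p l k + p.m / 2 * d ≤ c p l (k + d) ∧ c p l (k + d) ≤ c p l k + p.m * d := by
    intro k d
    induction d with
    | zero => intro _; simp
    | succ d ih =>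
      intro hd
      obtain ⟨ih1, ih2⟩ := ih (by omega)
      have h3 := hcs (k + d) (by omega)
      obtain ⟨h4, h5⟩ := sz_bounds p (V p (l + 1) (k + d))
      have h6 : k + (d + 1) = (k + d) + 1 := by omega
      rw [h6, h3]
      constructor
      · calc c p l k + p.m / 2 * (d + 1) = (c p l k + p.m / 2 * d) + p.m / 2 := by ring
          _ ≤ _ := by omega
      · calc c p l (k + d) + sz p (V p (l + 1) (k + d)) ≤ (c p l k + p.m * d) + p.m := by omega
          _ = _ := by ring
  have hmono : ∀ k k', k ≤ k' → k' ≤ len p (l + 1) →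
      c p l k + p.m / 2 * (k' - k) ≤ c p l k' ∧ c p l k' ≤ c p l k + p.m * (k' - k) := by
    intro k k' hk hk'
    obtain ⟨d, rfl⟩ := Nat.exists_eq_add_of_le hk
    have := hstep k d hk'
    simpa using this
  have hlt : ∀ k k', k < k' → k' ≤ len p (l + 1) → c p l k < c p l k' := by
    intro k k' hk hk'
    have h3 := (hmono k k' hk.le hk').1
    have h4 : 1 ≤ p.m / 2 * (k' - k) := by
      have h5 : 1 ≤ p.m / 2 := by omega
      have h6 : 1 ≤ k' - k := by omega
      exact Nat.mul_le_mul h5 h6
    omega
  have hpar : ∀ j, par p l j ≤ len p (l + 1) ∧ c p l (par p l j) ≤ j ∧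
      (par p l j < len p (l + 1) → j < c p l (par p l j + 1)) := by
    intro j
    refine ⟨Nat.findGreatest_le _, ?_, ?_⟩
    · have := @Nat.findGreatest_spec 0 (fun k => c p l k ≤ j) _ (len p (l + 1)) (Nat.zero_le _)
        (by simp [hc0])
      exact this
    · intro hlt'
      have := @Nat.findGreatest_is_greatest (par p l j + 1) (fun k => c p l k ≤ j) _
        (len p (l + 1)) (by unfold par; omega) (by omega)
      simpa using this
  refine ⟨hmono, hpar, ?_, ?_⟩
  · intro j j' hj
    by_contra hcon
    push Not at hcon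
    obtain ⟨h3, h4, h5⟩ := hpar j
    obtain ⟨h6, h7, h8⟩ := hpar j'
    have h9 := h8 (by omega)
    have h10 : c p l (par p l j' + 1) ≤ c p l (par p l j) := by
      rcases Nat.lt_or_ge (par p l j' + 1) (par p l j) with h | h
      · exact (hlt _ _ h h3).le
      · have : par p l j' + 1 = par p l j := by omega
        rw [this]
    omega
  · intro k hk
    obtain ⟨h3, h4, h5⟩ := hpar (c p l k)
    rcases Nat.lt_trichotomy (par p l (c p l k)) k with h | h | h
    · exfalso
      have h6 := h5 (by omega)
      have h10 : c p l (par p l (c p l k) + 1) ≤ c p l k := by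
        rcases Nat.lt_or_ge (par p l (c p l k) + 1) k with h' | h'
        · exact (hlt _ _ h' hk).le
        · have : par p l (c p l k) + 1 = k := by omega
          rw [this]
      omega
    · exact h
    · exfalso
      have := hlt _ _ h h3
      omega

end DMS
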