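import Pool.Agent.DMS.Basic

namespace DMS

/-- the part of `W3` proved by induction. -/
def PW (p : Par) (l : ℕ) : Prop :=
  1 ≤ K p l ∧ K p l + p.m - 1 ≤ len p l ∧
  (∀ k, k < K p l → V p l k = if 2 * p.b < l then .P else .C) ∧
  (∀ k, K p l ≤ k → k < len p l → V p l k = .R ∨ V p l k = .L ∨ V p l k = .U) ∧
  V p l (K p l) = .R ∧ V p l (K p l + 1) = .L

theorem PW_top (h1 : St_W1) (h2 : St_W2) (p : Par) (hok : p.Ok) : PW p (4 * p.b) := by
  have hok' := hok
  obtain ⟨hg, hm, hb⟩ := hok'
  obtain ⟨hlt, hVt, hW⟩ := h1 p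
  obtain ⟨hc0, hcs, hlen, hV⟩ := hW (4 * p.b) le_rfl
  have hK : K p (4 * p.b) = 1 := by unfold K; rw [if_pos (by omega)]
  have hc1 : c p (4 * p.b) 1 = p.m := by
    have := hcs 0 (by omega)
    rw [hVt, hc0] at this
    simpa [sz] using this
  have hl : len p (4 * p.b) = p.m := by rw [hlen, hlt, hc1]
  have hVs : ∀ s, s < p.m → V p (4 * p.b) s = ch p (4 * p.b) .Q s := by
    intro s hs
    have := hV 0 (by omega) s (by rw [hVt]; exact hs)
    rwa [hc0, hVt, Nat.zero_add] at this
  unfold PW
  rw [hK, hl]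
  refine ⟨le_rfl, by omega, ?_, ?_, ?_, ?_⟩
  · intro k hk
    have : k = 0 := by omega
    subst this
    rw [hVs 0 (by omega), ch_Q, if_pos rfl, if_pos (by omega)]
  · intro k hk hk'
    rw [hVs k hk']
    exact ch_PQ_pos p _ (Or.inr rfl) (by omega)
  · rw [hVs 1 (by omega), ch_Q, if_neg (by omega), if_neg (by omega)]
    rfl
  · rw [hVs (1 + 1) (by omega), ch_Q, if_neg (by omega), if_neg (by omega)]
    rfl

theorem K_rel (p : Par) (l : ℕ) :
    (2 * p.b < l + 1 → K p l = 1 ∧ K p (l + 1) = 1) ∧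
    (l + 1 ≤ 2 * p.b → K p l = p.m * K p (l + 1)) := by
  constructor
  · intro h
    unfold K
    rw [if_pos (by omega), if_pos (by omega)]
    exact ⟨rfl, rfl⟩
  · intro h
    unfold K
    rw [if_neg (by omega)]
    split_ifs with h'
    · have : 2 * p.b - l = 1 := by omega
      rw [this]; ring
    · have : 2 * p.b - l = (2 * p.b - (l + 1)) + 1 := by omega
      rw [this, pow_succ]; ring

theorem PW_step (h1 : St_W1) (h2 : St_W2) (p : Par) (hok : p.Ok) (l : ℕ)
    (hl : l + 1 ≤ 4 * p.b) (ih : PW p (l + 1)) :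
    PW p l ∧ K p l ≤ p.m * K p (l + 1) ∧
      ∀ k, k ≤ K p (l + 1) + 1 → c p l k = p.m * k := by
  have hok' := hok
  obtain ⟨hg, hm, hb⟩ := hok'
  obtain ⟨hlt, hVt, hW⟩ := h1 p
  obtain ⟨hc0, hcs, hlen, hV⟩ := hW l (by omega)
  obtain ⟨i1, i2, i3, i4, i5, i6⟩ := ih
  obtain ⟨hmono, -, -, -⟩ := h2 p hok l (by omega)
  have hck : ∀ k, k ≤ K p (l + 1) + 1 → c p l k = p.m * k := by
    intro k
    induction k with
    | zero => intro _; simp [hc0]
    | succ k ihk =>
      intro hk
      rw [hcs k (by omega), ihk (by omega)]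
      have : sz p (V p (l + 1) k) = p.m := by
        rcases Nat.lt_or_ge k (K p (l + 1)) with h | h
        · rw [i3 k h]
          split_ifs <;> rfl
        · have : k = K p (l + 1) := by omega
          rw [this, i5]; rfl
      rw [this]; ring
  obtain ⟨k1, k2⟩ := K_rel p l
  have hKle : K p l ≤ p.m * K p (l + 1) := by
    rcases Nat.lt_or_ge (2 * p.b) (l + 1) with h | h
    · obtain ⟨e1, e2⟩ := k1 h
      rw [e1, e2]; omega
    · rw [k2 h]
  refine ⟨?_, hKle, hck⟩
  have hlen1 : p.m * (K p (l + 1) + 1) ≤ len p l := by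
    rw [← hck _ le_rfl, hlen]
    have h := (hmono (K p (l + 1) + 1) (len p (l + 1)) (by omega) le_rfl).1
    omega
  have hmul : p.m * (K p (l + 1) + 1) = p.m * K p (l + 1) + p.m := by ring
  -- types of the children of left nodes
  have hK1 : 1 ≤ K p l := by
    rcases Nat.lt_or_ge (2 * p.b) (l + 1) with h | h
    · rw [(k1 h).1]
    · rw [k2 h]
      exact Nat.mul_le_mul (by omega : 1 ≤ p.m) i1
  -- the node `K (l+1)` of type `R`
  have hR : ∀ s, s < p.m → V p l (p.m * K p (l + 1) + s) = ch p l .R s := by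
    intro s hs
    have := hV (K p (l + 1)) (by omega) s (by rw [i5]; exact hs)
    rwa [hck _ (by omega), i5] at this
  unfold PW
  refine ⟨hK1, by omega, ?_, ?_, ?_⟩
  · intro k hk
    rcases Nat.lt_or_ge (2 * p.b) (l + 1) with h | h
    · obtain ⟨e1, e2⟩ := k1 h
      have hk0 : k = 0 := by omega
      subst hk0
      have h3 := hV 0 (by omega) 0 (by rw [i3 0 (by omega)]; split_ifs <;> simp [sz] <;> omega)
      rw [hc0, i3 0 (by omega), if_pos h, ch_P, if_pos rfl] at h3
      rw [h3]
      by_cases h4 : l = 2 * p.b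
      · rw [if_pos h4, if_neg (by omega)]
      · rw [if_neg h4, if_pos (by omega)]
    · rw [if_neg (by omega)]
      -- parent index `k / m`
      have hk' : k < p.m * K p (l + 1) := by rw [← k2 h]; exact hk
      have hdiv : k / p.m < K p (l + 1) := by
        rw [Nat.div_lt_iff_lt_mul (by omega)]
        rw [Nat.mul_comm] at hk'
        exact hk'
      have hmod : k % p.m < p.m := Nat.mod_lt _ (by omega)
      have h3 := hV (k / p.m) (by omega) (k % p.m)
        (by rw [i3 _ hdiv, if_neg (by omega)]; exact hmod)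
      rw [hck _ (by omega), Nat.div_add_mod, i3 _ hdiv, if_neg (by omega), ch_C] at h3
      exact h3
  · intro k hk hk'
    obtain ⟨k', s, hk1, hs, rfl, -⟩ := locate h1 h2 hok (by omega : l ≤ 4 * p.b) hk'
    rw [hV k' hk1 s hs]
    rcases Nat.lt_or_ge k' (K p (l + 1)) with h' | h'
    · -- left parent
      rcases Nat.lt_or_ge (2 * p.b) (l + 1) with h | h
      · obtain ⟨e1, e2⟩ := k1 h
        have hk0 : k' = 0 := by omega
        subst hk0
        rw [i3 0 (by omega), if_pos h]
        apply ch_PQ_pos p _ (Or.inl rfl)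
        rw [hc0] at hk
        omega
      · exfalso
        rw [k2 h, hck _ (by omega)] at hk
        rw [i3 _ h', if_neg (by omega)] at hs
        have hs' : s < p.m := hs
        have : p.m * (k' + 1) ≤ p.m * K p (l + 1) := Nat.mul_le_mul le_rfl (by omega)
        have e : p.m * (k' + 1) = p.m * k' + p.m := by ring
        omega
    · exact ch_RLU p l (i4 k' h' hk1) s
  · rcases Nat.lt_or_ge (2 * p.b) (l + 1) with h | h
    · obtain ⟨e1, e2⟩ := k1 h
      have h3 : ∀ s, s < p.m → V p l s = ch p l .P s := by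
        intro s hs
        have := hV 0 (by omega) s (by rw [i3 0 (by omega), if_pos h]; exact hs)
        rwa [hc0, i3 0 (by omega), if_pos h, Nat.zero_add] at this
      rw [e1]
      constructor
      · rw [h3 1 (by omega), ch_P, if_neg (by omega)]; rfl
      · rw [h3 (1 + 1) (by omega), ch_P, if_neg (by omega)]; rfl
    · rw [k2 h]
      constructor
      · have := hR 0 (by omega)
        rw [Nat.add_zero] at this
        rw [this, ch_R, if_neg (by omega)]; rfl
      · rw [hR 1 (by omega), ch_R, if_neg (by omega)]; rfl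

theorem thm_W3 (h1 : St_W1) (h2 : St_W2) : St_W3 := by
  intro p hok
  have hall : ∀ d, d ≤ 4 * p.b → PW p (4 * p.b - d) := by
    intro d
    induction d with
    | zero => intro _; exact PW_top h1 h2 p hok
    | succ d ih =>
      intro hd
      have h3 := ih (by omega)
      have e : 4 * p.b - d = (4 * p.b - (d + 1)) + 1 := by omega
      rw [e] at h3
      exact (PW_step h1 h2 p hok _ (by omega) h3).1
  intro l hl
  have h4 : PW p l := by
    have := hall (4 * p.b - l) (by omega)
    rwa [show 4 * p.b - (4 * p.b - l) = l by omega] at this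
  obtain ⟨a1, a2, a3, a4, a5, a6⟩ := h4
  refine ⟨a1, a2, a3, a4, a5, a6, ?_⟩
  intro hl'
  have h5 : PW p (l + 1) := by
    have := hall (4 * p.b - (l + 1)) (by omega)
    rwa [show 4 * p.b - (4 * p.b - (l + 1)) = l + 1 by omega] at this
  exact (PW_step h1 h2 p hok l hl' h5).2

end DMS
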