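import Pool.Agent.DMS.W4a

namespace DMS

section
variable (h1 : St_W1) (h2 : St_W2) (h3 : St_W3)
include h1 h2 h3

theorem reg_type {p : Par} (hok : p.Ok) {l : ℕ} (hl : l ≤ 4 * p.b) {k s : ℕ}
    (hk : k < len p (l + 1)) (hs : s < sz p (V p (l + 1) k)) (hj : K p l ≤ c p l k + s) :
    ((V p (l + 1) k = .P ∧ 1 ≤ s) ∨ (V p (l + 1) k = .Q ∧ 1 ≤ s) ∨ V p (l + 1) k = .R ∨
      V p (l + 1) k = .L ∨ V p (l + 1) k = .U) ∧
    (k + 1 < len p (l + 1) → V p (l + 1) (k + 1) = .R ∨ V p (l + 1) (k + 1) = .L ∨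
      V p (l + 1) (k + 1) = .U) := by
  have hok' := hok
  obtain ⟨hg, hm, hb⟩ := hok'
  obtain ⟨hlt, hVt, hW⟩ := h1 p
  obtain ⟨hc0, hcs, hlen, hV⟩ := hW l hl
  obtain ⟨a1, a2, -, -, -, -, a7⟩ := h3 p hok l hl
  rcases Nat.lt_or_ge l (4 * p.b) with h | h
  · obtain ⟨b1, b2, b3, b4, b5, b6, -⟩ := h3 p hok (l + 1) (by omega)
    obtain ⟨c1, c2⟩ := a7 (by omega)
    rcases Nat.lt_or_ge k (K p (l + 1)) with h' | h'
    · by_cases h'' : 2 * p.b < l + 1
      · have hK : K p (l + 1) = 1 := by unfold K; rw [if_pos (by omega)]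
        have hk0 : k = 0 := by omega
        subst hk0
        rw [b3 0 (by omega), if_pos h'']
        refine ⟨Or.inl ⟨rfl, by rw [hc0] at hj; omega⟩, fun hk1 => b4 _ (by omega) hk1⟩
      · exfalso
        rw [b3 k h', if_neg h''] at hs
        have hs' : s < p.m := hs
        rw [c2 k (by omega)] at hj
        have hKl : K p l = p.m * K p (l + 1) := by
          unfold K
          rw [if_neg (by omega)]
          split_ifs with h5
          · have : 2 * p.b - l = 1 := by omega
            rw [this]; ring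
          · have : 2 * p.b - l = (2 * p.b - (l + 1)) + 1 := by omega
            rw [this, pow_succ]; ring
        have : p.m * (k + 1) ≤ p.m * K p (l + 1) := Nat.mul_le_mul le_rfl (by omega)
        have e : p.m * (k + 1) = p.m * k + p.m := by ring
        omega
    · exact ⟨Or.inr (Or.inr (b4 k h' hk)), fun hk1 => b4 _ (by omega) hk1⟩
  · have e : l = 4 * p.b := by omega
    subst e
    have hk0 : k = 0 := by omega
    subst hk0
    rw [hc0] at hj
    exact ⟨Or.inr (Or.inl ⟨hVt, by omega⟩), fun hk1 => by omega⟩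

theorem trans {p : Par} (hok : p.Ok) {l : ℕ} (hl : l ≤ 4 * p.b) {j : ℕ}
    (hj : K p l ≤ j) (hj1 : j + 1 < len p l) :
    (V p l j = .R → V p l (j + 1) = .L ∨ V p l (j + 1) = .U ∨
      (V p l (j + 1) = .R ∧ V p l (j + 2) = .L ∧ j + 2 < len p l)) ∧
    (V p l j = .L → V p l (j + 1) = .R ∨
      (V p l (j + 1) = .U ∧ V p l (j + 2) = .R ∧ V p l (j + 3) = .L ∧ j + 3 < len p l) ∨
      (V p l (j + 1) = .L ∧ V p l (j + 2) = .R ∧ (V p l (j + 3) = .L ∨ V p l (j + 3) = .U) ∧
        j + 3 < len p l)) ∧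
    (V p l j = .U →
      (V p l (j + 1) = .R ∧ V p l (j + 2) = .L ∧ j + 2 < len p l) ∨
      (V p l (j + 1) = .L ∧ V p l (j + 2) = .R ∧ V p l (j + 3) = .L ∧ j + 3 < len p l)) := by
  have hok' := hok
  obtain ⟨hg, hm, hb⟩ := hok'
  obtain ⟨hlt, hVt, hW⟩ := h1 p
  obtain ⟨hc0, hcs, hlen, hV⟩ := hW l hl
  obtain ⟨hmono, -, -, -⟩ := h2 p hok l hl
  obtain ⟨k, s, hk, hs, rfl, -⟩ := locate h1 h2 hok hl (by omega : j < len p l)
  obtain ⟨ht, hnext⟩ := reg_type h1 h2 h3 hok hl hk hs hj
  have hVV : ∀ d, s + d < sz p (V p (l + 1) k) →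
      V p l (c p l k + s + d) = ch p l (V p (l + 1) k) (s + d) := by
    intro d hd
    rw [Nat.add_assoc]; exact hV k hk (s + d) hd
  have hlk : c p l k + sz p (V p (l + 1) k) ≤ len p l := by
    rw [← hcs k hk, hlen]
    have := (hmono (k + 1) (len p (l + 1)) (by omega) le_rfl).1
    omega
  rcases Nat.lt_or_ge (s + 1) (sz p (V p (l + 1) k)) with hin | hout
  · -- inside the word
    have hWN : WN p l (V p (l + 1) k) s := by
      rcases ht with ⟨h, h'⟩ | ⟨h, h'⟩ | h | h | h
      · rw [h] at hin ⊢; exact WN_P p hok l s h' hin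
      · rw [h] at hin ⊢; exact WN_Q p hok l s h' hin
      · rw [h] at hin ⊢; exact WN_R p hok l s hin
      · rw [h] at hin ⊢; exact WN_L p hok l s hin
      · rw [h] at hin ⊢; exact WN_U p hok l s hin
    obtain ⟨w1, w2, w3⟩ := hWN
    have e0 := hVV 0 (by omega)
    rw [Nat.add_zero, Nat.add_zero] at e0
    have e1 := hVV 1 hin
    rw [e0, e1]
    refine ⟨fun h => ?_, fun h => ?_, fun h => ?_⟩
    · rcases w1 h with h' | h'
      · exact Or.inl h'
      · exact Or.inr (Or.inl h')
    · rcases w2 h with h' | ⟨h', h4, h5, h6⟩ | ⟨h', h4, h5, h6⟩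
      · exact Or.inl h'
      · right; left
        rw [hVV 2 (by omega), hVV 3 (by omega)]
        exact ⟨h', h5, h6, by omega⟩
      · right; right
        rw [hVV 2 (by omega), hVV 3 (by omega)]
        exact ⟨h', h5, h6, by omega⟩
    · obtain ⟨h4, h5⟩ := w3 h
      rw [hVV 2 (by omega), hVV 3 (by omega)]
      rcases h5 with ⟨h5, h6⟩ | ⟨h5, h6, h7⟩
      · left; exact ⟨h5, h6, by omega⟩
      · right; exact ⟨h5, h6, h7, by omega⟩
  · -- last node of the word
    have hs1 : s + 1 = sz p (V p (l + 1) k) := by omega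
    have hk1 : k + 1 < len p (l + 1) := by
      by_contra hcon
      have : k + 1 = len p (l + 1) := by omega
      rw [hlen, ← this, hcs k hk] at hj1
      omega
    have hc1 : c p l k + s + 1 = c p l (k + 1) := by rw [hcs k hk]; omega
    have hτ' := hnext hk1
    have hsz' : 20 < sz p (V p (l + 1) (k + 1)) := by
      rcases hτ' with h | h | h <;> rw [h] <;> simp [sz] <;> omega
    have hVn : ∀ i, i < 20 → V p l (c p l k + s + (i + 1)) = alt i := by
      intro i hi
      have : c p l k + s + (i + 1) = c p l (k + 1) + i := by omega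
      rw [this, hV (k + 1) hk1 i (by omega)]
      exact start_RLU p hok l hτ' hi
    have hlk' : c p l k + s + 21 ≤ len p l := by
      have h5 : c p l (k + 1) + sz p (V p (l + 1) (k + 1)) ≤ len p l := by
        rw [← hcs (k + 1) hk1, hlen]
        have := (hmono (k + 1 + 1) (len p (l + 1)) (by omega) le_rfl).1
        omega
      omega
    have v1 : V p l (c p l k + s + 1) = .R := hVn 0 (by omega)
    have v2 : V p l (c p l k + s + 2) = .L := hVn 1 (by omega)
    refine ⟨fun h => ?_, fun h => ?_, fun h => ?_⟩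
    · right; right; exact ⟨v1, v2, by omega⟩
    · left; exact v1
    · left; exact ⟨v1, v2, by omega⟩

theorem word_U_spacing {p : Par} (hok : p.Ok) {l : ℕ} (hl : l ≤ 4 * p.b) {j j' : ℕ}
    (hjj : j < j') (hj' : j' < len p l) (hU : V p l j = .U) (hU' : V p l j' = .U) :
    j + 21 ≤ j' := by
  have hok' := hok
  obtain ⟨hg, hm, hb⟩ := hok'
  obtain ⟨hlt, hVt, hW⟩ := h1 p
  obtain ⟨hc0, hcs, hlen, hV⟩ := hW l hl
  obtain ⟨a1, a2, a3, a4, -⟩ := h3 p hok l hl
  obtain ⟨hmono, -, -, -⟩ := h2 p hok l hl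
  by_contra hcon
  push Not at hcon
  obtain ⟨k, s, hk, hs, rfl, -⟩ := locate h1 h2 hok hl (by omega : j < len p l)
  have hKj : K p l ≤ c p l k + s := by
    by_contra hc
    rw [a3 _ (by omega)] at hU
    split_ifs at hU
  obtain ⟨ht, hnext⟩ := reg_type h1 h2 h3 hok hl hk hs hKj
  rw [hV k hk s hs] at hU
  rcases Nat.lt_or_ge j' (c p l k + sz p (V p (l + 1) k)) with hin | hout
  · -- same word
    obtain ⟨s', rfl⟩ : ∃ s', j' = c p l k + s' := ⟨j' - c p l k, by omega⟩
    rw [hV k hk s' (by omega)] at hU'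
    rcases ht with ⟨h, h'⟩ | ⟨h, h'⟩ | h | h | h
    · rw [h, ch_P, if_neg (by omega)] at hU
      exact alt_ne_U _ hU
    · have hin' : s' < p.m := by rw [h] at hin; simp [sz] at hin; omega
      rw [h, ch_Q, if_neg (by omega)] at hU hU'
      split_ifs at hU with e1
      · rw [if_pos (by omega)] at hU'
        rcases rb_cases (p.m - 1 - s) with ⟨q1, q2⟩ | ⟨q1, q1', q2⟩ | ⟨q1, q2⟩
        · rcases rb_cases (p.m - 1 - s') with ⟨r1, r2⟩ | ⟨r1, r1', r2⟩ | ⟨r1, r2⟩
          · omega
          · rw [r2] at hU'; exact absurd hU' (by decide)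
          · rw [r2] at hU'; exact absurd hU' (by decide)
        · rw [q2] at hU; exact absurd hU (by decide)
        · rw [q2] at hU; exact absurd hU (by decide)
      · exact alt_ne_U _ hU
    · have hin' : s' < p.m := by rw [h] at hin; simp [sz] at hin; omega
      rw [h, ch_R] at hU hU'
      split_ifs at hU with e1
      · rw [if_pos (by omega)] at hU'
        rcases rb_cases (p.m - 1 - s) with ⟨q1, q2⟩ | ⟨q1, q1', q2⟩ | ⟨q1, q2⟩
        · rcases rb_cases (p.m - 1 - s') with ⟨r1, r2⟩ | ⟨r1, r1', r2⟩ | ⟨r1, r2⟩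
          · omega
          · rw [r2] at hU'; exact absurd hU' (by decide)
          · rw [r2] at hU'; exact absurd hU' (by decide)
        · rw [q2] at hU; exact absurd hU (by decide)
        · rw [q2] at hU; exact absurd hU (by decide)
      · exact alt_ne_U _ hU
    · rw [h, ch_L] at hU hU'
      split_ifs at hU' with e1
      · rw [if_pos (by omega)] at hU
        rcases lb_cases s with ⟨q1, q2⟩ | ⟨q1, q1', q2⟩ | ⟨q1, q2⟩
        · rcases lb_cases s' with ⟨r1, r2⟩ | ⟨r1, r1', r2⟩ | ⟨r1, r2⟩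
          · omega
          · rw [r2] at hU'; exact absurd hU' (by decide)
          · rw [r2] at hU'; exact absurd hU' (by decide)
        · rw [q2] at hU; exact absurd hU (by decide)
        · rw [q2] at hU; exact absurd hU (by decide)
      · exact alt_ne_U _ hU'
    · rw [h, ch_U] at hU hU'
      split_ifs at hU' with e1
      · rw [if_pos (by omega)] at hU
        rcases lb_cases s with ⟨q1, q2⟩ | ⟨q1, q1', q2⟩ | ⟨q1, q2⟩
        · rcases lb_cases s' with ⟨r1, r2⟩ | ⟨r1, r1', r2⟩ | ⟨r1, r2⟩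
          · omega
          · rw [r2] at hU'; exact absurd hU' (by decide)
          · rw [r2] at hU'; exact absurd hU' (by decide)
        · rw [q2] at hU; exact absurd hU (by decide)
        · rw [q2] at hU; exact absurd hU (by decide)
      · exact alt_ne_U _ hU'
  · -- next word
    have hk1 : k + 1 < len p (l + 1) := by
      by_contra hc
      have : k + 1 = len p (l + 1) := by omega
      rw [hlen, ← this, hcs k hk] at hj'
      omega
    have hτ' := hnext hk1
    have hsz' : 20 < sz p (V p (l + 1) (k + 1)) := by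
      rcases hτ' with h | h | h <;> rw [h] <;> simp [sz] <;> omega
    obtain ⟨i, hi⟩ : ∃ i, j' = c p l (k + 1) + i :=
      ⟨j' - c p l (k + 1), by rw [hcs k hk]; omega⟩
    have hi20 : i < 20 := by rw [hi, hcs k hk] at hcon; omega
    rw [hi, hV (k + 1) hk1 i (by omega), start_RLU p hok l hτ' hi20] at hU'
    exact alt_ne_U _ hU'

theorem letter_nbh {p : Par} (hok : p.Ok) {l : ℕ} (hl : l ≤ 4 * p.b) {j : ℕ}
    (hj5 : j + 5 < len p l) (hU : V p l j = .U) :
    ∃ x₁ x₂ y₁ y₂, Tight p l x₁ ∧ Tight p l x₂ ∧ Tight p l y₁ ∧ Tight p l y₂ ∧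
      x₁ < x₂ ∧ y₁ < y₂ ∧ j ≤ x₁ + 3 ∧ x₂ ≤ j ∧ j + 1 ≤ y₁ ∧ y₂ ≤ j + 5 := by
  have hok' := hok
  obtain ⟨hg, hm, hb⟩ := hok'
  obtain ⟨hlt, hVt, hW⟩ := h1 p
  obtain ⟨hc0, hcs, hlen, hV⟩ := hW l hl
  obtain ⟨a1, a2, a3, a4, -⟩ := h3 p hok l hl
  obtain ⟨hmono, -, -, -⟩ := h2 p hok l hl
  obtain ⟨k, s, hk, hs, rfl, -⟩ := locate h1 h2 hok hl (by omega : j < len p l)
  have hKj : K p l ≤ c p l k + s := by
    by_contra hc
    rw [a3 _ (by omega)] at hU
    split_ifs at hU
  obtain ⟨ht, hnext⟩ := reg_type h1 h2 h3 hok hl hk hs hKj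
  rw [hV k hk s hs] at hU
  have hVd : ∀ i, i < sz p (V p (l + 1) k) → V p l (c p l k + i) =
      ch p l (V p (l + 1) k) i := fun i hi => hV k hk i hi
  -- the two shapes
  have shapeL : s + 4 < sz p (V p (l + 1) k) →
      20 ≤ s → (∀ i, i < 4 → V p l (c p l k + (s - 4 + i)) = alt i) →
      (∀ i, i < 4 → V p l (c p l k + (s + 1 + i)) = alt i) →
      ∃ x₁ x₂ y₁ y₂, Tight p l x₁ ∧ Tight p l x₂ ∧ Tight p l y₁ ∧ Tight p l y₂ ∧
      x₁ < x₂ ∧ y₁ < y₂ ∧ c p l k + s ≤ x₁ + 3 ∧ x₂ ≤ c p l k + s ∧ c p l k + s + 1 ≤ y₁ ∧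
      y₂ ≤ c p l k + s + 5 := by
    intro _ h20 hL hR
    refine ⟨c p l k + s - 3, c p l k + s - 1, c p l k + s + 2, c p l k + s + 4,
      ?_, ?_, ?_, ?_, by omega, by omega, by omega, by omega, by omega, by omega⟩
    · refine ⟨by omega, by omega, ?_, Or.inl ?_⟩
      · have := hL 0 (by omega)
        rwa [show c p l k + (s - 4 + 0) = c p l k + s - 3 - 1 by omega] at this
      · have := hL 1 (by omega)
        rwa [show c p l k + (s - 4 + 1) = c p l k + s - 3 by omega] at this
    · refine ⟨by omega, by omega, ?_, Or.inl ?_⟩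
      · have := hL 2 (by omega)
        rwa [show c p l k + (s - 4 + 2) = c p l k + s - 1 - 1 by omega] at this
      · have := hL 3 (by omega)
        rwa [show c p l k + (s - 4 + 3) = c p l k + s - 1 by omega] at this
    · refine ⟨by omega, by omega, ?_, Or.inl ?_⟩
      · have := hR 0 (by omega)
        rwa [show c p l k + (s + 1 + 0) = c p l k + s + 2 - 1 by omega] at this
      · have := hR 1 (by omega)
        rwa [show c p l k + (s + 1 + 1) = c p l k + s + 2 by omega] at this
    · refine ⟨by omega, by omega, ?_, Or.inl ?_⟩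
      · have := hR 2 (by omega)
        rwa [show c p l k + (s + 1 + 2) = c p l k + s + 4 - 1 by omega] at this
      · have := hR 3 (by omega)
        rwa [show c p l k + (s + 1 + 3) = c p l k + s + 4 by omega] at this
  have shapeR : sz p (V p (l + 1) k) = p.m → p.m - 1 - s < 21 * p.g →
      (p.m - 1 - s) % 21 = 0 →
      (∀ i, p.m - 1 - i < 21 * p.g → i < p.m → ch p l (V p (l + 1) k) i = rb (p.m - 1 - i)) →
      V p l (c p l k + (s - 1)) = .R → V p l (c p l k + (s - 2)) = .L →
      V p l (c p l k + (s - 3)) = .R →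
      ∃ x₁ x₂ y₁ y₂, Tight p l x₁ ∧ Tight p l x₂ ∧ Tight p l y₁ ∧ Tight p l y₂ ∧
      x₁ < x₂ ∧ y₁ < y₂ ∧ c p l k + s ≤ x₁ + 3 ∧ x₂ ≤ c p l k + s ∧ c p l k + s + 1 ≤ y₁ ∧
      y₂ ≤ c p l k + s + 5 := by
    intro hsz hlt' hmod hrb hv1 hv2 hv3
    have hsm : s < p.m := by rw [hsz] at hs; exact hs
    have tx1 : Tight p l (c p l k + s - 2) := by
      refine ⟨by omega, by omega, ?_, Or.inl ?_⟩
      · rwa [show c p l k + (s - 3) = c p l k + s - 2 - 1 by omega] at hv3
      · rwa [show c p l k + (s - 2) = c p l k + s - 2 by omega] at hv2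
    have tx2 : Tight p l (c p l k + s) := by
      refine ⟨by omega, by omega, ?_, Or.inr ?_⟩
      · rwa [show c p l k + (s - 1) = c p l k + s - 1 by omega] at hv1
      · rw [hVd s hs]; exact hU
    by_cases hlast : s + 1 = p.m
    · have hk1 : k + 1 < len p (l + 1) := by
        by_contra hc
        have : k + 1 = len p (l + 1) := by omega
        rw [hlen, ← this, hcs k hk] at hj5
        omega
      have hτ' := hnext hk1
      have hsz' : 20 < sz p (V p (l + 1) (k + 1)) := by
        rcases hτ' with h | h | h <;> rw [h] <;> simp [sz] <;> omega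
      have hVn : ∀ i, i < 20 → V p l (c p l k + s + (i + 1)) = alt i := by
        intro i hi
        have : c p l k + s + (i + 1) = c p l (k + 1) + i := by rw [hcs k hk]; omega
        rw [this, hV (k + 1) hk1 i (by omega)]
        exact start_RLU p hok l hτ' hi
      refine ⟨c p l k + s - 2, c p l k + s, c p l k + s + 2, c p l k + s + 4, tx1, tx2,
        ⟨by omega, by omega, hVn 0 (by omega), Or.inl (hVn 1 (by omega))⟩,
        ⟨by omega, by omega, hVn 2 (by omega), Or.inl (hVn 3 (by omega))⟩,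
        by omega, by omega, by omega, by omega, by omega, by omega⟩
    · have hVr : ∀ i, 1 ≤ i → i ≤ 5 → V p l (c p l k + s + i) = rb (p.m - 1 - (s + i)) := by
        intro i hi hi'
        rw [Nat.add_assoc, hVd (s + i) (by rw [hsz]; omega)]
        exact hrb _ (by omega) (by omega)
      refine ⟨c p l k + s - 2, c p l k + s, c p l k + s + 3, c p l k + s + 5, tx1, tx2,
        ⟨by omega, by omega, ?_, Or.inl ?_⟩, ⟨by omega, by omega, ?_, Or.inl ?_⟩,
        by omega, by omega, by omega, by omega, by omega, by omega⟩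
      · have := hVr 2 (by omega) (by omega)
        rw [rb_R (by omega)] at this
        exact this
      · have := hVr 3 (by omega) (by omega)
        rw [rb_L (by omega) (by omega)] at this
        exact this
      · have := hVr 4 (by omega) (by omega)
        rw [rb_R (by omega)] at this
        exact this
      · have := hVr 5 (by omega) (by omega)
        rw [rb_L (by omega) (by omega)] at this
        exact this
  rcases ht with ⟨h, h'⟩ | ⟨h, h'⟩ | h | h | h
  · rw [h, ch_P, if_neg (by omega)] at hU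
    exact absurd hU (alt_ne_U _)
  · have hsz : sz p (V p (l + 1) k) = p.m := by rw [h]; rfl
    have hsm : s < p.m := by rw [hsz] at hs; exact hs
    have hU2 := hU
    rw [h, ch_Q, if_neg (by omega)] at hU2
    split_ifs at hU2 with e1
    · have hmod : (p.m - 1 - s) % 21 = 0 := by
        rcases rb_cases (p.m - 1 - s) with ⟨q1, q2⟩ | ⟨q1, q1', q2⟩ | ⟨q1, q2⟩
        · exact q1
        · rw [q2] at hU2; exact absurd hU2 (by decide)
        · rw [q2] at hU2; exact absurd hU2 (by decide)
      have hrb : ∀ i, p.m - 1 - i < 21 * p.g → i < p.m →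
          ch p l (V p (l + 1) k) i = rb (p.m - 1 - i) := by
        intro i hi hi'
        rw [h, ch_Q, if_neg (by omega), if_pos hi]
      refine shapeR hsz e1 hmod hrb ?_ ?_ ?_
      · rw [hVd _ (by omega), hrb _ (by omega) (by omega)]; exact rb_R (by omega)
      · rw [hVd _ (by omega), hrb _ (by omega) (by omega)]; exact rb_L (by omega) (by omega)
      · rw [hVd _ (by omega), hrb _ (by omega) (by omega)]; exact rb_R (by omega)
    · exact absurd hU2 (alt_ne_U _)
  · have hsz : sz p (V p (l + 1) k) = p.m := by rw [h]; rfl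
    have hsm : s < p.m := by rw [hsz] at hs; exact hs
    have hU2 := hU
    rw [h, ch_R] at hU2
    split_ifs at hU2 with e1
    · have hmod : (p.m - 1 - s) % 21 = 0 := by
        rcases rb_cases (p.m - 1 - s) with ⟨q1, q2⟩ | ⟨q1, q1', q2⟩ | ⟨q1, q2⟩
        · exact q1
        · rw [q2] at hU2; exact absurd hU2 (by decide)
        · rw [q2] at hU2; exact absurd hU2 (by decide)
      have hrb : ∀ i, p.m - 1 - i < 21 * p.g → i < p.m →
          ch p l (V p (l + 1) k) i = rb (p.m - 1 - i) := by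
        intro i hi hi'
        rw [h, ch_R, if_pos hi]
      refine shapeR hsz e1 hmod hrb ?_ ?_ ?_
      · rw [hVd _ (by omega), hrb _ (by omega) (by omega)]; exact rb_R (by omega)
      · rw [hVd _ (by omega), hrb _ (by omega) (by omega)]; exact rb_L (by omega) (by omega)
      · rw [hVd _ (by omega), hrb _ (by omega) (by omega)]; exact rb_R (by omega)
    · exact absurd hU2 (alt_ne_U _)
  · have hsz : sz p (V p (l + 1) k) = p.m := by rw [h]; rfl
    have hU2 := hU
    rw [h, ch_L] at hU2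
    split_ifs at hU2 with e1
    · have hmod : s % 21 = 20 := by
        rcases lb_cases s with ⟨q1, q2⟩ | ⟨q1, q1', q2⟩ | ⟨q1, q2⟩
        · exact q1
        · rw [q2] at hU2; exact absurd hU2 (by decide)
        · rw [q2] at hU2; exact absurd hU2 (by decide)
      refine shapeL (by rw [hsz]; omega) (by omega) ?_ ?_
      · intro i hi
        rw [hVd _ (by rw [hsz]; omega), h, ch_L, if_pos (by omega)]
        rcases alt_cases i with ⟨r1, r2⟩ | ⟨r1, r2⟩
        · rw [r2]; exact lb_R (by omega) (by omega)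
        · rw [r2]; exact lb_L (by omega)
      · intro i hi
        rw [hVd _ (by rw [hsz]; omega), h, ch_L]
        split_ifs with e2
        · rcases alt_cases i with ⟨r1, r2⟩ | ⟨r1, r2⟩
          · rw [r2]; exact lb_R (by omega) (by omega)
          · rw [r2]; exact lb_L (by omega)
        · rw [show s + 1 + i - 21 * p.g = i by omega]
    · exact absurd hU2 (alt_ne_U _)
  · have hsz : sz p (V p (l + 1) k) = p.m / 2 := by rw [h]; rfl
    have hU2 := hU
    rw [h, ch_U] at hU2
    split_ifs at hU2 with e1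
    · have hmod : s % 21 = 20 := by
        rcases lb_cases s with ⟨q1, q2⟩ | ⟨q1, q1', q2⟩ | ⟨q1, q2⟩
        · exact q1
        · rw [q2] at hU2; exact absurd hU2 (by decide)
        · rw [q2] at hU2; exact absurd hU2 (by decide)
      refine shapeL (by rw [hsz]; omega) (by omega) ?_ ?_
      · intro i hi
        rw [hVd _ (by rw [hsz]; omega), h, ch_U, if_pos (by omega)]
        rcases alt_cases i with ⟨r1, r2⟩ | ⟨r1, r2⟩
        · rw [r2]; exact lb_R (by omega) (by omega)
        · rw [r2]; exact lb_L (by omega)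
      · intro i hi
        rw [hVd _ (by rw [hsz]; omega), h, ch_U, if_neg (by omega)]
        rw [show s + 1 + i - 21 = i by omega]
    · exact absurd hU2 (alt_ne_U _)

end

theorem thm_W4 (h1 : St_W1) (h2 : St_W2) (h3 : St_W3) : St_W4 := by
  intro p hok l hl
  have hok' := hok
  obtain ⟨hg, hm, hb⟩ := hok'
  obtain ⟨a1, a2, a3, a4, a5, a6, -⟩ := h3 p hok l hl
  have hT := @trans h1 h2 h3 p hok l hl
  have t1 : Tight p l (K p l + 1) :=
    ⟨by omega, by omega, by rw [Nat.add_sub_cancel]; exact a5, Or.inl a6⟩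
  have t3 : ∀ x, K p l ≤ x → x + 3 < len p l → ∃ t, x + 1 ≤ t ∧ t ≤ x + 3 ∧ Tight p l t := by
    intro x hx hx3
    obtain ⟨w1, w2, w3⟩ := hT hx (by omega)
    rcases a4 x hx (by omega) with h | h | h
    · rcases w1 h with h' | h' | ⟨h', h4, h5⟩
      · exact ⟨x + 1, le_rfl, by omega, by omega, by omega, h, Or.inl h'⟩
      · exact ⟨x + 1, le_rfl, by omega, by omega, by omega, h, Or.inr h'⟩
      · exact ⟨x + 2, by omega, by omega, by omega, by omega, h', Or.inl h4⟩
    · rcases w2 h with h' | ⟨h', h4, h5, h6⟩ | ⟨h', h4, h5, h6⟩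
      · obtain ⟨v1, -, -⟩ := hT (by omega : K p l ≤ x + 1) (by omega)
        rcases v1 h' with h'' | h'' | ⟨h'', h5, h6⟩
        · exact ⟨x + 2, by omega, by omega, by omega, by omega, h', Or.inl h''⟩
        · exact ⟨x + 2, by omega, by omega, by omega, by omega, h', Or.inr h''⟩
        · exact ⟨x + 3, by omega, by omega, by omega, by omega, h'', Or.inl h5⟩
      · exact ⟨x + 3, by omega, by omega, by omega, by omega, h4, Or.inl h5⟩
      · exact ⟨x + 3, by omega, by omega, by omega, by omega, h4, h5⟩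
    · rcases w3 h with ⟨h4, h5, h6⟩ | ⟨h4, h5, h6, h7⟩
      · exact ⟨x + 2, by omega, by omega, by omega, by omega, h4, Or.inl h5⟩
      · exact ⟨x + 3, by omega, by omega, by omega, by omega, h5, Or.inl h6⟩
  have t6 : ∀ t, Tight p l t → K p l + 1 ≤ t := by
    intro t ⟨e1, e2, e3, e4⟩
    by_contra hc
    rw [a3 (t - 1) (by omega)] at e3
    split_ifs at e3
  have tadj : ∀ t, Tight p l t → ¬ Tight p l (t + 1) := by
    intro t ⟨e1, e2, e3, e4⟩ ⟨f1, f2, f3, f4⟩
    rw [Nat.add_sub_cancel] at f3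
    rw [f3] at e4
    rcases e4 with h | h <;> exact absurd h (by decide)
  refine ⟨t1, ?_, t3, ?_, ?_, t6, ?_⟩
  · intro j j' hjj hj' hU hU'
    exact word_U_spacing h1 h2 h3 hok hl hjj hj' hU hU'
  · intro t ht ht3
    have htt := ht
    obtain ⟨e1, e2, e3, e4⟩ := htt
    have hK := t6 t ht
    obtain ⟨t', f1, f2, f3⟩ := t3 t (by omega) ht3
    have : t' ≠ t + 1 := by rintro rfl; exact tadj t ht f3
    rcases (by omega : t' = t + 2 ∨ t' = t + 3) with rfl | rfl
    · exact Or.inl f3
    · exact Or.inr f3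
  · intro t ht
    have htt := ht
    obtain ⟨e1, e2, e3, e4⟩ := htt
    have hK := t6 t ht
    by_cases h0 : t = K p l + 1
    · exact Or.inl h0
    right
    by_cases h4 : K p l + 4 ≤ t
    · obtain ⟨t', f1, f2, f3⟩ := t3 (t - 4) (by omega) (by omega)
      have : t' ≠ t - 1 := by
        rintro rfl
        apply tadj _ f3
        rwa [show t - 1 + 1 = t by omega]
      exact ⟨t', f3, by omega⟩
    · refine ⟨K p l + 1, t1, ?_⟩
      by_cases h5 : t = K p l + 2
      · exfalso
        apply tadj _ t1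
        rwa [h5] at ht
      · omega
  · intro j hj hU
    exact letter_nbh h1 h2 h3 hok hl hj hU

end DMS
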