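import Pool.Agent.DMS.W4a

namespace DMS

theorem thm_W5 (h1 : St_W1) (h2 : St_W2) (h3 : St_W3) (h4 : St_W4) : St_W5 := by
  intro p hok l hl t ht
  have hok' := hok
  obtain ⟨hg, hm, hb⟩ := hok'
  obtain ⟨hlt, hVt, hW⟩ := h1 p
  obtain ⟨hc0, hcs, hlen, hV⟩ := hW l (by omega)
  obtain ⟨hmono, -, -, -⟩ := h2 p hok l (by omega)
  obtain ⟨a1, a2, -, -, -, -, a7⟩ := h3 p hok l (by omega)
  obtain ⟨k1, k2⟩ := a7 hl
  obtain ⟨b1, b2, -⟩ := h3 p hok (l + 1) hl
  obtain ⟨-, -, -, -, -, q6, -⟩ := h4 p hok (l + 1) hl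
  have hKt := q6 t ht
  obtain ⟨e1, e2, e3, e4⟩ := ht
  have hct : c p l t = c p l (t - 1) + p.m := by
    have := hcs (t - 1) (by omega)
    rw [show t - 1 + 1 = t by omega, e3] at this
    exact this
  have hR : ∀ s, s < p.m → V p l (c p l (t - 1) + s) = ch p l .R s := by
    intro s hs
    have := hV (t - 1) (by omega) s (by rw [e3]; exact hs)
    rwa [e3] at this
  have hsz : p.m / 2 ≤ sz p (V p (l + 1) t) := by
    rcases e4 with h | h <;> rw [h] <;> simp [sz]
    omega
  have hT : ∀ s, s < p.m / 2 → V p l (c p l t + s) = ch p l (V p (l + 1) t) s := by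
    intro s hs
    exact hV t e2 s (by omega)
  have hK : K p l ≤ c p l (t - 1) := by
    have h5 := (hmono (K p (l + 1)) (t - 1) (by omega) (by omega)).1
    rw [k2 _ (by omega)] at h5
    have : 0 ≤ p.m / 2 * (t - 1 - K p (l + 1)) := Nat.zero_le _
    omega
  refine ⟨?_, ?_, ?_, by omega, ?_, hct⟩
  · intro i hi
    rcases Nat.lt_or_ge i p.g with h | h
    · have e : c p l t + 20 - 21 * (p.g - i) = c p l (t - 1) + (p.m - 1 - 21 * (p.g - i - 1)) := by
        omega
      rw [e, hR _ (by omega), ch_R, if_pos (by omega)]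
      exact rb_U (by omega)
    · have e : c p l t + 20 - 21 * (p.g - i) = c p l t + 20 := by omega
      rw [e, hT _ (by omega)]
      rcases e4 with h' | h'
      · rw [h', ch_L, if_pos (by omega)]; rfl
      · rw [h', ch_U, if_pos (by omega)]; rfl
  · intro hL i hi
    rw [Nat.add_assoc, hT _ (by omega), hL, ch_L, if_pos (by omega)]
    exact lb_U (by omega)
  · have hlt0 : c p l t + p.m / 2 ≤ len p l := by
      have h5 := (hmono t (t + 1) (by omega) (by omega)).1
      have h6 := (hmono (t + 1) (len p (l + 1)) (by omega) le_rfl).1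
      rw [← hlen] at h6
      have : p.m / 2 * (t + 1 - t) = p.m / 2 := by rw [show t + 1 - t = 1 by omega]; ring
      omega
    refine ⟨by omega, by omega, ?_, Or.inr ?_⟩
    · have e : c p l t - 1 - 1 = c p l (t - 1) + (p.m - 2) := by omega
      rw [e, hR _ (by omega), ch_R, if_pos (by omega)]
      exact rb_R (by omega)
    · have e : c p l t - 1 = c p l (t - 1) + (p.m - 1) := by omega
      rw [e, hR _ (by omega), ch_R, if_pos (by omega)]
      exact rb_U (by omega)
  · have h5 := (hmono t (t + 1) (by omega) (by omega)).1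
    have h6 := (hmono (t + 1) (len p (l + 1)) (by omega) le_rfl).1
    rw [← hlen] at h6
    have : p.m / 2 * (t + 1 - t) = p.m / 2 := by rw [show t + 1 - t = 1 by omega]; ring
    omega

end DMS
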