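import Pool.Agent.DMS.Basic

namespace DMS

theorem Lc_succ (p : Par) (l x y : ℕ) (h : x ≤ y) :
    Lc p l x (y + 1) = Lc p l x y + if V p l y = .U then 1 else 0 := by
  unfold Lc
  have e : Finset.Ico x (y + 1) = insert y (Finset.Ico x y) := by
    ext i; simp only [Finset.mem_insert, Finset.mem_Ico]; omega
  rw [e, Finset.filter_insert]
  split_ifs with h'
  · rw [Finset.card_insert_of_notMem]; simp
  · simp

theorem Lc_self (p : Par) (l x : ℕ) : Lc p l x x = 0 := by simp [Lc]

theorem Lc_add (p : Par) (l x y z : ℕ) (h : x ≤ y) (h' : y ≤ z) :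
    Lc p l x y + Lc p l y z = Lc p l x z := by
  unfold Lc
  rw [← Finset.Ico_union_Ico_eq_Ico h h', Finset.filter_union, Finset.card_union_of_disjoint]
  apply Finset.disjoint_filter_filter
  exact Finset.Ico_disjoint_Ico_consecutive x y z

theorem thm_W6 (h1 : St_W1) (h2 : St_W2) (h4 : St_W4) : St_W6 := by
  intro p hok l hl
  have hok' := hok
  obtain ⟨hg, hm, hb⟩ := hok'
  obtain ⟨-, -, hW⟩ := h1 p
  obtain ⟨hc0, hcs, hlen, hV⟩ := hW l hl
  obtain ⟨-, hsp, -⟩ := h4 p hok l hl
  refine ⟨?_, ?_, ?_⟩
  · intro x y hxy
    obtain ⟨d, rfl⟩ := Nat.exists_eq_add_of_le hxy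
    induction d with
    | zero => intro _; simp [Lc_self]
    | succ d ih =>
      intro hd
      have ih' := ih (by omega) (by omega)
      rw [show x + (d + 1) = (x + d) + 1 by omega, hcs _ (by omega), Lc_succ _ _ _ _ (by omega)]
      have e1 : x + d + 1 - x = (x + d - x) + 1 := by omega
      rw [e1, Nat.mul_add, Nat.mul_add]
      split_ifs with h5
      · rw [h5]
        have : sz p .U = p.m / 2 := rfl
        rw [this]
        omega
      · have : sz p (V p (l + 1) (x + d)) = p.m := by
          revert h5
          cases V p (l + 1) (x + d) <;> intro h5 <;> first | rfl | exact absurd rfl h5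
        rw [this]
        omega
  · -- spacing by strong induction on the right end
    have key : ∀ d x, x + d ≤ len p l → 21 * Lc p l x (x + d) ≤ d + 21 ∧
        (∀ z, x + d ≤ z → z < len p l → V p l z = .U → 21 * Lc p l x (x + d) ≤ z - x) := by
      intro d
      induction d with
      | zero => intro x _; simp [Lc_self]
      | succ d ih =>
        intro x hx
        obtain ⟨i1, i2⟩ := ih x (by omega)
        rw [show x + (d + 1) = (x + d) + 1 by omega, Lc_succ _ _ _ _ (by omega)]
        split_ifs with h5
        · have h6 := i2 (x + d) le_rfl (by omega) h5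
          constructor
          · omega
          · intro z hz hz' hU
            have := hsp (x + d) z (by omega) hz' h5 hU
            omega
        · constructor
          · omega
          · intro z hz hz' hU
            have := i2 z (by omega) hz' hU
            omega
    intro x y hxy hy
    obtain ⟨d, rfl⟩ := Nat.exists_eq_add_of_le hxy
    have := (key d x hy).1
    rw [Nat.add_sub_cancel_left]
    exact this
  · intro x y hxy hy hy'
    unfold Lc
    rw [Finset.card_le_one]
    intro i hi j hj
    simp only [Finset.mem_filter, Finset.mem_Ico] at hi hj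
    rcases Nat.lt_trichotomy i j with h | h | h
    · have := hsp i j h (by omega) hi.2 hj.2
      omega
    · exact h
    · have := hsp j i h (by omega) hj.2 hi.2
      omega

end DMS
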