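import Pool.Agent.DMS.Basic

namespace DMS

theorem thm_W7 (h1 : St_W1) (h2 : St_W2) (h3 : St_W3) : St_W7 := by
  intro p hok
  have hok' := hok
  obtain ⟨hg, hm, hb⟩ := hok'
  obtain ⟨hlt, hVt, hW⟩ := h1 p
  have hlen : ∀ d, d ≤ 4 * p.b + 1 → len p (4 * p.b + 1 - d) ≤ p.m ^ d := by
    intro d
    induction d with
    | zero => intro _; simp [hlt]
    | succ d ih =>
      intro hd
      have ih' := ih (by omega)
      set l := 4 * p.b + 1 - (d + 1) with hl
      have e : 4 * p.b + 1 - d = l + 1 := by omega
      rw [e] at ih'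
      obtain ⟨hc0, -, hlen, -⟩ := hW l (by omega)
      have h5 := ((h2 p hok l (by omega)).1 0 (len p (l + 1)) (Nat.zero_le _) le_rfl).2
      rw [← hlen, hc0, Nat.sub_zero] at h5
      calc len p l ≤ p.m * len p (l + 1) := by omega
        _ ≤ p.m * p.m ^ d := Nat.mul_le_mul le_rfl ih'
        _ = p.m ^ (d + 1) := by ring
  have hcle : ∀ l, l ≤ 4 * p.b → ∀ k, k ≤ len p (l + 1) → c p l k ≤ p.m * k ∧
      c p l k ≤ len p l := by
    intro l hl k hk
    obtain ⟨hc0, -, hlen, -⟩ := hW l hl
    have h5 := ((h2 p hok l hl).1 0 k (Nat.zero_le _) hk).2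
    have h6 := ((h2 p hok l hl).1 k (len p (l + 1)) hk le_rfl).1
    rw [hc0, Nat.sub_zero] at h5
    rw [← hlen] at h6
    omega
  have hclt : ∀ l, l ≤ 4 * p.b → ∀ k k', k < k' → k' ≤ len p (l + 1) →
      c p l k < c p l k' := by
    intro l hl k k' hk hk'
    have h5 := ((h2 p hok l hl).1 k k' hk.le hk').1
    have h4 : 1 ≤ p.m / 2 * (k' - k) := by
      have h5 : 1 ≤ p.m / 2 := by omega
      have h6 : 1 ≤ k' - k := by omega
      exact Nat.mul_le_mul h5 h6
    omega
  refine ⟨?_, ?_, ?_, ?_, ?_⟩
  · have := hlen (4 * p.b + 1) le_rfl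
    simpa using this
  · obtain ⟨-, a2, -⟩ := h3 p hok 0 (by omega)
    have : K p 0 = p.m ^ (2 * p.b) := by
      unfold K; rw [if_neg (by omega)]; simp
    omega
  · intro l
    induction l with
    | zero => intro _ k _; simp [pos]
    | succ l ih =>
      intro hl k hk
      obtain ⟨-, -, -, -, -, -, a7⟩ := h3 p hok l (by omega)
      obtain ⟨k1, k2⟩ := a7 (by omega)
      have hKl : K p l = p.m * K p (l + 1) := by
        unfold K
        rw [if_neg (by omega)]
        split_ifs with h5
        · have : 2 * p.b - l = 1 := by omega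
          rw [this]; ring
        · have : 2 * p.b - l = (2 * p.b - (l + 1)) + 1 := by omega
          rw [this, pow_succ]; ring
      have h6 := ih (by omega) (p.m * k) (by rw [hKl]; exact Nat.mul_le_mul le_rfl hk)
      show pos (c p) l (c p l k) = _
      rw [k2 k (by omega), h6]
      ring
  · intro l
    induction l with
    | zero => intro _ k _; simp [pos]
    | succ l ih =>
      intro hl k hk
      obtain ⟨h5, h6⟩ := hcle l (by omega) k hk
      show pos (c p) l (c p l k) ≤ _
      calc pos (c p) l (c p l k) ≤ p.m ^ l * c p l k := ih (by omega) _ h6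
        _ ≤ p.m ^ l * (p.m * k) := Nat.mul_le_mul le_rfl h5
        _ = _ := by ring
  · intro l
    induction l with
    | zero => intro _ k k' hk _; simpa [pos] using hk
    | succ l ih =>
      intro hl k k' hk hk'
      exact ih (by omega) _ _ (hclt l (by omega) k k' hk hk') (hcle l (by omega) k' hk').2

end DMS
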