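import Pool.Agent.DMS.W1
import Pool.Agent.DMS.W2
import Pool.Agent.DMS.W3
import Pool.Agent.DMS.W4
import Pool.Agent.DMS.W5
import Pool.Agent.DMS.W6
import Pool.Agent.DMS.W7
import Pool.Agent.DMS.S1
import Pool.Agent.DMS.S2
import Pool.Agent.DMS.S3
import Pool.Agent.DMS.S4
import Pool.Agent.DMS.StD

namespace DMS

theorem w1 : St_W1 := thm_W1
theorem w2 : St_W2 := thm_W2 w1
theorem w3 : St_W3 := thm_W3 w1 w2
theorem w4 : St_W4 := thm_W4 w1 w2 w3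
theorem w5 : St_W5 := thm_W5 w1 w2 w3 w4
theorem w6 : St_W6 := thm_W6 w1 w2 w4
theorem w7 : St_W7 := thm_W7 w1 w2 w3
theorem s1 : St_S1 := thm_S1
theorem s2 : St_S2 := thm_S2
theorem s3 : St_S3 := thm_S3
theorem s4 : St_S4 := thm_S4 w1 w2 w7

end DMS
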