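import Pool.Agent.DMS.StB

/-!
# DMS, statements C: without events the extra leaf travels to the root

`m = p.m`, `g = p.g`, `b = p.b`, `a = m / 2`.
-/

namespace DMS

/-- No events at the levels `l + 1 ∈ [b, 4 b]`. -/
def NE (p : Par) (S : Sys p.m p.g) : Prop :=
  ∀ l, p.b ≤ l + 1 → l + 1 ≤ 4 * p.b → l < S.H →
    (∀ x t, x < S.n (l + 1) → ¬ OV p S.q l x t) ∧
    ∀ x y, x < y → y ≤ S.n (l + 1) → K p (l + 1) ≤ f p S.q (l + 1) x → ¬ D p S.q l x y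

/-- The cut `X l t`. -/
noncomputable def XX (p : Par) (S : Sys p.m p.g) (l t : ℕ) : ℕ := X p S.q S.n l t

/-- **C1** (few new nodes, no events).  Proof: `l + 1 ≥ b ≥ 4`, write `l = l' + 1`; by B15 (its
conclusion is the hypothesis of this statement) an `OV` event has
`2 ^ (b-2) ≤ 2 ^ l' ≤ F l x (x+1)`, and a `D` event has
`2 ^ l' m ≤ 2 ^ l' (... + m (y - x)) ≤ m F l x y`, so `2 ^ (b-2) ≤ F l x y`.  And
`F l x y = nw (Qd l x) (Qd l y) ≤ nw 0 (n 1)` because `Qd l y ≤ n 1` (induction on `l`, S1) and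
`nw` counts a subset. -/
def St_C1 : Prop := ∀ (p : Par) (S : Sys p.m p.g), Cx p S →
  (∀ l, l + 2 ≤ S.H → l + 2 ≤ 4 * p.b → CO p S l ∧ CD p S l ∧ CS p S l) →
  nw p S.q 0 (S.n 1) < 2 ^ (p.b - 2) → NE p S

/-- **C2** (height).  `NE` implies `4 b + 1 ≤ H`.
Proof.  Suppose `H ≤ 4 b`.  If `b ≤ H`, let `l = H - 1`, `t = K H + 1`, tight of level `H` (W4).
`ph l 0 = 0`, `ph l 1 = ph l (n H) = len l` (S4, `n_top`), `c l t ≥ c l 1 ≥ m / 2 > 21 g`,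
`len l ≥ c l t + m/2` (W1, W2, `t < len H`), so `OV l 0 t`, a contradiction.  If `H < b`:
`n 0 = pos q H (n H) ≤ m ^ H < m ^ (2 b) < len 0` (S3, W7) contradicts `n 0 = len 0 + 1`. -/
def St_C2 : Prop := ∀ (p : Par) (S : Sys p.m p.g), Cx p S → NE p S → 4 * p.b + 1 ≤ S.H

/-- The extra node is present at all tight cuts of level `l + 1`. -/
def Plus (p : Par) (S : Sys p.m p.g) (l : ℕ) : Prop :=
  ∀ t, Tight p (l + 1) t → t + 1 ≤ XX p S l t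

/-- **C3** (propagation along a level).  Proof: strong induction on `t`; W4: `t = K + 1` or there is a
tight `t' ∈ {t - 2, t - 3}` with `t' + 1 ≤ X l t'`; both cuts `X` are pinned (B1, no `OV`), and
B4 without `D` gives `X l t - X l t' ≥ t - t'` (the region condition of `NE` for `D`:
`f (X l t') ≥ t' - 1 ≥ K` by B1, W4). -/
def St_C3 : Prop := ∀ (p : Par) (S : Sys p.m p.g), Cx p S → NE p S → ∀ l, p.b ≤ l + 1 →
  l + 1 ≤ 4 * p.b → l < S.H → K p (l + 1) + 2 ≤ XX p S l (K p (l + 1) + 1) → Plus p S l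

/-- **C4** (start at level `b`).  Let `l = b - 1`.  Let `x` be a cut of level `b` of the system
with leaf position `1 + z m ^ b`, `z ≤ m ^ b`.  Proof: `K b = m ^ b`.  `1 + z m ^ b ≤ m ^ b x`
(S3), so `z + 1 ≤ x`.  Let `t = K b + 1`, `y = X l t`; it is pinned (no `OV`), so
`f l (q l y) = ph l y ≥ c l t - 21 g = m (K b + 1) - 21 g ≥ m K b + 1 = c l (K b) + 1` (W3), and
with S4, W7 the leaf position satisfies
`pos q b y = pos q l (q l y) ≥ pos (c p) l (m K b + 1) + 1 > pos (c p) l (m K b) + 1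
= pos (c p) b (K b) + 1 = m ^ (2 b) + 1`.  If `y ≤ x` then `pos q b y ≤ 1 + z m ^ b ≤ 1 + m ^ (2b)`,
contradiction.  So `x < y` and `pos q b y ≤ pos q b x + m ^ b (y - x)` gives
`m ^ b m ^ b < m ^ b (z + y - x)`, so `K b < z + y - x`, hence
`y ≥ K b - z + x + 1 ≥ K b + 2`. -/
def St_C4 : Prop := ∀ (p : Par) (S : Sys p.m p.g), Cx p S → NE p S → 4 * p.b + 1 ≤ S.H →
  (∃ x z, x ≤ S.n p.b ∧ z ≤ p.m ^ p.b ∧ pos S.q p.b x = 1 + z * p.m ^ p.b) →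
  K p p.b + 2 ≤ XX p S (p.b - 1) (K p p.b + 1)

/-- **C5** (one level up).  `Plus l` implies `K (l+2) + 2 ≤ X (l+1) (K (l+2) + 1)`
(`b ≤ l + 1`, `l + 2 ≤ 4 b`).
Proof.  Let `τ = K (l+2) + 1` (tight of level `l + 2`), `c₀ = c (l+1) τ = m (K (l+2) + 1)` (W3),
`κ = c₀ - 1` (tight of level `l + 1`, W5), `γ = X (l+1) τ`.  By `Plus`, `X l κ ≥ κ + 1 = c₀`.
Claim `q (l+1) γ > X l κ`; then `m γ ≥ q (l+1) γ ≥ c₀ + 1 = m (K (l+2) + 1) + 1`, so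
`γ ≥ K (l+2) + 2`.  Suppose `q (l+1) γ ≤ X l κ`.  Let `x₀ = q (l+1) γ`,
`x₁ = q (l+1) (γ + 1)`; by B1 `f (l+1) x₁ = ph (l+1) (γ+1) ≥ c₀ + 21 g + 6`.  Apply B7 at level
`l + 1` with `J = c₀ - 1`: the nodes `J + 21 i`, `i ≤ g`, are letters (W5, `V (l+2) τ = L`
by W3: `i = 0` is `c₀ - 1`, `i ≥ 1` is `c₀ + 20 + 21 (i - 1)`), take `zs 0 = κ`, and for the others
tight cuts from W4; `xs i = X l (zs i)`, `ys i = X l (ws i)`, all pinned.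
`x₀ ≤ X l κ ≤ xs i` and `ys i ≤ x₁` because `ws i ≤ c₀ - 1 + 21 g + 5`,
`c l (ws i) + 21 g + 6 ≤ c l (ws i + 1) ≤ c l (f (l+1) x₁) ≤ ph l x₁`.
`Uc l x₀ x₁ ≤ g` (S2 (a)).  So there is a `D` event in the right part, a contradiction. -/
def St_C5 : Prop := ∀ (p : Par) (S : Sys p.m p.g), Cx p S → NE p S → 4 * p.b + 1 ≤ S.H →
  ∀ l, p.b ≤ l + 1 → l + 2 ≤ 4 * p.b → Plus p S l →
    K p (l + 2) + 2 ≤ XX p S (l + 1) (K p (l + 2) + 1)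

/-- **C6** (at the top).  Proof: C3, C4, C5 and induction give `Plus l` for
`b ≤ l + 1 ≤ 4 b`.  At `l + 1 = 4 b` the node `m - 1` is `U` and the node `m - 2` is `R` (W1,
`ch Q`), so `κ = m - 1` is tight (`len (4b) = m`) and `X κ ≥ m`; `X κ < n (4b)` by B1. -/
def St_C6 : Prop := ∀ (p : Par) (S : Sys p.m p.g), Cx p S → NE p S → 4 * p.b + 1 ≤ S.H →
  (∃ x z, x ≤ S.n p.b ∧ z ≤ p.m ^ p.b ∧ pos S.q p.b x = 1 + z * p.m ^ p.b) →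
  p.m + 1 ≤ S.n (4 * p.b)

/-- **C7** (many saturated nodes).  Let `l = 4 b - 1`.  Proof: `n (4b) ≤ m n (4b+1)`, so
`n (4b+1) ≥ 2` and `H ≥ 4 b + 2` (`n_top`).  Node `0` of level `4 b + 2` has a
saturated child `j` (`s_pos` at `4 b`); its `m` children contain at most `g`
unsaturated nodes (S2 (a)), so at least `m - g` saturated ones.  Another node `j' ≠ j` of level
`4 b + 1` has a saturated child (`s_pos` at `4 b - 1`).  The children of `j`, `j'` are disjoint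
intervals. -/
def St_C7 : Prop := ∀ (p : Par) (S : Sys p.m p.g), Cx p S → 4 * p.b + 1 ≤ S.H →
  p.m + 1 ≤ S.n (4 * p.b) →
  p.m - p.g + 1 ≤ Sc p.m S.q (4 * p.b - 1) 0 (S.n (4 * p.b))

/-- **C8** (saturated nodes between tight cuts).  Let `t ≤ t'` be tight cuts of level `l + 1`.
Proof: strong induction on `t'`: if `t < t'`, W4 gives a tight `t'' ∈ {t' - 2, t' - 3}` (as
`t' > t ≥ K + 1`), `t ≤ t''` (two tight cuts are not adjacent: `t'' < t` and `t < t'` would give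
`t = t' - 1` or (`t'' = t' - 3`, `t = t' - 2`); in the latter case use `t` instead of
`t''`); B5 between `X t''` and `X t'` (pinned; no `D`), additivity of `Sc` and `Lc`. -/
def St_C8 : Prop := ∀ (p : Par) (S : Sys p.m p.g), Cx p S → NE p S → ∀ l, p.b ≤ l + 1 →
  l + 1 ≤ 4 * p.b → l + 1 < S.H → ∀ t t', Tight p (l + 1) t → Tight p (l + 1) t' → t ≤ t' →
    XX p S l t ≤ XX p S l t' ∧
    Sc p.m S.q l (XX p S l t) (XX p S l t') + Lc p (l + 1) t t' ≤ t' - t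

/-- **C9** (saturated nodes of level `4 b` from the first tight cut on).  Let `l = 4 b - 1`,
`κ = m - 1`, `2 = K (4b) + 1`.  Proof: the word of level `4 b` is the word of `Q`: its letters are
`m - 1 - 21 e`, `e < g` (W1), so `Lc (4b) 2 κ = g - 1`; C8 gives
`Sc (X 2) (X κ) ≤ m - 3 - (g - 1)`.  Let `x = X κ`, `y = n (4b)`: `Sc x y = 0`.  Indeed `x` is
pinned, `ph y = len l = c l κ + m/2` (node `κ` is `U`), so
`C = ph y - ph x ≤ m/2 + 21 g`; if `Sc ≥ 1` then `Uc ≤ 2 g + Sc` (S2 (c)) and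
`49 C' - 51 C - 4400 (y - x) ≥ 49 m Sc - 51 (m/2 + 21 g) - 4400 (2 Sc + 2 g) ≥ 0` is a `D` event
(`C' ≥ m Sc`). -/
def St_C9 : Prop := ∀ (p : Par) (S : Sys p.m p.g), Cx p S → NE p S → 4 * p.b + 1 ≤ S.H →
  Sc p.m S.q (4 * p.b - 1) (XX p S (4 * p.b - 1) 2) (S.n (4 * p.b)) ≤ p.m - p.g - 2

/-- **C10** (growth on the left).  `2 b ≤ l + 1`, `l + 2 ≤ 4 b`; `K (l+1) = K (l+2) = 1`, the first
tight cut of both levels is `2`.
Proof.  `x₂ = X (l+1) 2`, `s₂ = Sc (l+1) 0 x₂ ≥ 3`, `y = q (l+1) x₂`, `s₁ = Sc l 0 (X l 2)`.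
`x₂ = s₂ + Uc (l+1) 0 x₂ ≤ 2 s₂ + 2 g` (S1, S2 (c), `l + 2 < H`).
`y ≥ m s₂` (S1).
`f (l+1) y = ph (l+1) x₂ < c (l+1) 2 + 21 g + 6 = 2 m + 21 g + 6` (W3).  By W4 there is a tight cut
`t*` of level `l + 1` in `[2 m + 21 g + 8, 2 m + 21 g + 10]`
(`len (l+1) ≥ c (l+1) 3 ≥ 2 m + m/2`); then
`ph l y < c l (f (l+1) y + 1) ≤ c l (t* - 1) < c l t*`, so `y ≤ X l t*` (B1).
By C8 `Sc l (X l 2) (X l t*) ≤ t* - 2 ≤ 2 m + 21 g + 8`; so
`Sc l 0 y ≤ s₁ + 2 m + 21 g + 8`.  By S2 (b)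
`m Uc l 0 y ≤ m x₂ + 2 g y`.  Hence
`m y = m (Sc + Uc) ≤ m (s₁ + 2 m + 21 g + 8) + m (2 s₂ + 2 g) + 2 g y` and, as `y ≥ m s₂`,
`(m - 2 g) s₂ ≤ s₁ + 2 m + 23 g + 8 + 2 s₂`.  With `s₂ ≥ 3`, `m ≥ 10000 g`:
`s₁ ≥ (m - 2 g - 2) s₂ - 2 m - 23 g - 8 ≥ m s₂ / 4`. -/
def St_C10 : Prop := ∀ (p : Par) (S : Sys p.m p.g), Cx p S → NE p S → 4 * p.b + 1 ≤ S.H →
  ∀ l, 2 * p.b ≤ l + 1 → l + 2 ≤ 4 * p.b →
    3 ≤ Sc p.m S.q (l + 1) 0 (XX p S (l + 1) 2) →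
    p.m * Sc p.m S.q (l + 1) 0 (XX p S (l + 1) 2) ≤ 4 * Sc p.m S.q l 0 (XX p S l 2)

/-- **C11** (leaves on the left).  Let `l = 2 b - 1`, `x = X l 2`, a cut of level `2 b`
(`K (2b) = 1`).  Proof.
Each saturated node of level `2 b` has `m` children with at least `m ^ ((2 b - 1) / 2) =
m ^ (b - 1)` leaves each (S3), so `m ^ b Sc ≤ pos q (2 b) x`.  Since
`f l (q l x) = ph l x < c l 2 + 21 g + 6 = 2 m + 21 g + 6 ≤ len l` (W3), S4 and W7 give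
`pos q (2b) x = pos q l (q l x) < pos (c p) l (2 m + 21 g + 6) + 1 ≤
m ^ (2 b - 1) (2 m + 21 g + 6) + 1 ≤ 3 m ^ (2 b)`. -/
def St_C11 : Prop := ∀ (p : Par) (S : Sys p.m p.g), Cx p S → NE p S → 4 * p.b + 1 ≤ S.H →
  Sc p.m S.q (2 * p.b - 1) 0 (XX p S (2 * p.b - 1) 2) ≤ 3 * p.m ^ p.b

/-- **C12** (the core theorem).  Proof.  Suppose `nw 0 (n 1) < 2 ^ (b-2)`.  B15, C1: `NE`.  C2:
`H ≥ 4 b + 1`.  C6: `n (4b) ≥ m + 1`.  C7: `Sc (4b-1) 0 (n (4b)) ≥ m - g + 1`.  C9: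
`Sc (4b-1) (X 2) (n (4b)) ≤ m - g - 2`, so `s := Sc (4b-1) 0 (X 2) ≥ 3`.  Iterating C10 from
`l + 1 = 4 b - 1` down to `l = 2 b - 1` (`2 b` steps; all numbers stay `≥ 3` since `m ≥ 4`):
`4 ^ (2b) Sc (2b-1) 0 (X 2) ≥ m ^ (2b) * 3`.  With C11: `3 m ^ (2 b) ≤ 16 ^ b * 3 m ^ b`, so
`m ^ b ≤ 16 ^ b`, which is false. -/
def St_C12 : Prop := ∀ (p : Par) (S : Sys p.m p.g), Cx p S →
  (∃ x z, x ≤ S.n p.b ∧ z ≤ p.m ^ p.b ∧ pos S.q p.b x = 1 + z * p.m ^ p.b) →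
  2 ^ (p.b - 2) ≤ nw p S.q 0 (S.n 1)

end DMS
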