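import Pool.Agent.DMS.Fadd
import Pool.Agent.DMS.StC

namespace DMS

private theorem c1_nw_mono (p : Par) (q : ℕ → ℕ → ℕ) {x y z : ℕ} (h : y ≤ z) : nw p q x y ≤ nw p q 0 z := by
  classical
  unfold nw
  exact Finset.card_le_card (Finset.filter_subset_filter _ (Finset.Ico_subset_Ico (Nat.zero_le _) h))

theorem thm_C1 : St_C1 := by
  intro p S hC hall hnw l hb hl4 hlH
  obtain ⟨hok, hn⟩ := hC
  obtain ⟨hg, hm, hb4⟩ := hok
  obtain ⟨l', rfl⟩ : ∃ l', l = l' + 1 := ⟨l - 1, by omega⟩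
  obtain ⟨hCO, hCD, -⟩ := hall l' (by omega) (by omega)
  have hpow : 2 ^ (p.b - 2) ≤ 2 ^ l' := Nat.pow_le_pow_right (by norm_num) (by omega)
  have hF : ∀ x y, x ≤ y → y ≤ S.n (l' + 2) → F p S.q (l' + 1) x y ≤ nw p S.q 0 (S.n 1) := by
    intro x y hxy hy
    unfold F
    exact c1_nw_mono p S.q (Qd_mono S (l' + 1) hlH x y hxy hy).2
  refine ⟨?_, ?_⟩
  · intro x t hx hOV
    have h1 := hCO x t hx hOV
    have h2 := hF x (x + 1) (by omega) hx
    omega
  · intro x y hxy hy hK hD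
    have h1 := hCD x y hxy hy hK hD
    have h2 := hF x y hxy.le hy
    have h3 : p.m * 2 ^ l' ≤ p.m * F p S.q (l' + 1) x y := by
      refine le_trans ?_ h1
      rw [Nat.mul_comm]
      refine Nat.mul_le_mul le_rfl ?_
      have h4 : p.m * 1 ≤ p.m * (y - x) := Nat.mul_le_mul le_rfl (by omega)
      omega
    have h5 := Nat.le_of_mul_le_mul_left h3 (by omega)
    omega

end DMS
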