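import Pool.Agent.DMS.B7
import Pool.Agent.DMS.StC

namespace DMS

private theorem c10_K {p : Par} {l : ℕ} (h : 2 * p.b ≤ l) : K p l = 1 := by
  unfold K
  rw [if_pos h]

private theorem c10_arith {m g s1 s2 x2 y U s : ℕ} (hg : 1 ≤ g) (hm : 10000 * g ≤ m) (hs2 : 3 ≤ s2)
    (hx2 : x2 ≤ 2 * s2 + 2 * g) (hy : m * s2 ≤ y) (hs : s ≤ s1 + (2 * m + 21 * g + 8))
    (hU : m * U ≤ m * x2 + 2 * g * y) (hsU : s + U = y) : m * s2 ≤ 4 * s1 := by
  have hm0 : 0 < m := by omega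
  have e1 : m * y ≤ m * (s1 + (2 * m + 21 * g + 8)) + (m * (2 * s2 + 2 * g) + 2 * g * y) := by
    rw [← hsU, Nat.mul_add]
    refine Nat.add_le_add (Nat.mul_le_mul le_rfl hs) ?_
    rw [hsU]
    exact hU.trans (Nat.add_le_add (Nat.mul_le_mul le_rfl hx2) le_rfl)
  have e2 : (m - 2 * g) * y ≤ m * (s1 + 2 * m + 23 * g + 8 + 2 * s2) := by
    rw [Nat.sub_mul]
    have : m * (s1 + 2 * m + 23 * g + 8 + 2 * s2) =
      m * (s1 + (2 * m + 21 * g + 8)) + m * (2 * s2 + 2 * g) := by ring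
    omega
  have e3 : (m - 2 * g) * (m * s2) ≤ m * (s1 + 2 * m + 23 * g + 8 + 2 * s2) :=
    (Nat.mul_le_mul le_rfl hy).trans e2
  have e4 : m * ((m - 2 * g) * s2) ≤ m * (s1 + 2 * m + 23 * g + 8 + 2 * s2) := by
    calc m * ((m - 2 * g) * s2) = (m - 2 * g) * (m * s2) := by ring
      _ ≤ _ := e3
  have e5 := Nat.le_of_mul_le_mul_left e4 hm0
  obtain ⟨d, rfl⟩ : ∃ d, m = 10000 * g + d := ⟨m - 10000 * g, by omega⟩
  have e6 : 10000 * g + d - 2 * g = 9998 * g + d := by omega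
  rw [e6] at e5
  obtain ⟨r, rfl⟩ : ∃ r, s2 = 3 + r := ⟨s2 - 3, by omega⟩
  have e7 : (9998 * g + d) * (3 + r) = 29994 * g + 3 * d + 9998 * (g * r) + d * r := by ring
  have e8 : (10000 * g + d) * (3 + r) = 30000 * g + 3 * d + 10000 * (g * r) + d * r := by ring
  rw [e7] at e5
  rw [e8]
  have e9 : r ≤ g * r := Nat.le_mul_of_pos_left r hg
  omega

theorem thm_C10 (hC8 : St_C8) : St_C10 := by
  intro p S hC hNE hH l hb hl4 h3
  have hok := hC.1
  obtain ⟨hg, hm, hb4⟩ := hok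
  have hok := hC.1
  have hK1 : K p (l + 1) = 1 := c10_K hb
  have hK2 : K p (l + 2) = 1 := c10_K (by omega)
  have hlH : l < S.H := by omega
  have hl1H : l + 1 < S.H := by omega
  have ht2 : Tight p (l + 1) 2 := by
    have := (w4 p hok (l + 1) (by omega)).1
    rw [hK1] at this
    exact this
  have ht2' : Tight p (l + 2) 2 := by
    have := (w4 p hok (l + 2) (by omega)).1
    rw [hK2] at this
    exact this
  have C := ctx hC hlH (by omega)
  have C' := ctx hC hl1H (by omega)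
  obtain ⟨a1, a2, -⟩ := thm_B1 p S hC (l + 1) hl1H (by omega) 2 ht2'
  unfold XX at h3 ⊢
  set x2 := X p S.q S.n (l + 1) 2 with hx2
  obtain ⟨-, -, -, -, -, -, w37⟩ := w3 p hok (l + 1) (by omega)
  have hc2 := (w37 (by omega)).2 2 (by
    have e : K p (l + 1 + 1) = K p (l + 2) := rfl
    rw [e, hK2])
  rw [hc2] at a2
  -- counting at level l + 1
  obtain ⟨b1, b2, -⟩ := cnt C' (Nat.zero_le x2) a1.le
  rw [S.q_zero (l + 1) hl1H] at b2
  have b3 := (s2 p.m p.g S hg (by omega) (l + 1) (by omega)).2.2 0 x2 (Nat.zero_le _) a1.le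
  -- y
  have hyn : S.q (l + 1) x2 ≤ S.n (l + 1) := by
    obtain ⟨-, -, -, h4⟩ := (s1 p.m p.g S hg (by omega) (l + 1) hl1H).1 x2 x2 le_rfl a1.le
    exact h4
  have hfy : f p S.q (l + 1) (S.q (l + 1) x2) < p.m * 2 + 21 * p.g + 6 := a2
  -- a tight cut of level l + 1
  have hlen : c p (l + 1) 2 + p.m / 2 ≤ len p (l + 1) := by
    have := C'.cgap ht2'.2.1 le_rfl
    rw [C'.clen] at this
    exact this
  rw [hc2] at hlen
  obtain ⟨T, hT1, hT2, hT3⟩ := (w4 p hok (l + 1) (by omega)).2.2.1 (2 * p.m + 21 * p.g + 7)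
    (by omega) (by omega)
  obtain ⟨-, -, -, d4, -, -⟩ := thm_B1 p S hC l hlH (by omega) T hT3
  have hphy : ph p S.q l (S.q (l + 1) x2) < c p l T + 21 * p.g + 6 := by
    have h1 := C.phhi (S.q (l + 1) x2) hyn (by omega)
    have h2 := C.cmono (by omega : f p S.q (l + 1) (S.q (l + 1) x2) + 1 ≤ T) hT3.2.1.le
    omega
  have hyX := d4 _ hyn hphy
  obtain ⟨e1, e2⟩ := hC8 p S hC hNE l (by omega) (by omega) hl1H 2 T ht2 hT3 (by omega)
  unfold XX at e1 e2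
  have e3 := Sc_add p.m S.q l 0 (X p S.q S.n l 2) (X p S.q S.n l T) (Nat.zero_le _) e1
  have e4 := Sc_add p.m S.q l 0 (S.q (l + 1) x2) (X p S.q S.n l T) (Nat.zero_le _) hyX
  obtain ⟨g1, -, -⟩ := cnt C (Nat.zero_le (S.q (l + 1) x2)) hyn
  have g2 := (s2 p.m p.g S hg (by omega) l hl1H).2.1 0 x2 (Nat.zero_le _) a1.le
  rw [S.q_zero (l + 1) hl1H, Nat.sub_zero, Nat.sub_zero] at g2
  rw [Nat.sub_zero] at g1 b1
  exact c10_arith (s1 := Sc p.m S.q l 0 (X p S.q S.n l 2)) (s2 := Sc p.m S.q (l + 1) 0 x2) (x2 := x2)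
    (y := S.q (l + 1) x2) (U := Uc p.m S.q l 0 (S.q (l + 1) x2)) (s := Sc p.m S.q l 0 (S.q (l + 1) x2))
    hg hm h3 (by omega) (by omega) (by omega) g2 g1

end DMS
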