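import Pool.Agent.DMS.B7
import Pool.Agent.DMS.StC

namespace DMS

theorem thm_C11 : St_C11 := by
  intro p S hC hNE hH
  have hC' := hC
  obtain ⟨hok, hn⟩ := hC'
  have hok' := hok
  obtain ⟨hg, hm, hb4⟩ := hok'
  obtain ⟨b, hb⟩ : ∃ b, p.b = b + 1 := ⟨p.b - 1, by omega⟩
  obtain ⟨l, hl⟩ : ∃ l, 2 * p.b = l + 1 := ⟨2 * p.b - 1, by omega⟩
  have hl2 : l = 2 * b + 1 := by omega
  rw [hl, Nat.add_sub_cancel]
  have hlH : l < S.H := by omega
  have hK1 : K p (l + 1) = 1 := by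
    unfold K
    rw [if_pos (by omega)]
  have ht2 : Tight p (l + 1) 2 := by
    have := (w4 p hok (l + 1) (by omega)).1
    rw [hK1] at this
    exact this
  have C := ctx hC hlH (by omega)
  obtain ⟨a1, a2, -⟩ := thm_B1 p S hC l hlH (by omega) 2 ht2
  unfold XX
  set x := X p S.q S.n l 2 with hx
  obtain ⟨-, -, -, -, -, -, w37⟩ := w3 p hok l (by omega)
  have hc2 := (w37 (by omega)).2 2 (by rw [hK1])
  rw [hc2] at a2
  have hlen : c p l 2 + p.m / 2 ≤ len p l := by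
    have := C.cgap ht2.2.1 le_rfl
    rw [C.clen] at this
    exact this
  rw [hc2] at hlen
  obtain ⟨b1, b2, -⟩ := cnt C (Nat.zero_le x) a1.le
  rw [S.q_zero l hlH] at b2
  have hqn : S.q l x ≤ S.n l := by
    obtain ⟨-, -, -, h4⟩ := (s1 p.m p.g S hg (by omega) l hlH).1 x x le_rfl a1.le
    exact h4
  obtain ⟨s31, -, s33⟩ := s3 p.m p.g S hg (by omega) l (by omega)
  have e1 := (s33 0 (S.q l x) (Nat.zero_le _) hqn).2
  have hl3 : l / 2 = b := by omega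
  rw [s31, Nat.zero_add, Nat.sub_zero, hl3] at e1
  obtain ⟨-, -, -, -, s45, -⟩ := s4 p S hok hn l (by omega) (by omega)
  have hfy : f p S.q l (S.q l x) < p.m * 2 + 21 * p.g + 6 := a2
  have e2 := s45 (S.q l x) hqn (by omega)
  have e3 := (w7 p hok).2.2.2.1 l (by omega) (f p S.q l (S.q l x) + 1) (by omega)
  have e4 : p.m ^ l * (f p S.q l (S.q l x) + 1) ≤ p.m ^ l * (3 * p.m) :=
    Nat.mul_le_mul le_rfl (by omega)
  have e5 : p.m ^ b * (p.m * Sc p.m S.q l 0 x) ≤ p.m ^ b * S.q l x := Nat.mul_le_mul le_rfl (by omega)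
  have e6 : p.m ^ (b + 1) * Sc p.m S.q l 0 x ≤ p.m ^ (b + 1) * (3 * p.m ^ (b + 1)) := by
    calc p.m ^ (b + 1) * Sc p.m S.q l 0 x = p.m ^ b * (p.m * Sc p.m S.q l 0 x) := by ring
      _ ≤ p.m ^ l * (3 * p.m) := by omega
      _ = p.m ^ (b + 1) * (3 * p.m ^ (b + 1)) := by
        rw [hl2]
        ring
  rw [hb]
  exact Nat.le_of_mul_le_mul_left e6 (pow_pos (by omega) _)

end DMS
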