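import Pool.Agent.DMS.All1
import Pool.Agent.DMS.StC

namespace DMS

theorem thm_C12 (h15 : St_B15) (h1 : St_C1) (h2 : St_C2) (h6 : St_C6) (h7 : St_C7)
    (h9 : St_C9) (h10 : St_C10) (h11 : St_C11) : St_C12 := by
  intro p S hC hz
  obtain ⟨hg, hm, hb⟩ := hC.1
  by_contra hlt
  push Not at hlt
  have hNE := h1 p S hC (h15 p S hC) hlt
  have hH := h2 p S hC hNE
  have e6 := h6 p S hC hNE hH hz
  have e7 := h7 p S hC hH e6
  have e9 := h9 p S hC hNE hH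
  have e11 := h11 p S hC hNE hH
  have hXle : XX p S (4 * p.b - 1) 2 ≤ S.n (4 * p.b) := by
    unfold XX X
    have := Nat.findGreatest_le (P := fun x => ph p S.q (4 * p.b - 1) x <
      c p (4 * p.b - 1) 2 + 21 * p.g + 6) (S.n (4 * p.b - 1 + 1))
    rw [show 4 * p.b - 1 + 1 = 4 * p.b by omega] at this
    rw [show 4 * p.b - 1 + 1 = 4 * p.b by omega]
    exact this
  have hadd := ((s1 p.m p.g S hg (by omega) (4 * p.b - 1) (by omega)).2.1 0
    (XX p S (4 * p.b - 1) 2) (S.n (4 * p.b)) (Nat.zero_le _) hXle).1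
  have hs : 3 ≤ Sc p.m S.q (4 * p.b - 1) 0 (XX p S (4 * p.b - 1) 2) := by omega
  have key : ∀ j, j ≤ 2 * p.b →
      3 ≤ Sc p.m S.q (4 * p.b - 1 - j) 0 (XX p S (4 * p.b - 1 - j) 2) ∧
      p.m ^ j * 3 ≤ 4 ^ j * Sc p.m S.q (4 * p.b - 1 - j) 0 (XX p S (4 * p.b - 1 - j) 2) := by
    intro j
    induction j with
    | zero => intro _; exact ⟨hs, by simpa using hs⟩
    | succ j ih =>
      intro hj
      obtain ⟨i1, i2⟩ := ih (by omega)
      obtain ⟨l, hl⟩ : ∃ l, 4 * p.b - 1 - j = l + 1 := ⟨4 * p.b - 2 - j, by omega⟩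
      have hl' : 4 * p.b - 1 - (j + 1) = l := by omega
      rw [hl] at i1 i2
      rw [hl']
      have h3 := h10 p S hC hNE hH l (by omega) (by omega) i1
      constructor
      · have h4 : p.m * 3 ≤ p.m * Sc p.m S.q (l + 1) 0 (XX p S (l + 1) 2) :=
          Nat.mul_le_mul le_rfl i1
        omega
      · calc p.m ^ (j + 1) * 3 = p.m * (p.m ^ j * 3) := by ring
          _ ≤ p.m * (4 ^ j * Sc p.m S.q (l + 1) 0 (XX p S (l + 1) 2)) :=
            Nat.mul_le_mul le_rfl i2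
          _ = 4 ^ j * (p.m * Sc p.m S.q (l + 1) 0 (XX p S (l + 1) 2)) := by ring
          _ ≤ 4 ^ j * (4 * Sc p.m S.q l 0 (XX p S l 2)) := Nat.mul_le_mul le_rfl h3
          _ = _ := by ring
  obtain ⟨-, k2⟩ := key (2 * p.b) le_rfl
  rw [show 4 * p.b - 1 - 2 * p.b = 2 * p.b - 1 by omega] at k2
  have h3 : p.m ^ (2 * p.b) * 3 ≤ 4 ^ (2 * p.b) * (3 * p.m ^ p.b) :=
    le_trans k2 (Nat.mul_le_mul le_rfl e11)
  have h4 : p.m ^ p.b * (3 * p.m ^ p.b) ≤ 16 ^ p.b * (3 * p.m ^ p.b) := by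
    have e1 : p.m ^ (2 * p.b) * 3 = p.m ^ p.b * (3 * p.m ^ p.b) := by
      rw [two_mul, pow_add]; ring
    have e2 : (4 : ℕ) ^ (2 * p.b) = 16 ^ p.b := by
      rw [pow_mul]; norm_num
    rw [← e1, ← e2]
    exact h3
  have hpos : 0 < 3 * p.m ^ p.b := by
    have : 0 < p.m ^ p.b := Nat.pow_pos (by omega)
    omega
  have h5 := Nat.le_of_mul_le_mul_right h4 hpos
  have h6' := Nat.pow_lt_pow_left (by omega : 16 < p.m) (by omega : p.b ≠ 0)
  omega

end DMS
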