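import Pool.Agent.DMS.Fadd
import Pool.Agent.DMS.StC

namespace DMS

theorem thm_C2 : St_C2 := by
  intro p S hC hNE
  by_contra hcon
  have hC' := hC
  obtain ⟨hok, hn⟩ := hC'
  have hok' := hok
  obtain ⟨hg, hm, hb4⟩ := hok'
  rcases Nat.lt_or_ge S.H p.b with hH | hH
  · have h1 := (s3 p.m p.g S hg (by omega) S.H le_rfl)
    obtain ⟨a1, a2, a3⟩ := h1
    have h2 := (a3 0 (S.n S.H) (Nat.zero_le _) le_rfl).1
    rw [a1, a2, S.n_top, hn] at h2
    have h3 := (w7 p hok).2.1
    have h4 : p.m ^ S.H ≤ p.m ^ (2 * p.b) := Nat.pow_le_pow_right (by omega) (by omega)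
    omega
  · obtain ⟨l, hl⟩ : ∃ l, S.H = l + 1 := ⟨S.H - 1, by omega⟩
    have C := ctx hC (by omega : l < S.H) (by omega)
    have ht := (w4 p hok (l + 1) (by omega)).1
    have htl := ht.2.1
    have e1 := C.cgap (by omega : 0 < K p (l + 1) + 1) (by omega)
    have e2 := C.cgap htl le_rfl
    rw [C.clen] at e2
    have e3 := C.phend
    have e4 : S.n (l + 1) = 1 := by rw [← hl]; exact S.n_top
    rw [e4] at e3
    refine (hNE l (by omega) (by omega) (by omega)).1 0 (K p (l + 1) + 1) (by omega) ⟨ht, ?_, ?_⟩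
    · rw [C.ph0]
      omega
    · rw [Nat.zero_add, e3]
      omega

end DMS
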