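import Pool.Agent.DMS.Fadd
import Pool.Agent.DMS.StC

namespace DMS

theorem thm_C3 : St_C3 := by
  intro p S hC hNE l hb hl4 hlH hstart
  have hC' := hC
  obtain ⟨hok, hn⟩ := hC'
  obtain ⟨-, -, -, -, w5', w6', -⟩ := w4 p hok (l + 1) hl4
  obtain ⟨hOV, hD⟩ := hNE l hb hl4 hlH
  intro t
  induction t using Nat.strong_induction_on with
  | _ t ih =>
    intro ht
    rcases w5' t ht with h | ⟨t', ht', h⟩
    · rw [h]
      exact hstart
    · have h1 := ih t' (by omega) ht'
      obtain ⟨a1, -, -, -, a5, -⟩ := thm_B1 p S hC l hlH hl4 t ht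
      obtain ⟨b1, -, -, -, b5, b6⟩ := thm_B1 p S hC l hlH hl4 t' ht'
      have hp := a5.resolve_left (hOV _ _ a1)
      have hp' := b5.resolve_left (hOV _ _ b1)
      obtain ⟨c1, c2⟩ := thm_B4 p S hC l hlH hl4 t' t _ _ ht' ht (by omega) (by omega) b1.le a1.le hp' hp
      have h2 := (b6 _ b1.le hp').1
      have h3 := w6' t' ht'
      have h4 := c2.resolve_left (hD _ _ c1 a1.le (by omega))
      unfold XX at h1 ⊢
      omega

end DMS
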