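import Pool.Agent.DMS.Fadd
import Pool.Agent.DMS.StC

namespace DMS

theorem thm_C4 : St_C4 := by
  intro p S hC hNE hH hx
  have hC' := hC
  obtain ⟨hok, hn⟩ := hC'
  have hok' := hok
  obtain ⟨hg, hm, hb4⟩ := hok'
  obtain ⟨x, z, hxn, hz, hpx⟩ := hx
  obtain ⟨l, hl⟩ : ∃ l, p.b = l + 1 := ⟨p.b - 1, by omega⟩
  have hKb : K p (l + 1) = p.m ^ (l + 1) := by
    unfold K
    rw [if_neg (by omega)]
    have : 2 * p.b - (l + 1) = l + 1 := by omega
    rw [this]
  rw [hl] at hxn hz hpx ⊢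
  rw [Nat.add_sub_cancel]
  have hlH : l < S.H := by omega
  have C := ctx hC hlH (by omega)
  obtain ⟨s31, s32, s33⟩ := s3 p.m p.g S hg (by omega) (l + 1) (by omega)
  have ht := (w4 p hok (l + 1) (by omega)).1
  obtain ⟨a1, -, -, -, a5, -⟩ := thm_B1 p S hC l hlH (by omega) _ ht
  have hp := a5.resolve_left ((hNE l (by omega) (by omega) hlH).1 _ _ a1)
  unfold XX
  set y := X p S.q S.n l (K p (l + 1) + 1) with hy
  obtain ⟨-, -, -, -, -, -, w37⟩ := w3 p hok l (by omega)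
  obtain ⟨-, w38⟩ := w37 (by omega)
  have hct := w38 (K p (l + 1) + 1) le_rfl
  have hcK := w38 (K p (l + 1)) (by omega)
  have hp1 := hp.1
  rw [hct, Nat.mul_add, Nat.mul_one, ← hcK] at hp1
  have hph : c p l (K p (l + 1)) + 1 ≤ ph p S.q l y := by omega
  have hy1 : 1 ≤ y := by
    rcases Nat.eq_zero_or_pos y with h | h
    · rw [h, C.ph0] at hph
      omega
    · exact h
  have e1 := (s33 0 x (Nat.zero_le _) hxn).1
  rw [s31, hpx, Nat.zero_add, Nat.sub_zero] at e1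
  have hzx : z < x := by
    have h1 : p.m ^ (l + 1) * z < p.m ^ (l + 1) * x := by
      rw [Nat.mul_comm (p.m ^ (l + 1)) z]
      omega
    exact Nat.lt_of_mul_lt_mul_left h1
  have e2 := (s33 0 y (Nat.zero_le _) a1.le).2
  rw [s31, Nat.zero_add, Nat.sub_zero] at e2
  have hposy : 1 ≤ pos S.q (l + 1) y := by
    have h1 : 1 ≤ p.m ^ ((l + 1) / 2) := Nat.one_le_pow _ _ (by omega)
    have h2 : 1 * 1 ≤ p.m ^ ((l + 1) / 2) * y := Nat.mul_le_mul h1 hy1
    omega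
  obtain ⟨-, -, -, s44, -, -⟩ := s4 p S hok hn l (by omega) (by omega)
  have hql : S.q l y ≤ S.n l := by
    obtain ⟨-, -, -, h4⟩ := (s1 p.m p.g S hg (by omega) l hlH).1 y y le_rfl a1.le
    exact h4
  have e3 := s44 (S.q l y) hql hposy
  obtain ⟨-, -, w73, -, w75⟩ := w7 p hok
  have hlen : ph p S.q l y ≤ len p l := C.phlen y a1.le
  have e4 := w73 (l + 1) (by omega) (K p (l + 1)) le_rfl
  have e5 : pos (c p) l (c p l (K p (l + 1))) + 1 ≤ pos (c p) l (ph p S.q l y) :=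
    w75 l (by omega) _ _ hph hlen
  have e6 : pos (c p) l (c p l (K p (l + 1))) = p.m ^ (l + 1) * K p (l + 1) := e4
  have e7 : pos (c p) l (ph p S.q l y) + 1 ≤ pos S.q (l + 1) y := e3
  rw [hKb] at e6 ⊢
  rw [hKb] at e5
  rw [e6] at e5
  have hxy : x < y := by
    by_contra hc
    push Not at hc
    have h1 := (s33 y x hc hxn).2
    have h2 : z * p.m ^ (l + 1) ≤ p.m ^ (l + 1) * p.m ^ (l + 1) := Nat.mul_le_mul hz le_rfl
    omega
  have e8 := (s33 x y hxy.le a1.le).1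
  have e9 : p.m ^ (l + 1) < z + (y - x) := by
    have h1 : p.m ^ (l + 1) * p.m ^ (l + 1) < p.m ^ (l + 1) * (z + (y - x)) := by
      rw [Nat.mul_add, Nat.mul_comm (p.m ^ (l + 1)) z]
      omega
    exact Nat.lt_of_mul_lt_mul_left h1
  omega

end DMS
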