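import Pool.Agent.DMS.B7
import Pool.Agent.DMS.StC

namespace DMS

theorem thm_C5 : St_C5 := by
  intro p S hC hNE hH l hb hl4 hPlus
  have hok := hC.1
  have hok' := hok
  obtain ⟨hg, hm, hb4⟩ := hok'
  have hlH : l < S.H := by omega
  have hl1H : l + 1 < S.H := by omega
  have C := ctx hC hlH (by omega)
  have C' := ctx hC hl1H (by omega)
  obtain ⟨hOV, hD⟩ := hNE l hb (by omega) hlH
  have hOV' := (hNE (l + 1) (by omega) (by omega) hl1H).1
  have hτ : Tight p (l + 2) (K p (l + 2) + 1) := (w4 p hok (l + 2) (by omega)).1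
  obtain ⟨-, -, -, -, -, w6', w7'⟩ := w4 p hok (l + 1) (by omega)
  have hVL : V p (l + 2) (K p (l + 2) + 1) = .L := (w3 p hok (l + 2) (by omega)).2.2.2.2.2.1
  have hc0 : c p (l + 1) (K p (l + 2) + 1) = p.m * (K p (l + 2) + 1) := by
    have h1 := ((w3 p hok (l + 1) (by omega)).2.2.2.2.2.2 (by omega)).2 (K p (l + 1 + 1) + 1) le_rfl
    exact h1
  obtain ⟨v1, v2, v3, v4, v5, -⟩ := w5 p hok (l + 1) (by omega) (K p (l + 2) + 1) hτ
  have v2' := v2 hVL
  obtain ⟨a1, -, a3, -, a5, -⟩ := thm_B1 p S hC (l + 1) hl1H (by omega) _ hτ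
  unfold XX
  set γ := X p S.q S.n (l + 1) (K p (l + 2) + 1) with hγ
  set c0 := c p (l + 1) (K p (l + 2) + 1) with hc0d
  have hXκ : c0 - 1 + 1 ≤ X p S.q S.n l (c0 - 1) := hPlus _ v3
  have hc0pos : 10 ≤ c0 := by omega
  -- monotone X
  have hXmono : ∀ t t', Tight p (l + 1) t → Tight p (l + 1) t' → t ≤ t' →
      X p S.q S.n l t ≤ X p S.q S.n l t' := by
    intro t t' ht ht' htt
    obtain ⟨b1, b2, -⟩ := thm_B1 p S hC l hlH (by omega) t ht
    obtain ⟨-, -, -, d4, -⟩ := thm_B1 p S hC l hlH (by omega) t' ht'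
    have h1 := C.cmono htt ht'.2.1.le
    exact d4 _ b1.le (by omega)
  have hpin : ∀ t, Tight p (l + 1) t → Pin p S.q l (X p S.q S.n l t) t := by
    intro t ht
    obtain ⟨b1, -, -, -, b5, -⟩ := thm_B1 p S hC l hlH (by omega) t ht
    exact b5.resolve_left (hOV _ _ b1)
  -- main claim
  have hmain : X p S.q S.n l (c0 - 1) < S.q (l + 1) γ := by
    by_contra hcon
    push Not at hcon
    have hx01 : S.q (l + 1) γ ≤ S.q (l + 1) (γ + 1) := by
      have := q_mono S hl1H γ (γ + 1) (by omega) a1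
      omega
    have hx1n : S.q (l + 1) (γ + 1) ≤ S.n (l + 1) := by
      obtain ⟨-, -, -, h4⟩ := (s1 p.m p.g S hg (by omega) (l + 1) hl1H).1 (γ + 1) (γ + 1) le_rfl a1
      exact h4
    have hfx1 : c0 + 21 * p.g + 6 ≤ f p S.q (l + 1) (S.q (l + 1) (γ + 1)) := a3
    have hUg := (s2 p.m p.g S hg (by omega) l hl1H).1 γ a1
    -- letters
    have hlet : ∀ i, i ≤ p.g → V p (l + 1) (c0 - 1 + 21 * i) = .U := by
      intro i hi
      rcases Nat.eq_zero_or_pos i with h0 | h0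
      · subst h0
        have h1 := v1 (p.g - 1) (by omega)
        have h2 : c0 + 20 - 21 * (p.g - (p.g - 1)) = c0 - 1 + 21 * 0 := by omega
        rw [h2] at h1
        exact h1
      · have h1 := v2' (i - 1) (by omega)
        have h2 : c0 + 20 + 21 * (i - 1) = c0 - 1 + 21 * i := by omega
        rw [h2] at h1
        exact h1
    have hex : ∀ i, i ≤ p.g → ∃ z w, Tight p (l + 1) z ∧ Tight p (l + 1) w ∧
        c0 - 1 + 21 * i ≤ z + 3 ∧ z ≤ c0 - 1 + 21 * i ∧ c0 - 1 + 21 * i + 1 ≤ w ∧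
        w ≤ c0 - 1 + 21 * i + 5 ∧ c0 - 1 ≤ z := by
      intro i hi
      obtain ⟨x1, x2, y1, y2, t1, t2, t3, t4, u1, u2, u3, u4, u5, u6⟩ :=
        w7' (c0 - 1 + 21 * i) (by omega) (hlet i hi)
      rcases Nat.eq_zero_or_pos i with h0 | h0
      · subst h0
        exact ⟨c0 - 1, y1, v3, t3, by omega, by omega, by omega, by omega, le_rfl⟩
      · exact ⟨x2, y1, t2, t3, by omega, by omega, by omega, by omega, by omega⟩
    choose! zs ws hzw using hex
    have hb7 := thm_B7 p S hC l hlH (by omega) (c0 - 1) (S.q (l + 1) γ) (S.q (l + 1) (γ + 1))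
      (fun i => X p S.q S.n l (zs i)) (fun i => X p S.q S.n l (ws i)) zs ws hx1n hx01 ?_ hUg
    · obtain ⟨i, hi, j1, j2, j3⟩ := hb7
      obtain ⟨t1, t2, -⟩ := hzw i hi
      obtain ⟨b1, -, -, -, -, b6⟩ := thm_B1 p S hC l hlH (by omega) (zs i) t1
      obtain ⟨d1, -, -, -, -, -⟩ := thm_B1 p S hC l hlH (by omega) (ws i) t2
      have h1 := (b6 _ b1.le (hpin _ t1)).1
      have h2 := w6' _ t1
      exact hD _ _ j1 d1.le (by omega) j3
    · intro i hi
      obtain ⟨t1, t2, t3, t4, t5, t6, t7⟩ := hzw i hi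
      obtain ⟨b1, -, -, -, -, -⟩ := thm_B1 p S hC l hlH (by omega) (zs i) t1
      obtain ⟨d1, d2, -, -, -, -⟩ := thm_B1 p S hC l hlH (by omega) (ws i) t2
      refine ⟨hlet i hi, t1, t2, t3, t4, t5, t6, hpin _ t1, hpin _ t2, ?_, ?_, b1.le, d1.le⟩
      · exact hcon.trans (hXmono _ _ v3 t1 t7)
      · have h1 : ph p S.q l (X p S.q S.n l (ws i)) < ph p S.q l (S.q (l + 1) (γ + 1)) := by
          have h2 := C.phlo (S.q (l + 1) (γ + 1)) hx1n
          have h3 := C.flen (S.q (l + 1) (γ + 1)) hx1n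
          have h4 := C.cgap (by omega : ws i < f p S.q (l + 1) (S.q (l + 1) (γ + 1))) h3
          omega
        exact (C.lt_of_ph d1.le h1).le
  obtain ⟨-, -, b3⟩ := cnt C' (Nat.zero_le γ) a1.le
  rw [S.q_zero (l + 1) hl1H, Nat.zero_add, Nat.sub_zero] at b3
  have h5 : p.m * (K p (l + 2) + 1) < p.m * γ := by
    rw [← hc0]
    omega
  have h6 := Nat.lt_of_mul_lt_mul_left h5
  omega

end DMS
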