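import Pool.Agent.DMS.B1
import Pool.Agent.DMS.StC

/-!
# DMS, module C6: the extra leaf travels to the root
-/

namespace DMS

/-- `Plus` at all levels of the right part. -/
theorem c6_plus (hC3 : St_C3) (hC4 : St_C4) (hC5 : St_C5) (p : Par) (S : Sys p.m p.g)
    (hx : Cx p S) (hne : NE p S) (hH : 4 * p.b + 1 ≤ S.H)
    (hz : ∃ x z, x ≤ S.n p.b ∧ z ≤ p.m ^ p.b ∧ pos S.q p.b x = 1 + z * p.m ^ p.b) :
    ∀ j, p.b + j ≤ 4 * p.b → Plus p S (p.b - 1 + j) := by
  have hb : 4 ≤ p.b := hx.1.2.2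
  intro j
  induction j with
  | zero =>
    intro _
    have h1 := hC4 p S hx hne hH hz
    have h2 : p.b - 1 + 1 = p.b := by omega
    refine hC3 p S hx hne (p.b - 1) (by omega) (by omega) (by omega) ?_
    rw [h2]
    exact h1
  | succ j ih =>
    intro hj
    have h1 := ih (by omega)
    have h2 := hC5 p S hx hne hH (p.b - 1 + j) (by omega) (by omega) h1
    exact hC3 p S hx hne (p.b - 1 + j + 1) (by omega) (by omega) (by omega) h2

/-- The top: the cut `m - 1` of level `4 b` is tight. -/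
theorem c6_top (p : Par) (hok : p.Ok) : Tight p (4 * p.b) (p.m - 1) := by
  obtain ⟨hg, hm, hb⟩ := hok
  obtain ⟨h1, h2, h3⟩ := w1 p
  obtain ⟨c0, c1, c2, c3⟩ := h3 (4 * p.b) le_rfl
  have e1 : c p (4 * p.b) 1 = p.m := by
    have := c1 0 (by omega)
    rw [h2, c0] at this
    simpa [sz] using this
  have e2 : len p (4 * p.b) = p.m := by
    rw [c2, h1, e1]
  have hch : ∀ s, s < p.m → V p (4 * p.b) s = ch p (4 * p.b) .Q s := by
    intro s hs
    have := c3 0 (by omega) s (by rw [h2]; exact hs)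
    rw [h2, c0, zero_add] at this
    exact this
  refine ⟨by omega, by omega, ?_, Or.inr ?_⟩
  · rw [hch _ (by omega)]
    have a1 : p.m - 1 - 1 ≠ 0 := by omega
    have a2 : p.m - 1 - (p.m - 1 - 1) = 1 := by omega
    simp only [ch, if_neg a1, a2, if_pos (by omega : 1 < 21 * p.g), rb]
    rfl
  · rw [hch _ (by omega)]
    have a1 : p.m - 1 ≠ 0 := by omega
    have a2 : p.m - 1 - (p.m - 1) = 0 := by omega
    simp only [ch, if_neg a1, a2, if_pos (by omega : 0 < 21 * p.g), rb]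
    rfl

theorem thm_C6 (hC3 : St_C3) (hC4 : St_C4) (hC5 : St_C5) : St_C6 := by
  intro p S hx hne hH hz
  have hb : 4 ≤ p.b := hx.1.2.2
  have h1 := c6_plus hC3 hC4 hC5 p S hx hne hH hz (3 * p.b) (by omega)
  have e : p.b - 1 + 3 * p.b + 1 = 4 * p.b := by omega
  have h2 := c6_top p hx.1
  rw [← e] at h2
  have h3 := h1 _ h2
  have h4 := (thm_B1 p S hx (p.b - 1 + 3 * p.b) (by omega) (by omega) _ h2).1
  rw [e] at h4
  have hm : 1 ≤ p.m := by
    obtain ⟨⟨hg, hm, -⟩, -⟩ := hx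
    omega
  have h5 : XX p S (p.b - 1 + 3 * p.b) (p.m - 1) = X p S.q S.n (p.b - 1 + 3 * p.b) (p.m - 1) :=
    rfl
  omega

end DMS
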