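import Pool.Agent.DMS.B7
import Pool.Agent.DMS.StC

namespace DMS

private theorem c7_sat {m : ℕ} {q : ℕ → ℕ → ℕ} {l x y : ℕ} (h : 1 ≤ Sc m q l x y) :
    ∃ j, x ≤ j ∧ j < y ∧ q l (j + 1) = q l j + m := by
  unfold Sc at h
  obtain ⟨j, hj⟩ := Finset.card_pos.mp h
  rw [Finset.mem_filter, Finset.mem_Ico] at hj
  exact ⟨j, hj.1.1, hj.1.2, hj.2⟩

private theorem c7_mono {m g : ℕ} (S : Sys m g) {l : ℕ} (hl : l < S.H) (x y : ℕ) (hxy : x ≤ y)
    (hy : y ≤ S.n (l + 1)) : S.q l x ≤ S.q l y := by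
  have := q_mono S hl x y hxy hy
  omega

theorem thm_C7 : St_C7 := by
  intro p S hC hH hn
  obtain ⟨hok, -⟩ := hC
  have hok' := hok
  obtain ⟨hg, hm, hb4⟩ := hok'
  obtain ⟨L, hL⟩ : ∃ L, 4 * p.b = L + 1 := ⟨4 * p.b - 1, by omega⟩
  rw [hL] at hn ⊢
  rw [Nat.add_sub_cancel]
  obtain ⟨a1, -, a3⟩ := s1 p.m p.g S hg (by omega) (L + 1) (by omega)
  obtain ⟨-, -, b3, -⟩ := a1 0 (S.n (L + 2)) (Nat.zero_le _) le_rfl
  have hqe : S.q (L + 1) (S.n (L + 2)) = S.n (L + 1) := S.q_end (L + 1) (by omega)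
  rw [hqe, S.q_zero (L + 1) (by omega)] at b3
  have hn2 : 2 ≤ S.n (L + 2) := by
    by_contra hc
    have h1 : p.m * (S.n (L + 2) - 0) ≤ p.m * 1 := Nat.mul_le_mul le_rfl (by omega)
    omega
  have hH2 : L + 3 ≤ S.H := by
    by_contra hc
    have h1 : S.H = L + 2 := by omega
    have h2 := S.n_top
    rw [h1] at h2
    omega
  have hn3 : 1 ≤ S.n (L + 3) := a3 (L + 3) hH2
  obtain ⟨j, hj1, hj2, hj3⟩ := c7_sat (S.s_pos (L + 1) (by omega) 0 hn3)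
  have hjn : j < S.n (L + 2) := by
    have h1 := c7_mono S (by omega : L + 2 < S.H) 1 (S.n (L + 3)) hn3 le_rfl
    have h2 : S.q (L + 2) (S.n (L + 3)) = S.n (L + 2) := S.q_end (L + 2) (by omega)
    have h3 : j < S.q (L + 2) 1 := hj2
    omega
  have hU := (s2 p.m p.g S hg (by omega) L (by omega)).1 j hjn
  have hmj := c7_mono S (by omega : L + 1 < S.H) j (j + 1) (by omega) hjn
  have hj4 := c7_mono S (by omega : L + 1 < S.H) (j + 1) (S.n (L + 2)) hjn le_rfl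
  rw [hqe] at hj4
  obtain ⟨c1, -⟩ := s1 p.m p.g S hg (by omega) L (by omega)
  obtain ⟨d1, -⟩ := c1 _ _ hmj hj4
  have hSj : p.m - p.g ≤ Sc p.m S.q L (S.q (L + 1) j) (S.q (L + 1) (j + 1)) := by omega
  have hq0 : S.q (L + 1) 0 = 0 := S.q_zero (L + 1) (by omega)
  rcases Nat.eq_zero_or_pos j with h0 | h0
  · have e1 := S.s_pos L (by omega) 1 hn2
    have e2 := c7_mono S (by omega : L + 1 < S.H) 1 2 (by omega) hn2
    have e3 := c7_mono S (by omega : L + 1 < S.H) 2 (S.n (L + 2)) hn2 le_rfl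
    rw [hqe] at e3
    subst h0
    rw [hq0] at hSj
    have e4 := Sc_add p.m S.q L 0 (S.q (L + 1) (0 + 1)) (S.n (L + 1)) (Nat.zero_le _) hj4
    have e5 := Sc_add p.m S.q L (S.q (L + 1) 1) (S.q (L + 1) 2) (S.n (L + 1)) e2 e3
    have e6 : S.q (L + 1) (0 + 1) = S.q (L + 1) 1 := rfl
    rw [e6] at e4 hSj
    have e7 : Sc p.m S.q L (S.q (L + 1) 1) (S.q (L + 1) (1 + 1)) =
      Sc p.m S.q L (S.q (L + 1) 1) (S.q (L + 1) 2) := rfl
    omega
  · have e1 := S.s_pos L (by omega) 0 (by omega : 0 < S.n (L + 2))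
    rw [hq0] at e1
    have e2 := c7_mono S (by omega : L + 1 < S.H) (0 + 1) j h0 hjn.le
    have e4 := Sc_add p.m S.q L 0 (S.q (L + 1) (0 + 1)) (S.n (L + 1)) (Nat.zero_le _)
      (e2.trans (hmj.trans hj4))
    have e5 := Sc_add p.m S.q L (S.q (L + 1) (0 + 1)) (S.q (L + 1) j) (S.n (L + 1)) e2 (hmj.trans hj4)
    have e6 := Sc_add p.m S.q L (S.q (L + 1) j) (S.q (L + 1) (j + 1)) (S.n (L + 1)) hmj hj4
    omega

end DMS
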