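import Pool.Agent.DMS.B7
import Pool.Agent.DMS.StC

namespace DMS

theorem thm_C8 : St_C8 := by
  intro p S hC hNE l hb hl4 hlH t t' ht ht' htt
  have hok := hC.1
  obtain ⟨-, -, -, -, w5', w6', -⟩ := w4 p hok (l + 1) hl4
  have hlH' : l < S.H := by omega
  obtain ⟨hOV, hD⟩ := hNE l hb hl4 hlH'
  have C := ctx hC hlH' hl4
  revert t'
  intro t'
  induction t' using Nat.strong_induction_on with
  | _ t' ih =>
    intro ht' htt
    rcases Nat.eq_or_lt_of_le htt with h | h
    · subst h
      rw [Sc_self, Lc_self]
      omega
    · rcases w5' t' ht' with h1 | ⟨u, hu, h1⟩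
      · have := w6' t ht
        omega
      · have htu : t ≤ u := by
          by_contra hc
          push Not at hc
          have hcase : t = u + 1 ∨ t = t' - 1 := by omega
          rcases hcase with h2 | h2
          · have h3 := ht.2.2.1
            have h4 : t - 1 = u := by omega
            rw [h4] at h3
            rcases hu.2.2.2 with h5 | h5 <;> rw [h3] at h5 <;> cases h5
          · have h3 := ht'.2.2.1
            rw [← h2] at h3
            rcases ht.2.2.2 with h5 | h5 <;> rw [h3] at h5 <;> cases h5
        obtain ⟨i1, i2⟩ := ih u (by omega) hu htu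
        obtain ⟨a1, -, -, -, a5, -⟩ := thm_B1 p S hC l hlH' hl4 t' ht'
        obtain ⟨b1, -, -, -, b5, b6⟩ := thm_B1 p S hC l hlH' hl4 u hu
        have hp := a5.resolve_left (hOV _ _ a1)
        have hp' := b5.resolve_left (hOV _ _ b1)
        have hlt := pin_lt C (by omega : u < t') ht'.2.1.le hp' hp b1.le
        have h2 := (b6 _ b1.le hp').1
        have h3 := w6' u hu
        have h4 := (thm_B5 p S hC l hlH hl4 u t' _ _ hu ht' (by omega) (by omega) b1.le a1.le hp' hp).resolve_left
          (hD _ _ hlt a1.le (by omega))
        have h5 := Lc_add p (l + 1) t u t' htu (by omega)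
        unfold XX at i1 i2 ⊢
        have h6 := Sc_add p.m S.q l (X p S.q S.n l t) (X p S.q S.n l u) (X p S.q S.n l t') i1 hlt.le
        omega

end DMS
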