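import Pool.Agent.DMS.B7
import Pool.Agent.DMS.StC

namespace DMS

private theorem c9_arith {m g s U a : ℤ} (hg : 1 ≤ g) (hm : 10000 * g ≤ m) (hs : 1 ≤ s)
    (hU : U ≤ 2 * g + s) (ha : 2 * a ≤ m) :
    51 * (a + 21 * g) + 4400 * (s + U) ≤ 49 * (m * s) := by
  have h1 : m * 1 ≤ m * s := mul_le_mul_of_nonneg_left hs (by linarith)
  have h2 : 10000 * s ≤ m * s := mul_le_mul_of_nonneg_right (by linarith) (by linarith)
  nlinarith

theorem thm_C9 (hC8 : St_C8) : St_C9 := by
  intro p S hC hNE hH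
  have hC' := hC
  obtain ⟨hok, hn⟩ := hC'
  have hok' := hok
  obtain ⟨hg, hm, hb4⟩ := hok'
  obtain ⟨l, hl⟩ : ∃ l, 4 * p.b = l + 1 := ⟨4 * p.b - 1, by omega⟩
  rw [hl, Nat.add_sub_cancel]
  have hlH : l < S.H := by omega
  have hl1H : l + 1 < S.H := by omega
  have C := ctx hC hlH (by omega)
  have hK1 : K p (l + 1) = 1 := by
    unfold K
    rw [if_pos (by omega)]
  have ht2 : Tight p (l + 1) 2 := by
    have := (w4 p hok (l + 1) (by omega)).1
    rw [hK1] at this
    exact this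
  -- the word of level 4 b
  obtain ⟨q1, q2, q3⟩ := w1 p
  obtain ⟨r1, r2, r3, r4⟩ := q3 (l + 1) (by omega)
  have e0 : l + 1 + 1 = 4 * p.b + 1 := by omega
  rw [e0, q1] at r2 r3 r4
  have hlen : len p (l + 1) = p.m := by
    rw [r3, r2 0 (by omega), r1, q2]
    simp [sz]
  have hV : ∀ s, s < p.m → V p (l + 1) s = ch p (l + 1) .Q s := by
    intro s hs
    have := r4 0 (by omega) s (by rw [q2]; exact hs)
    rw [r1, Nat.zero_add, q2] at this
    exact this
  have hU : ∀ e, e < p.g → V p (l + 1) (p.m - 1 - 21 * e) = .U := by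
    intro e he
    rw [hV _ (by omega), ch_Q, if_neg (by omega), if_pos (by omega)]
    have h1 : p.m - 1 - (p.m - 1 - 21 * e) = 21 * e := by omega
    rw [h1]
    unfold rb
    rw [if_pos (by omega)]
  have hR : V p (l + 1) (p.m - 2) = .R := by
    rw [hV _ (by omega), ch_Q, if_neg (by omega), if_pos (by omega)]
    have h1 : p.m - 1 - (p.m - 2) = 1 := by omega
    rw [h1]
    rfl
  have hU0 : V p (l + 1) (p.m - 1) = .U := hU 0 (by omega)
  have hκ : Tight p (l + 1) (p.m - 1) := by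
    refine ⟨by omega, by omega, ?_, Or.inr hU0⟩
    have h1 : p.m - 1 - 1 = p.m - 2 := by omega
    rw [h1]
    exact hR
  have hL : p.g - 1 ≤ Lc p (l + 1) 2 (p.m - 1) := by
    unfold Lc
    have h1 : ((Finset.range (p.g - 1)).image fun e => p.m - 1 - 21 * (e + 1)) ⊆
        (Finset.Ico 2 (p.m - 1)).filter fun j => V p (l + 1) j = .U := by
      intro j hj
      rw [Finset.mem_image] at hj
      obtain ⟨e, he, rfl⟩ := hj
      rw [Finset.mem_range] at he
      rw [Finset.mem_filter, Finset.mem_Ico]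
      exact ⟨⟨by omega, by omega⟩, hU (e + 1) (by omega)⟩
    have h2 := Finset.card_le_card h1
    rw [Finset.card_image_of_injOn, Finset.card_range] at h2
    · exact h2
    · intro e he e' he' hee
      rw [Finset.coe_range, Set.mem_Iio] at he he'
      simp only at hee
      omega
  obtain ⟨f1, f2⟩ := hC8 p S hC hNE l (by omega) (by omega) hl1H 2 (p.m - 1) ht2 hκ (by omega)
  unfold XX at f1 f2 ⊢
  obtain ⟨a1, -, -, -, a5, a6⟩ := thm_B1 p S hC l hlH (by omega) _ hκ
  obtain ⟨hOV, hD⟩ := hNE l (by omega) (by omega) hlH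
  have hp := a5.resolve_left (hOV _ _ a1)
  have hfx := (a6 _ a1.le hp).1
  set x := X p S.q S.n l (p.m - 1) with hx
  have e1 := Sc_add p.m S.q l (X p S.q S.n l 2) x (S.n (l + 1)) f1 a1.le
  have hfin : Sc p.m S.q l x (S.n (l + 1)) = 0 := by
    by_contra hne
    refine hD x (S.n (l + 1)) a1 le_rfl (by omega) ?_
    obtain ⟨b1, b2, -⟩ := cnt C a1.le le_rfl
    have b3 := (s2 p.m p.g S hg (by omega) l hl1H).2.2 x (S.n (l + 1)) a1.le le_rfl
    obtain ⟨r1', r2', r3', r4'⟩ := q3 l (by omega)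
    have g1 : c p l (p.m - 1 + 1) = c p l (p.m - 1) + p.m / 2 := by
      rw [r2' (p.m - 1) (by omega), hU0]
      rfl
    have g2 : p.m - 1 + 1 = p.m := by omega
    have g3 : len p l = c p l (p.m - 1) + p.m / 2 := by
      rw [r3', hlen, ← g1, g2]
    have g4 := hp.1
    have g5 := C.phlen x a1.le
    have g6 := C.phend
    unfold D
    set s := Sc p.m S.q l x (S.n (l + 1))
    set U := Uc p.m S.q l x (S.n (l + 1))
    have habs := le_abs_self (((S.q l (S.n (l + 1)) : ℤ) - S.q l x) -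
      ((ph p S.q l (S.n (l + 1)) : ℤ) - ph p S.q l x))
    have k1 : ((S.n (l + 1) : ℤ) - x) = s + U := by omega
    have k2 : (ph p S.q l (S.n (l + 1)) : ℤ) - ph p S.q l x ≤ ((p.m / 2 : ℕ) : ℤ) + 21 * p.g := by omega
    have k3 : (p.m : ℤ) * s + U ≤ (S.q l (S.n (l + 1)) : ℤ) - S.q l x := by
      zify at b2
      linarith
    have k4 := c9_arith (m := (p.m : ℤ)) (g := (p.g : ℤ)) (s := (s : ℤ)) (U := (U : ℤ))
      (a := ((p.m / 2 : ℕ) : ℤ)) (by exact_mod_cast hg) (by exact_mod_cast hm) (by omega) (by omega)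
      (by omega)
    rw [k1]
    have k5 : (0 : ℤ) ≤ U := by positivity
    linarith
  omega

end DMS
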