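import Pool.Agent.DMS.StD

/-!
# DMS, module D1: a dense tree gives an index system
-/

namespace DMS

theorem d1_get {α β : Type} (f : α → List β) : ∀ (L : List α) (k : ℕ) (hk : k < L.length) (i : ℕ)
    (hi : i < (f L[k]).length),
    (L.flatMap f)[((L.take k).map fun a => (f a).length).sum + i]? = some (f L[k])[i]
  | [], k, hk, _, _ => absurd hk (by simp)
  | a :: L, 0, _, i, hi => by
    simp only [List.take_zero, List.map_nil, List.sum_nil, zero_add, List.flatMap_cons,
      List.getElem_cons_zero] at hi ⊢
    rw [List.getElem?_append_left hi, List.getElem?_eq_getElem hi]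
  | a :: L, k + 1, hk, i, hi => by
    have hk' : k < L.length := by simpa using hk
    have hi' : i < (f L[k]).length := by simpa using hi
    have ih := d1_get f L k hk' i hi'
    simp only [List.take_succ_cons, List.map_cons, List.sum_cons, List.flatMap_cons,
      List.getElem_cons_succ]
    rw [List.getElem?_append_right (by omega)]
    have h1 : (f a).length + (List.map (fun a => (f a).length) (List.take k L)).sum + i -
        (f a).length = (List.map (fun a => (f a).length) (List.take k L)).sum + i := by omega
    rw [h1, ih]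

theorem d1_wf {m r h : ℕ} {t : Tree} (ht : Wf m r h t) :
    ∀ d, d ≤ h → ∀ v ∈ lev d t, Wf m r (h - d) v := by
  intro d
  induction d with
  | zero =>
    intro _ v hv
    simp only [lev, List.mem_singleton] at hv
    subst hv
    exact ht
  | succ d ih =>
    intro hd v hv
    simp only [lev, List.mem_flatMap] at hv
    obtain ⟨w, hw, hv⟩ := hv
    have h1 := ih (by omega) w hw
    have h2 : h - d = (h - (d + 1)) + 1 := by omega
    rw [h2] at h1
    exact h1.2.2.2 v hv

theorem d1_len (f : Tree → ℕ) (L : List Tree) (k : ℕ) (hk : k < L.length) :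
    ((L.take (k + 1)).map f).sum = ((L.take k).map f).sum + f L[k] := by
  rw [List.take_succ_eq_append_getElem hk, List.map_append, List.sum_append]
  simp

theorem d1_count {β : Type} (P : β → Bool) : ∀ (L : List β) (x : ℕ) (Q : ℕ → Prop)
    [DecidablePred Q], (∀ i (hi : i < L.length), Q (x + i) ↔ P L[i] = true) →
    ((Finset.Ico x (x + L.length)).filter Q).card = L.countP P
  | [], x, Q, _, _ => by simp
  | b :: L, x, Q, _, h => by
    have ih := d1_count P L (x + 1) Q (fun i hi => by
      have h1 := h (i + 1) (by simpa using hi)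
      have h2 : x + 1 + i = x + (i + 1) := by omega
      rw [h2]
      simpa using h1)
    have h0 : Q x ↔ P b = true := by
      have h1 := h 0 (by simp)
      rw [add_zero] at h1
      exact h1
    have h3 : Finset.Ico x (x + (b :: L).length) =
        insert x (Finset.Ico (x + 1) (x + 1 + L.length)) := by
      ext y
      simp only [List.length_cons, Finset.mem_Ico, Finset.mem_insert]
      omega
    rw [h3, Finset.filter_insert, List.countP_cons]
    by_cases hb : P b = true
    · rw [if_pos (h0.2 hb), Finset.card_insert_of_notMem, ih, if_pos hb]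
      simp
    · rw [if_neg (fun h => hb (h0.1 h)), ih, if_neg hb]
      omega

theorem d1_sat {m r l : ℕ} {v : Tree} (h : Wf m r (l + 1) v) :
    sat m v = true ↔ v.kids.length = m := by
  cases v with
  | leaf =>
    have h1 := h.1
    simp [Tree.keys, Tree.kids] at h1
  | inner ks n cs => simp [sat, Tree.kids]

theorem thm_D1 : St_D1 := by
  intro m r hr hrm h t ht
  -- the node of number `k` of level `l + 1`
  have hq : ∀ l, l < h → ∀ k (hk : k < (lev (h - 1 - l) t).length),
      tq h t l (k + 1) = tq h t l k + ((lev (h - 1 - l) t)[k]).kids.length := by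
    intro l _ k hk
    exact d1_len (fun v => v.kids.length) _ k hk
  have hwf : ∀ l, l < h → ∀ k (hk : k < (lev (h - 1 - l) t).length),
      Wf m r (l + 1) ((lev (h - 1 - l) t)[k]) := by
    intro l hl k hk
    have h1 := d1_wf ht (h - 1 - l) (by omega) _ (List.getElem_mem hk)
    have h2 : h - (h - 1 - l) = l + 1 := by omega
    rwa [h2] at h1
  have hlev : ∀ l, l < h → lev (h - l) t = (lev (h - 1 - l) t).flatMap Tree.kids := by
    intro l hl
    have h1 : h - l = (h - 1 - l) + 1 := by omega
    rw [h1]
    rfl
  have hn : ∀ l, l < h → tn h t (l + 1) = (lev (h - 1 - l) t).length := by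
    intro l hl
    have h1 : h - (l + 1) = h - 1 - l := by omega
    rw [tn, h1]
  -- children
  have hchild : ∀ l, l + 1 < h → ∀ k (hk : k < (lev (h - 1 - (l + 1)) t).length) (i : ℕ)
      (hi : i < ((lev (h - 1 - (l + 1)) t)[k]).kids.length),
      (tq h t l (tq h t (l + 1) k + i + 1) = tq h t l (tq h t (l + 1) k + i) + m ↔
        sat m (((lev (h - 1 - (l + 1)) t)[k]).kids[i]) = true) := by
    intro l hl k hk i hi
    have h1 := d1_get Tree.kids (lev (h - 1 - (l + 1)) t) k hk i hi
    have h2 : (lev (h - 1 - (l + 1)) t).flatMap Tree.kids = lev (h - 1 - l) t := by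
      rw [← hlev (l + 1) hl]
      have : h - (l + 1) = h - 1 - l := by omega
      rw [this]
    rw [h2] at h1
    obtain ⟨h3, h4⟩ := List.getElem?_eq_some_iff.1 h1
    have h5 := hq l (by omega) _ h3
    have h6 := hwf l (by omega) _ h3
    rw [← h4, d1_sat h6]
    have h7 : ((List.take k (lev (h - 1 - (l + 1)) t)).map fun a => a.kids.length).sum =
        tq h t (l + 1) k := rfl
    simp only [h7] at h5 ⊢
    omega
  have hSc : ∀ l, l + 1 < h → ∀ k (hk : k < (lev (h - 1 - (l + 1)) t).length),
      Sc m (tq h t) l (tq h t (l + 1) k) (tq h t (l + 1) (k + 1)) =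
        ((lev (h - 1 - (l + 1)) t)[k]).kids.countP (sat m) := by
    intro l hl k hk
    rw [hq (l + 1) hl k hk]
    exact d1_count (sat m) _ _ _ (fun i hi => hchild l hl k hk i hi)
  refine ⟨{ H := h, n := tn h t, q := tq h t, n_top := ?_, q_zero := ?_, q_end := ?_,
            q_lt := ?_, q_le := ?_, s_pos := ?_, u_or := ?_ }, rfl, rfl, rfl⟩
  · simp [tn, lev]
  · intro l _
    simp [tq]
  · intro l hl
    rw [hn l hl, tn, hlev l hl, tq, List.take_length, List.length_flatMap]
  · intro l hl k hk
    rw [hn l hl] at hk
    rw [hq l hl k hk]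
    have := (hwf l hl k hk).1
    omega
  · intro l hl k hk
    rw [hn l hl] at hk
    rw [hq l hl k hk]
    have := (hwf l hl k hk).2.1
    omega
  · intro l hl k hk
    have hk' : k < (lev (h - 1 - (l + 1)) t).length := by rwa [hn (l + 1) hl] at hk
    rw [hSc l hl k hk', Nat.succ_le_iff, List.countP_pos_iff]
    obtain ⟨w1, w2, w3, w4⟩ := hwf (l + 1) hl k hk'
    by_cases hall : ∀ i (hi : i < ((lev (h - 1 - (l + 1)) t)[k]).kids.length),
        sat m (((lev (h - 1 - (l + 1)) t)[k]).kids[i]) = true
    · exact ⟨_, List.getElem_mem (show 0 < _ by omega), hall 0 (by omega)⟩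
    · push Not at hall
      obtain ⟨i, hi, hs⟩ := hall
      rcases w3 i hi (by simpa using hs) with ⟨h2, h3⟩ | h3
      · by_cases h0 : i = 0
        · exact ⟨_, List.getElem_mem (show 1 < _ by omega), h3 1 (by omega) (by omega)⟩
        · exact ⟨_, List.getElem_mem (show 0 < _ by omega), h3 0 (by omega) (by omega)⟩
      · exact List.countP_pos_iff.1 (by omega)
  · intro l hl k hk
    have hk' : k < (lev (h - 1 - (l + 1)) t).length := by rwa [hn (l + 1) hl] at hk
    obtain ⟨w1, w2, w3, w4⟩ := hwf (l + 1) hl k hk'
    rw [hSc l hl k hk']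
    by_cases hall : ∃ i, ∃ hi : i < ((lev (h - 1 - (l + 1)) t)[k]).kids.length,
        sat m (((lev (h - 1 - (l + 1)) t)[k]).kids[i]) = false
    · obtain ⟨i, hi, hs⟩ := hall
      rcases w3 i hi hs with ⟨h2, h3⟩ | h3
      · left
        rw [Uc, Finset.card_le_one]
        have key : ∀ j ∈ (Finset.Ico (tq h t (l + 1) k) (tq h t (l + 1) (k + 1))).filter
            (fun j => tq h t l (j + 1) ≠ tq h t l j + m), j = tq h t (l + 1) k + i := by
          intro j hj
          rw [Finset.mem_filter, Finset.mem_Ico, hq (l + 1) hl k hk'] at hj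
          obtain ⟨⟨hj1, hj2⟩, hj3⟩ := hj
          by_contra hne
          have h4 := (hchild l hl k hk' (j - tq h t (l + 1) k) (by omega)).2
            (h3 _ (by omega) (by omega))
          have h5 : tq h t (l + 1) k + (j - tq h t (l + 1) k) = j := by omega
          rw [h5] at h4
          exact hj3 h4
        intro a ha b hb
        rw [key a ha, key b hb]
      · right
        omega
    · left
      have h5 : Uc m (tq h t) l (tq h t (l + 1) k) (tq h t (l + 1) (k + 1)) = 0 := by
        rw [Uc, Finset.card_eq_zero, Finset.filter_eq_empty_iff]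
        intro j hj
        rw [Finset.mem_Ico, hq (l + 1) hl k hk'] at hj
        push Not at hall
        rw [not_not]
        have h4 := (hchild l hl k hk' (j - tq h t (l + 1) k) (by omega)).2
          (by simpa using hall (j - tq h t (l + 1) k) (by omega))
        have h5 : tq h t (l + 1) k + (j - tq h t (l + 1) k) = j := by omega
        rwa [h5] at h4
      omega

end DMS
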