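import Pool.Agent.DMS.All1
import Pool.Agent.DMS.StD

/-!
# DMS, module D10: final assembly
-/

namespace DMS

/-- The real estimate. -/
theorem d10_real (m b N : ℕ) (hm : 2 ≤ m) (hb : 4 ≤ b) (hN : N ≤ m ^ (4 * b + 1)) :
    (N : ℝ) ^ (Real.log 2 / (20 * Real.log m)) ≤ (2 : ℝ) ^ (b - 2) := by
  have hm1 : (1 : ℝ) < m := by exact_mod_cast (by omega : 1 < m)
  have hlm : 0 < Real.log m := Real.log_pos hm1
  have hl2 : 0 < Real.log 2 := Real.log_pos (by norm_num)
  have hc : 0 ≤ Real.log 2 / (20 * Real.log m) := by positivity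
  have h1 : (N : ℝ) ≤ (m : ℝ) ^ (4 * b + 1) := by exact_mod_cast hN
  have hp : (0 : ℝ) < (m : ℝ) ^ (4 * b + 1) := by positivity
  refine (Real.rpow_le_rpow (Nat.cast_nonneg N) h1 hc).trans ?_
  rw [Real.rpow_def_of_pos hp, Real.log_pow]
  have h2 : ((4 * b + 1 : ℕ) : ℝ) * Real.log m * (Real.log 2 / (20 * Real.log m)) =
      ((4 * b + 1 : ℕ) : ℝ) / 20 * Real.log 2 := by
    field_simp
  rw [h2]
  have h3 : (2 : ℝ) ^ (b - 2) = Real.exp (((b - 2 : ℕ) : ℝ) * Real.log 2) := by
    rw [Real.exp_nat_mul, Real.exp_log (by norm_num)]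
  rw [h3, Real.exp_le_exp]
  refine mul_le_mul_of_nonneg_right ?_ hl2.le
  have h4 : ((4 * b + 1 : ℕ) : ℝ) ≤ ((b - 2 : ℕ) : ℝ) * 20 := by
    exact_mod_cast (by omega : 4 * b + 1 ≤ (b - 2) * 20)
  linarith

/-- A strictly increasing list with the members `0, ..., n - 1`. -/
theorem d10_range (L : List ℕ) (n : ℕ) (hL : L.Pairwise (· < ·)) (h : ∀ k, k ∈ L ↔ k < n) :
    L = List.range n :=
  List.Pairwise.eq_of_mem_iff hL List.pairwise_lt_range (fun a => by rw [h a, List.mem_range])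

theorem thm_D10 (hC12 : St_C12) (hD1 : St_D1) (hD2 : St_D2) (hD3 : St_D3) (hD4 : St_D4)
    (hD6 : St_D6) (hD7 : St_D7) (hD9 : St_D9) : St_D10 := by
  intro m r hr hm
  have hg : 1 ≤ m - r := by omega
  have hm2 : 10000 ≤ m := by omega
  have hlm : 0 < Real.log m := Real.log_pos (by exact_mod_cast (by omega : 1 < m))
  have hl2 : 0 < Real.log 2 := Real.log_pos (by norm_num)
  refine ⟨Real.log 2 / (20 * Real.log m), by positivity, ?_⟩
  intro N₀
  set p : Par := ⟨m, m - r, N₀ + 4⟩ with hp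
  have hok : p.Ok := ⟨hg, hm, by simp [hp]⟩
  have hbp : p.b = N₀ + 4 := rfl
  have hmp : p.m = m := rfl
  have hgp : p.m - p.g = r := by
    change m - (m - r) = r
    omega
  obtain ⟨s1, s2, -, -, -⟩ := w7 p hok
  obtain ⟨i1, -⟩ := hD4 p hok
  have hlen : (inorder (4 * p.b + 1) (hard p)).length = len p 0 - 1 := by
    rw [i1, List.length_range']
  have hwf := hD3 p hok
  rw [hgp] at hwf
  have hbig : N₀ ≤ p.m ^ (2 * p.b) := by
    have e1 : 2 * p.b < p.m ^ (2 * p.b) := Nat.lt_pow_self (by rw [hmp]; omega)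
    omega
  refine ⟨4 * p.b + 1, hard p, 0, ⟨hwf, ?_, Or.inr ?_⟩, ?_, ?_, ?_⟩
  · rw [i1]
    exact List.pairwise_lt_range' 1
  · have : (hard p).kids.length = m := by
      simp [hard, bt, Tree.kids_node, sz, hmp]
    omega
  · rw [hlen]
    omega
  · rw [i1, List.mem_range'_1]
    omega
  · intro h' T' hT' hkeys
    obtain ⟨t1, t2, -⟩ := hT'
    obtain ⟨N, hN⟩ : ∃ N, len p 0 = N + 1 := ⟨len p 0 - 1, by omega⟩
    have hin : inorder h' T' = List.range (N + 1) := by
      refine d10_range _ _ t2 (fun k => ?_)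
      rw [hkeys k, i1, List.mem_range'_1, hN]
      omega
    have hh : 1 ≤ h' := by
      by_contra hc
      have h0 : h' = 0 := by omega
      subst h0
      simp [inorder, List.range_succ] at hin
    obtain ⟨S, hS1, hS2, hS3⟩ := hD1 m r (by omega) hr h' T' t1
    have hcost : newNodes (4 * p.b + 1) (hard p) h' T' = cost p S := by
      refine hD6 p hok h' T' N ?_ hin S hS1 hS2 hS3
      rw [hgp]
      exact t1
    have hn0 : S.n 0 = len p 0 + 1 := by
      rw [hS2, (hD2 m r h' T' t1).1, hin, List.length_range, hN]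
    have hcx : Cx p S := ⟨hok, hn0⟩
    have hmain : 2 ^ (p.b - 2) ≤ cost p S := by
      by_cases hc : cost p S + 2 ≤ p.m ^ p.b
      · have e1 := hC12 p S hcx (hD9 p S hcx hc)
        have e2 := hD7 p S hcx (by rw [hS1]; exact hh)
        omega
      · push Not at hc
        have e1 : 2 ^ p.b ≤ p.m ^ p.b := Nat.pow_le_pow_left (by rw [hmp]; omega) _
        have e2 : 2 ^ p.b = 2 ^ (p.b - 2) * 4 := by
          rw [show p.b = p.b - 2 + 2 by omega, pow_add]
          simp
        have e3 : 1 ≤ 2 ^ (p.b - 2) := Nat.one_le_two_pow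
        omega
    rw [hcost, hlen]
    refine (d10_real m p.b (len p 0 - 1) (by omega) hok.2.2 ?_).trans ?_
    · rw [hmp] at s1
      omega
    · exact_mod_cast hmain

end DMS
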