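import Pool.Agent.DMS.StD

/-!
# DMS D2: key lists of the nodes inside the inorder list
-/

namespace DMS

/-- separators of the levels -/
def d2_sp (t : Tree) : ℕ → List ℕ
  | 0 => []
  | d + 1 => weave (d2_sp t d) ((lev d t).map Tree.keys)

theorem d2_weave_append (g : List (List ℕ)) (k : ℕ) (b : List ℕ) : ∀ (A : List (List ℕ)) (a : List ℕ),
    a.length + 1 = A.length → weave (a ++ k :: b) (A ++ g) = weave a A ++ k :: weave b g := by
  intro A
  induction A with
  | nil => intro a ha; simp at ha
  | cons x A ih =>
    intro a ha
    cases a with
    | nil =>
      have hA : A = [] := by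
        simpa using ha
      subst hA
      simp [weave]
    | cons c a =>
      have h1 : a.length + 1 = A.length := by simpa using ha
      have h2 := ih a h1
      simp only [List.cons_append, weave, h2, List.append_assoc]

theorem d2_assoc (f : Tree → List ℕ) : ∀ (N : List Tree) (s : List ℕ), s.length + 1 = N.length →
    (∀ v ∈ N, v.keys.length + 1 = v.kids.length) →
    weave s (N.map fun v => weave v.keys (v.kids.map f)) =
      weave (weave s (N.map Tree.keys)) ((N.flatMap Tree.kids).map f) := by
  intro N
  induction N with
  | nil => intro s hs; simp at hs
  | cons v N ih =>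
    intro s hs hN
    cases s with
    | nil =>
      have hA : N = [] := by
        simpa using hs
      subst hA
      simp [weave]
    | cons k s =>
      have h1 : s.length + 1 = N.length := by simpa using hs
      have h2 := ih s h1 (fun v hv => hN v (List.mem_cons_of_mem _ hv))
      have h3 : v.keys.length + 1 = (v.kids.map f).length := by
        rw [List.length_map]
        exact hN v (List.mem_cons_self)
      simp only [List.map_cons, weave, List.flatMap_cons, List.map_append]
      rw [d2_weave_append _ _ _ _ _ h3, h2]

theorem d2_length : ∀ (L : List (List ℕ)) (s : List ℕ), s.length + 1 = L.length →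
    (weave s L).length + 1 = (L.map fun l => l.length + 1).sum := by
  intro L
  induction L with
  | nil => intro s hs; simp at hs
  | cons v N ih =>
    intro s hs
    cases s with
    | nil =>
      have hA : N = [] := by
        simpa using hs
      subst hA
      simp [weave]
    | cons k s =>
      have h1 : s.length + 1 = N.length := by simpa using hs
      have h2 := ih s h1
      simp only [List.map_cons, weave, List.length_append, List.length_cons, List.sum_cons]
      omega

theorem d2_entry : ∀ (L : List (List ℕ)) (s : List ℕ) (k : ℕ) (x : List ℕ) (i : ℕ), s.length + 1 = L.length →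
    L[k]? = some x → i < x.length →
    (weave s L)[((L.take k).map fun l => l.length + 1).sum + i]? = x[i]? := by
  intro L
  induction L with
  | nil => intro s k x i hs; simp at hs
  | cons v N ih =>
    intro s k x i hs hk hi
    cases s with
    | nil =>
      have hA : N = [] := by
        simpa using hs
      subst hA
      cases k with
      | zero =>
        simp at hk
        subst hk
        simp [weave]
      | succ k => simp at hk
    | cons a s =>
      have h1 : s.length + 1 = N.length := by simpa using hs
      cases k with
      | zero =>
        simp at hk
        subst hk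
        simp only [weave, List.take_zero, List.map_nil, List.sum_nil, zero_add]
        rw [List.getElem?_append_left hi]
      | succ k =>
        have hk' : N[k]? = some x := by simpa using hk
        have h2 := ih s k x i h1 hk' hi
        simp only [weave, List.take_succ_cons, List.map_cons, List.sum_cons]
        rw [List.getElem?_append_right (by omega)]
        have h3 : v.length + 1 + ((N.take k).map fun l => l.length + 1).sum + i - v.length =
            (((N.take k).map fun l => l.length + 1).sum + i) + 1 := by omega
        rw [h3, List.getElem?_cons_succ, h2]

theorem d2_sep : ∀ (L : List (List ℕ)) (s : List ℕ) (j : ℕ), s.length + 1 = L.length → j < s.length →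
    (weave s L)[((L.take (j + 1)).map fun l => l.length + 1).sum - 1]? = s[j]? := by
  intro L
  induction L with
  | nil => intro s k hs; simp at hs
  | cons v N ih =>
    intro s j hs hj
    cases s with
    | nil => simp at hj
    | cons a s =>
      have h1 : s.length + 1 = N.length := by simpa using hs
      cases j with
      | zero =>
        simp [weave]
      | succ j =>
        have hj' : j < s.length := by simpa using hj
        have h2 := ih s j h1 hj'
        simp only [weave, List.take_succ_cons (i := j + 1), List.map_cons, List.sum_cons]
        have h4 : 1 ≤ ((N.take (j + 1)).map fun l => l.length + 1).sum := by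
          cases N with
          | nil => simp at h1
          | cons w N =>
            simp only [List.take_succ_cons, List.map_cons, List.sum_cons]
            omega
        rw [List.getElem?_append_right (by omega)]
        have h3 : v.length + 1 + ((N.take (j + 1)).map fun l => l.length + 1).sum - 1 - v.length =
            (((N.take (j + 1)).map fun l => l.length + 1).sum - 1) + 1 := by omega
        rw [h3, List.getElem?_cons_succ, h2, List.getElem?_cons_succ]

theorem d2_wf (m r : ℕ) (h : ℕ) (t : Tree) (ht : Wf m r h t) : ∀ d, d ≤ h → ∀ v ∈ lev d t, Wf m r (h - d) v := by
  intro d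
  induction d with
  | zero =>
    intro _ v hv
    simp [lev] at hv
    subst hv
    exact ht
  | succ d ih =>
    intro hd v hv
    simp only [lev, List.mem_flatMap] at hv
    obtain ⟨w, hw, hvw⟩ := hv
    have h1 := ih (by omega) w hw
    have h2 : h - d = (h - (d + 1)) + 1 := by omega
    rw [h2] at h1
    exact h1.2.2.2 v hvw

theorem d2_keys (m r : ℕ) (h : ℕ) (t : Tree) (ht : Wf m r h t) (d : ℕ) (hd : d < h) (v : Tree) (hv : v ∈ lev d t) :
    v.keys.length + 1 = v.kids.length := by
  have h1 := d2_wf m r h t ht d hd.le v hv
  have h2 : h - d = (h - (d + 1)) + 1 := by omega
  rw [h2] at h1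
  exact h1.1

theorem d2_main (m r : ℕ) (h : ℕ) (t : Tree) (ht : Wf m r h t) : ∀ d, d ≤ h →
    (d2_sp t d).length + 1 = (lev d t).length ∧
    inorder h t = weave (d2_sp t d) ((lev d t).map (inorder (h - d))) := by
  intro d
  induction d with
  | zero =>
    intro _
    simp [lev, d2_sp, weave]
  | succ d ih =>
    intro hd
    obtain ⟨h1, h2⟩ := ih (by omega)
    have hk : ∀ v ∈ lev d t, v.keys.length + 1 = v.kids.length :=
      fun v hv => d2_keys m r h t ht d (by omega) v hv
    constructor
    · simp only [d2_sp, lev]
      rw [d2_length _ _ (by rw [List.length_map]; exact h1), List.map_map, List.length_flatMap]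
      congr 1
      refine List.map_congr_left fun v hv => ?_
      exact hk v hv
    · have h3 : h - d = (h - (d + 1)) + 1 := by omega
      rw [h2, h3]
      exact d2_assoc (inorder (h - (d + 1))) (lev d t) (d2_sp t d) h1 hk

theorem d2_take (N : List Tree) (k : ℕ) :
    (N.flatMap Tree.kids).take (((N.take k).map fun v => v.kids.length).sum) = (N.take k).flatMap Tree.kids := by
  conv_lhs => rw [← List.take_append_drop k N, List.flatMap_append]
  have h1 : (((List.take k (List.take k N ++ List.drop k N))).map fun v => v.kids.length).sum =
      ((N.take k).flatMap Tree.kids).length := by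
    rw [List.take_append_drop, List.length_flatMap]
  rw [h1]
  exact List.take_left

theorem d2_len_le (N : List Tree) (k : ℕ) :
    ((N.take k).map fun v => v.kids.length).sum ≤ (N.flatMap Tree.kids).length := by
  have h1 : ((N.take k).map fun v => v.kids.length).sum = ((N.take k).flatMap Tree.kids).length := by
    rw [List.length_flatMap]
  rw [h1]
  conv_rhs => rw [← List.take_append_drop k N, List.flatMap_append, List.length_append]
  omega

theorem d2_pos (m r : ℕ) (h : ℕ) (t : Tree) (ht : Wf m r h t) : ∀ l, l ≤ h → ∀ k, k ≤ (lev (h - l) t).length →
    pos (tq h t) l k = (((lev (h - l) t).take k).map fun v => (inorder l v).length + 1).sum := by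
  intro l
  induction l with
  | zero =>
    intro _ k hk
    simp only [pos, inorder, List.length_nil, zero_add]
    have : ∀ L : List Tree, (L.map fun _ => 1).sum = L.length := by
      intro L
      induction L with
      | nil => rfl
      | cons a L ih => rw [List.map_cons, List.sum_cons, ih, List.length_cons, add_comm]
    rw [this, List.length_take]
    omega
  | succ l ih =>
    intro hl k hk
    have e1 : h - 1 - l = h - (l + 1) := by omega
    have e2 : h - l = (h - (l + 1)) + 1 := by omega
    simp only [pos]
    have h1 : tq h t l k = (((lev (h - (l + 1)) t).take k).map fun v => v.kids.length).sum := by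
      simp only [tq, e1]
    have h2 : lev (h - l) t = (lev (h - (l + 1)) t).flatMap Tree.kids := by
      rw [e2]
      rfl
    have h3 : tq h t l k ≤ (lev (h - l) t).length := by
      rw [h1, h2]
      exact d2_len_le _ _
    rw [ih (by omega) _ h3, h1, h2, d2_take]
    have hw : ∀ v ∈ lev (h - (l + 1)) t, v.keys.length + 1 = v.kids.length :=
      fun v hv => d2_keys m r h t ht _ (by omega) v hv
    have key : ∀ L : List Tree, (∀ v ∈ L, v.keys.length + 1 = v.kids.length) →
        ((L.flatMap Tree.kids).map fun v => (inorder l v).length + 1).sum =
          (L.map fun v => (inorder (l + 1) v).length + 1).sum := by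
      intro L
      induction L with
      | nil => intro _; rfl
      | cons a L ih =>
        intro hL
        rw [List.flatMap_cons, List.map_append, List.sum_append, List.map_cons, List.sum_cons,
          ih (fun v hv => hL v (List.mem_cons_of_mem _ hv))]
        congr 1
        have h4 := d2_length (a.kids.map (inorder l)) a.keys (by
          rw [List.length_map]
          exact hL a List.mem_cons_self)
        simp only [inorder]
        rw [h4, List.map_map]
        rfl
    exact key _ (fun v hv => hw v (List.mem_of_mem_take hv))

theorem thm_D2 : St_D2 := by
  intro m r h t ht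
  constructor
  · obtain ⟨h1, h2⟩ := d2_main m r h t ht h le_rfl
    have h3 := d2_length _ _ (show (d2_sp t h).length + 1 = ((lev h t).map (inorder (h - h))).length by
      rw [List.length_map]; exact h1)
    rw [← h2, List.map_map] at h3
    rw [h3]
    have : ∀ L : List Tree, (L.map ((fun l : List ℕ => l.length + 1) ∘ inorder (h - h))).sum = L.length := by
      intro L
      rw [Nat.sub_self]
      induction L with
      | nil => rfl
      | cons a L ih =>
        rw [List.map_cons, List.sum_cons, ih, List.length_cons, Function.comp_apply]
        simp only [inorder, List.length_nil]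
        omega
    rw [this]
    simp [tn]
  · intro l hl k v hv
    have e1 : h - 1 - l + 1 = h - l := by omega
    have hvm : v ∈ lev (h - 1 - l) t := List.mem_of_getElem? hv
    have hkk := d2_keys m r h t ht (h - 1 - l) (by omega) v hvm
    have hkids : tq h t l (k + 1) = tq h t l k + v.kids.length := by
      simp only [tq]
      rw [List.take_add_one, hv]
      simp
    have h0 : v.kids.length = tq h t l (k + 1) - tq h t l k := by omega
    refine ⟨h0, ?_⟩
    have hall : ∀ w ∈ lev (h - 1 - l) t, w.keys.length + 1 = w.kids.length :=
      fun w hw => d2_keys m r h t ht _ (by omega) w hw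
    obtain ⟨hs1, -⟩ := d2_main m r h t ht (h - 1 - l) (by omega)
    obtain ⟨hs2, hs3⟩ := d2_main m r h t ht (h - 1 - l + 1) (by omega)
    have hlev : lev (h - 1 - l + 1) t = (lev (h - 1 - l) t).flatMap Tree.kids := rfl
    have e3 : h - (h - 1 - l + 1) = l := by omega
    rw [e3] at hs3
    refine List.ext_getElem? fun i => ?_
    rw [List.getElem?_map]
    by_cases hi : i < v.keys.length
    · rw [List.getElem?_range' (by omega)]
      simp only [Option.map_some]
      -- the entry in the separators
      have h4 := d2_entry ((lev (h - 1 - l) t).map Tree.keys) (d2_sp t (h - 1 - l)) k v.keys i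
        (by rw [List.length_map]; exact hs1) (by rw [List.getElem?_map, hv]; rfl) hi
      have h5 : (((((lev (h - 1 - l) t).map Tree.keys)).take k).map fun l => l.length + 1).sum = tq h t l k := by
        simp only [tq]
        rw [← List.map_take, List.map_map]
        congr 1
        refine List.map_congr_left fun w hw => ?_
        exact hall w (List.mem_of_mem_take hw)
      rw [h5] at h4
      have h6 : d2_sp t (h - 1 - l + 1) = weave (d2_sp t (h - 1 - l)) ((lev (h - 1 - l) t).map Tree.keys) := rfl
      rw [← h6] at h4
      have h7 : tq h t l k + i < (d2_sp t (h - 1 - l + 1)).length := by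
        by_contra hcon
        push Not at hcon
        rw [List.getElem?_eq_none hcon, List.getElem?_eq_getElem hi] at h4
        exact absurd h4.symm (Option.some_ne_none _)
      have h8 := d2_sep ((lev (h - 1 - l + 1) t).map (inorder l)) (d2_sp t (h - 1 - l + 1)) (tq h t l k + i)
        (by rw [List.length_map]; exact hs2) h7
      rw [← hs3, h4] at h8
      have h9 : (((((lev (h - 1 - l + 1) t).map (inorder l))).take (tq h t l k + i + 1)).map fun l => l.length + 1).sum =
          pos (tq h t) l (tq h t l k + 1 + i) := by
        rw [d2_pos m r h t ht l hl.le _ (by rw [← e1]; omega), ← List.map_take, List.map_map, e1]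
        have e4 : tq h t l k + i + 1 = tq h t l k + 1 + i := by omega
        rw [e4]
        rfl
      rw [h9] at h8
      have e5 : tq h t l k + 1 + 1 * i = tq h t l k + 1 + i := by omega
      rw [e5, List.getD_eq_getElem?_getD, h8, List.getElem?_eq_getElem hi]
      rfl
    · rw [List.getElem?_eq_none (by omega), List.getElem?_eq_none (by rw [List.length_range']; omega)]
      rfl

end DMS
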