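import Pool.Agent.DMS.StA

namespace DMS

/-- every node has a parent. -/
theorem locate (h1 : St_W1) (h2 : St_W2) {p : Par} (hok : p.Ok) {l : ℕ} (hl : l ≤ 4 * p.b)
    {j : ℕ} (hj : j < len p l) :
    ∃ k s, k < len p (l + 1) ∧ s < sz p (V p (l + 1) k) ∧ j = c p l k + s ∧ k = par p l j := by
  obtain ⟨-, -, hW⟩ := h1 p
  obtain ⟨hc0, hcs, hlen, -⟩ := hW l hl
  obtain ⟨-, hpar, -, -⟩ := h2 p hok l hl
  obtain ⟨h3, h4, h5⟩ := hpar j
  have h6 : par p l j < len p (l + 1) := by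
    rcases Nat.lt_or_ge (par p l j) (len p (l + 1)) with h | h
    · exact h
    · exfalso
      have h7 : par p l j = len p (l + 1) := by omega
      rw [h7, ← hlen] at h4
      omega
  have h7 := h5 h6
  rw [hcs _ h6] at h7
  exact ⟨par p l j, j - c p l (par p l j), h6, by omega, by omega, rfl⟩

theorem alt_even (s : ℕ) : alt (2 * s) = .R := by simp [alt]

theorem alt_cases (s : ℕ) : (s % 2 = 0 ∧ alt s = .R) ∨ (s % 2 = 1 ∧ alt s = .L) := by
  unfold alt
  rcases Nat.mod_two_eq_zero_or_one s with h | h <;> simp [h]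

theorem lb_cases (s : ℕ) : (s % 21 = 20 ∧ lb s = .U) ∨
    (s % 21 ≠ 20 ∧ (s % 21) % 2 = 0 ∧ lb s = .R) ∨ ((s % 21) % 2 = 1 ∧ lb s = .L) := by
  unfold lb
  by_cases h : s % 21 = 20
  · left; simp [h]
  · right
    rcases Nat.mod_two_eq_zero_or_one (s % 21) with h' | h' <;> simp [h, h']

theorem rb_cases (s : ℕ) : (s % 21 = 0 ∧ rb s = .U) ∨
    (s % 21 ≠ 0 ∧ (s % 21) % 2 = 0 ∧ rb s = .L) ∨ ((s % 21) % 2 = 1 ∧ rb s = .R) := by
  unfold rb
  by_cases h : s % 21 = 0
  · left; simp [h]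
  · right
    rcases Nat.mod_two_eq_zero_or_one (s % 21) with h' | h' <;> simp [h, h']

theorem ch_C (p : Par) (l s : ℕ) : ch p l .C s = .C := rfl
theorem ch_P (p : Par) (l s : ℕ) : ch p l .P s =
    if s = 0 then (if l = 2 * p.b then .C else .P) else alt (s - 1) := rfl
theorem ch_R (p : Par) (l s : ℕ) : ch p l .R s =
    if p.m - 1 - s < 21 * p.g then rb (p.m - 1 - s) else alt s := rfl
theorem ch_L (p : Par) (l s : ℕ) : ch p l .L s =
    if s < 21 * p.g then lb s else alt (s - 21 * p.g) := rfl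
theorem ch_U (p : Par) (l s : ℕ) : ch p l .U s =
    if s < 21 then lb s else alt (s - 21) := rfl
theorem ch_Q (p : Par) (l s : ℕ) : ch p l .Q s =
    if s = 0 then .P else if p.m - 1 - s < 21 * p.g then rb (p.m - 1 - s)
      else alt (s - 1) := rfl

/-- only `P`, `C`, `Q` have children of type `P`, `C`. -/
theorem ch_RLU (p : Par) (l : ℕ) {τ : Ty} (hτ : τ = .R ∨ τ = .L ∨ τ = .U) (s : ℕ) :
    ch p l τ s = .R ∨ ch p l τ s = .L ∨ ch p l τ s = .U := by
  rcases hτ with rfl | rfl | rfl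
  · rw [ch_R]
    split_ifs
    · rcases rb_cases (p.m - 1 - s) with h | h | h <;> simp [h]
    · rcases alt_cases s with h | h <;> simp [h]
  · rw [ch_L]
    split_ifs
    · rcases lb_cases s with h | h | h <;> simp [h]
    · rcases alt_cases (s - 21 * p.g) with h | h <;> simp [h]
  · rw [ch_U]
    split_ifs
    · rcases lb_cases s with h | h | h <;> simp [h]
    · rcases alt_cases (s - 21) with h | h <;> simp [h]

theorem ch_PQ_pos (p : Par) (l : ℕ) {τ : Ty} (hτ : τ = .P ∨ τ = .Q) {s : ℕ} (hs : s ≠ 0) :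
    ch p l τ s = .R ∨ ch p l τ s = .L ∨ ch p l τ s = .U := by
  rcases hτ with rfl | rfl
  · rw [ch_P, if_neg hs]
    rcases alt_cases (s - 1) with h | h <;> simp [h]
  · rw [ch_Q, if_neg hs]
    split_ifs
    · rcases rb_cases (p.m - 1 - s) with h | h | h <;> simp [h]
    · rcases alt_cases (s - 1) with h | h <;> simp [h]

end DMS
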