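import Pool.Agent.DMS.StD
import Pool.Agent.DMS.Basic

/-!
# DMS, module D3: the hard tree is dense
-/

namespace DMS

theorem d3_count {m g : ℕ} (P : ℕ → Prop) [DecidablePred P] (f : ℕ → ℕ)
    (h1 : ∀ s, s < m → P s → f s < g)
    (h2 : ∀ s s', s < m → s' < m → P s → P s' → f s = f s' → s = s') :
    (List.range m).countP (fun s => decide (P s)) ≤ g := by
  have e : (List.range m).countP (fun s => decide (P s)) = Nat.count P m := rfl
  rw [e, Nat.count_eq_card_filter_range]
  have h := Finset.card_le_card_of_injOn (s := (Finset.range m).filter P) (t := Finset.range g) f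
    (fun s hs => by
      have hs' := Finset.mem_filter.1 (Finset.mem_coe.1 hs)
      exact Finset.mem_coe.2 (Finset.mem_range.2 (h1 s (Finset.mem_range.1 hs'.1) hs'.2)))
    (fun s hs s' hs' he => by
      have a := Finset.mem_filter.1 (Finset.mem_coe.1 hs)
      have b := Finset.mem_filter.1 (Finset.mem_coe.1 hs')
      exact h2 s s' (Finset.mem_range.1 a.1) (Finset.mem_range.1 b.1) a.2 b.2 he)
  rwa [Finset.card_range] at h

theorem d3_alt (s : ℕ) : alt s ≠ .U := by
  rcases alt_cases s with ⟨-, h⟩ | ⟨-, h⟩ <;> rw [h] <;> decide

theorem d3_lb {s : ℕ} (h : lb s = .U) : s % 21 = 20 := by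
  rcases lb_cases s with ⟨h1, -⟩ | ⟨-, -, h1⟩ | ⟨-, h1⟩
  · exact h1
  · rw [h1] at h; exact absurd h (by decide)
  · rw [h1] at h; exact absurd h (by decide)

theorem d3_rb {s : ℕ} (h : rb s = .U) : s % 21 = 0 := by
  rcases rb_cases s with ⟨h1, -⟩ | ⟨-, -, h1⟩ | ⟨-, h1⟩
  · exact h1
  · rw [h1] at h; exact absurd h (by decide)
  · rw [h1] at h; exact absurd h (by decide)

/-- letters of the words `R`, `L`, `Q`. -/
theorem d3_letters (p : Par) (l : ℕ) {τ : Ty} (hτ : τ = .R ∨ τ = .L ∨ τ = .Q) :
    (List.range p.m).countP (fun s => decide (ch p l τ s = .U)) ≤ p.g := by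
  rcases hτ with rfl | rfl | rfl
  · have key : ∀ s, ch p l .R s = .U → p.m - 1 - s < 21 * p.g ∧ (p.m - 1 - s) % 21 = 0 := by
      intro s hs
      rw [ch_R] at hs
      split_ifs at hs with h
      · exact ⟨h, d3_rb hs⟩
      · exact absurd hs (d3_alt _)
    refine d3_count (fun s => ch p l .R s = .U) (fun s => (p.m - 1 - s) / 21) ?_ ?_
    · intro s _ h2
      obtain ⟨h3, h4⟩ := key s h2
      show (p.m - 1 - s) / 21 < p.g
      omega
    · intro s s' h1 h1' h2 h2' he
      obtain ⟨h3, h4⟩ := key s h2
      obtain ⟨h3', h4'⟩ := key s' h2'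
      have he' : (p.m - 1 - s) / 21 = (p.m - 1 - s') / 21 := he
      omega
  · have key : ∀ s, ch p l .L s = .U → s < 21 * p.g ∧ s % 21 = 20 := by
      intro s hs
      rw [ch_L] at hs
      split_ifs at hs with h
      · exact ⟨h, d3_lb hs⟩
      · exact absurd hs (d3_alt _)
    refine d3_count (fun s => ch p l .L s = .U) (fun s => s / 21) ?_ ?_
    · intro s _ h2
      obtain ⟨h3, h4⟩ := key s h2
      show s / 21 < p.g
      omega
    · intro s s' h1 h1' h2 h2' he
      obtain ⟨h3, h4⟩ := key s h2
      obtain ⟨h3', h4'⟩ := key s' h2'
      have he' : s / 21 = s' / 21 := he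
      omega
  · have key : ∀ s, ch p l .Q s = .U → p.m - 1 - s < 21 * p.g ∧ (p.m - 1 - s) % 21 = 0 := by
      intro s hs
      rw [ch_Q] at hs
      split_ifs at hs with h1 h
      · exact ⟨h, d3_rb hs⟩
      · exact absurd hs (d3_alt _)
    refine d3_count (fun s => ch p l .Q s = .U) (fun s => (p.m - 1 - s) / 21) ?_ ?_
    · intro s _ h2
      obtain ⟨h3, h4⟩ := key s h2
      show (p.m - 1 - s) / 21 < p.g
      omega
    · intro s s' h1 h1' h2 h2' he
      obtain ⟨h3, h4⟩ := key s h2
      obtain ⟨h3', h4'⟩ := key s' h2'
      have he' : (p.m - 1 - s) / 21 = (p.m - 1 - s') / 21 := he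
      omega

theorem d3_sat (p : Par) (l : ℕ) {τ : Ty} (o : ℕ) (h : τ ≠ .U) : sat p.m (bt p l τ o) = true := by
  cases l with
  | zero => rfl
  | succ l =>
    have hsz : sz p τ = p.m := by
      cases τ <;> first | rfl | exact absurd rfl h
    show (((List.range (sz p τ)).map fun s => bt p l (ch p l τ s) (o + ps p l τ s)).length == p.m)
      = true
    rw [List.length_map, List.length_range, hsz]
    simp

theorem d3_wf (p : Par) (hok : p.Ok) : ∀ (l : ℕ) (τ : Ty) (o : ℕ),
    Wf p.m (p.m - p.g) l (bt p l τ o) := by
  obtain ⟨hg, hm, -⟩ := hok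
  intro l
  induction l with
  | zero => intro τ o; rfl
  | succ l ih =>
    intro τ o
    have hsz1 : 2 ≤ sz p τ := by
      cases τ <;> simp only [sz] <;> omega
    have hsz2 : sz p τ ≤ p.m := by
      cases τ <;> simp only [sz] <;> omega
    rw [bt, Wf_node]
    refine ⟨?_, ?_, ?_, ?_⟩
    · show ((List.range (sz p τ - 1)).map fun s => o + ps p l τ (s + 1)).length + 1 =
        ((List.range (sz p τ)).map fun s => bt p l (ch p l τ s) (o + ps p l τ s)).length
      rw [List.length_map, List.length_map, List.length_range, List.length_range]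
      omega
    · show ((List.range (sz p τ)).map fun s => bt p l (ch p l τ s) (o + ps p l τ s)).length ≤ p.m
      rw [List.length_map, List.length_range]
      exact hsz2
    · show ∀ i (hi : i <
          ((List.range (sz p τ)).map fun s => bt p l (ch p l τ s) (o + ps p l τ s)).length),
        sat p.m (((List.range (sz p τ)).map fun s => bt p l (ch p l τ s) (o + ps p l τ s))[i]) =
          false →
        (2 ≤ ((List.range (sz p τ)).map fun s => bt p l (ch p l τ s) (o + ps p l τ s)).length ∧
          ∀ j (hj : j <
            ((List.range (sz p τ)).map fun s => bt p l (ch p l τ s) (o + ps p l τ s)).length),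
            j ≠ i → sat p.m
              (((List.range (sz p τ)).map fun s => bt p l (ch p l τ s) (o + ps p l τ s))[j]) =
                true) ∨
        p.m - p.g ≤ ((List.range (sz p τ)).map fun s =>
          bt p l (ch p l τ s) (o + ps p l τ s)).countP (sat p.m)
      intro i hi hs
      rw [List.getElem_map, List.getElem_range] at hs
      have hU : ch p l τ i = .U := by
        by_contra h
        rw [d3_sat p l _ h] at hs
        exact absurd hs (by decide)
      by_cases hτ : τ = .R ∨ τ = .L ∨ τ = .Q
      · right
        have hszm : sz p τ = p.m := by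
          rcases hτ with rfl | rfl | rfl <;> rfl
        rw [hszm, List.countP_map]
        have h1 := d3_letters p l hτ
        have h2 : (List.range p.m).countP (fun s => decide (ch p l τ s = .U)) +
            (List.range p.m).countP (fun s => ! decide (ch p l τ s = .U)) = p.m := by
          have h3 := List.length_eq_countP_add_countP
            (fun s => decide (ch p l τ s = .U)) (l := List.range p.m)
          rw [List.length_range] at h3
          simpa using h3.symm
        have h4 : (List.range p.m).countP (fun s => ! decide (ch p l τ s = .U)) ≤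
            (List.range p.m).countP
              (sat p.m ∘ fun s => bt p l (ch p l τ s) (o + ps p l τ s)) := by
          refine List.countP_mono_left fun s _ hs => ?_
          show sat p.m (bt p l (ch p l τ s) (o + ps p l τ s)) = true
          refine d3_sat p l _ fun hcon => ?_
          rw [hcon] at hs
          exact absurd hs (by decide)
        omega
      · left
        refine ⟨by rw [List.length_map, List.length_range]; exact hsz1, fun j hj hji => ?_⟩
        rw [List.getElem_map, List.getElem_range]
        refine d3_sat p l _ fun hcon => hji ?_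
        have hτU : τ = .U := by
          cases τ with
          | C => rw [ch_C] at hU; exact absurd hU (by decide)
          | P =>
            rw [ch_P] at hU
            split_ifs at hU
            exact absurd hU (d3_alt _)
          | R => exact absurd (Or.inl rfl) hτ
          | L => exact absurd (Or.inr (Or.inl rfl)) hτ
          | U => rfl
          | Q => exact absurd (Or.inr (Or.inr rfl)) hτ
        subst hτU
        have key : ∀ s, ch p l .U s = .U → s = 20 := by
          intro s hs
          rw [ch_U] at hs
          split_ifs at hs with h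
          · have := d3_lb hs
            omega
          · exact absurd hs (d3_alt _)
        rw [key i hU, key j hcon]
    · intro t ht
      have ht' : t ∈ (List.range (sz p τ)).map fun s => bt p l (ch p l τ s) (o + ps p l τ s) := ht
      rw [List.mem_map] at ht'
      obtain ⟨s, -, rfl⟩ := ht'
      exact ih _ _

theorem thm_D3 : St_D3 := fun p hok => d3_wf p hok _ _ _

end DMS
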