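import Pool.Agent.DMS.All1

/-!
# DMS D4: key sequence and levels of the hard tree
-/

namespace DMS

theorem d4_weave : ∀ (n : ℕ) (a w : ℕ → ℕ), (∀ s, a (s + 1) = a s + w s) → (∀ s, s < n + 1 → 1 ≤ w s) →
    weave ((List.range n).map fun s => a (s + 1)) ((List.range (n + 1)).map fun s => List.range' (a s + 1) (w s - 1)) =
      List.range' (a 0 + 1) (a (n + 1) - a 0 - 1) := by
  intro n
  induction n with
  | zero =>
    intro a w ha hw
    have h1 := ha 0
    simp only [List.range_zero, List.map_nil, zero_add, List.range_one, List.map_cons, weave]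
    congr 1
    rw [show (1 : ℕ) = 0 + 1 from rfl, h1]
    omega
  | succ n ih =>
    intro a w ha hw
    have h1 := ih (fun s => a (s + 1)) (fun s => w (s + 1)) (fun s => ha (s + 1)) (fun s hs => hw (s + 1) (by omega))
    have hmono : ∀ k, k ≤ n + 1 → a 0 + w 0 + k ≤ a (k + 1) := by
      intro k
      induction k with
      | zero => intro _; rw [ha 0]; omega
      | succ k ih2 =>
        intro hk
        have h2 := ih2 (by omega)
        have h3 := ha (k + 1)
        have h4 := hw (k + 1) (by omega)
        omega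
    have hm := hmono (n + 1) le_rfl
    have hw0 := hw 0 (by omega)
    have ha0 := ha 0
    rw [List.range_succ_eq_map, List.range_succ_eq_map (n := n + 1)]
    simp only [List.map_cons, List.map_map, weave]
    have h5 : ((fun s => a (s + 1)) ∘ Nat.succ) = fun s => a (s + 1 + 1) := rfl
    have h6 : ((fun s => List.range' (a s + 1) (w s - 1)) ∘ Nat.succ) =
      fun s => List.range' (a (s + 1) + 1) (w (s + 1) - 1) := rfl
    rw [h5, h6, h1]
    simp only [zero_add]
    have h7 : a 1 :: List.range' (a 1 + 1) (a (n + 1 + 1) - a 1 - 1) = List.range' (a 1) (a (n + 1 + 1) - a 1) := by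
      have h8 : a (n + 1 + 1) - a 1 = (a (n + 1 + 1) - a 1 - 1) + 1 := by
        have ha1' : a 1 = a 0 + w 0 := ha 0
        omega
      conv_rhs => rw [h8, List.range'_succ]
    have ha1 : a 1 = a 0 + w 0 := ha 0
    rw [h7]
    have h9 : a 1 = a 0 + 1 + (w 0 - 1) := by omega
    conv_lhs => rw [h9]
    rw [List.range'_append_1]
    congr 1
    omega

theorem d4_ps_succ (p : Par) (l : ℕ) (τ : Ty) (s : ℕ) :
    ps p l τ (s + 1) = ps p l τ s + lf p l (ch p l τ s) := by
  simp [ps, List.range_succ]

theorem d4_ps_zero (p : Par) (l : ℕ) (τ : Ty) : ps p l τ 0 = 0 := by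
  simp [ps]

theorem d4_sz_pos (p : Par) (hok : p.Ok) (τ : Ty) : 1 ≤ sz p τ := by
  obtain ⟨hg, hm, hb⟩ := hok
  cases τ <;> simp only [sz] <;> omega

theorem d4_lf_pos (p : Par) (hok : p.Ok) : ∀ l τ, 1 ≤ lf p l τ := by
  intro l
  induction l with
  | zero => intro τ; simp [lf]
  | succ l ih =>
    intro τ
    have h1 := d4_sz_pos p hok τ
    have h2 : lf p (l + 1) τ = ps p l τ (sz p τ) := rfl
    obtain ⟨n, hn⟩ : ∃ n, sz p τ = n + 1 := ⟨sz p τ - 1, by omega⟩
    rw [h2, hn, d4_ps_succ]
    have h3 := ih (ch p l τ n)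
    omega

theorem d4_inorder (p : Par) (hok : p.Ok) : ∀ l τ o,
    inorder l (bt p l τ o) = List.range' (o + 1) (lf p l τ - 1) := by
  intro l
  induction l with
  | zero => intro τ o; simp [inorder, lf]
  | succ l ih =>
    intro τ o
    have h1 := d4_sz_pos p hok τ
    obtain ⟨n, hn⟩ : ∃ n, sz p τ = n + 1 := ⟨sz p τ - 1, by omega⟩
    have h2 : lf p (l + 1) τ = ps p l τ (n + 1) := by
      rw [← hn]
      rfl
    simp only [inorder, bt, Tree.keys_node, Tree.kids_node, hn, List.map_map]
    have h3 : (inorder l ∘ fun s => bt p l (ch p l τ s) (o + ps p l τ s)) =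
        fun s => List.range' ((fun s => o + ps p l τ s) s + 1) ((fun s => lf p l (ch p l τ s)) s - 1) := by
      funext s
      exact ih _ _
    rw [h3, Nat.add_sub_cancel]
    have h4 := d4_weave n (fun s => o + ps p l τ s) (fun s => lf p l (ch p l τ s))
      (fun s => by simp only [d4_ps_succ]; omega) (fun s _ => d4_lf_pos p hok l _)
    simp only [d4_ps_zero, add_zero] at h4
    rw [h2]
    refine h4.trans ?_
    congr 1
    omega

theorem d4_step (p : Par) (l : ℕ) (hl : l ≤ 4 * p.b)
    (ih : ∀ k, k < len p l → pos (c p) l (k + 1) = pos (c p) l k + lf p l (V p l k)) (k : ℕ)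
    (hk : k < len p (l + 1)) : ∀ s, s ≤ sz p (V p (l + 1) k) → c p l k + s ≤ len p l →
      pos (c p) l (c p l k + s) = pos (c p) (l + 1) k + ps p l (V p (l + 1) k) s := by
  obtain ⟨-, -, hW⟩ := w1 p
  obtain ⟨hc0, hcs, hlen, hV⟩ := hW l hl
  intro s
  induction s with
  | zero =>
    intro _ _
    rw [d4_ps_zero]
    rfl
  | succ s ih2 =>
    intro hs hle
    have h1 := ih2 (by omega) (by omega)
    have h2 := ih (c p l k + s) (by omega)
    rw [← Nat.add_assoc, h2, h1, hV k hk s (by omega), d4_ps_succ]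
    omega

theorem d4_clen (p : Par) (hok : p.Ok) (l : ℕ) (hl : l ≤ 4 * p.b) (k : ℕ) (hk : k < len p (l + 1)) :
    c p l k + sz p (V p (l + 1) k) ≤ len p l := by
  obtain ⟨-, -, hW⟩ := w1 p
  obtain ⟨hc0, hcs, hlen, hV⟩ := hW l hl
  have h1 := ((w2 p hok l hl).1 (k + 1) (len p (l + 1)) (by omega) le_rfl).1
  rw [← hlen, hcs k hk] at h1
  omega

theorem d4_pos (p : Par) (hok : p.Ok) : ∀ l, l ≤ 4 * p.b + 1 → ∀ k, k < len p l →
    pos (c p) l (k + 1) = pos (c p) l k + lf p l (V p l k) := by
  intro l
  induction l with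
  | zero =>
    intro _ k _
    simp [pos, lf]
  | succ l ih =>
    intro hl k hk
    obtain ⟨-, -, hW⟩ := w1 p
    obtain ⟨hc0, hcs, hlen, hV⟩ := hW l (by omega)
    have h1 := d4_step p l (by omega) (ih (by omega)) k hk (sz p (V p (l + 1) k)) le_rfl
      (d4_clen p hok l (by omega) k hk)
    have h2 : pos (c p) (l + 1) (k + 1) = pos (c p) l (c p l (k + 1)) := rfl
    rw [h2, hcs k hk, h1]
    rfl

theorem d4_pos_zero (p : Par) : ∀ l, pos (c p) l 0 = 0 := by
  intro l
  induction l with
  | zero => rfl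
  | succ l ih =>
    have h1 : c p l 0 = 0 := by simp [c]
    change pos (c p) l (c p l 0) = 0
    rw [h1, ih]

theorem d4_pos_len (p : Par) : ∀ l, l ≤ 4 * p.b + 1 → pos (c p) l (len p l) = len p 0 := by
  intro l
  induction l with
  | zero => intro _; rfl
  | succ l ih =>
    intro hl
    obtain ⟨-, -, hW⟩ := w1 p
    obtain ⟨hc0, hcs, hlen, hV⟩ := hW l (by omega)
    change pos (c p) l (c p l (len p (l + 1))) = len p 0
    rw [← hlen]
    exact ih (by omega)

theorem d4_kids (p : Par) (hok : p.Ok) (l : ℕ) (hl : l ≤ 4 * p.b) : ∀ n, n ≤ len p (l + 1) →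
    (((List.range n).map fun k => bt p (l + 1) (V p (l + 1) k) (pos (c p) (l + 1) k)).flatMap Tree.kids) =
      (List.range (c p l n)).map fun j => bt p l (V p l j) (pos (c p) l j) := by
  obtain ⟨-, -, hW⟩ := w1 p
  obtain ⟨hc0, hcs, hlen, hV⟩ := hW l hl
  intro n
  induction n with
  | zero =>
    intro _
    rw [hc0]
    rfl
  | succ n ih =>
    intro hn
    have h1 := ih (by omega)
    rw [List.range_succ, List.map_append, List.flatMap_append, h1, hcs n (by omega), List.range_add, List.map_append]
    congr 1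
    simp only [List.map_cons, List.map_nil, List.flatMap_cons, List.flatMap_nil, List.append_nil, bt,
      Tree.kids_node,
      List.map_map]
    refine List.map_congr_left fun s hs => ?_
    have hs' : s < sz p (V p (l + 1) n) := List.mem_range.1 hs
    simp only [Function.comp_apply]
    have h2 := d4_clen p hok l hl n (by omega)
    rw [hV n (by omega) s hs', d4_step p l hl (d4_pos p hok l (by omega)) n (by omega) s hs'.le (by omega)]

theorem thm_D4 : St_D4 := by
  intro p hok
  obtain ⟨hlt, hVt, hW⟩ := w1 p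
  constructor
  · have h1 := d4_inorder p hok (4 * p.b + 1) .Q 0
    have h2 := d4_pos p hok (4 * p.b + 1) le_rfl 0 (by omega)
    rw [d4_pos_zero, hVt, zero_add, zero_add] at h2
    have h3 := d4_pos_len p (4 * p.b + 1) le_rfl
    rw [hlt, h2] at h3
    rw [h3] at h1
    exact h1
  · have key : ∀ d, d ≤ 4 * p.b + 1 → lev d (hard p) =
        (List.range (len p (4 * p.b + 1 - d))).map fun k =>
          bt p (4 * p.b + 1 - d) (V p (4 * p.b + 1 - d) k) (pos (c p) (4 * p.b + 1 - d) k) := by
      intro d
      induction d with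
      | zero =>
        intro _
        rw [Nat.sub_zero, hlt]
        simp only [lev, List.range_one, List.map_cons, List.map_nil, hVt, d4_pos_zero, hard]
      | succ d ih =>
        intro hd
        have h1 := ih (by omega)
        have e : 4 * p.b + 1 - d = (4 * p.b + 1 - (d + 1)) + 1 := by omega
        rw [e] at h1
        have h2 : lev (d + 1) (hard p) = (lev d (hard p)).flatMap Tree.kids := rfl
        rw [h2, h1, d4_kids p hok _ (by omega) _ le_rfl]
        obtain ⟨-, -, hlen, -⟩ := hW (4 * p.b + 1 - (d + 1)) (by omega)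
        rw [← hlen]
    intro l hl
    have h1 := key (4 * p.b + 1 - l) (by omega)
    have e : 4 * p.b + 1 - (4 * p.b + 1 - l) = l := by omega
    rw [e] at h1
    exact h1

end DMS
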