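import Pool.Agent.DMS.All1
import Pool.Agent.DMS.StD

/-!
# DMS, D6: the cost of a tree is the cost of its system
-/

namespace DMS

theorem d6_count {α : Type} (L : List α) (P : α → Prop) (Q : ℕ → Prop) [DecidablePred P]
    [DecidablePred Q]
    (h : ∀ k v, L[k]? = some v → (P v ↔ Q k)) :
    L.countP (fun v => decide (P v)) = ((Finset.range L.length).filter fun k => Q k).card := by
  induction L using List.reverseRecOn with
  | nil => simp
  | append_singleton L a ih =>
    have h1 := ih (by
      intro k v hv
      refine h k v ?_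
      have hk : k < L.length := (List.getElem?_eq_some_iff.1 hv).1
      rw [List.getElem?_append_left hk, hv])
    have h2 := h L.length a (by
      rw [List.getElem?_append_right le_rfl]
      simp)
    rw [List.countP_append, h1, List.length_append, List.length_singleton,
      Finset.range_add_one, Finset.filter_insert]
    by_cases hQ : Q L.length
    · rw [if_pos hQ, Finset.card_insert_of_notMem (by simp), List.countP_singleton,
        if_pos (by simpa using h2.2 hQ)]
    · rw [if_neg hQ, List.countP_singleton, if_neg (by simpa using fun hP => hQ (h2.1 hP)),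
        add_zero]

theorem thm_D6 (hD2 : St_D2) (hD5 : St_D5) : St_D6 := by
  classical
  intro p hok h' T' N hWf hin S hH hn hq
  have hg : 1 ≤ p.g := hok.1
  have hm : 10000 * p.g ≤ p.m := hok.2.1
  obtain ⟨h0, hk⟩ := hD2 p.m (p.m - p.g) h' T' hWf
  have hn0 : S.n 0 = N + 2 := by
    rw [hn, h0, hin, List.length_range]
  unfold newNodes cost
  rw [← Finset.sum_range_reflect, hH]
  refine Finset.sum_congr rfl fun l hl => ?_
  rw [Finset.mem_range] at hl
  have hnl : S.n (l + 1) = (lev (h' - 1 - l) T').length := by
    rw [hn]
    unfold tn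
    have e : h' - (l + 1) = h' - 1 - l := by omega
    rw [e]
  rw [hnl]
  refine d6_count _ _ _ ?_
  intro k v hv
  refine not_congr ?_
  rw [hD5 p hok v]
  unfold OldN
  have hkn : k < S.n (l + 1) := by
    rw [hnl]
    exact (List.getElem?_eq_some_iff.1 hv).1
  have hkeys : v.keys = keysN S.q l k := by
    rw [(hk l hl k v hv).2, ← hq]
    unfold keysN
    refine List.map_congr_left fun j hj => ?_
    rw [List.mem_range'_1] at hj
    have hqn : S.q l (k + 1) ≤ S.n l := by
      have h3 := (s1 p.m p.g S hg (by omega) l (by omega)).1 (k + 1) (S.n (l + 1)) hkn le_rfl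
      have h4 : S.q l (k + 1) ≤ S.q l (S.n (l + 1)) := by omega
      exact h4.trans h3.2.2.2
    have h5 := s3 p.m p.g S hg (by omega) l (by omega)
    have h6 := (h5.2.2 j (S.n l) (by omega) le_rfl).2
    have h7 : 1 ≤ p.m ^ (l / 2) * (S.n l - j) :=
      Nat.mul_pos (Nat.pow_pos (by omega)) (by omega)
    rw [h5.2.1, hn0] at h6
    rw [hin, List.getD_eq_getElem?_getD, List.getElem?_range (by omega), Option.getD_some]
  rw [hkeys]

end DMS
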