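import Pool.Agent.DMS.All1
import Pool.Agent.DMS.StD

/-!
# DMS, D7: an old node of level 1 is exact
-/

namespace DMS

theorem d7_sz (p : Par) (hok : p.Ok) (τ : Ty) : 3 ≤ sz p τ := by
  obtain ⟨h1, h2, h3⟩ := hok
  cases τ <;> simp only [sz] <;> omega

/-- the entries of the key list of a node of a system -/
theorem d7_keysN (q : ℕ → ℕ → ℕ) (l k i : ℕ) (hi : i < q l (k + 1) - q l k - 1) :
    (keysN q l k)[i]? = some (pos q l (q l k + 1 + i) - 1) := by
  unfold keysN
  rw [List.getElem?_map, List.getElem?_range' hi, Option.map_some, one_mul]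

/-- the entries of the key list of a node of the hard tree -/
theorem d7_keysT (p : Par) (l k i : ℕ) (hi : i < sz p (V p (l + 1) k) - 1) :
    (keysT p l k)[i]? = some (pos (c p) l (c p l k + 1 + i)) := by
  unfold keysT
  rw [List.getElem?_map, List.getElem?_range' hi, Option.map_some, one_mul]

/-- the lengths -/
theorem d7_length (p : Par) (q : ℕ → ℕ → ℕ) (l k l₂ k₂ : ℕ) (h : keysN q l k = keysT p l₂ k₂) :
    q l (k + 1) - q l k - 1 = sz p (V p (l₂ + 1) k₂) - 1 := by
  have hlen := congrArg List.length h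
  simpa only [keysN, keysT, List.length_map, List.length_range'] using hlen

/-- entries of old nodes -/
theorem d7_entry (p : Par) (q : ℕ → ℕ → ℕ) (l k l₂ k₂ : ℕ) (h : keysN q l k = keysT p l₂ k₂)
    (i : ℕ) (hi : i < q l (k + 1) - q l k - 1) :
    pos q l (q l k + 1 + i) - 1 = pos (c p) l₂ (c p l₂ k₂ + 1 + i) := by
  have h1 := d7_keysN q l k i hi
  rw [h, d7_keysT p l₂ k₂ i (by rw [← d7_length p q l k l₂ k₂ h]; exact hi)] at h1
  exact (Option.some.inj h1).symm

/-- cuts of the hard tree stay inside -/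
theorem d7_le (p : Par) (hok : p.Ok) (l : ℕ) (hl : l ≤ 4 * p.b) (i : ℕ)
    (hi : i ≤ len p (l + 1)) : c p l i ≤ len p l := by
  have h2 := ((w2 p hok l hl).1 i (len p (l + 1)) hi le_rfl).1
  have h3 := ((w1 p).2.2 l hl).2.2.1
  rw [h3]
  exact (Nat.le_add_right _ _).trans h2

/-- consecutive cuts of positive level have distance at least two -/
theorem d7_gap (p : Par) (hok : p.Ok) (l : ℕ) (hl : l ≤ 4 * p.b) (i : ℕ)
    (hi : i + 1 ≤ len p (l + 1)) : pos (c p) (l + 1) i + 2 ≤ pos (c p) (l + 1) (i + 1) := by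
  have h1 := ((w2 p hok l hl).1 i (i + 1) (by omega) hi).1
  have h3 := d7_le p hok l hl (i + 1) hi
  have hm : 2 ≤ p.m / 2 := by
    obtain ⟨a1, a2, a3⟩ := hok
    omega
  have h4 : c p l i + 2 ≤ c p l (i + 1) := by
    have : p.m / 2 * (i + 1 - i) = p.m / 2 := by
      rw [Nat.add_sub_cancel_left, mul_one]
    omega
  have h5 := (w7 p hok).2.2.2.2 l (by omega) (c p l i) (c p l i + 1) (by omega) (by omega)
  have h6 := (w7 p hok).2.2.2.2 l (by omega) (c p l i + 1) (c p l (i + 1)) (by omega) h3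
  show pos (c p) l (c p l i) + 2 ≤ pos (c p) l (c p l (i + 1))
  omega

theorem thm_D7 : St_D7 := by
  classical
  intro p S hC hH
  obtain ⟨hok, h0⟩ := hC
  have hmain : ∀ j, j < S.n 1 → OldN p S.q 0 j → Exact p S.q j := by
    rintro j hj ⟨l₂, k₂, hl₂, hk₂, hkey⟩
    have hlen := d7_length p S.q 0 j l₂ k₂ hkey
    have hlt := S.q_lt 0 (by omega) j hj
    have hsz := d7_sz p hok (V p (l₂ + 1) k₂)
    have hent := d7_entry p S.q 0 j l₂ k₂ hkey
    have e0 : S.q 0 j = pos (c p) l₂ (c p l₂ k₂ + 1) := by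
      have h1 := hent 0 (by omega)
      have h2 : pos S.q 0 (S.q 0 j + 1 + 0) = S.q 0 j + 1 + 0 := rfl
      rw [h2] at h1
      simpa using h1
    have e1 : S.q 0 j + 1 = pos (c p) l₂ (c p l₂ k₂ + 1 + 1) := by
      have h1 := hent 1 (by omega)
      have h2 : pos S.q 0 (S.q 0 j + 1 + 1) = S.q 0 j + 1 + 1 := rfl
      rw [h2] at h1
      simpa using h1
    have hstep := ((w1 p).2.2 l₂ hl₂).2.1 k₂ hk₂
    cases l₂ with
    | zero =>
      have e2 : S.q 0 j = c p 0 k₂ + 1 := e0
      refine ⟨k₂, hk₂, ?_, ?_⟩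
      · show c p 0 k₂ = S.q 0 j - 1
        omega
      · show c p 0 (k₂ + 1) = S.q 0 (j + 1) - 1
        omega
    | succ l =>
      exfalso
      have hc2 : c p (l + 1) k₂ + 1 + 1 ≤ len p (l + 1) := by
        have := d7_le p hok (l + 1) hl₂ (k₂ + 1) hk₂
        omega
      have := d7_gap p hok l (by omega) (c p (l + 1) k₂ + 1) hc2
      omega
  have h1 : nw p S.q 0 (S.n 1) ≤
      ((Finset.range (S.n (0 + 1))).filter fun k => ¬ OldN p S.q 0 k).card := by
    unfold nw
    refine Finset.card_le_card ?_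
    intro j hj
    rw [Finset.mem_filter, Finset.mem_Ico] at hj
    rw [Finset.mem_filter, Finset.mem_range]
    exact ⟨hj.1.2, fun h => hj.2 (hmain j hj.1.2 h)⟩
  refine h1.trans ?_
  unfold cost
  exact Finset.single_le_sum
    (f := fun l => ((Finset.range (S.n (l + 1))).filter fun k => ¬ OldN p S.q l k).card)
    (fun _ _ => Nat.zero_le _) (Finset.mem_range.2 (by omega))

end DMS
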