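import Pool.Agent.DMS.D7

/-!
# DMS, D8: old subtrees in the left part are complete and aligned
-/

namespace DMS

/-- the first cut of a level `≥ 2 b` of the hard tree is at least `m ^ (2 b)` -/
theorem d8_first (p : Par) (hok : p.Ok) (l : ℕ) (hl : 2 * p.b ≤ l) (hl' : l ≤ 4 * p.b + 1) :
    p.m ^ (2 * p.b) ≤ pos (c p) l 1 := by
  have hm : 2 ≤ p.m := by
    obtain ⟨a1, a2, a3⟩ := hok
    omega
  induction l, hl using Nat.le_induction with
  | base =>
    have hK : (1 : ℕ) ≤ K p (2 * p.b) := by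
      unfold K
      rw [if_pos le_rfl]
    rw [(w7 p hok).2.2.1 (2 * p.b) le_rfl 1 hK, mul_one]
  | succ l hl ih =>
    refine (ih (by omega)).trans ?_
    show pos (c p) l 1 ≤ pos (c p) l (c p l 1)
    have hlen : 1 ≤ len p (l + 1) := by
      rcases Nat.lt_or_ge (4 * p.b) (l + 1) with h | h
      · have e : l + 1 = 4 * p.b + 1 := by omega
        rw [e, (w1 p).1]
      · have h3 := (w3 p hok (l + 1) h).2.1
        have h4 := (w3 p hok (l + 1) h).1
        omega
    have h0 := ((w1 p).2.2 l (by omega)).1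
    have h1 := ((w2 p hok l (by omega)).1 0 1 (by omega) hlen).1
    rw [h0] at h1
    have hm' : 1 ≤ p.m / 2 := by omega
    have h2 : 1 ≤ c p l 1 := by
      have : p.m / 2 * (1 - 0) = p.m / 2 := by rw [Nat.sub_zero, mul_one]
      omega
    rcases Nat.eq_or_lt_of_le h2 with h | h
    · rw [← h]
    · exact ((w7 p hok).2.2.2.2 l (by omega) 1 (c p l 1) h (d7_le p hok l (by omega) 1 hlen)).le

/-- the left part: nodes of the hard tree with a small key -/
theorem d8_left (p : Par) (hok : p.Ok) (l₂ k₂ : ℕ) (hl₂ : l₂ ≤ 4 * p.b)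
    (hk₂ : k₂ < len p (l₂ + 1)) (hκ : pos (c p) l₂ (c p l₂ k₂ + 1) < p.m ^ (2 * p.b)) :
    sz p (V p (l₂ + 1) k₂) = p.m ∧ c p l₂ k₂ = p.m * k₂ ∧
      ∀ i, i + 1 < p.m → pos (c p) l₂ (p.m * k₂ + 1 + i) = p.m ^ l₂ * (p.m * k₂ + 1 + i) := by
  have hsz := d7_sz p hok (V p (l₂ + 1) k₂)
  have hstep := ((w1 p).2.2 l₂ hl₂).2.1 k₂ hk₂
  have hc2 : c p l₂ k₂ + 1 < len p l₂ := by
    have := d7_le p hok l₂ hl₂ (k₂ + 1) hk₂
    omega
  -- the level is small
  have hl2b : l₂ < 2 * p.b := by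
    by_contra hcon
    have hge : 2 * p.b ≤ l₂ := by omega
    have h1 := d8_first p hok l₂ hge (by omega)
    have h2 : pos (c p) l₂ 1 ≤ pos (c p) l₂ (c p l₂ k₂ + 1) := by
      rcases Nat.eq_zero_or_pos (c p l₂ k₂) with h | h
      · rw [h]
      · exact ((w7 p hok).2.2.2.2 l₂ (by omega) 1 (c p l₂ k₂ + 1) (by omega) (by omega)).le
    omega
  have hKl : K p l₂ = p.m ^ (2 * p.b - l₂) := by
    unfold K
    rw [if_neg (by omega)]
  have hKl1 : p.m * K p (l₂ + 1) = K p l₂ := by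
    rw [hKl]
    unfold K
    split_ifs with h
    · have e : 2 * p.b - l₂ = 1 := by omega
      rw [e, mul_one, pow_one]
    · have e : 2 * p.b - l₂ = (2 * p.b - (l₂ + 1)) + 1 := by omega
      rw [e, pow_succ, mul_comm]
  have hposK : pos (c p) l₂ (K p l₂) = p.m ^ (2 * p.b) := by
    rw [(w7 p hok).2.2.1 l₂ (by omega) (K p l₂) le_rfl, hKl, ← pow_add]
    congr 1
    omega
  have hcK : c p l₂ k₂ + 1 < K p l₂ := by
    by_contra hcon
    have hge : K p l₂ ≤ c p l₂ k₂ + 1 := by omega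
    have h2 : pos (c p) l₂ (K p l₂) ≤ pos (c p) l₂ (c p l₂ k₂ + 1) := by
      rcases Nat.eq_or_lt_of_le hge with h | h
      · rw [h]
      · exact ((w7 p hok).2.2.2.2 l₂ (by omega) _ _ h (by omega)).le
    omega
  have h3 := (w3 p hok l₂ hl₂).2.2.2.2.2.2 (by omega)
  have hk2K : k₂ < K p (l₂ + 1) := by
    by_contra hcon
    have hge : K p (l₂ + 1) ≤ k₂ := by omega
    have h4 := ((w2 p hok l₂ hl₂).1 (K p (l₂ + 1)) k₂ hge (by omega)).1
    rw [h3.2 (K p (l₂ + 1)) (by omega), hKl1] at h4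
    have := Nat.zero_le (p.m / 2 * (k₂ - K p (l₂ + 1)))
    omega
  have hV : V p (l₂ + 1) k₂ = .C := by
    rw [(w3 p hok (l₂ + 1) (by omega)).2.2.1 k₂ hk2K, if_neg (by omega)]
  refine ⟨?_, h3.2 k₂ (by omega), ?_⟩
  · rw [hV]
    rfl
  · intro i hi
    refine (w7 p hok).2.2.1 l₂ (by omega) _ ?_
    have h5 : p.m * (k₂ + 1) ≤ p.m * K p (l₂ + 1) := Nat.mul_le_mul le_rfl hk2K
    rw [hKl1, mul_add, mul_one] at h5
    omega

theorem thm_D8 : St_D8 := by
  intro p S hC l
  obtain ⟨hok, h0⟩ := hC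
  have hg : 1 ≤ p.g := hok.1
  have hm : 10000 * p.g ≤ p.m := hok.2.1
  induction l with
  | zero =>
    intro _ _ k _ _ h1 _
    refine ⟨k - 1, ?_, ?_⟩
    · show k = _
      have : 1 ≤ k := h1
      rw [pow_zero]
      omega
    · show k + 1 = _
      have : 1 ≤ k := h1
      rw [pow_zero]
      omega
  | succ l ih =>
    intro hlH hlb k hk hAO h1 h2
    obtain ⟨hold, hch⟩ := hAO
    have hlt := S.q_lt l (by omega) k hk
    have hmono : ∀ k k', k ≤ k' → k' ≤ S.n l → pos S.q l k ≤ pos S.q l k' := by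
      intro k k' hk hk'
      have h3 := ((s3 p.m p.g S hg (by omega) l (by omega)).2.2 k k' hk hk').2
      exact (Nat.le_add_right _ _).trans h3
    have hstrict : ∀ k k', k < k' → k' ≤ S.n l → pos S.q l k < pos S.q l k' := by
      intro k k' hk hk'
      have h3 := ((s3 p.m p.g S hg (by omega) l (by omega)).2.2 k k' hk.le hk').2
      have h4 : 1 ≤ p.m ^ (l / 2) * (k' - k) :=
        Nat.mul_pos (Nat.pow_pos (by omega)) (by omega)
      omega
    have hqn : S.q l (k + 1) ≤ S.n l := by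
      have h3 := (s1 p.m p.g S hg (by omega) l (by omega)).1 (k + 1) (S.n (l + 1)) hk le_rfl
      have h4 : S.q l (k + 1) ≤ S.q l (S.n (l + 1)) := by omega
      exact h4.trans h3.2.2.2
    have h1' : 1 ≤ pos S.q l (S.q l k) := h1
    have h2' : pos S.q l (S.q l (k + 1)) ≤ 1 + p.m ^ (2 * p.b) := h2
    -- the children
    have hchild : ∀ j, S.q l k ≤ j → j < S.q l (k + 1) →
        ∃ z, pos S.q l j = 1 + z * p.m ^ l ∧ pos S.q l (j + 1) = 1 + (z + 1) * p.m ^ l := by
      intro j hj hj'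
      refine ih (by omega) (by omega) j (by omega) (hch j hj hj') ?_ ?_
      · exact h1'.trans (hmono _ _ hj (by omega))
      · exact (hmono _ _ (by omega) hqn).trans h2'
    obtain ⟨z, hz, -⟩ := hchild (S.q l k) le_rfl hlt
    have hpos : ∀ i, S.q l k + i ≤ S.q l (k + 1) →
        pos S.q l (S.q l k + i) = 1 + (z + i) * p.m ^ l := by
      intro i
      induction i with
      | zero => intro _; exact hz
      | succ i ihi =>
        intro hi
        have h3 := ihi (by omega)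
        obtain ⟨z', hz1, hz2⟩ := hchild (S.q l k + i) (by omega) (by omega)
        have h4 : (z' + 1) * p.m ^ l = z' * p.m ^ l + p.m ^ l := by ring
        have h5 : (z + (i + 1)) * p.m ^ l = (z + i) * p.m ^ l + p.m ^ l := by ring
        show pos S.q l (S.q l k + i + 1) = _
        rw [hz2, h4, h5]
        omega
    obtain ⟨l₂, k₂, hl₂, hk₂, hkey⟩ := hold
    have hlen := d7_length p S.q l k l₂ k₂ hkey
    have hsz := d7_sz p hok (V p (l₂ + 1) k₂)
    have hent := d7_entry p S.q l k l₂ k₂ hkey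
    have hs : S.q l (k + 1) = S.q l k + sz p (V p (l₂ + 1) k₂) := by omega
    have hentry : ∀ i, i < S.q l (k + 1) - S.q l k - 1 →
        (z + 1 + i) * p.m ^ l = pos (c p) l₂ (c p l₂ k₂ + 1 + i) := by
      intro i hi
      have h3 := hpos (1 + i) (by omega)
      have h4 : S.q l k + (1 + i) = S.q l k + 1 + i := by omega
      have h5 : z + (1 + i) = z + 1 + i := by omega
      rw [h4, h5] at h3
      rw [← hent i hi, h3]
      omega
    have hκ : pos (c p) l₂ (c p l₂ k₂ + 1) < p.m ^ (2 * p.b) := by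
      have h3 := hentry 0 (by omega)
      rw [add_zero, add_zero] at h3
      rw [← h3]
      have h4 := hpos 1 (by omega)
      have h5 := hstrict (S.q l k + 1) (S.q l (k + 1)) (by omega) hqn
      omega
    obtain ⟨hszm, hcm, hpm⟩ := d8_left p hok l₂ k₂ hl₂ hk₂ hκ
    have e0 := hentry 0 (by omega)
    have e1 := hentry 1 (by omega)
    rw [hcm, hpm 0 (by omega)] at e0
    rw [hcm, hpm 1 (by omega)] at e1
    have e2 : (z + 1 + 1) * p.m ^ l = (z + 1 + 0) * p.m ^ l + p.m ^ l := by ring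
    have e3 : p.m ^ l₂ * (p.m * k₂ + 1 + 1) = p.m ^ l₂ * (p.m * k₂ + 1 + 0) + p.m ^ l₂ := by ring
    have e4 : p.m ^ l = p.m ^ l₂ := by omega
    have hmp : 0 < p.m ^ l := Nat.pow_pos (by omega)
    have e5 : z = p.m * k₂ := by
      rw [← e4] at e0
      have e6 : p.m ^ l * (z + 1 + 0) = p.m ^ l * (p.m * k₂ + 1 + 0) := by
        rw [← e0]
        ring
      have := Nat.eq_of_mul_eq_mul_left hmp e6
      omega
    refine ⟨k₂, ?_, ?_⟩
    · show pos S.q l (S.q l k) = _
      rw [hz, e5]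
      ring
    · show pos S.q l (S.q l (k + 1)) = _
      rw [hs, hszm, hpos p.m (by omega), e5]
      ring

end DMS
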