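import Pool.Agent.DMS.D7

/-!
# DMS, D9: few new nodes give an aligned cut
-/

namespace DMS

open Classical in
/-- number of nodes of level between `1` and `l` below node `k` of level `l` which are not old -/
noncomputable def d9_NC (p : Par) (q : ℕ → ℕ → ℕ) : ℕ → ℕ → ℕ
  | 0, _ => 0
  | l + 1, k => (if OldN p q l k then 0 else 1) +
      ∑ j ∈ Finset.Ico (q l k) (q l (k + 1)), d9_NC p q l j

open Classical in
theorem d9_AO (p : Par) (q : ℕ → ℕ → ℕ) (l k : ℕ) (h : d9_NC p q l k = 0) : AO p q l k := by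
  induction l generalizing k with
  | zero => trivial
  | succ l ih =>
    have h1 : (if OldN p q l k then 0 else 1) +
      ∑ j ∈ Finset.Ico (q l k) (q l (k + 1)), d9_NC p q l j = 0 := h
    obtain ⟨h2, h3⟩ := Nat.add_eq_zero_iff.1 h1
    refine ⟨?_, ?_⟩
    · by_contra hcon
      rw [if_neg hcon] at h2
      exact absurd h2 one_ne_zero
    · intro j hj hj'
      exact ih j (Finset.sum_eq_zero_iff.1 h3 j (Finset.mem_Ico.2 ⟨hj, hj'⟩))

theorem d9_blocks (q g : ℕ → ℕ) (N : ℕ) (hq : ∀ k, k < N → q k ≤ q (k + 1)) :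
    ∑ k ∈ Finset.range N, ∑ j ∈ Finset.Ico (q k) (q (k + 1)), g j =
      ∑ j ∈ Finset.Ico (q 0) (q N), g j := by
  induction N with
  | zero => simp
  | succ N ih =>
    rw [Finset.sum_range_succ, ih fun k hk => hq k (by omega)]
    refine Finset.sum_Ico_consecutive g ?_ (hq N (by omega))
    have : ∀ n, n ≤ N → q 0 ≤ q n := by
      intro n
      induction n with
      | zero => intro _; exact le_rfl
      | succ n ihn => intro hn; exact (ihn (by omega)).trans (hq n (by omega))
    exact this N le_rfl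

open Classical in
theorem d9_total (p : Par) (S : Sys p.m p.g) (l : ℕ) (hl : l ≤ S.H) :
    ∑ k ∈ Finset.range (S.n l), d9_NC p S.q l k =
      ∑ l' ∈ Finset.range l,
        ((Finset.range (S.n (l' + 1))).filter fun k => ¬ OldN p S.q l' k).card := by
  induction l with
  | zero =>
    rw [Finset.range_zero, Finset.sum_empty]
    exact Finset.sum_eq_zero fun k _ => rfl
  | succ l ih =>
    rw [Finset.sum_range_succ, ← ih (by omega)]
    have h1 : ∀ k, d9_NC p S.q (l + 1) k = (if OldN p S.q l k then 0 else 1) +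
      ∑ j ∈ Finset.Ico (S.q l k) (S.q l (k + 1)), d9_NC p S.q l j := fun k => rfl
    rw [Finset.sum_congr rfl fun k _ => h1 k, Finset.sum_add_distrib,
      d9_blocks (S.q l) (d9_NC p S.q l) (S.n (l + 1))
        (fun k hk => (S.q_lt l (by omega) k hk).le), S.q_zero l (by omega), S.q_end l (by omega),
      add_comm]
    congr 1
    · rw [Finset.range_eq_Ico]
    · rw [Finset.card_filter]
      refine Finset.sum_congr rfl fun k _ => ?_
      by_cases h : OldN p S.q l k
      · rw [if_pos h, if_neg (not_not_intro h)]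
      · rw [if_neg h, if_pos h]

theorem d9_cost (p : Par) (S : Sys p.m p.g) (l : ℕ) (hl : l ≤ S.H) :
    ∑ k ∈ Finset.range (S.n l), d9_NC p S.q l k ≤ cost p S := by
  classical
  rw [d9_total p S l hl]
  unfold cost
  refine Finset.sum_le_sum_of_subset ?_
  intro j hj
  rw [Finset.mem_range] at hj ⊢
  omega

theorem thm_D9 (hD8 : St_D8) : St_D9 := by
  classical
  intro p S hC hcost
  obtain ⟨hok, h0⟩ := id hC
  have hg : 1 ≤ p.g := hok.1
  have hm : 10000 * p.g ≤ p.m := hok.2.1
  have hb : 4 ≤ p.b := hok.2.2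
  have hlen := (w7 p hok).2.1
  -- the height
  have hH : 2 * p.b < S.H := by
    by_contra hcon
    have h1 := s3 p.m p.g S hg (by omega) S.H le_rfl
    have h2 := (h1.2.2 0 (S.n S.H) (by omega) le_rfl).1
    rw [h1.1, h1.2.1, S.n_top, Nat.sub_zero, mul_one, zero_add] at h2
    have h3 : p.m ^ S.H ≤ p.m ^ (2 * p.b) := Nat.pow_le_pow_right (by omega) (by omega)
    omega
  have h3b := s3 p.m p.g S hg (by omega) p.b (by omega)
  have hmono : ∀ k k', k ≤ k' → k' ≤ S.n p.b → pos S.q p.b k ≤ pos S.q p.b k' := by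
    intro k k' hk hk'
    exact (Nat.le_add_right _ _).trans (h3b.2.2 k k' hk hk').2
  set M := p.m ^ p.b with hM
  have hMM : p.m ^ (2 * p.b) = M * M := by
    rw [hM, ← pow_add]
    congr 1
    omega
  have hM1 : 1 ≤ M := Nat.pow_pos (by omega)
  set xb := Nat.findGreatest (fun x => pos S.q p.b x ≤ 1 + p.m ^ (2 * p.b)) (S.n p.b) with hxb
  have hxb1 : pos S.q p.b xb ≤ 1 + p.m ^ (2 * p.b) :=
    Nat.findGreatest_spec (P := fun x => pos S.q p.b x ≤ 1 + p.m ^ (2 * p.b)) (Nat.zero_le _)
      (by rw [h3b.1]; omega)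
  have hxb2 : xb ≤ S.n p.b := Nat.findGreatest_le _
  have hxb3 : xb < S.n p.b := by
    rcases Nat.eq_or_lt_of_le hxb2 with h | h
    · exfalso
      rw [h, h3b.2.1, h0] at hxb1
      omega
    · exact h
  have hxb4 : 1 + p.m ^ (2 * p.b) < pos S.q p.b (xb + 1) := by
    have := Nat.findGreatest_is_greatest (P := fun x => pos S.q p.b x ≤ 1 + p.m ^ (2 * p.b))
      (n := S.n p.b) (k := xb + 1) (by omega) (by omega)
    omega
  have h5 := (h3b.2.2 xb (xb + 1) (by omega) (by omega)).1
  rw [Nat.add_sub_cancel_left, mul_one] at h5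
  have h6 := (h3b.2.2 0 xb (by omega) hxb2).1
  rw [h3b.1, zero_add, Nat.sub_zero] at h6
  have hxM : M ≤ xb := by
    by_contra hcon
    have h7 : M * (xb + 1) ≤ M * M := Nat.mul_le_mul le_rfl (by omega)
    rw [mul_add, mul_one] at h7
    rw [hMM] at hxb4
    omega
  -- pigeonhole
  have hex : ∃ k, 1 ≤ k ∧ k < xb ∧ d9_NC p S.q p.b k = 0 := by
    by_contra hcon
    push Not at hcon
    have h8 : ∑ k ∈ Finset.Ico 1 xb, 1 ≤ ∑ k ∈ Finset.range (S.n p.b), d9_NC p S.q p.b k := by
      calc ∑ k ∈ Finset.Ico 1 xb, 1 ≤ ∑ k ∈ Finset.Ico 1 xb, d9_NC p S.q p.b k := by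
            refine Finset.sum_le_sum fun k hk => ?_
            rw [Finset.mem_Ico] at hk
            exact Nat.one_le_iff_ne_zero.2 (hcon k hk.1 hk.2)
        _ ≤ _ := by
            refine Finset.sum_le_sum_of_subset ?_
            intro k hk
            rw [Finset.mem_Ico] at hk
            rw [Finset.mem_range]
            omega
    rw [Finset.sum_const, Nat.card_Ico, smul_eq_mul, mul_one] at h8
    have h9 := d9_cost p S p.b (by omega)
    omega
  obtain ⟨k, hk1, hk2, hk3⟩ := hex
  have h10 : 1 ≤ pos S.q p.b k := by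
    have h11 := (h3b.2.2 0 k (by omega) (by omega)).2
    have h12 : 1 ≤ p.m ^ (p.b / 2) * (k - 0) :=
      Nat.mul_pos (Nat.pow_pos (by omega)) (by omega)
    omega
  have h13 : pos S.q p.b (k + 1) ≤ 1 + p.m ^ (2 * p.b) :=
    (hmono (k + 1) xb (by omega) hxb2).trans hxb1
  obtain ⟨z, hz1, hz2⟩ := hD8 p S hC p.b (by omega) (by omega) k (by omega)
    (d9_AO p S.q p.b k hk3) h10 h13
  refine ⟨k, z, by omega, ?_, hz1⟩
  by_contra hcon
  have h14 : (M + 1) * M ≤ (z + 1) * M := Nat.mul_le_mul (by omega) le_rfl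
  rw [add_mul, one_mul] at h14
  rw [hz2, hMM, ← hM] at h13
  omega

end DMS
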