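import Pool.Agent.DMS.B15
import Pool.Agent.DMS.C1
import Pool.Agent.DMS.C2
import Pool.Agent.DMS.C3
import Pool.Agent.DMS.C4
import Pool.Agent.DMS.C5
import Pool.Agent.DMS.C6
import Pool.Agent.DMS.C7
import Pool.Agent.DMS.C8
import Pool.Agent.DMS.C9
import Pool.Agent.DMS.C10
import Pool.Agent.DMS.C11
import Pool.Agent.DMS.C12
import Pool.Agent.DMS.D1
import Pool.Agent.DMS.D2
import Pool.Agent.DMS.D3
import Pool.Agent.DMS.D4
import Pool.Agent.DMS.D5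
import Pool.Agent.DMS.D6
import Pool.Agent.DMS.D7
import Pool.Agent.DMS.D8
import Pool.Agent.DMS.D9
import Pool.Agent.DMS.D10

namespace DMS

theorem all_C12 : St_C12 :=
  thm_C12 thm_B15 thm_C1 thm_C2 (thm_C6 thm_C3 thm_C4 thm_C5) thm_C7 (thm_C9 thm_C8)
    (thm_C10 thm_C8) thm_C11

theorem all_D6 : St_D6 := thm_D6 thm_D2 (thm_D5 thm_D4)

theorem all_MAIN : St_MAIN :=
  thm_D10 all_C12 thm_D1 thm_D2 thm_D3 thm_D4 all_D6 thm_D7 (thm_D9 thm_D8)

end DMS
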