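import Pool.Agent.DMS.CoreBase

namespace DMS

theorem thm_B1 : St_B1 := by
  intro p S hC l hl hl4 t ht
  have C := ctx hC hl hl4
  have hg := C.hg
  have hm := C.hm
  obtain ⟨e1, e2, e3, e4⟩ := ht
  have hend : c p l t + p.m / 2 ≤ len p l := by
    have := C.cgap (by omega : t < len p (l + 1)) le_rfl
    rw [C.clen] at this
    exact this
  set x := X p S.q S.n l t with hx
  have hP0 : ph p S.q l 0 < c p l t + 21 * p.g + 6 := by rw [C.ph0]; omega
  have hxle : x ≤ S.n (l + 1) := Nat.findGreatest_le _
  have hPx : ph p S.q l x < c p l t + 21 * p.g + 6 :=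
    @Nat.findGreatest_spec 0 (fun x => ph p S.q l x < c p l t + 21 * p.g + 6) _ (S.n (l + 1))
      (Nat.zero_le _) hP0
  have hmax : ∀ y, y ≤ S.n (l + 1) → ph p S.q l y < c p l t + 21 * p.g + 6 → y ≤ x := by
    intro y hy hy'
    exact Nat.le_findGreatest hy hy'
  have hxlt : x < S.n (l + 1) := by
    rcases Nat.lt_or_ge x (S.n (l + 1)) with h | h
    · exact h
    · exfalso
      have : x = S.n (l + 1) := by omega
      rw [this, C.phend] at hPx
      omega
  have hx1 : c p l t + 21 * p.g + 6 ≤ ph p S.q l (x + 1) := by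
    by_contra hc
    push Not at hc
    have := hmax (x + 1) (by omega) hc
    omega
  refine ⟨hxlt, hPx, hx1, hmax, ?_, ?_⟩
  · rcases Nat.lt_or_ge (ph p S.q l x + 21 * p.g) (c p l t) with h | h
    · left
      exact ⟨⟨e1, e2, e3, e4⟩, h, hx1⟩
    · right
      exact ⟨h, hPx⟩
  · intro y hy hpin
    obtain ⟨p1, p2⟩ := hpin
    refine ⟨?_, ?_, hmax y hy p2⟩
    · by_contra hc
      push Not at hc
      have h1 := C.phhi y hy (by omega)
      have h2 := C.cgap (by omega : f p S.q (l + 1) y + 1 < t) (by omega)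
      omega
    · by_contra hc
      push Not at hc
      have h1 := C.phlo y hy
      have h2 := C.cgap hc (C.flen y hy)
      omega

end DMS
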