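import Pool.Agent.DMS.B8

namespace DMS

theorem thm_B10 : St_B10 := by
  intro p S hC hH x hx hf
  change x < S.n 2 at hx
  change f p S.q 2 x < K p 2 at hf
  show 2 ^ 0 * f p S.q 2 (x + 1) ≤ 2 * F p S.q 1 x (x + 1) + 2 ^ 0 * (K p 2 + 8)
  have hC' := hC
  obtain ⟨hok, hn0⟩ := hC'
  have hok' := hok
  obtain ⟨hg, hm, hb⟩ := hok'
  have C1 := ctx hC (by omega : 1 < S.H) (by omega)
  have C0 := ctx hC (by omega : 0 < S.H) (by omega)
  rw [pow_zero, one_mul, one_mul]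
  suffices h : f p S.q 2 (x + 1) ≤ K p 2 + 8 by omega
  by_contra hcon
  push Not at hcon
  obtain ⟨-, -, s3', s4', s5', -⟩ := s4 p S hok hn0 2 hH (by omega)
  obtain ⟨t1, t2, t3⟩ := s3 p.m p.g S hg (by omega) 2 hH
  have hlen := (s3' (x + 1) (x + 1) le_rfl hx).2
  have hK2 : K p 2 + p.m - 1 ≤ len p 2 := (w3 p hok 2 (by omega)).2.1
  have h1 := (t3 x (x + 1) (by omega) hx)
  have h1a := h1.1
  have h1b := h1.2
  rw [Nat.add_sub_cancel_left, Nat.mul_one] at h1a h1b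
  have hpos : 0 < p.m ^ (2 / 2) := Nat.pow_pos (by omega)
  have h2 := s4' (x + 1) hx (by omega)
  have h3 := s5' x hx.le (by omega)
  obtain ⟨-, -, -, -, hposlt⟩ := w7 p hok
  have h4 : pos (c p) 2 (f p S.q 2 x + 1) ≤ pos (c p) 2 (K p 2) := by
    rcases Nat.lt_or_ge (f p S.q 2 x + 1) (K p 2) with h | h
    · exact (hposlt 2 (by omega) _ _ h (by omega)).le
    · rw [show f p S.q 2 x + 1 = K p 2 by omega]
  have e : ∀ k, pos (c p) 2 k = c p 0 (c p 1 k) := fun k => rfl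
  rw [e] at h2 h4
  rw [e] at h4
  rw [e] at h3
  obtain ⟨d, hd⟩ : ∃ d, f p S.q 2 (x + 1) = K p 2 + 9 + d :=
    ⟨f p S.q 2 (x + 1) - (K p 2 + 9), by omega⟩
  have e11 : len p (1 + 1) = len p 2 := rfl
  have h5 := C1.clo (K p 2) (K p 2 + 9 + d) (by omega) (by rw [e11]; omega)
  have e01 : len p (0 + 1) = len p 1 := rfl
  have hc1 : c p 1 (K p 2 + 9 + d) ≤ len p 1 := by
    have := C1.cmono (by omega : K p 2 + 9 + d ≤ len p (1 + 1)) le_rfl
    rw [C1.clen] at this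
    exact this
  have h6 := C0.clo (c p 1 (K p 2)) (c p 1 (K p 2 + 9 + d))
    (by have := Nat.zero_le (p.m / 2 * (K p 2 + 9 + d - K p 2)); omega)
    (by rw [e01]; exact hc1)
  rw [hd] at h2
  rw [show K p 2 + 9 + d - K p 2 = 9 + d by omega] at h5
  have h7 : p.m / 2 * (p.m / 2 * 9) ≤
      p.m / 2 * (c p 1 (K p 2 + 9 + d) - c p 1 (K p 2)) := by
    apply Nat.mul_le_mul le_rfl
    have : p.m / 2 * 9 ≤ p.m / 2 * (9 + d) := Nat.mul_le_mul le_rfl (by omega)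
    omega
  have h8 : p.m ^ 2 < p.m / 2 * (p.m / 2 * 9) := by
    have h9 : p.m ≤ 2 * (p.m / 2) + 1 := by omega
    have h10 : 5000 ≤ p.m / 2 := by omega
    set a := p.m / 2
    calc p.m ^ 2 ≤ (2 * a + 1) ^ 2 := Nat.pow_le_pow_left h9 2
      _ = 4 * (a * a) + 4 * a + 1 := by ring
      _ < a * (a * 9) := by nlinarith
  omega

end DMS
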