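import Pool.Agent.DMS.Fadd

namespace DMS

theorem tri (a b : ℤ) {Λ : ℤ} (h : 0 ≤ Λ) : Λ * |a + b| ≤ Λ * |a| + Λ * |b| := by
  rw [← mul_add]
  exact mul_le_mul_of_nonneg_left (abs_add_le a b) h

section
variable {p : Par} {S : Sys p.m p.g} {l : ℕ}

/-- consequences of `CD`. -/
theorem cd_use (hm : 1 ≤ p.m) (hCD : CD p S l) {x y : ℕ} (hxy : x < y)
    (hy : y ≤ S.n (l + 2)) (hreg : K p (l + 2) ≤ f p S.q (l + 2) x)
    (hD : D p S.q (l + 1) x y) :
    2 ^ l * (y - x) ≤ F p S.q (l + 1) x y ∧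
    2 ^ l * (ph p S.q (l + 1) y - ph p S.q (l + 1) x) ≤ p.m * F p S.q (l + 1) x y := by
  have h := hCD x y hxy hy hreg hD
  constructor
  · have h1 : p.m * (2 ^ l * (y - x)) ≤ p.m * F p S.q (l + 1) x y := by
      calc p.m * (2 ^ l * (y - x)) = 2 ^ l * (p.m * (y - x)) := by ring
        _ ≤ _ := le_trans (Nat.mul_le_mul le_rfl (by omega)) h
    exact Nat.le_of_mul_le_mul_left h1 (by omega)
  · exact le_trans (Nat.mul_le_mul le_rfl (by omega)) h

theorem short_step (C : Ctx p S (l + 1)) (hC : Cx p S) (hCD : CD p S l) {x y : ℕ} (hxy : x ≤ y)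
    (hy : y ≤ S.n (l + 2)) (hreg : K p (l + 2) ≤ f p S.q (l + 2) x) (B : ℕ) (hB2 : 2 ≤ B)
    (hB : B ≤ 12) (hf : f p S.q (l + 2) y ≤ f p S.q (l + 2) x + B) :
    (2 : ℤ) ^ l * |((y : ℤ) - x) - ((f p S.q (l + 2) y : ℤ) - f p S.q (l + 2) x)| ≤
      2 * 2 ^ l * Uc p.m S.q (l + 1) x y + F p S.q (l + 1) x y + B * 2 ^ l := by
  have hm := C.hm
  have hg := C.hg
  have hΛ : (0 : ℤ) < 2 ^ l := by positivity
  rcases Nat.eq_or_lt_of_le hxy with h | h
  · subst h
    simp only [sub_self, abs_zero, mul_zero]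
    positivity
  · have hfm := C.fmono x y hxy hy
    have e2 : f p S.q (l + 1 + 1) = f p S.q (l + 2) := rfl
    rw [e2] at hfm
    rcases thm_B2 p S hC (l + 1) C.hlH C.hl4 x y h hy (by rw [e2]; omega) with hD | hS
    · obtain ⟨h1, -⟩ := cd_use (by omega) hCD h hy hreg hD
      have h1' : (2 : ℤ) ^ l * ((y : ℤ) - x) ≤ F p S.q (l + 1) x y := by
        zify [hxy] at h1
        exact h1
      have h2 : |((y : ℤ) - x) - ((f p S.q (l + 2) y : ℤ) - f p S.q (l + 2) x)| ≤
          ((y : ℤ) - x) + B := by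
        rw [abs_le]; constructor <;> omega
      have h3 := mul_le_mul_of_nonneg_left h2 hΛ.le
      have h4 : (0 : ℤ) ≤ 2 * 2 ^ l * Uc p.m S.q (l + 1) x y := by positivity
      linarith
    · rw [e2] at hS
      have h2 : |((y : ℤ) - x) - ((f p S.q (l + 2) y : ℤ) - f p S.q (l + 2) x)| ≤
          2 * Uc p.m S.q (l + 1) x y + B := by
        rw [abs_le]; constructor <;> omega
      have h3 := mul_le_mul_of_nonneg_left h2 hΛ.le
      have h4 : (0 : ℤ) ≤ F p S.q (l + 1) x y := by positivity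
      linarith

theorem node_step (C : Ctx p S (l + 1)) (hC : Cx p S) (hCO : CO p S l) (hCD : CD p S l)
    {y t : ℕ} (hy : y < S.n (l + 2)) (hreg : K p (l + 2) ≤ f p S.q (l + 2) y)
    (hov : OV p S.q (l + 1) y t) :
    (2 : ℤ) ^ l ≤ F p S.q (l + 1) y (y + 1) ∧
    (2 : ℤ) ^ l * |1 - ((f p S.q (l + 2) (y + 1) : ℤ) - f p S.q (l + 2) y)| ≤
      4 * F p S.q (l + 1) y (y + 1) := by
  have hm := C.hm
  have hg := C.hg
  have hΛ : (0 : ℤ) < 2 ^ l := by positivity
  have h1 : (2 : ℤ) ^ l ≤ F p S.q (l + 1) y (y + 1) := by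
    exact_mod_cast hCO y t hy hov
  refine ⟨h1, ?_⟩
  have e2 : f p S.q (l + 1 + 1) = f p S.q (l + 2) := rfl
  have hfm := C.fmono y (y + 1) (by omega) hy
  rw [e2] at hfm
  by_cases hbig : f p S.q (l + 2) y + 4 ≤ f p S.q (l + 2) (y + 1)
  · have hD := (thm_B3 p S hC (l + 1) C.hlH C.hl4 y hy).1 hbig
    obtain ⟨-, h2⟩ := cd_use (by omega) hCD (by omega : y < y + 1) hy hreg hD
    have h3 := C.phhi y hy.le (by
      have := C.flen (y + 1) hy
      rw [e2] at this ⊢
      omega)
    have h4 := C.phlo (y + 1) hy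
    rw [e2] at h3 h4
    have h5 := C.clo (f p S.q (l + 2) y + 1) (f p S.q (l + 2) (y + 1)) (by omega)
      (C.flen (y + 1) hy)
    obtain ⟨d, hd⟩ : ∃ d, f p S.q (l + 2) (y + 1) = f p S.q (l + 2) y + 1 + d :=
      ⟨f p S.q (l + 2) (y + 1) - (f p S.q (l + 2) y + 1), by omega⟩
    rw [hd] at h4 h5
    rw [Nat.add_sub_cancel_left] at h5
    have h6 : p.m / 2 * d ≤ ph p S.q (l + 1) (y + 1) - ph p S.q (l + 1) y := by omega
    have h7 : 2 ^ l * (p.m / 2 * d) ≤ p.m * F p S.q (l + 1) y (y + 1) :=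
      le_trans (Nat.mul_le_mul le_rfl h6) h2
    have h8 : p.m ≤ 4 * (p.m / 2) := by omega
    have h9 : p.m * (2 ^ l * d) ≤ p.m * (4 * F p S.q (l + 1) y (y + 1)) := by
      calc p.m * (2 ^ l * d) ≤ (4 * (p.m / 2)) * (2 ^ l * d) := Nat.mul_le_mul h8 le_rfl
        _ = 4 * (2 ^ l * (p.m / 2 * d)) := by ring
        _ ≤ 4 * (p.m * F p S.q (l + 1) y (y + 1)) := Nat.mul_le_mul le_rfl h7
        _ = _ := by ring
    have h10 := Nat.le_of_mul_le_mul_left h9 (by omega)
    have h11 : |1 - ((f p S.q (l + 2) (y + 1) : ℤ) - f p S.q (l + 2) y)| = d := by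
      rw [hd]
      push_cast
      rw [abs_of_nonpos (by omega)]
      ring
    rw [h11]
    exact_mod_cast h10
  · have h2 : |1 - ((f p S.q (l + 2) (y + 1) : ℤ) - f p S.q (l + 2) y)| ≤ 2 := by
      rw [abs_le]; constructor <;> omega
    have h3 := mul_le_mul_of_nonneg_left h2 hΛ.le
    linarith

theorem exact_step (C : Ctx p S (l + 1)) (hC : Cx p S) (hCD : CD p S l)
    {x y t t' : ℕ} (ht : Tight p (l + 2) t) (ht' : Tight p (l + 2) t') (htt : t < t')
    (htt3 : t' ≤ t + 3) (hx : x ≤ S.n (l + 2)) (hy : y ≤ S.n (l + 2))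
    (hpx : Pin p S.q (l + 1) x t) (hpy : Pin p S.q (l + 1) y t')
    (hreg : K p (l + 2) ≤ f p S.q (l + 2) x) :
    x < y ∧ (2 : ℤ) ^ l * |((y : ℤ) - x) - ((t' : ℤ) - t)| ≤
      2 * 2 ^ l * Uc p.m S.q (l + 1) x y + 4 * F p S.q (l + 1) x y := by
  have hm := C.hm
  have hg := C.hg
  have hΛ : (0 : ℤ) < 2 ^ l := by positivity
  obtain ⟨hlt, hor⟩ := thm_B4 p S hC (l + 1) C.hlH C.hl4 t t' x y ht ht' htt htt3 hx hy hpx hpy
  refine ⟨hlt, ?_⟩
  have hF0 : (0 : ℤ) ≤ F p S.q (l + 1) x y := by positivity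
  rcases hor with hD | ⟨h1, h2⟩
  · obtain ⟨h1, -⟩ := cd_use (by omega) hCD hlt hy hreg hD
    have h1' : (2 : ℤ) ^ l * ((y : ℤ) - x) ≤ F p S.q (l + 1) x y := by
      zify [hlt.le] at h1
      exact h1
    have h2 : |((y : ℤ) - x) - ((t' : ℤ) - t)| ≤ 4 * ((y : ℤ) - x) := by
      rw [abs_le]; constructor <;> omega
    have h3 := mul_le_mul_of_nonneg_left h2 hΛ.le
    have h4 : (0 : ℤ) ≤ 2 * 2 ^ l * Uc p.m S.q (l + 1) x y := by positivity
    linarith
  · have h2 : |((y : ℤ) - x) - ((t' : ℤ) - t)| ≤ 2 * Uc p.m S.q (l + 1) x y := by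
      rw [abs_le]; constructor <;> omega
    have h3 := mul_le_mul_of_nonneg_left h2 hΛ.le
    linarith

end

theorem thm_B11 : St_B11 := by
  intro p S hC l hl hl4 hCO hCD
  have C := ctx hC (by omega : l + 1 < S.H) (by omega)
  have hm := C.hm
  have hg := C.hg
  have hΛ : (0 : ℤ) < 2 ^ l := by positivity
  have e2 : f p S.q (l + 1 + 1) = f p S.q (l + 2) := rfl
  have en : S.n (l + 1 + 1) = S.n (l + 2) := rfl
  have el : len p (l + 1 + 1) = len p (l + 2) := rfl
  obtain ⟨-, -, W3', W4', -, W6', -⟩ := w4 p hC.1 (l + 2) hl4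
  have key : ∀ d x x₁, x₁ = x + d → x₁ ≤ S.n (l + 2) → K p (l + 2) ≤ f p S.q (l + 2) x →
      ((2 : ℤ) ^ l * |((x₁ : ℤ) - x) - ((f p S.q (l + 2) x₁ : ℤ) - f p S.q (l + 2) x)| ≤
        2 * 2 ^ l * Uc p.m S.q (l + 1) x x₁ + 30 * F p S.q (l + 1) x x₁ + 26 * 2 ^ l) ∧
      ∀ t, Tight p (l + 2) t → Pin p S.q (l + 1) x t →
        ((2 : ℤ) ^ l * |((x₁ : ℤ) - x) - ((f p S.q (l + 2) x₁ : ℤ) - t)| ≤
        2 * 2 ^ l * Uc p.m S.q (l + 1) x x₁ + 30 * F p S.q (l + 1) x x₁ + 13 * 2 ^ l) := by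
    intro d
    induction d using Nat.strong_induction_on with
    | _ d ih =>
      intro x x₁ hd hx1 hreg
      have hxx : x ≤ x₁ := by omega
      have hfm := C.fmono x x₁ hxx hx1
      have hfl := C.flen x₁ hx1
      rw [e2] at hfm hfl
      rw [el] at hfl
      have hF0 : (0 : ℤ) ≤ F p S.q (l + 1) x x₁ := by positivity
      have hU0 : (0 : ℤ) ≤ 2 * 2 ^ l * Uc p.m S.q (l + 1) x x₁ := by positivity
      -- the jump to the cut `X t₂`
      have hjump : ∀ t₂, Tight p (l + 2) t₂ → t₂ + 1 ≤ f p S.q (l + 2) x₁ →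
          ph p S.q (l + 1) x < c p (l + 1) t₂ + 21 * p.g + 6 →
          ∃ y, x ≤ y ∧ y < x₁ ∧ (OV p S.q (l + 1) y t₂ ∨ Pin p S.q (l + 1) y t₂) ∧
            (OV p S.q (l + 1) y t₂ → f p S.q (l + 2) y < t₂) ∧
            (Pin p S.q (l + 1) y t₂ →
              t₂ ≤ f p S.q (l + 2) y + 1 ∧ f p S.q (l + 2) y ≤ t₂) := by
        intro t₂ ht₂ hf2 hph
        obtain ⟨b1, b2, b3, b4, b5, b6⟩ := thm_B1 p S hC (l + 1) C.hlH C.hl4 t₂ ht₂
        set y := X p S.q S.n (l + 1) t₂
        have hy1 : x ≤ y := b4 x (by omega) hph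
        have hy2 : y < x₁ := by
          by_contra hc
          push Not at hc
          have h1 := C.phmono x₁ y hc b1.le
          have h2 := C.phlo x₁ hx1
          rw [e2] at h2
          have h3 := C.cgap (by omega : t₂ < f p S.q (l + 2) x₁) hfl
          omega
        refine ⟨y, hy1, hy2, b5, ?_, ?_⟩
        · intro hov
          have := C.f_lt b1.le ht₂.2.1.le (by have := hov.2.1; omega)
          rwa [e2] at this
        · intro hpin
          have := b6 y b1.le hpin
          exact ⟨this.1, this.2.1⟩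
      -- the rest of the way after an overlap node
      have hrest : ∀ y t₂, x ≤ y → y < x₁ → OV p S.q (l + 1) y t₂ →
          f p S.q (l + 2) y ≤ f p S.q (l + 2) x + 4 →
          (2 : ℤ) ^ l * |((x₁ : ℤ) - x) - ((f p S.q (l + 2) x₁ : ℤ) - f p S.q (l + 2) x)| ≤
            2 * 2 ^ l * Uc p.m S.q (l + 1) x x₁ + 30 * F p S.q (l + 1) x x₁ + 4 * 2 ^ l := by
        intro y t₂ hxy hyx hov hfy
        have hregy : K p (l + 2) ≤ f p S.q (l + 2) y := by
          have := C.fmono x y hxy (by omega)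
          rw [e2] at this
          omega
        have hregy1 : K p (l + 2) ≤ f p S.q (l + 2) (y + 1) := by
          have := C.fmono y (y + 1) (by omega) (by omega)
          rw [e2] at this
          omega
        have s1 := short_step C hC hCD hxy (by omega) hreg 4 (by omega) (by omega) hfy
        obtain ⟨s2, s3⟩ := node_step C hC hCO hCD (by omega) hregy hov
        have s4 := (ih (x₁ - (y + 1)) (by omega) (y + 1) x₁ (by omega) hx1 hregy1).1
        have f1 := F_add S (by omega : l + 1 < S.H) hxy (by omega : y ≤ x₁) hx1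
        have f2 := F_add S (by omega : l + 1 < S.H) (by omega : y ≤ y + 1)
          (by omega : y + 1 ≤ x₁) hx1
        have u1 := Uc_add p.m S.q (l + 1) x y x₁ hxy (by omega)
        have u2 := Uc_add p.m S.q (l + 1) y (y + 1) x₁ (by omega) (by omega)
        have t1 := tri (((y : ℤ) - x) - ((f p S.q (l + 2) y : ℤ) - f p S.q (l + 2) x))
          ((1 - ((f p S.q (l + 2) (y + 1) : ℤ) - f p S.q (l + 2) y)) +
            (((x₁ : ℤ) - (y + 1 : ℕ)) -
              ((f p S.q (l + 2) x₁ : ℤ) - f p S.q (l + 2) (y + 1)))) hΛ.le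
        have t2 := tri (1 - ((f p S.q (l + 2) (y + 1) : ℤ) - f p S.q (l + 2) y))
            (((x₁ : ℤ) - (y + 1 : ℕ)) -
              ((f p S.q (l + 2) x₁ : ℤ) - f p S.q (l + 2) (y + 1))) hΛ.le
        have e : (((y : ℤ) - x) - ((f p S.q (l + 2) y : ℤ) - f p S.q (l + 2) x)) +
          ((1 - ((f p S.q (l + 2) (y + 1) : ℤ) - f p S.q (l + 2) y)) +
            (((x₁ : ℤ) - (y + 1 : ℕ)) -
              ((f p S.q (l + 2) x₁ : ℤ) - f p S.q (l + 2) (y + 1)))) =
          ((x₁ : ℤ) - x) - ((f p S.q (l + 2) x₁ : ℤ) - f p S.q (l + 2) x) := by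
          push_cast; ring
        rw [e] at t1
        have f1' : (F p S.q (l + 1) x y : ℤ) + F p S.q (l + 1) y x₁ =
          F p S.q (l + 1) x x₁ := by exact_mod_cast f1
        have f2' : (F p S.q (l + 1) y (y + 1) : ℤ) + F p S.q (l + 1) (y + 1) x₁ =
          F p S.q (l + 1) y x₁ := by exact_mod_cast f2
        have u1' : (Uc p.m S.q (l + 1) x y : ℤ) + Uc p.m S.q (l + 1) y x₁ =
          Uc p.m S.q (l + 1) x x₁ := by exact_mod_cast u1
        have u2' : (Uc p.m S.q (l + 1) y (y + 1) : ℤ) + Uc p.m S.q (l + 1) (y + 1) x₁ =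
          Uc p.m S.q (l + 1) y x₁ := by exact_mod_cast u2
        have z1 : (0 : ℤ) ≤ F p S.q (l + 1) x y := by positivity
        have z2 : (0 : ℤ) ≤ 2 * 2 ^ l * Uc p.m S.q (l + 1) y (y + 1) := by positivity
        have u3 : 2 * (2 : ℤ) ^ l * Uc p.m S.q (l + 1) x x₁ =
          2 * 2 ^ l * Uc p.m S.q (l + 1) x y + 2 * 2 ^ l * Uc p.m S.q (l + 1) y (y + 1) +
          2 * 2 ^ l * Uc p.m S.q (l + 1) (y + 1) x₁ := by
          rw [← u1', ← u2']; ring
        push_cast at s1
        linarith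
      constructor
      · -- P*
        rcases Nat.eq_or_lt_of_le hxx with h0 | h0
        · rw [← h0]
          simp only [sub_self, abs_zero, mul_zero]
          positivity
        by_cases hnear : f p S.q (l + 2) x₁ ≤ f p S.q (l + 2) x + 5
        · have s1 := short_step C hC hCD hxx hx1 hreg 5 (by omega) (by omega) hnear
          push_cast at s1
          linarith
        push Not at hnear
        obtain ⟨t, t1, t2, ht⟩ := W3' (f p S.q (l + 2) x + 1) (by omega) (by omega)
        have hphx := C.phhi x (by omega) (by rw [e2, el]; omega)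
        rw [e2] at hphx
        have hcc := C.cmono (by omega : f p S.q (l + 2) x + 1 ≤ t) ht.2.1.le
        obtain ⟨y, y1, y2, y3, y4, y5⟩ := hjump t ht (by omega) (by omega)
        rcases y3 with hov | hpin
        · have := y4 hov
          have s1 := hrest y t y1 y2 hov (by omega)
          linarith
        · obtain ⟨z1, z2⟩ := y5 hpin
          have hregy : K p (l + 2) ≤ f p S.q (l + 2) y := by omega
          have hlt : x < y ∨ x = y := by omega
          have s1 := short_step C hC hCD y1 (by omega) hreg 4 (by omega) (by omega) (by omega)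
          -- `P y t`: if `y = x` the pin gives a contradiction with the size of `ph x`
          have hxy : x < y := by
            rcases hlt with h | h
            · exact h
            · exfalso
              subst h
              have h5 := hpin.1
              have h6 := C.cgap (by omega : f p S.q (l + 2) x + 1 < t) ht.2.1.le
              omega
          have s2 := (ih (x₁ - y) (by omega) y x₁ (by omega) hx1 hregy).2 t ht hpin
          have f1 := F_add S (by omega : l + 1 < S.H) y1 (by omega : y ≤ x₁) hx1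
          have u1 := Uc_add p.m S.q (l + 1) x y x₁ y1 (by omega)
          have t1 := tri (((y : ℤ) - x) - ((f p S.q (l + 2) y : ℤ) - f p S.q (l + 2) x))
            ((((x₁ : ℤ) - y) - ((f p S.q (l + 2) x₁ : ℤ) - t)) +
              ((f p S.q (l + 2) y : ℤ) - t)) hΛ.le
          have t2 := tri (((x₁ : ℤ) - y) - ((f p S.q (l + 2) x₁ : ℤ) - t))
            ((f p S.q (l + 2) y : ℤ) - t) hΛ.le
          have t3 : (2 : ℤ) ^ l * |(f p S.q (l + 2) y : ℤ) - t| ≤ 2 ^ l * 1 := by
            apply mul_le_mul_of_nonneg_left _ hΛ.le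
            rw [abs_le]; constructor <;> omega
          have e : (((y : ℤ) - x) - ((f p S.q (l + 2) y : ℤ) - f p S.q (l + 2) x)) +
            ((((x₁ : ℤ) - y) - ((f p S.q (l + 2) x₁ : ℤ) - t)) +
              ((f p S.q (l + 2) y : ℤ) - t)) =
            ((x₁ : ℤ) - x) - ((f p S.q (l + 2) x₁ : ℤ) - f p S.q (l + 2) x) := by ring
          rw [e] at t1
          have f1' : (F p S.q (l + 1) x y : ℤ) + F p S.q (l + 1) y x₁ =
            F p S.q (l + 1) x x₁ := by exact_mod_cast f1
          have u1' : (Uc p.m S.q (l + 1) x y : ℤ) + Uc p.m S.q (l + 1) y x₁ =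
            Uc p.m S.q (l + 1) x x₁ := by exact_mod_cast u1
          have z1 : (0 : ℤ) ≤ F p S.q (l + 1) x y := by positivity
          have u3 : 2 * (2 : ℤ) ^ l * Uc p.m S.q (l + 1) x x₁ =
            2 * 2 ^ l * Uc p.m S.q (l + 1) x y + 2 * 2 ^ l * Uc p.m S.q (l + 1) y x₁ := by
            rw [← u1']; ring
          push_cast at s1
          linarith
      · -- P
        intro t ht hpin
        obtain ⟨g1, g2⟩ := (thm_B1 p S hC (l + 1) C.hlH C.hl4 t ht).2.2.2.2.2 x (by omega) hpin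
          |>.imp_right (fun h => h.1)
        rw [e2] at g1 g2
        have t3 : (2 : ℤ) ^ l * |(t : ℤ) - f p S.q (l + 2) x| ≤ 2 ^ l * 1 := by
          apply mul_le_mul_of_nonneg_left _ hΛ.le
          rw [abs_le]; constructor <;> omega
        have e : (((x₁ : ℤ) - x) - ((f p S.q (l + 2) x₁ : ℤ) - f p S.q (l + 2) x)) +
            ((t : ℤ) - f p S.q (l + 2) x) =
            ((x₁ : ℤ) - x) - ((f p S.q (l + 2) x₁ : ℤ) - t) := by ring
        have t1 := tri (((x₁ : ℤ) - x) - ((f p S.q (l + 2) x₁ : ℤ) - f p S.q (l + 2) x))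
            ((t : ℤ) - f p S.q (l + 2) x) hΛ.le
        rw [e] at t1
        by_cases hnear : f p S.q (l + 2) x₁ ≤ t + 3
        · have s1 := short_step C hC hCD hxx hx1 hreg 4 (by omega) (by omega) (by omega)
          push_cast at s1
          linarith
        push Not at hnear
        have hW := W4' t ht (by omega)
        obtain ⟨t₂, ht2, ht2t, htt⟩ : ∃ t₂, Tight p (l + 2) t₂ ∧ t < t₂ ∧ t₂ ≤ t + 3 := by
          rcases hW with h | h
          · exact ⟨t + 2, h, by omega, by omega⟩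
          · exact ⟨t + 3, h, by omega, by omega⟩
        have hcc := C.cmono ht2t.le ht2.2.1.le
        obtain ⟨y, y1, y2, y3, y4, y5⟩ := hjump t₂ ht2 (by omega)
          (by have := hpin.2; omega)
        rcases y3 with hov | hpy
        · have := y4 hov
          have s1 := hrest y t₂ y1 y2 hov (by omega)
          linarith
        · obtain ⟨z1, z2⟩ := y5 hpy
          obtain ⟨hxy, s1⟩ := exact_step C hC hCD ht ht2 ht2t htt (by omega) (by omega) hpin hpy
            hreg
          have hregy : K p (l + 2) ≤ f p S.q (l + 2) y := by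
            have := C.fmono x y hxy.le (by omega)
            rw [e2] at this
            omega
          have s2 := (ih (x₁ - y) (by omega) y x₁ (by omega) hx1 hregy).2 t₂ ht2 hpy
          have f1 := F_add S (by omega : l + 1 < S.H) y1 (by omega : y ≤ x₁) hx1
          have u1 := Uc_add p.m S.q (l + 1) x y x₁ y1 (by omega)
          have t1' := tri (((y : ℤ) - x) - ((t₂ : ℤ) - t))
            (((x₁ : ℤ) - y) - ((f p S.q (l + 2) x₁ : ℤ) - t₂)) hΛ.le
          have e' : (((y : ℤ) - x) - ((t₂ : ℤ) - t)) +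
            (((x₁ : ℤ) - y) - ((f p S.q (l + 2) x₁ : ℤ) - t₂)) =
            ((x₁ : ℤ) - x) - ((f p S.q (l + 2) x₁ : ℤ) - t) := by ring
          rw [e'] at t1'
          have f1' : (F p S.q (l + 1) x y : ℤ) + F p S.q (l + 1) y x₁ =
            F p S.q (l + 1) x x₁ := by exact_mod_cast f1
          have u1' : (Uc p.m S.q (l + 1) x y : ℤ) + Uc p.m S.q (l + 1) y x₁ =
            Uc p.m S.q (l + 1) x x₁ := by exact_mod_cast u1
          have z1 : (0 : ℤ) ≤ F p S.q (l + 1) x y := by positivity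
          have u3 : 2 * (2 : ℤ) ^ l * Uc p.m S.q (l + 1) x x₁ =
            2 * 2 ^ l * Uc p.m S.q (l + 1) x y + 2 * 2 ^ l * Uc p.m S.q (l + 1) y x₁ := by
            rw [← u1']; ring
          linarith
  intro x x₁ hx hx1 hreg
  exact (key (x₁ - x) x x₁ (by omega) hx1 hreg).1

end DMS
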