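import Pool.Agent.DMS.B11

namespace DMS

theorem thm_B12 : St_B12 := by
  intro p S hC l hH hb hCO hCD k₁ k₂ hk hk2 hreg hD
  have C2 := ctx hC (by omega : l + 2 < S.H) (by omega : l + 2 + 1 ≤ 4 * p.b)
  have C1 := ctx hC (by omega : l + 1 < S.H) (by omega : l + 1 + 1 ≤ 4 * p.b)
  have hg := C2.hg
  have hm := C2.hm
  have e2 : S.n (l + 1 + 1) = S.n (l + 2) := rfl
  have e3 : S.n (l + 2 + 1) = S.n (l + 3) := rfl
  have e3' : S.n (l + 1 + 2) = S.n (l + 3) := rfl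
  rw [e3'] at hk2
  change K p (l + 3) ≤ f p S.q (l + 3) k₁ at hreg
  change D p S.q (l + 2) k₁ k₂ at hD
  change 2 ^ (l + 1) * ((ph p S.q (l + 2) k₂ - ph p S.q (l + 2) k₁) +
      (S.q (l + 2) k₂ - S.q (l + 2) k₁) + p.m * (k₂ - k₁)) ≤
      p.m * F p S.q (l + 1) (S.q (l + 2) k₁) (S.q (l + 2) k₂)
  set x := S.q (l + 2) k₁ with hx
  set x₁ := S.q (l + 2) k₂ with hx1
  have hqm : x ≤ x₁ := by
    have := q_mono S (by omega : l + 2 < S.H) k₁ k₂ hk.le hk2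
    omega
  have hqn : x₁ ≤ S.n (l + 2) := by
    have h1 := q_mono S (by omega : l + 2 < S.H) k₂ (S.n (l + 3)) hk2 le_rfl
    rw [S.q_end (l + 2) (by omega)] at h1
    omega
  have hphx : ph p S.q (l + 2) k₁ = f p S.q (l + 2) x := rfl
  have hphx1 : ph p S.q (l + 2) k₂ = f p S.q (l + 2) x₁ := rfl
  -- the region
  have hKK : K p (l + 2) ≤ f p S.q (l + 2) x := by
    have h1 := C2.phlo k₁ (by omega)
    rw [hphx] at h1
    change c p (l + 2) (f p S.q (l + 3) k₁) ≤ _ at h1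
    have h2 := C2.cmono hreg (C2.flen k₁ (by omega))
    obtain ⟨-, -, -, -, -, -, h3⟩ := w3 p hC.1 (l + 2) (by omega)
    obtain ⟨h4, h5⟩ := h3 (by omega)
    have h6 := h5 (K p (l + 2 + 1)) (by omega)
    change K p (l + 2) ≤ p.m * K p (l + 3) at h4
    change c p (l + 2) (K p (l + 3)) = p.m * K p (l + 3) at h6
    omega
  have h11 := thm_B11 p S hC l (by omega) (by omega) hCO hCD x x₁ hqm hqn hKK
  have hS := (s2 p.m p.g S hg (by omega) (l + 1) (by omega)).2.1 k₁ k₂ hk.le hk2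
  change p.m * Uc p.m S.q (l + 1) x x₁ ≤ p.m * (k₂ - k₁) + 2 * p.g * (x₁ - x) at hS
  have hfm : f p S.q (l + 2) x ≤ f p S.q (l + 2) x₁ := C1.fmono x x₁ hqm hqn
  unfold D at hD
  rw [hphx, hphx1, ← hx, ← hx1] at hD
  rw [hphx, hphx1]
  obtain ⟨k', hk'⟩ := Nat.exists_eq_add_of_lt hk
  set U := Uc p.m S.q (l + 1) x x₁
  set Fv := F p S.q (l + 1) x x₁
  set a := f p S.q (l + 2) x
  set b := f p S.q (l + 2) x₁
  zify [hqm, hfm, hk.le] at hS ⊢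
  set A : ℤ := |((x₁ : ℤ) - x) - ((b : ℤ) - a)| with hA
  have hΛ : (0 : ℤ) < 2 ^ l := by positivity
  have hm' : (10000 : ℤ) * p.g ≤ p.m := by exact_mod_cast hm
  have hg' : (1 : ℤ) ≤ p.g := by exact_mod_cast hg
  have hk1 : (1 : ℤ) ≤ (k₂ : ℤ) - k₁ := by omega
  have hCc : (0 : ℤ) ≤ (b : ℤ) - a := by omega
  have hCc' : (0 : ℤ) ≤ (x₁ : ℤ) - x := by omega
  have e : (2 : ℤ) ^ (l + 1) = 2 * 2 ^ l := by ring
  rw [e]
  have h11' : (2 : ℤ) ^ l * A ≤ 2 * 2 ^ l * U + 30 * Fv + 26 * 2 ^ l := h11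
  have hmp : (0 : ℤ) < p.m := by linarith
  have P1 := mul_le_mul_of_nonneg_left hD (mul_pos hmp hΛ).le
  have P2 := mul_le_mul_of_nonneg_left h11' (by linarith : (0 : ℤ) ≤ 50 * p.m)
  have P3 := mul_le_mul_of_nonneg_left hS (by linarith : (0 : ℤ) ≤ 100 * 2 ^ l)
  have P4 := mul_le_mul_of_nonneg_left hk1 (mul_pos hmp hΛ).le
  have h5 : (3000 : ℤ) ≤ p.m - 200 * p.g := by linarith
  have P5 := mul_le_mul_of_nonneg_left h5
    (mul_nonneg hΛ.le (add_nonneg hCc hCc'))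
  have P6 : (0 : ℤ) ≤ 2 ^ l * p.g * ((b : ℤ) - a) := by positivity
  nlinarith [P1, P2, P3, P4, P5, P6]

end DMS
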