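import Pool.Agent.DMS.B11

namespace DMS

theorem thm_B13 : St_B13 := by
  intro p S hC l hH hb hCO hCD hCS x t hx hov
  have C2 := ctx hC (by omega : l + 2 < S.H) (by omega : l + 2 + 1 ≤ 4 * p.b)
  have C1 := ctx hC (by omega : l + 1 < S.H) (by omega : l + 1 + 1 ≤ 4 * p.b)
  have hg := C2.hg
  have hm := C2.hm
  change x < S.n (l + 3) at hx
  change OV p S.q (l + 2) x t at hov
  change 2 ^ (l + 1) ≤ F p S.q (l + 1) (S.q (l + 2) x) (S.q (l + 2) (x + 1))
  obtain ⟨hT, ho1, ho2⟩ := hov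
  set x₀ := S.q (l + 2) x with hx0
  set x₁ := S.q (l + 2) (x + 1) with hx1
  change f p S.q (l + 2) x₀ + 21 * p.g < c p (l + 2) t at ho1
  change c p (l + 2) t + 21 * p.g + 6 ≤ f p S.q (l + 2) x₁ at ho2
  set c₀ := c p (l + 2) t with hc0
  have hqm : x₀ < x₁ := S.q_lt (l + 2) (by omega) x hx
  have hqn : x₁ ≤ S.n (l + 2) := by
    have h1 := q_mono S (by omega : l + 2 < S.H) (x + 1) (S.n (l + 3)) hx le_rfl
    rw [S.q_end (l + 2) (by omega)] at h1
    omega
  obtain ⟨w51, -, -, w54, w55, -⟩ := w5 p hC.1 (l + 2) (by omega) t hT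
  rw [← hc0] at w51 w54 w55
  obtain ⟨-, -, -, -, -, -, w4'⟩ := w4 p hC.1 (l + 2) (by omega)
  have hfl : ∀ y, y ≤ S.n (l + 2) → f p S.q (l + 2) y ≤ len p (l + 2) := C1.flen
  have hfl1 := hfl x₁ hqn
  have hfm : ∀ y y', y ≤ y' → y' ≤ S.n (l + 2) →
      f p S.q (l + 2) y ≤ f p S.q (l + 2) y' := C1.fmono
  obtain ⟨J, hJ⟩ : ∃ J, J + 21 * p.g = c₀ + 20 := ⟨c₀ + 20 - 21 * p.g, by omega⟩
  have hJK : K p (l + 2) + 7 ≤ J := by omega
  have hXX : ∀ z, Tight p (l + 2) z → J ≤ z + 3 → z ≤ J + 21 * p.g + 5 →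
      x₀ ≤ X p S.q S.n (l + 1) z ∧ X p S.q S.n (l + 1) z < x₁ ∧
      (OV p S.q (l + 1) (X p S.q S.n (l + 1) z) z ∨
        Pin p S.q (l + 1) (X p S.q S.n (l + 1) z) z) := by
    intro z hz hz1 hz2
    obtain ⟨b1, b2, b3, b4, b5, b6⟩ := thm_B1 p S hC (l + 1) C1.hlH C1.hl4 z hz
    refine ⟨?_, ?_, b5⟩
    · apply b4 x₀ (by change x₀ ≤ S.n (l + 2); omega)
      have h1 := C1.phhi x₀ (by change x₀ ≤ S.n (l + 2); omega)
        (by change f p S.q (l + 2) x₀ < len p (l + 2); omega)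
      change ph p S.q (l + 1) x₀ < c p (l + 1) (f p S.q (l + 2) x₀ + 1) at h1
      have h2 := C1.cmono (by omega : f p S.q (l + 2) x₀ + 1 ≤ z) hz.2.1.le
      omega
    · by_contra hc
      push Not at hc
      have h1 := C1.phmono x₁ _ hc b1.le
      have h2 := C1.phlo x₁ hqn
      change c p (l + 1) (f p S.q (l + 2) x₁) ≤ _ at h2
      have h3 := C1.cgap (by omega : z < f p S.q (l + 2) x₁) hfl1
      omega
  have hXm : ∀ z z', Tight p (l + 2) z → Tight p (l + 2) z' → z ≤ z' →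
      X p S.q S.n (l + 1) z ≤ X p S.q S.n (l + 1) z' := by
    intro z z' hz hz' hzz
    obtain ⟨b1, b2, b3, b4, b5, b6⟩ := thm_B1 p S hC (l + 1) C1.hlH C1.hl4 z hz
    obtain ⟨b1', b2', b3', b4', b5', b6'⟩ := thm_B1 p S hC (l + 1) C1.hlH C1.hl4 z' hz'
    apply b4' _ b1.le
    have := C1.cmono hzz hz'.2.1.le
    omega
  have hFmono : ∀ u v, x₀ ≤ u → u ≤ v → v ≤ x₁ →
      F p S.q (l + 1) u v ≤ F p S.q (l + 1) x₀ x₁ := by
    intro u v h1 h2 h3
    have a1 := F_add S (by omega : l + 1 < S.H) h1 (by omega : u ≤ x₁) hqn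
    have a2 := F_add S (by omega : l + 1 < S.H) h2 h3 hqn
    omega
  by_cases hA : ∃ z z', z < z' ∧ Tight p (l + 2) z ∧ Tight p (l + 2) z' ∧ J ≤ z + 3 ∧
      z' ≤ J + 21 * p.g + 5 ∧ OV p S.q (l + 1) (X p S.q S.n (l + 1) z) z ∧
      OV p S.q (l + 1) (X p S.q S.n (l + 1) z') z'
  · obtain ⟨z, z', hzz, hz, hz', hz1, hz2, ov, ov'⟩ := hA
    obtain ⟨a1, a2, -⟩ := hXX z hz hz1 (by omega)
    obtain ⟨a1', a2', -⟩ := hXX z' hz' (by omega) hz2
    have hmm := hXm z z' hz hz' hzz.le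
    rcases Nat.eq_or_lt_of_le hmm with heq | hlt
    · rw [← heq] at ov'
      set w := X p S.q S.n (l + 1) z with hw
      have hwn : w < S.n (l + 2) := by omega
      have hD := (thm_B3 p S hC (l + 1) C1.hlH C1.hl4 w hwn).2 z z' hzz ov ov'
      have hFw := hFmono w (w + 1) a1 (by omega) (by omega)
      rcases Nat.lt_or_ge (f p S.q (l + 2) w) (K p (l + 2)) with hreg | hreg
      · have h1 := hCS w hwn hreg
        have h2 := C1.le_f (x := w + 1) (k := z') hwn hz'.2.1.le (by have := ov'.2.2; omega)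
        change z' ≤ f p S.q (l + 2) (w + 1) at h2
        have h3 : K p (l + 2) + 12 ≤ f p S.q (l + 2) (w + 1) := by omega
        have h4 := Nat.mul_le_mul (le_refl (2 ^ l)) h3
        have h5 : 2 ^ (l + 1) = 2 * 2 ^ l := by ring
        rw [h5]
        have h6 : 2 ^ l * (K p (l + 2) + 12) = 2 ^ l * (K p (l + 2) + 8) + 4 * 2 ^ l := by
          ring
        omega
      · have h1 := hCD w (w + 1) (by omega) hwn hreg hD
        have h2 : z + 2 ≤ z' := tight_ne hz hz' hzz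
        have h3 := C1.clo z z' hzz.le hz'.2.1.le
        have h4 : p.m / 2 * 2 ≤ p.m / 2 * (z' - z) := Nat.mul_le_mul le_rfl (by omega)
        have h5 : p.m ≤ ph p S.q (l + 1) (w + 1) - ph p S.q (l + 1) w := by
          have e1 := ov.2.1
          have e2 := ov'.2.2
          omega
        have h6 : p.m * 2 ^ (l + 1) ≤ p.m * F p S.q (l + 1) w (w + 1) := by
          calc p.m * 2 ^ (l + 1) = 2 ^ l * (p.m + p.m) := by ring
            _ ≤ _ := Nat.mul_le_mul le_rfl (by rw [Nat.add_sub_cancel_left]; omega)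
            _ ≤ _ := h1
        have h7 := Nat.le_of_mul_le_mul_left h6 (by omega)
        omega
    · have o1 := hCO _ z (by omega : X p S.q S.n (l + 1) z < S.n (l + 2)) ov
      have o2 := hCO _ z' (by omega : X p S.q S.n (l + 1) z' < S.n (l + 2)) ov'
      have f1 := F_add S (by omega : l + 1 < S.H)
        (by omega : X p S.q S.n (l + 1) z ≤ X p S.q S.n (l + 1) z + 1)
        (by omega : X p S.q S.n (l + 1) z + 1 ≤ X p S.q S.n (l + 1) z')
        (by change _ ≤ S.n (l + 2); omega)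
      have f2 := F_add S (by omega : l + 1 < S.H)
        (by omega : X p S.q S.n (l + 1) z ≤ X p S.q S.n (l + 1) z')
        (by omega : X p S.q S.n (l + 1) z' ≤ X p S.q S.n (l + 1) z' + 1)
        (by change _ ≤ S.n (l + 2); omega)
      have f3 := hFmono (X p S.q S.n (l + 1) z) (X p S.q S.n (l + 1) z' + 1) a1 (by omega)
        (by omega)
      have h5 : 2 ^ (l + 1) = 2 * 2 ^ l := by ring
      omega
  · have hpin : ∀ i, i ≤ p.g → ∃ z w, Tight p (l + 2) z ∧ Tight p (l + 2) w ∧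
        J + 21 * i ≤ z + 3 ∧ z ≤ J + 21 * i ∧ J + 21 * i + 1 ≤ w ∧ w ≤ J + 21 * i + 5 ∧
        Pin p S.q (l + 1) (X p S.q S.n (l + 1) z) z ∧
        Pin p S.q (l + 1) (X p S.q S.n (l + 1) w) w := by
      intro i hi
      have hU := w51 i hi
      have hji : c₀ + 20 - 21 * (p.g - i) = J + 21 * i := by omega
      rw [hji] at hU
      obtain ⟨z₁, z₂, y₁, y₂, t1, t2, t3, t4, l1, l2, l3, l4, l5, l6⟩ :=
        w4' (J + 21 * i) (by omega) hU
      have hi21 : 21 * i ≤ 21 * p.g := by omega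
      obtain ⟨z, hz, hz1, hz2, hzp⟩ : ∃ z, Tight p (l + 2) z ∧ z₁ ≤ z ∧ z ≤ z₂ ∧
          Pin p S.q (l + 1) (X p S.q S.n (l + 1) z) z := by
        rcases (hXX z₁ t1 (by omega) (by omega)).2.2 with h | h
        · rcases (hXX z₂ t2 (by omega) (by omega)).2.2 with h' | h'
          · exact absurd ⟨z₁, z₂, l1, t1, t2, by omega, by omega, h, h'⟩ hA
          · exact ⟨z₂, t2, by omega, le_rfl, h'⟩
        · exact ⟨z₁, t1, le_rfl, by omega, h⟩
      obtain ⟨w, hw, hw1, hw2, hwp⟩ : ∃ w, Tight p (l + 2) w ∧ y₁ ≤ w ∧ w ≤ y₂ ∧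
          Pin p S.q (l + 1) (X p S.q S.n (l + 1) w) w := by
        rcases (hXX y₁ t3 (by omega) (by omega)).2.2 with h | h
        · rcases (hXX y₂ t4 (by omega) (by omega)).2.2 with h' | h'
          · exact absurd ⟨y₁, y₂, l2, t3, t4, by omega, by omega, h, h'⟩ hA
          · exact ⟨y₂, t4, by omega, le_rfl, h'⟩
        · exact ⟨y₁, t3, le_rfl, by omega, h⟩
      exact ⟨z, w, hz, hw, by omega, by omega, by omega, by omega, hzp, hwp⟩
    choose! zs ws hzw using hpin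
    have hUg := (s2 p.m p.g S hg (by omega) (l + 1) (by omega)).1 x hx
    change Uc p.m S.q (l + 1) x₀ x₁ ≤ p.g at hUg
    obtain ⟨i, hi, huv, hU0, hD⟩ := thm_B7 p S hC (l + 1) C1.hlH C1.hl4 J x₀ x₁
      (fun i => X p S.q S.n (l + 1) (zs i)) (fun i => X p S.q S.n (l + 1) (ws i)) zs ws
      hqn hqm.le (by
        intro i hi
        obtain ⟨a1, a2, a3, a4, a5, a6, a7, a8⟩ := hzw i hi
        have hU := w51 i hi
        have hji : c₀ + 20 - 21 * (p.g - i) = J + 21 * i := by omega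
        rw [hji] at hU
        obtain ⟨d1, d2, -⟩ := hXX (zs i) a1 (by omega) (by omega)
        obtain ⟨d1', d2', -⟩ := hXX (ws i) a2 (by omega) (by omega)
        refine ⟨hU, a1, a2, a3, a4, a5, a6, a7, a8, d1, d2'.le, ?_, ?_⟩
        · change _ ≤ S.n (l + 2); omega
        · change _ ≤ S.n (l + 2); omega) hUg
    obtain ⟨a1, a2, a3, a4, a5, a6, a7, a8⟩ := hzw i hi
    obtain ⟨d1, d2, -⟩ := hXX (zs i) a1 (by omega) (by omega)
    obtain ⟨d1', d2', -⟩ := hXX (ws i) a2 (by omega) (by omega)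
    set u := X p S.q S.n (l + 1) (zs i)
    set v := X p S.q S.n (l + 1) (ws i)
    change u < v at huv
    change Uc p.m S.q (l + 1) u v = 0 at hU0
    change D p S.q (l + 1) u v at hD
    have hreg : K p (l + 2) ≤ f p S.q (l + 2) u := by
      have h1 := ((thm_B1 p S hC (l + 1) C1.hlH C1.hl4 (zs i) a1).2.2.2.2.2 u
        (by change u ≤ S.n (l + 2); omega) a7).1
      change zs i ≤ f p S.q (l + 2) u + 1 at h1
      omega
    have h1 := hCD u v huv (by change v ≤ S.n (l + 2); omega) hreg hD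
    obtain ⟨c1, c2, c3⟩ := cnt C1 huv.le (by change v ≤ S.n (l + 2); omega)
    have h2 : p.m ≤ p.m * (v - u) := Nat.le_mul_of_pos_right _ (by omega)
    have h3 : p.m * (v - u) ≤ S.q (l + 1) v - S.q (l + 1) u := by
      rw [hU0, Nat.add_zero] at c1
      rw [c1, hU0] at c2
      omega
    have h6 : p.m * 2 ^ (l + 1) ≤ p.m * F p S.q (l + 1) u v := by
      calc p.m * 2 ^ (l + 1) = 2 ^ l * (p.m + p.m) := by ring
        _ ≤ _ := Nat.mul_le_mul le_rfl (by omega)
        _ ≤ _ := h1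
    have h7 := Nat.le_of_mul_le_mul_left h6 (by omega)
    have h8 := hFmono u v d1 huv.le d2'.le
    omega

end DMS
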