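import Pool.Agent.DMS.B11

namespace DMS

theorem thm_B14 : St_B14 := by
  intro p S hC l hH hb hCD hCS x hx hfx
  have C2 := ctx hC (by omega : l + 2 < S.H) (by omega : l + 2 + 1 ≤ 4 * p.b)
  have C1 := ctx hC (by omega : l + 1 < S.H) (by omega : l + 1 + 1 ≤ 4 * p.b)
  have hg := C2.hg
  have hm := C2.hm
  have e2 : S.n (l + 1 + 1) = S.n (l + 2) := rfl
  have e3 : S.n (l + 2 + 1) = S.n (l + 3) := rfl
  change x < S.n (l + 3) at hx
  change f p S.q (l + 3) x < K p (l + 3) at hfx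
  change 2 ^ (l + 1) * f p S.q (l + 3) (x + 1) ≤
      2 * F p S.q (l + 1) (S.q (l + 2) x) (S.q (l + 2) (x + 1)) +
        2 ^ (l + 1) * (K p (l + 3) + 8)
  by_cases ho : f p S.q (l + 3) (x + 1) ≤ K p (l + 3) + 8
  · have := Nat.mul_le_mul (le_refl (2 ^ (l + 1))) ho
    omega
  push Not at ho
  obtain ⟨o, ho9, hoe⟩ : ∃ o, 9 ≤ o ∧ f p S.q (l + 3) (x + 1) = K p (l + 3) + o :=
    ⟨f p S.q (l + 3) (x + 1) - K p (l + 3), by omega, by omega⟩
  set yl := S.q (l + 2) x with hyl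
  set y₁ := S.q (l + 2) (x + 1) with hy1
  have hqm : yl < y₁ := S.q_lt (l + 2) (by omega) x hx
  have hq1 : y₁ ≤ yl + p.m := S.q_le (l + 2) (by omega) x hx
  have hqn : y₁ ≤ S.n (l + 2) := by
    have h1 := q_mono S (by omega : l + 2 < S.H) (x + 1) (S.n (l + 3)) hx le_rfl
    rw [S.q_end (l + 2) (by omega)] at h1
    omega
  -- the boundary
  obtain ⟨-, -, -, -, -, -, h3⟩ := w3 p hC.1 (l + 2) (by omega)
  obtain ⟨h4, h5⟩ := h3 (by omega)
  have h6 := h5 (K p (l + 2 + 1)) (by omega)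
  change K p (l + 2) ≤ p.m * K p (l + 3) at h4
  change c p (l + 2) (K p (l + 3)) = p.m * K p (l + 3) at h6
  have hlen := C2.flen (x + 1) hx
  change f p S.q (l + 3) (x + 1) ≤ len p (l + 3) at hlen
  have hup : p.m * K p (l + 3) + p.m / 2 * o ≤ f p S.q (l + 2) y₁ := by
    have h1 := C2.phlo (x + 1) hx
    change c p (l + 2) (f p S.q (l + 3) (x + 1)) ≤ f p S.q (l + 2) y₁ at h1
    have h2 := C2.clo (K p (l + 3)) (f p S.q (l + 3) (x + 1)) (by omega) hlen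
    have h7 : f p S.q (l + 3) (x + 1) - K p (l + 3) = o := by omega
    rw [h7] at h2
    omega
  have hlo : f p S.q (l + 2) yl < p.m * K p (l + 3) := by
    have h1 := C2.phhi x (by omega) (by change f p S.q (l + 3) x < len p (l + 3); omega)
    change f p S.q (l + 2) yl < c p (l + 2) (f p S.q (l + 3) x + 1) at h1
    have h2 := C2.cmono (by omega : f p S.q (l + 3) x + 1 ≤ K p (l + 3))
      (by change K p (l + 3) ≤ len p (l + 3); omega)
    omega
  obtain ⟨a, ha⟩ : ∃ a, a = p.m / 2 := ⟨_, rfl⟩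
  have ha1 : (a : ℤ) * 2 ≤ p.m := by omega
  have ha2 : (p.m : ℤ) - 1 ≤ (a : ℤ) * 2 := by omega
  rw [← ha] at hup
  have hmo : ∀ y y', y ≤ y' → y' ≤ S.n (l + 2) →
      f p S.q (l + 2) y ≤ f p S.q (l + 2) y' := C1.fmono
  -- the least cut of the right part
  have hex : ∃ y₀, yl ≤ y₀ ∧ y₀ ≤ y₁ ∧ K p (l + 2) ≤ f p S.q (l + 2) y₀ ∧
      (y₀ = yl ∨ (yl ≤ y₀ - 1 ∧ 1 ≤ y₀ ∧ f p S.q (l + 2) (y₀ - 1) < K p (l + 2))) := by
    classical
    have hE : ∃ y, yl ≤ y ∧ K p (l + 2) ≤ f p S.q (l + 2) y := ⟨y₁, hqm.le, by omega⟩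
    refine ⟨Nat.find hE, (Nat.find_spec hE).1, Nat.find_min' hE ⟨hqm.le, by omega⟩,
      (Nat.find_spec hE).2, ?_⟩
    rcases Nat.eq_or_lt_of_le (Nat.find_spec hE).1 with h | h
    · left; exact h.symm
    · right
      refine ⟨by omega, by omega, ?_⟩
      have h7 := Nat.find_min hE (m := Nat.find hE - 1) (by omega)
      by_contra hc
      push Not at hc
      exact h7 ⟨by omega, hc⟩
  obtain ⟨y₀, z1, z2, z3, z4⟩ := hex
  have hy01 := hmo y₀ y₁ z2 hqn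
  obtain ⟨A, F₁, hA0, hA, hF, hN⟩ : ∃ A F₁ : ℤ, 0 ≤ A ∧ (2 : ℤ) ^ l * (A - 8) ≤ 2 * F₁ ∧
      F₁ + F p S.q (l + 1) y₀ y₁ ≤ F p S.q (l + 1) yl y₁ ∧
      (a : ℤ) * o ≤ A + ((f p S.q (l + 2) y₁ : ℤ) - f p S.q (l + 2) y₀) := by
    rcases z4 with h | ⟨h, h', h''⟩
    · subst h
      refine ⟨0, 0, le_rfl, ?_, by simp, ?_⟩
      · have : (0 : ℤ) < 2 ^ l := by positivity
        linarith
      · zify at hup hlo
        linarith
    · refine ⟨(f p S.q (l + 2) y₀ : ℤ) - K p (l + 2), F p S.q (l + 1) (y₀ - 1) y₀,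
        by omega, ?_, ?_, ?_⟩
      · have h1 := hCS (y₀ - 1) (by change y₀ - 1 < S.n (l + 2); omega) h''
        rw [show y₀ - 1 + 1 = y₀ by omega] at h1
        zify at h1
        linarith
      · have a1 := F_add S (by omega : l + 1 < S.H) (by omega : y₀ - 1 ≤ y₀) z2 hqn
        have a2 := F_add S (by omega : l + 1 < S.H) h (by omega : y₀ - 1 ≤ y₁) hqn
        zify at a1 a2
        have : (0 : ℤ) ≤ F p S.q (l + 1) yl (y₀ - 1) := by positivity
        linarith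
      · zify at hup h4
        linarith
  set N : ℤ := (f p S.q (l + 2) y₁ : ℤ) - f p S.q (l + 2) y₀ with hNdef
  have hΛ : (0 : ℤ) < 2 ^ l := by positivity
  have hm' : (10000 : ℤ) ≤ p.m := by
    have : 10000 ≤ p.m := by omega
    exact_mod_cast this
  have ho9' : (9 : ℤ) ≤ o := by exact_mod_cast ho9
  have hF2 : (0 : ℤ) ≤ F p S.q (l + 1) y₀ y₁ := by positivity
  set F₂ : ℤ := (F p S.q (l + 1) y₀ y₁ : ℤ)
  -- it suffices
  suffices hgoal : (2 : ℤ) ^ l * (o - 8) ≤ F p S.q (l + 1) yl y₁ by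
    rw [hoe]
    zify
    have e : (2 : ℤ) ^ (l + 1) = 2 * 2 ^ l := by ring
    rw [e]
    nlinarith [hgoal]
  by_cases hN4 : 4 * (p.m : ℤ) ≤ N
  · have hy : y₀ < y₁ := by
      rcases Nat.eq_or_lt_of_le z2 with h | h
      · exfalso
        rw [h] at hNdef
        rw [hNdef] at hN4
        linarith
      · exact h
    have hfl : f p S.q (l + 2) y₁ ≤ len p (l + 2) := C1.flen y₁ hqn
    have hflt : f p S.q (l + 2) y₀ < f p S.q (l + 2) y₁ := by omega
    obtain ⟨b1, b2, b3⟩ := cnt C1 hy.le hqn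
    have hc1 := C1.phlo y₁ hqn
    change c p (l + 1) (f p S.q (l + 2) y₁) ≤ _ at hc1
    have hc2 := C1.phhi y₀ (by omega) (by change f p S.q (l + 2) y₀ < len p (l + 2); omega)
    change _ < c p (l + 1) (f p S.q (l + 2) y₀ + 1) at hc2
    have hc3 := C1.clo (f p S.q (l + 2) y₀ + 1) (f p S.q (l + 2) y₁) (by omega) hfl
    rw [← ha] at hc3
    have hCge : (a : ℤ) * (N - 1) ≤ (ph p S.q (l + 1) y₁ : ℤ) - ph p S.q (l + 1) y₀ := by
      zify [(by omega : f p S.q (l + 2) y₀ + 1 ≤ f p S.q (l + 2) y₁)] at hc1 hc2 hc3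
      have : (a : ℤ) * (N - 1) =
          a * ((f p S.q (l + 2) y₁ : ℤ) - (f p S.q (l + 2) y₀ + 1)) := by
        rw [hNdef]; ring
      rw [this]
      linarith
    have hC'le : (S.q (l + 1) y₁ : ℤ) - S.q (l + 1) y₀ ≤ p.m * p.m := by
      have h1 : p.m * (y₁ - y₀) ≤ p.m * p.m := Nat.mul_le_mul le_rfl (by omega)
      zify [hy.le] at b3 h1
      linarith
    have hyy : (y₁ : ℤ) - y₀ ≤ p.m := by omega
    have hC'0 : (0 : ℤ) ≤ (S.q (l + 1) y₁ : ℤ) - S.q (l + 1) y₀ := by omega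
    -- the event
    have hD : D p S.q (l + 1) y₀ y₁ := by
      unfold D
      have h1 : (98 : ℤ) * p.m * p.m - 123 * p.m ≤
          49 * ((ph p S.q (l + 1) y₁ : ℤ) - ph p S.q (l + 1) y₀) := by
        have q1 := mul_le_mul_of_nonneg_left (by linarith : 4 * (p.m : ℤ) - 1 ≤ N - 1)
          (by omega : (0 : ℤ) ≤ a)
        have q2 := mul_le_mul_of_nonneg_right ha2 (by linarith : (0 : ℤ) ≤ 4 * (p.m : ℤ) - 1)
        nlinarith
      have h2 : (47 : ℤ) * p.m * p.m ≥ 4523 * p.m := by nlinarith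
      have h3 : -((S.q (l + 1) y₁ : ℤ) - S.q (l + 1) y₀ -
          ((ph p S.q (l + 1) y₁ : ℤ) - ph p S.q (l + 1) y₀)) ≤
          |(S.q (l + 1) y₁ : ℤ) - S.q (l + 1) y₀ -
          ((ph p S.q (l + 1) y₁ : ℤ) - ph p S.q (l + 1) y₀)| := neg_le_abs _
      nlinarith
    have hcd := hCD y₀ y₁ hy hqn z3 hD
    have hcd1 : (2 : ℤ) ^ l * ((ph p S.q (l + 1) y₁ : ℤ) - ph p S.q (l + 1) y₀) ≤
        p.m * F₂ := by
      have h1 : 2 ^ l * (ph p S.q (l + 1) y₁ - ph p S.q (l + 1) y₀) ≤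
          p.m * F p S.q (l + 1) y₀ y₁ :=
        le_trans (Nat.mul_le_mul le_rfl (by omega)) hcd
      have h2 : ph p S.q (l + 1) y₀ ≤ ph p S.q (l + 1) y₁ := C1.phmono _ _ hy.le hqn
      zify [h2] at h1
      exact h1
    have hcd2 : (2 : ℤ) ^ l * ((p.m - 1) * (N - 1)) ≤ 2 * (p.m * F₂) := by
      have q1 := mul_le_mul_of_nonneg_left hCge hΛ.le
      have q2 := mul_le_mul_of_nonneg_right ha2 (by linarith : (0 : ℤ) ≤ N - 1)
      have q3 := mul_le_mul_of_nonneg_left q2 hΛ.le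
      nlinarith
    have r1 := mul_le_mul_of_nonneg_left hA (by linarith : (0 : ℤ) ≤ p.m)
    have r2 := mul_le_mul_of_nonneg_left hF (by linarith : (0 : ℤ) ≤ 2 * p.m)
    have r3 : (2 : ℤ) ^ l * ((p.m - 1) * (a * o)) ≤ 2 ^ l * ((p.m - 1) * (A + N)) :=
      mul_le_mul_of_nonneg_left (mul_le_mul_of_nonneg_left hN (by linarith)) hΛ.le
    have r4 : (2 : ℤ) ^ l * (2 * p.m * (o - 8)) ≤
        2 ^ l * ((p.m - 1) * (a * o) - 9 * p.m) := by
      apply mul_le_mul_of_nonneg_left _ hΛ.le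
      have q1 : (2 : ℤ) * p.m * o ≤ (p.m - 1) * (a * o) := by
        have q2 : (2 : ℤ) * p.m ≤ (p.m - 1) * a := by nlinarith
        nlinarith [mul_le_mul_of_nonneg_right q2 (by linarith : (0 : ℤ) ≤ o)]
      linarith
    have r5 : (0 : ℤ) ≤ 2 ^ l * A := mul_nonneg hΛ.le hA0
    have r6 : (p.m : ℤ) * (2 ^ l * (o - 8)) ≤ p.m * F p S.q (l + 1) yl y₁ := by
      nlinarith
    exact le_of_mul_le_mul_left r6 (by linarith)
  · push Not at hN4
    have h1 : 2 * ((o : ℤ) - 8) ≤ A - 8 := by nlinarith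
    have h2 := mul_le_mul_of_nonneg_left h1 hΛ.le
    linarith

end DMS
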