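import Pool.Agent.DMS.B9
import Pool.Agent.DMS.B10
import Pool.Agent.DMS.B12
import Pool.Agent.DMS.B13
import Pool.Agent.DMS.B14

namespace DMS

theorem thm_B15 : St_B15 := by
  intro p S hC l
  induction l with
  | zero =>
    intro h1 _
    exact ⟨thm_B8 p S hC h1, thm_B9 p S hC h1, thm_B10 p S hC h1⟩
  | succ l ih =>
    intro h1 h2
    obtain ⟨hCO, hCD, hCS⟩ := ih (by omega) (by omega)
    exact ⟨thm_B13 p S hC l (by omega) (by omega) hCO hCD hCS,
      thm_B12 p S hC l (by omega) (by omega) hCO hCD,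
      thm_B14 p S hC l (by omega) (by omega) hCD hCS⟩

end DMS
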