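import Pool.Agent.DMS.B1

namespace DMS

/-- the counting facts of S1 in the context. -/
theorem cnt {p : Par} {S : Sys p.m p.g} {l : ℕ} (C : Ctx p S l) {x y : ℕ} (hxy : x ≤ y)
    (hy : y ≤ S.n (l + 1)) :
    Sc p.m S.q l x y + Uc p.m S.q l x y = y - x ∧
    S.q l x + p.m * Sc p.m S.q l x y + Uc p.m S.q l x y ≤ S.q l y ∧
    S.q l y ≤ S.q l x + p.m * (y - x) := by
  have hg := C.hg
  have hm := C.hm
  obtain ⟨a1, a2, a3, -⟩ := (s1 p.m p.g S hg (by omega) l C.hlH).1 x y hxy hy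
  exact ⟨a1, a2, by omega⟩

theorem thm_B2 : St_B2 := by
  intro p S hC l hl hl4 x y hxy hy hf
  have C := ctx hC hl hl4
  have hg := C.hg
  have hm := C.hm
  obtain ⟨a1, a2, -⟩ := cnt C hxy.le hy
  have hfm := C.fmono x y hxy.le hy
  have h1 := C.ph_le hy
  have h2 := C.chi (f p S.q (l + 1) x) (f p S.q (l + 1) y) hfm (C.flen y hy)
  have h3 := C.phlo x (by omega)
  have h4 := C.phmono x y hxy.le hy
  by_cases hcon : y - x + f p S.q (l + 1) x ≤
      f p S.q (l + 1) y + 2 * Uc p.m S.q l x y + 2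
  · exact Or.inr hcon
  left
  push Not at hcon
  unfold D
  -- abbreviations
  set n := f p S.q (l + 1) y - f p S.q (l + 1) x with hn
  set U := Uc p.m S.q l x y
  set s := Sc p.m S.q l x y
  obtain ⟨d, hd⟩ : ∃ d, s = n + U + 3 + d := ⟨s - (n + U + 3), by omega⟩
  have hyx : (y : ℤ) - x = s + U := by omega
  have hC1 : (ph p S.q l y : ℤ) - ph p S.q l x ≤ p.m * (n + 1) := by
    have : ph p S.q l y ≤ ph p S.q l x + (p.m * n + p.m) := by omega
    push_cast
    zify at this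
    linarith
  have hC0 : (0 : ℤ) ≤ (ph p S.q l y : ℤ) - ph p S.q l x := by
    have : (ph p S.q l x : ℤ) ≤ ph p S.q l y := by exact_mod_cast h4
    linarith
  have hC' : (p.m : ℤ) * s + U ≤ (S.q l y : ℤ) - S.q l x := by
    zify at a2
    linarith
  have hn12 : n ≤ 12 := by omega
  have hm' : (10000 : ℤ) * p.g ≤ p.m := by exact_mod_cast hm
  have hg' : (1 : ℤ) ≤ p.g := by exact_mod_cast hg
  have hs : (s : ℤ) = n + U + 3 + d := by exact_mod_cast hd
  have hn' : (n : ℤ) ≤ 12 := by exact_mod_cast hn12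
  have hU0 : (0 : ℤ) ≤ U := by positivity
  have hd0 : (0 : ℤ) ≤ d := by positivity
  have hn0 : (0 : ℤ) ≤ n := by positivity
  have habs : ((S.q l y : ℤ) - S.q l x) - ((ph p S.q l y : ℤ) - ph p S.q l x) ≤
      |((S.q l y : ℤ) - S.q l x) - ((ph p S.q l y : ℤ) - ph p S.q l x)| := le_abs_self _
  rw [hyx]
  have key : (51 : ℤ) * (p.m * (n + 1)) + 4400 * (s + U) ≤ 49 * (p.m * s + U) := by
    rw [hs]
    nlinarith [mul_nonneg (by linarith : (0 : ℤ) ≤ p.m - 10000) hU0,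
      mul_nonneg (by linarith : (0 : ℤ) ≤ p.m - 10000) hd0,
      mul_nonneg (by linarith : (0 : ℤ) ≤ (p.m : ℤ)) (by linarith : (0 : ℤ) ≤ 12 - (n : ℤ))]
  linarith

end DMS
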