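import Pool.Agent.DMS.B1

namespace DMS

theorem tight_ne {p : Par} {l t t' : ℕ} (h : Tight p l t) (h' : Tight p l t') (hlt : t < t') :
    t + 2 ≤ t' := by
  obtain ⟨e1, e2, e3, e4⟩ := h
  obtain ⟨f1, f2, f3, f4⟩ := h'
  by_contra hc
  have : t' - 1 = t := by omega
  rw [this] at f3
  rw [f3] at e4
  rcases e4 with h | h <;> exact absurd h (by decide)

theorem big_D {p : Par} {S : Sys p.m p.g} {l : ℕ} (C : Ctx p S l) {x : ℕ}
    (hx : x < S.n (l + 1)) (h : ph p S.q l x + 3 * (p.m / 2) ≤ ph p S.q l (x + 1)) :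
    D p S.q l x (x + 1) := by
  have hg := C.hg
  have hm := C.hm
  have h1 := S.q_le l C.hlH x hx
  have h2 := S.q_lt l C.hlH x hx
  unfold D
  have habs : -(((S.q l (x + 1) : ℤ) - S.q l x) - ((ph p S.q l (x + 1) : ℤ) - ph p S.q l x)) ≤
      |((S.q l (x + 1) : ℤ) - S.q l x) - ((ph p S.q l (x + 1) : ℤ) - ph p S.q l x)| :=
    neg_le_abs _
  have e1 : (S.q l (x + 1) : ℤ) - S.q l x ≤ p.m := by zify at h1; linarith
  have hm2 : (p.m : ℤ) ≤ 2 * (p.m / 2 : ℕ) + 1 := by omega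
  have e2 : 3 * ((p.m / 2 : ℕ) : ℤ) ≤ (ph p S.q l (x + 1) : ℤ) - ph p S.q l x := by
    have : ((ph p S.q l x + 3 * (p.m / 2) : ℕ) : ℤ) ≤ ph p S.q l (x + 1) := by exact_mod_cast h
    push_cast at this
    push_cast
    linarith
  have hm' : (10000 : ℤ) * p.g ≤ p.m := by exact_mod_cast hm
  have hg' : (1 : ℤ) ≤ p.g := by exact_mod_cast hg
  have e3 : ((x + 1 : ℕ) : ℤ) - x = 1 := by push_cast; ring
  rw [e3]
  linarith

theorem thm_B3 : St_B3 := by
  intro p S hC l hl hl4 x hx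
  have C := ctx hC hl hl4
  have hg := C.hg
  have hm := C.hm
  constructor
  · intro hf
    apply big_D C hx
    have h1 := C.phhi x hx.le (by have := C.flen (x + 1) hx; omega)
    have h2 := C.phlo (x + 1) hx
    have h3 := C.clo (f p S.q (l + 1) x + 1) (f p S.q (l + 1) (x + 1)) (by omega)
      (C.flen (x + 1) hx)
    have h4 : p.m / 2 * 3 ≤ p.m / 2 * (f p S.q (l + 1) (x + 1) - (f p S.q (l + 1) x + 1)) :=
      Nat.mul_le_mul le_rfl (by omega)
    omega
  · intro t t' htt h h'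
    obtain ⟨o1, o2, o3⟩ := h
    obtain ⟨o1', o2', o3'⟩ := h'
    have h2 := tight_ne o1 o1' htt
    obtain ⟨e1, e2, e3, e4⟩ := o1'
    apply big_D C hx
    obtain ⟨b1, b2, b3⟩ := w6 p hC.1 l (by omega)
    have h3 := b1 t (t + 2) (by omega) (by omega)
    obtain ⟨-, -, b3⟩ := w6 p hC.1 (l + 1) (by omega)
    have h4 := b3 t (t + 2) (by omega) (by omega) (by omega)
    have h5 : (p.m - p.m / 2) * Lc p (l + 1) t (t + 2) ≤ (p.m - p.m / 2) * 1 :=
      Nat.mul_le_mul le_rfl h4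
    have h6 := C.cmono h2 e2.le
    rw [Nat.add_sub_cancel_left] at h3
    omega

end DMS
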