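import Pool.Agent.DMS.B2
import Pool.Agent.DMS.B3

namespace DMS

/-- units between two tight cuts, as integers. -/
theorem delta {p : Par} {S : Sys p.m p.g} {l : ℕ} (C : Ctx p S l) (hok : p.Ok) {t t' : ℕ}
    (h : t ≤ t') (h' : t' ≤ len p (l + 1)) :
    (c p l t' : ℤ) - c p l t + ((p.m : ℤ) - (p.m / 2 : ℕ)) * Lc p (l + 1) t t' =
      p.m * ((t' : ℤ) - t) := by
  have h3 := (w6 p hok l (by have := C.hl4; omega)).1 t t' h h'
  obtain ⟨d, rfl⟩ := Nat.exists_eq_add_of_le h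
  rw [Nat.add_sub_cancel_left] at h3
  have h4 : p.m / 2 ≤ p.m := Nat.div_le_self _ _
  zify [h4] at h3
  push_cast
  push_cast at h3
  linarith

theorem pin_est {p : Par} {S : Sys p.m p.g} {l t t' x y : ℕ}
    (hx : Pin p S.q l x t) (hy : Pin p S.q l y t') :
    (c p l t' : ℤ) - c p l t - (42 * p.g + 6) ≤ (ph p S.q l y : ℤ) - ph p S.q l x ∧
    (ph p S.q l y : ℤ) - ph p S.q l x ≤ (c p l t' : ℤ) - c p l t + (42 * p.g + 6) := by
  obtain ⟨a1, a2⟩ := hx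
  obtain ⟨b1, b2⟩ := hy
  constructor <;> omega

theorem pin_lt {p : Par} {S : Sys p.m p.g} {l t t' x y : ℕ} (C : Ctx p S l)
    (htt : t < t') (ht' : t' ≤ len p (l + 1))
    (hx : Pin p S.q l x t) (hy : Pin p S.q l y t') (hxn : x ≤ S.n (l + 1)) : x < y := by
  obtain ⟨a1, a2⟩ := hx
  obtain ⟨b1, b2⟩ := hy
  have hg := C.hg
  have hm := C.hm
  have h1 := C.cgap htt ht'
  exact C.lt_of_ph hxn (by omega)

theorem thm_B4 : St_B4 := by
  intro p S hC l hl hl4 t t' x y ht ht' htt htt3 hx hy hpx hpy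
  have C := ctx hC hl hl4
  have hg := C.hg
  have hm := C.hm
  have hlt : x < y := pin_lt C htt ht'.2.1.le hpx hpy hx
  refine ⟨hlt, ?_⟩
  obtain ⟨a1, a2, a3⟩ := cnt C hlt.le hy
  obtain ⟨c1, c2⟩ := pin_est hpx hpy
  have hd := delta C hC.1 htt.le ht'.2.1.le
  have hL := (w6 p hC.1 (l + 1) hl4).2.2 t t' htt.le ht'.2.1.le (by omega)
  set U := Uc p.m S.q l x y
  set s := Sc p.m S.q l x y
  set e := Lc p (l + 1) t t'
  have hm' : (10000 : ℤ) * p.g ≤ p.m := by exact_mod_cast hm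
  have hg' : (1 : ℤ) ≤ p.g := by exact_mod_cast hg
  have he0 : (0 : ℤ) ≤ e := by positivity
  have he1 : (e : ℤ) ≤ 1 := by exact_mod_cast hL
  have ha1 : ((p.m / 2 : ℕ) : ℤ) * 2 ≤ p.m := by omega
  have ha2 : (p.m : ℤ) ≤ ((p.m / 2 : ℕ) : ℤ) * 2 + 1 := by omega
  have hn1 : (1 : ℤ) ≤ (t' : ℤ) - t := by omega
  have hn3 : (t' : ℤ) - t ≤ 3 := by omega
  have hU0 : (0 : ℤ) ≤ U := by positivity
  have hs0 : (0 : ℤ) ≤ s := by positivity
  have hC' : (p.m : ℤ) * s + U ≤ (S.q l y : ℤ) - S.q l x := by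
    zify at a2
    linarith
  have hCu : (S.q l y : ℤ) - S.q l x ≤ p.m * ((y : ℤ) - x) := by
    zify [hlt.le] at a3
    linarith
  have hyx : (y : ℤ) - x = s + U := by omega
  by_cases h1 : t' - t ≤ y - x
  · by_cases h2 : y - x ≤ t' - t + 2 * U
    · exact Or.inr ⟨h1, h2⟩
    · left
      push Not at h2
      unfold D
      have habs := le_abs_self (((S.q l y : ℤ) - S.q l x) -
        ((ph p S.q l y : ℤ) - ph p S.q l x))
      obtain ⟨z, hz⟩ : ∃ z : ℕ, s = (t' - t) + U + 1 + z := ⟨s - ((t' - t) + U + 1), by omega⟩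
      have hz' : (s : ℤ) = ((t' : ℤ) - t) + U + 1 + z := by omega
      have hz0 : (0 : ℤ) ≤ z := by positivity
      set n : ℤ := (t' : ℤ) - t
      -- C ≤ m n + 42 g + 6
      have hae : 0 ≤ ((p.m : ℤ) - (p.m / 2 : ℕ)) * e := mul_nonneg (by linarith) he0
      have hCle : (ph p S.q l y : ℤ) - ph p S.q l x ≤ p.m * n + (42 * p.g + 6) := by linarith
      rw [hyx]
      have key : 51 * (p.m * n + (42 * p.g + 6)) + 4400 * (s + U) ≤ 49 * (p.m * s + U) := by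
        rw [hz']
        nlinarith [mul_nonneg (by linarith : (0 : ℤ) ≤ p.m - 10000) hU0,
          mul_nonneg (by linarith : (0 : ℤ) ≤ p.m - 10000) hz0,
          mul_nonneg (by linarith : (0 : ℤ) ≤ (p.m : ℤ)) (by linarith : (0 : ℤ) ≤ 3 - n)]
      linarith
  · left
    push Not at h1
    unfold D
    have habs := neg_le_abs (((S.q l y : ℤ) - S.q l x) -
        ((ph p S.q l y : ℤ) - ph p S.q l x))
    set n : ℤ := (t' : ℤ) - t
    have hk : (y : ℤ) - x ≤ n - 1 := by omega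
    have hk0 : (0 : ℤ) ≤ (y : ℤ) - x := by omega
    have hCu2 : (S.q l y : ℤ) - S.q l x ≤ p.m * (n - 1) :=
      hCu.trans (mul_le_mul_of_nonneg_left hk (by linarith))
    have hae : ((p.m : ℤ) - (p.m / 2 : ℕ)) * e ≤ ((p.m : ℤ) - (p.m / 2 : ℕ)) * 1 :=
      mul_le_mul_of_nonneg_left he1 (by linarith)
    have hCge : p.m * (n - 1) + ((p.m / 2 : ℕ) : ℤ) - (42 * p.g + 6) ≤
        (ph p S.q l y : ℤ) - ph p S.q l x := by linarith
    have hnn : p.m * (n - 1) ≤ p.m * 2 := mul_le_mul_of_nonneg_left (by linarith) (by linarith)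
    linarith

theorem thm_B5 : St_B5 := by
  intro p S hC l hl hl4 t t' x y ht ht' htt htt3 hx hy hpx hpy
  have C := ctx hC (by omega) hl4
  have hg := C.hg
  have hm := C.hm
  have hlt : x < y := pin_lt C htt ht'.2.1.le hpx hpy hx
  obtain ⟨a1, a2, a3⟩ := cnt C hlt.le hy
  obtain ⟨c1, c2⟩ := pin_est hpx hpy
  have hd := delta C hC.1 htt.le ht'.2.1.le
  have hL := (w6 p hC.1 (l + 1) hl4).2.2 t t' htt.le ht'.2.1.le (by omega)
  have hU := (s2 p.m p.g S hg (by omega) l hl).2.2 x y hlt.le hy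
  set U := Uc p.m S.q l x y
  set s := Sc p.m S.q l x y
  set e := Lc p (l + 1) t t'
  by_cases h1 : s + e ≤ t' - t
  · exact Or.inr h1
  left
  push Not at h1
  have hm' : (10000 : ℤ) * p.g ≤ p.m := by exact_mod_cast hm
  have hg' : (1 : ℤ) ≤ p.g := by exact_mod_cast hg
  have he0 : (0 : ℤ) ≤ e := by positivity
  have he1 : (e : ℤ) ≤ 1 := by exact_mod_cast hL
  have ha1 : ((p.m / 2 : ℕ) : ℤ) * 2 ≤ p.m := by omega
  have ha2 : (p.m : ℤ) ≤ ((p.m / 2 : ℕ) : ℤ) * 2 + 1 := by omega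
  have hn1 : (1 : ℤ) ≤ (t' : ℤ) - t := by omega
  have hn3 : (t' : ℤ) - t ≤ 3 := by omega
  have hU0 : (0 : ℤ) ≤ U := by positivity
  have hU2 : (U : ℤ) ≤ 2 * p.g + s := by exact_mod_cast hU
  have hC' : (p.m : ℤ) * s + U ≤ (S.q l y : ℤ) - S.q l x := by
    zify at a2
    linarith
  have hyx : (y : ℤ) - x = s + U := by omega
  unfold D
  have habs := le_abs_self (((S.q l y : ℤ) - S.q l x) -
    ((ph p S.q l y : ℤ) - ph p S.q l x))
  set n : ℤ := (t' : ℤ) - t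
  obtain ⟨z, hz⟩ : ∃ z : ℕ, s + e = (t' - t) + 1 + z := ⟨s + e - ((t' - t) + 1), by omega⟩
  have hz' : (s : ℤ) = n - e + 1 + z := by omega
  have hz0 : (0 : ℤ) ≤ z := by positivity
  rw [hyx]
  have hme : (0 : ℤ) ≤ p.m * (1 - e) := mul_nonneg (by linarith) (by linarith)
  have hae : ((p.m : ℤ) - (p.m / 2 : ℕ)) * e ≥ ((p.m : ℤ) / 2) * e :=
    mul_le_mul_of_nonneg_right (by omega) he0
  have hCle : (ph p S.q l y : ℤ) - ph p S.q l x ≤
      p.m * n - ((p.m : ℤ) - (p.m / 2 : ℕ)) * e + (42 * p.g + 6) := by linarith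
  have hae2 : 2 * (((p.m : ℤ) - (p.m / 2 : ℕ)) * e) ≥ p.m * e := by
    have : (p.m : ℤ) ≤ 2 * ((p.m : ℤ) - (p.m / 2 : ℕ)) := by linarith
    nlinarith
  have key : 2 * (51 * (p.m * n - ((p.m : ℤ) - (p.m / 2 : ℕ)) * e + (42 * p.g + 6)) +
      4400 * (s + U)) ≤ 2 * (49 * (p.m * s + U)) := by
    rw [hz'] at hU2 ⊢
    nlinarith [mul_nonneg (by linarith : (0 : ℤ) ≤ p.m - 10000) hz0,
      mul_nonneg (by linarith : (0 : ℤ) ≤ (p.m : ℤ)) (by linarith : (0 : ℤ) ≤ 3 - n)]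
  linarith

theorem thm_B6 : St_B6 := by
  intro p S hC l hl hl4 t t' x y ht ht' htt htt8 hLc hx hy hpx hpy hU
  have C := ctx hC hl hl4
  have hg := C.hg
  have hm := C.hm
  have hlt : x < y := pin_lt C htt ht'.2.1.le hpx hpy hx
  refine ⟨hlt, ?_⟩
  obtain ⟨a1, a2, a3⟩ := cnt C hlt.le hy
  obtain ⟨c1, c2⟩ := pin_est hpx hpy
  have hd := delta C hC.1 htt.le ht'.2.1.le
  rw [hLc] at hd
  rw [hU, Nat.add_zero] at a1
  rw [hU, a1, Nat.add_zero] at a2
  have hm' : (10000 : ℤ) * p.g ≤ p.m := by exact_mod_cast hm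
  have hg' : (1 : ℤ) ≤ p.g := by exact_mod_cast hg
  have ha1 : ((p.m / 2 : ℕ) : ℤ) * 2 ≤ p.m := by omega
  have ha2 : (p.m : ℤ) ≤ ((p.m / 2 : ℕ) : ℤ) * 2 + 1 := by omega
  set n : ℤ := (t' : ℤ) - t
  set k : ℤ := (y : ℤ) - x
  have hn1 : (1 : ℤ) ≤ n := by omega
  have hn8 : n ≤ 8 := by omega
  have hk1 : (1 : ℤ) ≤ k := by omega
  have hC' : (S.q l y : ℤ) - S.q l x = p.m * k := by
    zify [hlt.le] at a2 a3
    apply le_antisymm <;> linarith
  unfold D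
  rw [hC']
  push_cast at hd
  rcases le_or_gt k (n - 1) with h | h
  · have habs := neg_le_abs ((p.m : ℤ) * k - ((ph p S.q l y : ℤ) - ph p S.q l x))
    have hmk : (p.m : ℤ) * k ≤ p.m * (n - 1) := mul_le_mul_of_nonneg_left h (by linarith)
    have hmn : (p.m : ℤ) * (n - 1) ≤ p.m * 7 := mul_le_mul_of_nonneg_left (by linarith)
      (by linarith)
    push_cast at *
    linarith
  · have habs := le_abs_self ((p.m : ℤ) * k - ((ph p S.q l y : ℤ) - ph p S.q l x))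
    obtain ⟨z, hz⟩ : ∃ z : ℤ, k = n + z := ⟨k - n, by ring⟩
    have hz0 : 0 ≤ z := by omega
    have h5 : (0 : ℤ) ≤ (p.m - 10000) * z := mul_nonneg (by linarith) hz0
    have hmn : (p.m : ℤ) * n ≤ p.m * 8 := mul_le_mul_of_nonneg_left (by linarith)
      (by linarith)
    rw [hz] at habs ⊢
    push_cast at *
    nlinarith

end DMS
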