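import Pool.Agent.DMS.B4

namespace DMS

theorem thm_B7 : St_B7 := by
  intro p S hC l hl hl4 J x₀ x₁ xs ys zs ws hx1 hx01 hall hUg
  have C := ctx hC hl hl4
  have hg := C.hg
  have hm := C.hm
  have hlt : ∀ i, i ≤ p.g → xs i < ys i := by
    intro i hi
    obtain ⟨-, a2, a3, a4, a5, a6, a7, a8, a9, -, -, a12, -⟩ := hall i hi
    exact pin_lt C (by omega) a3.2.1.le a8 a9 a12
  have hlt2 : ∀ i, i + 1 ≤ p.g → ys i < xs (i + 1) := by
    intro i hi
    obtain ⟨-, a2, a3, a4, a5, a6, a7, a8, a9, -, -, a12, a13⟩ := hall i (by omega)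
    obtain ⟨-, b2, b3, b4, b5, b6, b7, b8, b9, -, -, b12, b13⟩ := hall (i + 1) hi
    have e : 21 * (i + 1) = 21 * i + 21 := by ring
    exact pin_lt C (by omega) b2.2.1.le a9 b8 a13
  have hUadd := fun x y z (h : x ≤ y) (h' : y ≤ z) => Uc_add p.m S.q l x y z h h'
  by_contra hcon
  push Not at hcon
  have hpos : ∀ i, i ≤ p.g → 1 ≤ Uc p.m S.q l (xs i) (ys i) := by
    intro i hi
    by_contra hc
    have h0 : Uc p.m S.q l (xs i) (ys i) = 0 := by omega
    obtain ⟨a1, a2, a3, a4, a5, a6, a7, a8, a9, -, -, a12, a13⟩ := hall i hi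
    have hL1 : 1 ≤ Lc p (l + 1) (zs i) (ws i) := by
      unfold Lc
      apply Finset.card_pos.mpr
      exact ⟨J + 21 * i, by simp only [Finset.mem_filter, Finset.mem_Ico]; exact
        ⟨by omega, a1⟩⟩
    have hL2 := (w6 p hC.1 (l + 1) hl4).2.2 (zs i) (ws i) (by omega) a3.2.1.le (by omega)
    have := thm_B6 p S hC l hl hl4 (zs i) (ws i) (xs i) (ys i) a2 a3 (by omega) (by omega)
      (by omega) a12 a13 a8 a9 h0
    exact hcon i hi this.1 h0 this.2
  have hsum : ∀ j, j ≤ p.g → j + 1 ≤ Uc p.m S.q l x₀ (ys j) := by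
    intro j
    induction j with
    | zero =>
      intro hj
      obtain ⟨-, -, -, -, -, -, -, -, -, a10, -⟩ := hall 0 hj
      have h1 := hUadd x₀ (xs 0) (ys 0) a10 (hlt 0 hj).le
      have := hpos 0 hj
      omega
    | succ j ih =>
      intro hj
      have i1 := ih (by omega)
      obtain ⟨-, -, -, -, -, -, -, -, -, a10, -⟩ := hall j (by omega)
      have l1 := hlt j (by omega)
      have l2 := hlt2 j hj
      have l3 := hlt (j + 1) hj
      have h1 := hUadd x₀ (ys j) (ys (j + 1)) (by omega) (by omega)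
      have h2 := hUadd (ys j) (xs (j + 1)) (ys (j + 1)) (by omega) (by omega)
      have := hpos (j + 1) hj
      omega
  have h1 := hsum p.g le_rfl
  obtain ⟨-, -, -, -, -, -, -, -, -, a10, a11, -⟩ := hall p.g le_rfl
  have l1 := hlt p.g le_rfl
  have h2 := hUadd x₀ (ys p.g) x₁ (by omega) a11
  omega

end DMS
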