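import Pool.Agent.DMS.B4

namespace DMS

theorem F_one (p : Par) (q : ℕ → ℕ → ℕ) (x y : ℕ) : F p q 1 x y = nw p q (q 1 x) (q 1 y) := rfl

/-- exact nodes of level one. -/
theorem exact_f {p : Par} {S : Sys p.m p.g} (hok : p.Ok) {j : ℕ}
    (h : Exact p S.q j) :
    f p S.q 1 (j + 1) = f p S.q 1 j + 1 ∧ f p S.q 1 j < len p 1 ∧
      ph p S.q 0 (j + 1) = c p 0 (f p S.q 1 j + 1) ∧ ph p S.q 0 j = c p 0 (f p S.q 1 j) := by
  obtain ⟨k, h1, h2, h3⟩ := h
  have hc := (w2 p hok 0 (by omega)).2.2.2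
  have e1 : f p S.q 1 j = k := by
    show par p 0 (ph p S.q 0 j) = k
    rw [← h2]; exact hc k h1.le
  have e2 : f p S.q 1 (j + 1) = k + 1 := by
    show par p 0 (ph p S.q 0 (j + 1)) = k + 1
    rw [← h3]; exact hc (k + 1) h1
  rw [e1, e2]
  exact ⟨rfl, h1, h3.symm, h2.symm⟩

theorem thm_B8 : St_B8 := by
  classical
  intro p S hC hH x t hx hov
  change x < S.n 2 at hx
  change OV p S.q 1 x t at hov
  show 2 ^ 0 ≤ F p S.q 1 x (x + 1)
  have hC' := hC
  obtain ⟨hok, hn0⟩ := hC'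
  have hok' := hok
  obtain ⟨hg, hm, hb⟩ := hok'
  have C1 := ctx hC (by omega : 1 < S.H) (by omega)
  have C0 := ctx hC (by omega : 0 < S.H) (by omega)
  obtain ⟨o1, o2, o3⟩ := hov
  rw [F_one, pow_zero]
  set x₀ := S.q 1 x with hx0
  set x₁ := S.q 1 (x + 1) with hx1
  have hx01 : x₀ < x₁ := S.q_lt 1 (by omega) x hx
  have hx1n : x₁ ≤ S.n 1 := by
    have := q_mono S (by omega : 1 < S.H) (x + 1) (S.n (1 + 1)) hx le_rfl
    rw [S.q_end 1 (by omega)] at this
    omega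
  by_contra hcon
  have hnw : nw p S.q x₀ x₁ = 0 := by omega
  unfold nw at hnw
  rw [Finset.card_eq_zero, Finset.filter_eq_empty_iff] at hnw
  have hex : ∀ j, x₀ ≤ j → j < x₁ → Exact p S.q j := by
    intro j h1 h2
    have := hnw (Finset.mem_Ico.mpr ⟨h1, h2⟩)
    exact not_not.mp this
  have hfs : ∀ s, x₀ + s ≤ x₁ → f p S.q 1 (x₀ + s) = f p S.q 1 x₀ + s := by
    intro s
    induction s with
    | zero => intro _; rfl
    | succ s ih =>
      intro hs
      have h1 := (exact_f hok (hex (x₀ + s) (by omega) (by omega))).1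
      rw [ih (by omega)] at h1
      rw [show x₀ + (s + 1) = x₀ + s + 1 by omega, h1]
      omega
  have hph1 : ph p S.q 1 x = f p S.q 1 x₀ := rfl
  have hph2 : ph p S.q 1 (x + 1) = f p S.q 1 x₁ := rfl
  rw [hph1] at o2
  rw [hph2] at o3
  obtain ⟨v1, -, v3, v4, v5, v6⟩ := w5 p hok 1 (by omega) t o1
  have hfx1 := hfs (x₁ - x₀) (by omega)
  rw [show x₀ + (x₁ - x₀) = x₁ by omega] at hfx1
  -- each letter is an unsaturated node
  have hmem : ∀ i, i ≤ p.g → ∃ j, x₀ ≤ j ∧ j < x₁ ∧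
      f p S.q 1 j = c p 1 t + 20 - 21 * (p.g - i) ∧ S.q 0 (j + 1) ≠ S.q 0 j + p.m := by
    intro i hi
    have hk1 : p.m - 1 ≤ c p 1 t := by omega
    refine ⟨x₀ + (c p 1 t + 20 - 21 * (p.g - i) - f p S.q 1 x₀), by omega, by omega, ?_, ?_⟩
    · rw [hfs _ (by omega)]; omega
    · set j := x₀ + (c p 1 t + 20 - 21 * (p.g - i) - f p S.q 1 x₀) with hj
      have hfj : f p S.q 1 j = c p 1 t + 20 - 21 * (p.g - i) := by
        rw [hj, hfs _ (by omega)]; omega
      obtain ⟨g1, g2, g3, g4⟩ := exact_f hok (hex j (by omega) (by omega))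
      have hcs := ((w1 p).2.2 0 (by omega)).2.1 (f p S.q 1 j) g2
      have hU : V p 1 (f p S.q 1 j) = .U := by rw [hfj]; exact v1 i hi
      rw [hU] at hcs
      have hsz : sz p .U = p.m / 2 := rfl
      rw [hsz] at hcs
      have hq0 : ph p S.q 0 j = S.q 0 j - 1 := rfl
      have hq1 : ph p S.q 0 (j + 1) = S.q 0 (j + 1) - 1 := rfl
      have hfj1 : 1 ≤ f p S.q 1 j := by rw [hfj]; omega
      have := C0.cgap (by omega : 0 < f p S.q 1 j) g2.le
      omega
  have hUc := (s2 p.m p.g S hg (by omega) 0 (by omega)).1 x hx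
  have hcard : p.g + 1 ≤ Uc p.m S.q 0 x₀ x₁ := by
    choose! J hJ using hmem
    have hinj : Set.InjOn J (Finset.range (p.g + 1) : Set ℕ) := by
      intro i hi i' hi' hii
      simp only [Finset.coe_range, Set.mem_Iio] at hi hi'
      have h1 := (hJ i (by omega)).2.2.1
      have h2 := (hJ i' (by omega)).2.2.1
      rw [hii, h2] at h1
      omega
    have : ((Finset.range (p.g + 1)).image J).card ≤ Uc p.m S.q 0 x₀ x₁ := by
      unfold Uc
      apply Finset.card_le_card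
      intro j hj
      simp only [Finset.mem_image, Finset.mem_range] at hj
      obtain ⟨i, hi, rfl⟩ := hj
      obtain ⟨j1, j2, j3, j4⟩ := hJ i (by omega)
      simp only [Finset.mem_filter, Finset.mem_Ico]
      exact ⟨⟨j1, j2⟩, j4⟩
    rwa [Finset.card_image_of_injOn hinj, Finset.card_range] at this
  have hUc' : Uc p.m S.q 0 x₀ x₁ ≤ p.g := hUc
  omega

end DMS
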