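import Pool.Agent.DMS.B8

namespace DMS

theorem thm_B9 : St_B9 := by
  classical
  intro p S hC hH x y hxy hy hreg hD
  change y ≤ S.n 2 at hy
  change K p 2 ≤ f p S.q 2 x at hreg
  change D p S.q 1 x y at hD
  show 2 ^ 0 * ((ph p S.q 1 y - ph p S.q 1 x) + (S.q 1 y - S.q 1 x) + p.m * (y - x)) ≤
    p.m * F p S.q 1 x y
  have hC' := hC
  obtain ⟨hok, hn0⟩ := hC'
  have hok' := hok
  obtain ⟨hg, hm, hb⟩ := hok'
  have C1 := ctx hC (by omega : 1 < S.H) (by omega)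
  have C0 := ctx hC (by omega : 0 < S.H) (by omega)
  rw [F_one, pow_zero, one_mul]
  unfold D at hD
  have hph1 : ph p S.q 1 x = f p S.q 1 (S.q 1 x) := rfl
  have hph2 : ph p S.q 1 y = f p S.q 1 (S.q 1 y) := rfl
  rw [hph1, hph2] at hD ⊢
  have hx01 := q_mono S (by omega : 1 < S.H) x y hxy.le hy
  have hx1n : S.q 1 y ≤ S.n 1 := by
    have := q_mono S (by omega : 1 < S.H) y (S.n (1 + 1)) hy le_rfl
    rw [S.q_end 1 (by omega)] at this
    omega
  have hpos1 : 1 ≤ f p S.q 1 (S.q 1 x) := by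
    have h1 := C1.phlo x (by have : S.n (1 + 1) = S.n 2 := rfl; omega)
    have h2 := (w3 p hok 2 (by omega)).1
    have h3 : K p 2 ≤ len p 2 := by
      have := (w3 p hok 2 (by omega)).2.1
      omega
    have h4 := C1.cgap (by omega : 0 < K p 2) h3
    have h5 := C1.cmono hreg (C1.flen x (by have : S.n (1 + 1) = S.n 2 := rfl; omega))
    rw [hph1] at h1
    have e : f p S.q (1 + 1) x = f p S.q 2 x := rfl
    rw [e] at h1 h5
    omega
  set x₀ := S.q 1 x with hx0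
  set x₁ := S.q 1 y with hx1
  have hfm := C0.fmono x₀ x₁ (by omega) hx1n
  have e01 : f p S.q (0 + 1) = f p S.q 1 := rfl
  rw [e01] at hfm
  -- (1) exact nodes
  have hex : ∀ d, x₀ + d ≤ x₁ →
      ((Finset.Ico x₀ (x₀ + d)).filter fun j => Exact p S.q j).card + f p S.q 1 x₀ ≤
        f p S.q 1 (x₀ + d) := by
    intro d
    induction d with
    | zero => intro _; simp
    | succ d ih =>
      intro hd
      have i1 := ih (by omega)
      have e : Finset.Ico x₀ (x₀ + (d + 1)) = insert (x₀ + d) (Finset.Ico x₀ (x₀ + d)) := by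
        ext i; simp only [Finset.mem_insert, Finset.mem_Ico]; omega
      rw [e, Finset.filter_insert]
      have e2 : x₀ + (d + 1) = x₀ + d + 1 := by omega
      rw [e2]
      split_ifs with h
      · have h2 := (exact_f hok h).1
        rw [Finset.card_insert_of_notMem (by simp)]
        omega
      · have h2 := C0.fmono (x₀ + d) (x₀ + d + 1) (by omega) (by
          have : S.n (0 + 1) = S.n 1 := rfl
          omega)
        rw [e01] at h2
        omega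
  have h1 := hex (x₁ - x₀) (by omega)
  rw [show x₀ + (x₁ - x₀) = x₁ by omega] at h1
  have h2 : nw p S.q x₀ x₁ + ((Finset.Ico x₀ x₁).filter fun j => Exact p S.q j).card =
      x₁ - x₀ := by
    unfold nw
    rw [Nat.add_comm, Finset.card_filter_add_card_filter_not, Nat.card_Ico]
  -- (2)
  have hCle : f p S.q 1 x₁ - f p S.q 1 x₀ ≤ x₁ - x₀ := by
    by_contra hcon
    push Not at hcon
    have hxl : x₀ ≤ S.n (0 + 1) := by
      have : S.n (0 + 1) = S.n 1 := rfl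
      omega
    have hyl : x₁ ≤ S.n (0 + 1) := by
      have : S.n (0 + 1) = S.n 1 := rfl
      omega
    have g1 := C0.phlo x₁ hyl
    have g2 := C0.phhi x₀ hxl (by
      have := C0.flen x₁ hyl
      rw [e01] at this ⊢
      omega)
    rw [e01] at g1 g2
    have g3 := (w6 p hok 0 (by omega)).1 (f p S.q 1 x₀ + 1) (f p S.q 1 x₁) (by omega)
      (C0.flen x₁ hyl)
    have g4 := (w6 p hok 1 (by omega)).2.1 (f p S.q 1 x₀ + 1) (f p S.q 1 x₁) (by omega)
      (C0.flen x₁ hyl)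
    have g5 := (cnt C0 (by omega : x₀ ≤ x₁) hyl).2.2
    have hc0 := C0.cgap (by omega : 0 < f p S.q 1 x₀) (C0.flen x₀ hxl)
    have g6 := C0.phlo x₀ hxl
    rw [e01] at g6
    have hq0 : ph p S.q 0 x₀ = S.q 0 x₀ - 1 := rfl
    have hq1 : ph p S.q 0 x₁ = S.q 0 x₁ - 1 := rfl
    have e11 : Lc p (0 + 1) (f p S.q 1 x₀ + 1) (f p S.q 1 x₁) =
      Lc p 1 (f p S.q 1 x₀ + 1) (f p S.q 1 x₁) := rfl
    rw [e11] at g3
    set e := Lc p 1 (f p S.q 1 x₀ + 1) (f p S.q 1 x₁)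
    -- integers
    have ha1 : ((p.m / 2 : ℕ) : ℤ) * 2 ≤ p.m := by omega
    have ha2 : (p.m : ℤ) ≤ ((p.m / 2 : ℕ) : ℤ) * 2 + 1 := by omega
    obtain ⟨a, hc⟩ : ∃ a : ℕ, f p S.q 1 x₁ = f p S.q 1 x₀ + 1 + a :=
      ⟨f p S.q 1 x₁ - (f p S.q 1 x₀ + 1), by omega⟩
    rw [hc, Nat.add_sub_cancel_left] at g3 g4
    rw [hc] at g1
    obtain ⟨c', hc'⟩ : ∃ c' : ℕ, x₁ = x₀ + c' := ⟨x₁ - x₀, by omega⟩
    rw [hc', Nat.add_sub_cancel_left] at g5
    rw [hc'] at hq1 g1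
    have hcc : c' ≤ a := by omega
    have hmdiv : p.m / 2 ≤ p.m := Nat.div_le_self _ _
    have hlow : (p.m : ℤ) * a - ((p.m : ℤ) - (p.m / 2 : ℕ)) * e ≤ p.m * c' := by
      zify [hmdiv] at g3
      have : (c p 0 (f p S.q 1 x₀ + 1 + a) : ℤ) - c p 0 (f p S.q 1 x₀ + 1) ≤ p.m * c' := by
        have : c p 0 (f p S.q 1 x₀ + 1 + a) ≤ c p 0 (f p S.q 1 x₀ + 1) + p.m * c' := by
          omega
        zify at this
        linarith
      push_cast at g3 ⊢
      linarith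
    have hmain : 50 * ((a : ℤ) + 1 - c') ≥ (a + 1) + c' + 4400 := by
      have h5 : (f p S.q 1 x₁ : ℤ) - f p S.q 1 x₀ = a + 1 := by rw [hc]; push_cast; ring
      have h6 : (x₁ : ℤ) - x₀ = c' := by rw [hc']; push_cast; ring
      rw [h5, h6] at hD
      have h7 : |(c' : ℤ) - (a + 1)| = (a + 1) - c' := by
        rw [abs_of_nonpos (by omega)]; ring
      rw [h7] at hD
      have h8 : (1 : ℤ) ≤ (y : ℤ) - x := by omega
      linarith
    have he : 21 * (e : ℤ) ≤ a + 21 := by exact_mod_cast g4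
    have he0 : (0 : ℤ) ≤ e := by positivity
    have hme : ((p.m : ℤ) - (p.m / 2 : ℕ)) * e ≤ ((p.m : ℤ) + 1) / 2 * e :=
      mul_le_mul_of_nonneg_right (by omega) he0
    have hme2 : 2 * (((p.m : ℤ) - (p.m / 2 : ℕ)) * e) ≤ (p.m + 1) * e := by
      have : 2 * ((p.m : ℤ) - (p.m / 2 : ℕ)) ≤ p.m + 1 := by linarith
      nlinarith
    have hm' : (10000 : ℤ) ≤ p.m := by omega
    -- m (a - c') ≤ (m+1)/2 e
    have h9 : 2 * ((p.m : ℤ) * (a - c')) ≤ (p.m + 1) * e := by linarith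
    have h10 : (p.m + 1 : ℤ) * (21 * e) ≤ (p.m + 1) * (a + 21) :=
      mul_le_mul_of_nonneg_left he (by linarith)
    have hc0' : (0 : ℤ) ≤ a := by positivity
    have hc0'' : (0 : ℤ) ≤ c' := by positivity
    -- 42 m (a - c') ≤ (m+1)(a+21)
    have h11 : 42 * ((p.m : ℤ) * (a - c')) ≤ (p.m + 1) * (a + 21) := by linarith
    have h12 : (p.m + 1 : ℤ) * (a + 21) ≤ 2 * (p.m * (a + 21)) - (p.m * (a + 21) - (a + 21)) := by
      ring_nf; linarith
    have h13 : (p.m : ℤ) * (42 * 50 * (a - c')) ≤ 50 * ((p.m + 1) * (a + 21)) := by linarith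
    have h14 : (p.m : ℤ) * (42 * (2 * a - (a - c') + 4351)) ≤ p.m * (42 * (50 * (a - c'))) :=
      mul_le_mul_of_nonneg_left (by linarith) (by linarith)
    nlinarith
  -- (3)
  have hnw : (x₁ - x₀) - (f p S.q 1 x₁ - f p S.q 1 x₀) ≤ nw p S.q x₀ x₁ := by omega
  obtain ⟨a, hc⟩ : ∃ a : ℕ, f p S.q 1 x₁ = f p S.q 1 x₀ + a :=
    ⟨f p S.q 1 x₁ - f p S.q 1 x₀, by omega⟩
  obtain ⟨c', hc'⟩ : ∃ c' : ℕ, x₁ = x₀ + c' := ⟨x₁ - x₀, by omega⟩
  obtain ⟨k, hk⟩ : ∃ k : ℕ, y = x + k := ⟨y - x, by omega⟩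
  have h5 : (f p S.q 1 x₁ : ℤ) - f p S.q 1 x₀ = a := by rw [hc]; push_cast; ring
  have h6 : (x₁ : ℤ) - x₀ = c' := by rw [hc']; push_cast; ring
  have h7 : (y : ℤ) - x = k := by rw [hk]; push_cast; ring
  rw [h5, h6, h7] at hD
  have e1 : f p S.q 1 x₁ - f p S.q 1 x₀ = a := by omega
  have e2 : x₁ - x₀ = c' := by omega
  have e3 : y - x = k := by omega
  rw [e1, e2] at hnw hCle
  rw [e1, e2, e3]
  have h8 : |(c' : ℤ) - a| = c' - a := abs_of_nonneg (by omega)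
  rw [h8] at hD
  set N := nw p S.q x₀ x₁
  have h9 : (c' : ℤ) - a ≤ N := by omega
  have h10 : (a : ℤ) + c' + 4400 * k ≤ 50 * N := by linarith
  have h11 : a + c' + 88 * k ≤ 50 * N := by omega
  have h12 : (a + c' + 88 * k) * p.m ≤ 50 * N * p.m := Nat.mul_le_mul h11 le_rfl
  have h13 : (a + c') * 50 ≤ (a + c') * p.m := Nat.mul_le_mul le_rfl (by omega)
  nlinarith

end DMS
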