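import Pool.Agent.DMS.All1

namespace DMS

/-- The facts used in the core part, collected for one level `l + 1`. -/
structure Ctx (p : Par) (S : Sys p.m p.g) (l : ℕ) : Prop where
  hg : 1 ≤ p.g
  hm : 10000 * p.g ≤ p.m
  hb : 4 ≤ p.b
  hlH : l < S.H
  hl4 : l + 1 ≤ 4 * p.b
  clo : ∀ k k', k ≤ k' → k' ≤ len p (l + 1) → c p l k + p.m / 2 * (k' - k) ≤ c p l k'
  chi : ∀ k k', k ≤ k' → k' ≤ len p (l + 1) → c p l k' ≤ c p l k + p.m * (k' - k)
  clen : c p l (len p (l + 1)) = len p l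
  fmono : ∀ x y, x ≤ y → y ≤ S.n (l + 1) → f p S.q (l + 1) x ≤ f p S.q (l + 1) y
  flen : ∀ x, x ≤ S.n (l + 1) → f p S.q (l + 1) x ≤ len p (l + 1)
  fend : f p S.q (l + 1) (S.n (l + 1)) = len p (l + 1)
  phlo : ∀ x, x ≤ S.n (l + 1) → c p l (f p S.q (l + 1) x) ≤ ph p S.q l x
  phhi : ∀ x, x ≤ S.n (l + 1) → f p S.q (l + 1) x < len p (l + 1) →
    ph p S.q l x < c p l (f p S.q (l + 1) x + 1)
  phmono : ∀ x y, x ≤ y → y ≤ S.n (l + 1) → ph p S.q l x ≤ ph p S.q l y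
  phlen : ∀ x, x ≤ S.n (l + 1) → ph p S.q l x ≤ len p l
  ph0 : ph p S.q l 0 = 0
  phend : ph p S.q l (S.n (l + 1)) = len p l

theorem ctx {p : Par} {S : Sys p.m p.g} (h : Cx p S) {l : ℕ} (hl : l < S.H)
    (hl4 : l + 1 ≤ 4 * p.b) : Ctx p S l := by
  obtain ⟨hok, hn⟩ := h
  have hok' := hok
  obtain ⟨hg, hm, hb⟩ := hok'
  obtain ⟨-, -, hW⟩ := w1 p
  obtain ⟨hc0, hcs, hlen, hV⟩ := hW l (by omega)
  obtain ⟨hmono, hpar, hparm, hparc⟩ := w2 p hok l (by omega)
  obtain ⟨a1, a2, a3, -, -, a6⟩ := s4 p S hok hn (l + 1) (by omega) hl4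
  obtain ⟨b1, b2, b3, b4⟩ := a6 l rfl
  exact {
    hg := hg, hm := hm, hb := hb, hlH := hl, hl4 := hl4
    clo := fun k k' hk hk' => (hmono k k' hk hk').1
    chi := fun k k' hk hk' => (hmono k k' hk hk').2
    clen := hlen.symm
    fmono := fun x y hxy hy => (a3 x y hxy hy).1
    flen := fun x hx => (a3 x x le_rfl hx).2
    fend := a2
    phlo := fun x hx => (b1 x hx).1
    phhi := fun x hx => (b1 x hx).2.1
    phmono := b2
    phlen := fun x hx => (b1 x hx).2.2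
    ph0 := b3
    phend := b4 }

namespace Ctx
variable {p : Par} {S : Sys p.m p.g} {l : ℕ}

theorem cmono (C : Ctx p S l) {k k' : ℕ} (h : k ≤ k') (h' : k' ≤ len p (l + 1)) :
    c p l k ≤ c p l k' := by
  have := C.clo k k' h h'
  have := Nat.zero_le (p.m / 2 * (k' - k))
  omega

/-- `k < k'` gives a gap of `m / 2`. -/
theorem cgap (C : Ctx p S l) {k k' : ℕ} (h : k < k') (h' : k' ≤ len p (l + 1)) :
    c p l k + p.m / 2 ≤ c p l k' := by
  have h1 := C.clo k k' h.le h'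
  have h2 : p.m / 2 * 1 ≤ p.m / 2 * (k' - k) := Nat.mul_le_mul le_rfl (by omega)
  omega

/-- `ph x ≤ c (f x + 1)` in all cases, in the form of a bound by `c (f x) + m`. -/
theorem ph_le (C : Ctx p S l) {x : ℕ} (hx : x ≤ S.n (l + 1)) :
    ph p S.q l x ≤ c p l (f p S.q (l + 1) x) + p.m := by
  rcases Nat.lt_or_ge (f p S.q (l + 1) x) (len p (l + 1)) with h | h
  · have h1 := C.phhi x hx h
    have h2 := C.chi (f p S.q (l + 1) x) (f p S.q (l + 1) x + 1) (by omega) (by omega)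
    rw [Nat.add_sub_cancel_left, Nat.mul_one] at h2
    omega
  · have h1 := C.flen x hx
    have h2 : f p S.q (l + 1) x = len p (l + 1) := by omega
    have h3 := C.phlen x hx
    rw [h2, C.clen]
    omega

/-- lower bounds of `ph` give lower bounds of `f`. -/
theorem le_f (C : Ctx p S l) {x k : ℕ} (hx : x ≤ S.n (l + 1)) (hk : k ≤ len p (l + 1))
    (h : c p l k ≤ ph p S.q l x) : k ≤ f p S.q (l + 1) x := by
  by_contra hc
  push Not at hc
  have h1 := C.phhi x hx (by omega)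
  have h2 := C.cmono (by omega : f p S.q (l + 1) x + 1 ≤ k) hk
  omega

theorem f_lt (C : Ctx p S l) {x k : ℕ} (hx : x ≤ S.n (l + 1)) (hk : k ≤ len p (l + 1))
    (h : ph p S.q l x < c p l k) : f p S.q (l + 1) x < k := by
  by_contra hc
  push Not at hc
  have h1 := C.phlo x hx
  have h2 := C.cmono hc (C.flen x hx)
  omega

theorem lt_of_ph (C : Ctx p S l) {x y : ℕ} (hx : x ≤ S.n (l + 1))
    (h : ph p S.q l x < ph p S.q l y) : x < y := by
  by_contra hc
  push Not at hc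
  have := C.phmono y x hc hx
  omega

end Ctx

end DMS
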