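import Pool.Agent.DMS.All1
import Pool.Agent.DMS.StD
import Pool.Agent.DMS.D4

/-!
# DMS D5: old key lists
-/

namespace DMS

theorem d5_keys (p : Par) (hok : p.Ok) (l : ℕ) (hl : l ≤ 4 * p.b) (k : ℕ) (hk : k < len p (l + 1)) :
    (bt p (l + 1) (V p (l + 1) k) (pos (c p) (l + 1) k)).keys = keysT p l k := by
  have h1 := d4_clen p hok l hl k hk
  simp only [bt, Tree.keys_node, keysT]
  rw [List.range'_eq_map_range, List.map_map]
  refine List.map_congr_left fun s hs => ?_
  have hs' : s < sz p (V p (l + 1) k) - 1 := List.mem_range.1 hs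
  have h2 := d4_step p l hl (d4_pos p hok l (by omega)) k hk (s + 1) (by omega) (by omega)
  show pos (c p) (l + 1) k + ps p l (V p (l + 1) k) (s + 1) = pos (c p) l (c p l k + 1 + s)
  rw [← h2]
  congr 1
  omega

theorem thm_D5 (hD4 : St_D4) : St_D5 := by
  intro p hok v
  obtain ⟨-, hlev⟩ := hD4 p hok
  constructor
  · rintro ⟨d, hd, w, hw, hwv⟩
    have h1 := hlev (4 * p.b - d + 1) (by omega)
    have e : 4 * p.b + 1 - (4 * p.b - d + 1) = d := by omega
    rw [e] at h1
    rw [h1] at hw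
    obtain ⟨k, hk, rfl⟩ := List.mem_map.1 hw
    have hk' : k < len p (4 * p.b - d + 1) := List.mem_range.1 hk
    refine ⟨4 * p.b - d, k, by omega, hk', ?_⟩
    rw [← hwv]
    exact d5_keys p hok (4 * p.b - d) (by omega) k hk'
  · rintro ⟨l, k, hl, hk, hv⟩
    refine ⟨4 * p.b - l, by omega, bt p (l + 1) (V p (l + 1) k) (pos (c p) (l + 1) k), ?_, ?_⟩
    · have h1 := hlev (l + 1) (by omega)
      have e : 4 * p.b + 1 - (l + 1) = 4 * p.b - l := by omega
      rw [e] at h1
      rw [h1]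
      exact List.mem_map.2 ⟨k, List.mem_range.2 hk, rfl⟩
    · rw [hv]
      exact d5_keys p hok l hl k hk

end DMS
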