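import Mathlib

/-!
# MP_44458a_lc : insertion in r-dense m-ary search trees (project DMS, architect helper79)

Definitions: trees, density, new nodes (part 1, used in the final statement); the hierarchical
words of the hard tree (part 2); the index system of an arbitrary dense tree (part 3); events
(part 4).
-/

namespace DMS

/-! ## 1. Search trees -/

/-- Ordered trees; an internal node stores a list of keys and has `n` children. -/
inductive Tree : Type where
  | leaf : Tree
  | inner (ks : List ℕ) (n : ℕ) (cs : Fin n → Tree) : Tree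

/-- The internal node with a given list of keys and a given list of children. -/
def Tree.node (ks : List ℕ) (cs : List Tree) : Tree := .inner ks cs.length cs.get

/-- The keys stored in the root of a tree. -/
def Tree.keys : Tree → List ℕ
  | .leaf => []
  | .inner ks _ _ => ks

/-- The children of the root of a tree. -/
def Tree.kids : Tree → List Tree
  | .leaf => []
  | .inner _ _ cs => List.ofFn cs

/-- Saturated: a leaf or exactly `m` children. -/
def sat (m : ℕ) : Tree → Bool
  | .leaf => true
  | .inner _ n _ => n == m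

theorem Tree.keys_node (ks : List ℕ) (cs : List Tree) : (Tree.node ks cs).keys = ks := rfl

theorem Tree.kids_node (ks : List ℕ) (cs : List Tree) : (Tree.node ks cs).kids = cs :=
  List.ofFn_get cs

theorem sat_node (m : ℕ) (ks : List ℕ) (cs : List Tree) :
    sat m (Tree.node ks cs) = (cs.length == m) := rfl

/-- `l₁ k₁ l₂ k₂ ...`. -/
def weave : List ℕ → List (List ℕ) → List ℕ
  | _, [] => []
  | [], l :: _ => l
  | k :: ks, l :: ls => l ++ k :: weave ks ls

/-- The keys of a tree of height `h` from left to right. -/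
def inorder : ℕ → Tree → List ℕ
  | 0, _ => []
  | h + 1, t => weave t.keys (t.kids.map (inorder h))

/-- All leaves have depth `h`; a node with `i + 1` children stores `i` keys, `i < m`; every
unsaturated child has a brother and only saturated brothers, or at least `r` saturated
brothers. -/
def Wf (m r : ℕ) : ℕ → Tree → Prop
  | 0, t => t = .leaf
  | h + 1, t => t.keys.length + 1 = t.kids.length ∧ t.kids.length ≤ m ∧
      (∀ i (hi : i < t.kids.length), sat m (t.kids[i]) = false →
        (2 ≤ t.kids.length ∧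
          ∀ j (hj : j < t.kids.length), j ≠ i → sat m (t.kids[j]) = true) ∨
        r ≤ t.kids.countP (sat m)) ∧
      ∀ c ∈ t.kids, Wf m r h c

theorem Wf_node (m r h : ℕ) (ks : List ℕ) (cs : List Tree) :
    Wf m r (h + 1) (Tree.node ks cs) ↔ ks.length + 1 = cs.length ∧ cs.length ≤ m ∧
      (∀ i (hi : i < cs.length), sat m (cs[i]) = false →
        (2 ≤ cs.length ∧ ∀ j (hj : j < cs.length), j ≠ i → sat m (cs[j]) = true) ∨
        r ≤ cs.countP (sat m)) ∧
      ∀ c ∈ cs, Wf m r h c := by
  rw [Wf, Tree.kids_node, Tree.keys_node]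

theorem inorder_node (h : ℕ) (ks : List ℕ) (cs : List Tree) :
    inorder (h + 1) (Tree.node ks cs) = weave ks (cs.map (inorder h)) := by
  rw [inorder, Tree.kids_node, Tree.keys_node]

/-- `r`-dense `m`-ary search trees of height `h`. -/
def IsDense (m r h : ℕ) (t : Tree) : Prop :=
  Wf m r h t ∧ (inorder h t).Pairwise (· < ·) ∧ (h = 0 ∨ 2 ≤ t.kids.length)

/-- The nodes of depth `d`, from left to right. -/
def lev : ℕ → Tree → List Tree
  | 0, t => [t]
  | d + 1, t => (lev d t).flatMap Tree.kids

/-- The list of keys of `v` is the list of keys of an internal node of the tree `T` of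
height `h`. -/
def Old (h : ℕ) (T v : Tree) : Prop := ∃ d < h, ∃ w ∈ lev d T, w.keys = v.keys

open Classical in
/-- Number of internal nodes of `T'` (height `h'`) whose list of keys is not the list of keys of
an internal node of `T` (height `h`). -/
noncomputable def newNodes (h : ℕ) (T : Tree) (h' : ℕ) (T' : Tree) : ℕ :=
  ∑ d ∈ Finset.range h', (lev d T').countP (fun v => decide (¬ Old h T v))

/-- The final statement. -/
def St_MAIN : Prop := ∀ m r : ℕ, r < m → 10000 * (m - r) ≤ m →
  ∃ c : ℝ, 0 < c ∧ ∀ N₀ : ℕ, ∃ (h : ℕ) (T : Tree) (x : ℕ),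
    IsDense m r h T ∧ N₀ ≤ (inorder h T).length ∧ x ∉ inorder h T ∧
    ∀ (h' : ℕ) (T' : Tree), IsDense m r h' T' →
      (∀ k, k ∈ inorder h' T' ↔ k = x ∨ k ∈ inorder h T) →
      ((inorder h T).length : ℝ) ^ c ≤ newNodes h T h' T'

/-! ## 2. The hard tree -/

/-- Parameters: `m`, `g = m - r` and the scale `b` (the hard tree has height `4 b + 1`). -/
structure Par where
  m : ℕ
  g : ℕ
  b : ℕ

/-- Standing assumptions. -/
def Par.Ok (p : Par) : Prop := 1 ≤ p.g ∧ 10000 * p.g ≤ p.m ∧ 4 ≤ p.b

/-- Types of nodes of the hard tree: complete, spine, right, left, unsaturated, root. -/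
inductive Ty : Type where
  | C | P | R | L | U | Q
deriving DecidableEq, Repr

/-- Number of children of a node of a given type. -/
def sz (p : Par) : Ty → ℕ
  | .U => p.m / 2
  | _ => p.m

/-- `R L R L ...` -/
def alt (s : ℕ) : Ty := if s % 2 = 0 then .R else .L

/-- blocks `(R L)^10 U`, from the left. -/
def lb (s : ℕ) : Ty := if s % 21 = 20 then .U else if (s % 21) % 2 = 0 then .R else .L

/-- blocks `(L R)^10 U`, from the right: `s` is the distance to the last letter. -/
def rb (s : ℕ) : Ty := if s % 21 = 0 then .U else if (s % 21) % 2 = 1 then .R else .L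

/-- The type of child number `s` of a node of level `l + 1` of type `τ` (the child has
level `l`). -/
def ch (p : Par) (l : ℕ) : Ty → ℕ → Ty
  | .C, _ => .C
  | .P, s => if s = 0 then (if l = 2 * p.b then .C else .P) else alt (s - 1)
  | .R, s => if p.m - 1 - s < 21 * p.g then rb (p.m - 1 - s) else alt s
  | .L, s => if s < 21 * p.g then lb s else alt (s - 21 * p.g)
  | .U, s => if s < 21 then lb s else alt (s - 21)
  | .Q, s => if s = 0 then .P else if p.m - 1 - s < 21 * p.g then rb (p.m - 1 - s)
      else alt (s - 1)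

/-- The word of level `4 b + 1 - d`. -/
def W (p : Par) : ℕ → List Ty
  | 0 => [.Q]
  | d + 1 => (W p d).flatMap fun τ => (List.range (sz p τ)).map (ch p (4 * p.b - d) τ)

/-- The word of level `l`, as a list. -/
def word (p : Par) (l : ℕ) : List Ty := W p (4 * p.b + 1 - l)

/-- Number of nodes of level `l`. -/
def len (p : Par) (l : ℕ) : ℕ := (word p l).length

/-- Type of node number `k` of level `l`. -/
def V (p : Par) (l k : ℕ) : Ty := (word p l).getD k .C

/-- The first child of node `k` of level `l + 1` has number `c p l k` in level `l`. -/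
def c (p : Par) (l k : ℕ) : ℕ := (((word p (l + 1)).take k).map (sz p)).sum

/-- Number of nodes of level `l` in the left part (complete or spine). -/
def K (p : Par) (l : ℕ) : ℕ := if 2 * p.b ≤ l then 1 else p.m ^ (2 * p.b - l)

/-- Number of letters (type `U`) among the nodes `x ≤ j < y` of level `l`. -/
def Lc (p : Par) (l x y : ℕ) : ℕ := ((Finset.Ico x y).filter fun j => V p l j = .U).card

/-- Tight cuts: between nodes `t - 1` and `t` of level `l`, of types `R | L` or `R | U`. -/
def Tight (p : Par) (l t : ℕ) : Prop :=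
  1 ≤ t ∧ t < len p l ∧ V p l (t - 1) = .R ∧ (V p l t = .L ∨ V p l t = .U)

/-! ## 3. The index system of a dense tree -/

/-- number of saturated nodes `j` of level `l + 1`, `x ≤ j < y`. -/
def Sc (m : ℕ) (q : ℕ → ℕ → ℕ) (l x y : ℕ) : ℕ :=
  ((Finset.Ico x y).filter fun j => q l (j + 1) = q l j + m).card

/-- number of unsaturated nodes `j` of level `l + 1`, `x ≤ j < y`. -/
def Uc (m : ℕ) (q : ℕ → ℕ → ℕ) (l x y : ℕ) : ℕ :=
  ((Finset.Ico x y).filter fun j => q l (j + 1) ≠ q l j + m).card

/-- A tree of height `H` seen as index maps: level `l` has `n l` nodes, the children of node `k`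
of level `l + 1` are the nodes `q l k, ..., q l (k + 1) - 1` of level `l`. -/
structure Sys (m g : ℕ) where
  H : ℕ
  n : ℕ → ℕ
  q : ℕ → ℕ → ℕ
  n_top : n H = 1
  q_zero : ∀ l, l < H → q l 0 = 0
  q_end : ∀ l, l < H → q l (n (l + 1)) = n l
  q_lt : ∀ l, l < H → ∀ k, k < n (l + 1) → q l k < q l (k + 1)
  q_le : ∀ l, l < H → ∀ k, k < n (l + 1) → q l (k + 1) ≤ q l k + m
  s_pos : ∀ l, l + 1 < H → ∀ k, k < n (l + 2) →
    1 ≤ Sc m q l (q (l + 1) k) (q (l + 1) (k + 1))
  u_or : ∀ l, l + 1 < H → ∀ k, k < n (l + 2) →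
    Uc m q l (q (l + 1) k) (q (l + 1) (k + 1)) ≤ 1 ∨
      m - g ≤ Sc m q l (q (l + 1) k) (q (l + 1) (k + 1))

/-- parent in the hard tree, as a floor: the largest `k` with `c l k ≤ j`. -/
def par (p : Par) (l j : ℕ) : ℕ := Nat.findGreatest (fun k => c p l k ≤ j) (len p (l + 1))

/-- `f l k`: the number of the node of level `l` of the hard tree which contains the left end of
node `k` of level `l` of the system (the system has one more leaf, on the left). -/
def f (p : Par) (q : ℕ → ℕ → ℕ) : ℕ → ℕ → ℕ
  | 0, j => j - 1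
  | l + 1, k => par p l (f p q l (q l k))

/-- the cut `k` of level `l + 1`, seen in level `l` of the hard tree. -/
def ph (p : Par) (q : ℕ → ℕ → ℕ) (l k : ℕ) : ℕ := f p q l (q l k)

/-- Leaf position of cut `k` of level `l` of a system. -/
def pos (q : ℕ → ℕ → ℕ) : ℕ → ℕ → ℕ
  | 0, k => k
  | l + 1, k => pos q l (q l k)

/-- Cut `k` of level `l + 1` as a cut of level `1`. -/
def Qd (q : ℕ → ℕ → ℕ) : ℕ → ℕ → ℕ
  | 0, k => k
  | l + 1, k => Qd q l (q (l + 1) k)

/-- Node `j` of level `1` of the system is a node of level `1` of the hard tree. -/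
def Exact (p : Par) (q : ℕ → ℕ → ℕ) (j : ℕ) : Prop :=
  ∃ k, k < len p 1 ∧ c p 0 k = ph p q 0 j ∧ c p 0 (k + 1) = ph p q 0 (j + 1)

open Classical in
/-- Number of nodes of level `1` of the system which are not nodes of the hard tree, numbers
`x ≤ j < y`. -/
noncomputable def nw (p : Par) (q : ℕ → ℕ → ℕ) (x y : ℕ) : ℕ :=
  ((Finset.Ico x y).filter fun j => ¬ Exact p q j).card

/-- The same between the cuts `x`, `y` of level `l + 1`. -/
noncomputable def F (p : Par) (q : ℕ → ℕ → ℕ) (l x y : ℕ) : ℕ := nw p q (Qd q l x) (Qd q l y)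

/-! ## 4. Events -/

/-- Discrepancy event between the cuts `x < y` of level `l + 1`. -/
def D (p : Par) (q : ℕ → ℕ → ℕ) (l x y : ℕ) : Prop :=
  (ph p q l y : ℤ) - ph p q l x + ((q l y : ℤ) - q l x) + 4400 * ((y : ℤ) - x) ≤
    50 * |((q l y : ℤ) - q l x) - ((ph p q l y : ℤ) - ph p q l x)|

/-- Overlap event: node `x` of level `l + 1` of the system covers the window of the tight cut
`t` of level `l + 1`. -/
def OV (p : Par) (q : ℕ → ℕ → ℕ) (l x t : ℕ) : Prop :=
  Tight p (l + 1) t ∧ ph p q l x + 21 * p.g < c p l t ∧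
    c p l t + 21 * p.g + 6 ≤ ph p q l (x + 1)

/-- The cut `x` of level `l + 1` lies in the window of the cut `t`. -/
def Pin (p : Par) (q : ℕ → ℕ → ℕ) (l x t : ℕ) : Prop :=
  c p l t ≤ ph p q l x + 21 * p.g ∧ ph p q l x < c p l t + 21 * p.g + 6

/-- The rightmost cut of level `l + 1` left of the right end of the window of `t`. -/
def X (p : Par) (q : ℕ → ℕ → ℕ) (n : ℕ → ℕ) (l t : ℕ) : ℕ :=
  Nat.findGreatest (fun x => ph p q l x < c p l t + 21 * p.g + 6) (n (l + 1))

end DMS
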