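import Pool.Agent.DMS.StE

/-!
# DMS, module E1: dense trees exist for every list of keys
-/

namespace DMS

private def e1_P (m r h L : ℕ) : Prop := ∀ K : List ℕ, K.length + 1 = L →
  ∃ t, Wf m r h t ∧ sat m t = true ∧ inorder h t = K

private def e1_Q (m r h L : ℕ) : Prop := ∀ K : List ℕ, K.length + 1 = L →
  ∃ t, Wf m r h t ∧ inorder h t = K

private theorem e1_forest (m r h : ℕ) (u : ℕ) (hu : 1 ≤ u) (hQ : e1_Q m r h u) :
    ∀ s : List ℕ, (∀ a ∈ s, 1 ≤ a ∧ e1_P m r h a) → ∀ K : List ℕ, K.length + 1 = s.sum + u →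
    ∃ (ks : List ℕ) (cs : List Tree) (c0 : Tree), ks.length = s.length ∧ cs.length = s.length ∧
      (∀ c ∈ cs, Wf m r h c ∧ sat m c = true) ∧ Wf m r h c0 ∧
      weave ks ((cs ++ [c0]).map (inorder h)) = K := by
  intro s
  induction s with
  | nil =>
    intro _ K hK
    obtain ⟨t, h1, h2⟩ := hQ K (by simpa using hK)
    exact ⟨[], [], t, rfl, rfl, by simp, h1, by simp [weave, h2]⟩
  | cons a s ih =>
    intro hs K hK
    rw [List.sum_cons] at hK
    obtain ⟨ha, hP⟩ := hs a (by simp)
    have h1 : a - 1 < K.length := by omega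
    obtain ⟨t, ht1, ht2, ht3⟩ := hP (K.take (a - 1)) (by rw [List.length_take]; omega)
    obtain ⟨ks, cs, c0, g1, g2, g3, g4, g5⟩ := ih (fun b hb => hs b (by simp [hb])) (K.drop a)
      (by rw [List.length_drop]; omega)
    refine ⟨K[a - 1] :: ks, t :: cs, c0, by simp [g1], by simp [g2], ?_, g4, ?_⟩
    · intro c hc
      rcases List.mem_cons.1 hc with rfl | hc
      · exact ⟨ht1, ht2⟩
      · exact g3 c hc
    · rw [List.cons_append, List.map_cons]
      show inorder h t ++ K[a - 1] :: weave ks ((cs ++ [c0]).map (inorder h)) = K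
      rw [g5, ht3]
      have h2 : K.drop (a - 1) = K[a - 1] :: K.drop (a - 1 + 1) := List.drop_eq_getElem_cons h1
      rw [show a - 1 + 1 = a by omega] at h2
      rw [← h2, List.take_append_drop]

private theorem e1_node (m r h : ℕ) (u : ℕ) (hu : 1 ≤ u) (hQ : e1_Q m r h u) (s : List ℕ)
    (hs : ∀ a ∈ s, 1 ≤ a ∧ e1_P m r h a) (h1 : 1 ≤ s.length) (h2 : s.length + 1 ≤ m)
    (K : List ℕ) (hK : K.length + 1 = s.sum + u) :
    ∃ t, Wf m r (h + 1) t ∧ inorder (h + 1) t = K ∧ t.kids.length = s.length + 1 ∧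
      (s.length + 1 = m → sat m t = true) := by
  obtain ⟨ks, cs, c0, g1, g2, g3, g4, g5⟩ := e1_forest m r h u hu hQ s hs K hK
  have hlen : (cs ++ [c0]).length = s.length + 1 := by simp [g2]
  refine ⟨Tree.node ks (cs ++ [c0]), (Wf_node _ _ _ _ _).2 ⟨?_, ?_, ?_, ?_⟩,
    (inorder_node _ _ _).trans g5, by rw [Tree.kids_node]; exact hlen, fun hm => ?_⟩
  · show ks.length + 1 = (cs ++ [c0]).length
    omega
  · show (cs ++ [c0]).length ≤ m
    omega
  · intro i hi hf
    left
    have hi' : i < (cs ++ [c0]).length := hi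
    change sat m ((cs ++ [c0])[i]) = false at hf
    refine ⟨by show 2 ≤ (cs ++ [c0]).length; omega, fun j hj hji => ?_⟩
    have hj' : j < (cs ++ [c0]).length := hj
    change sat m ((cs ++ [c0])[j]) = true
    by_cases hi2 : i < cs.length
    · rw [List.getElem_append_left hi2] at hf
      have h3 := (g3 _ (List.getElem_mem hi2)).2
      rw [h3] at hf
      exact absurd hf (by simp)
    · have hj2 : j < cs.length := by omega
      rw [List.getElem_append_left hj2]
      exact (g3 _ (List.getElem_mem hj2)).2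
  · intro c hc
    change c ∈ cs ++ [c0] at hc
    rcases List.mem_append.1 hc with hc | hc
    · exact (g3 c hc).1
    · rw [List.mem_singleton.1 hc]
      exact g4
  · show ((cs ++ [c0]).length == m) = true
    rw [hlen, hm]
    simp

private theorem e1_unary (m r h L : ℕ) (hm : 1 ≤ m) (hP : e1_P m r h L) : e1_Q m r (h + 1) L := by
  intro K hK
  obtain ⟨t, h1, h2, h3⟩ := hP K hK
  refine ⟨Tree.node [] [t], (Wf_node _ _ _ _ _).2 ⟨rfl, hm, ?_, ?_⟩, (inorder_node _ _ _).trans ?_⟩
  · intro i hi hf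
    have hi' : i < [t].length := hi
    change sat m ([t][i]) = false at hf
    have hi0 : i = 0 := by simpa using hi'
    subst hi0
    rw [show [t][0] = t from rfl, h2] at hf
    exact absurd hf (by simp)
  · intro c hc
    change c ∈ [t] at hc
    rw [List.mem_singleton.1 hc]
    exact h1
  · show weave [] ([t].map (inorder h)) = K
    rw [List.map_singleton]
    exact h3

private def e1_A (m r h : ℕ) : Prop :=
  (∀ L, m ^ h + 1 ≤ L + m ^ (h - 1) → L ≤ m ^ h → e1_P m r h L) ∧
  (∀ L, m ^ (h - 1) ≤ L → L ≤ m ^ h → e1_Q m r h L)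

private def e1_C (m r h : ℕ) : Prop := ∀ K : List ℕ, m ^ h + 1 ≤ K.length + 1 →
  K.length + 1 ≤ m ^ (h + 1) → ∃ t, Wf m r (h + 1) t ∧ inorder (h + 1) t = K ∧
    2 ≤ t.kids.length ∧ (m ^ (h + 1) + 1 ≤ K.length + 1 + m ^ h → sat m t = true)

private theorem e1_A0 (m r : ℕ) : e1_A m r 0 := by
  have h0 : ∀ L, L ≤ 1 → e1_P m r 0 L := by
    intro L hL K hK
    have h1 : K.length = 0 := by omega
    exact ⟨.leaf, rfl, rfl, (List.length_eq_zero_iff.1 h1).symm⟩
  refine ⟨fun L _ hL => h0 L (by simpa using hL), fun L _ hL K hK => ?_⟩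
  obtain ⟨t, h1, -, h3⟩ := h0 L (by simpa using hL) K hK
  exact ⟨t, h1, h3⟩

private theorem e1_step1 (m r h : ℕ) (hm : 2 ≤ m) (hA : e1_A m r h) : e1_C m r h := by
  obtain ⟨hP, hQ⟩ := hA
  intro K h1 h2
  have hM : 0 < m ^ h := by positivity
  have hw : 0 < m ^ (h - 1) := by positivity
  have hwM : m ^ (h - 1) ≤ m ^ h := Nat.pow_le_pow_right (by omega) (by omega)
  have hmul : m ^ (h + 1) = m * m ^ h := by rw [pow_succ, mul_comm]
  generalize hMd : m ^ h = M at *
  generalize hwd : m ^ (h - 1) = w at *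
  have hd := Nat.div_add_mod K.length M
  have hmod := Nat.mod_lt K.length hM
  generalize hq : K.length / M = q at *
  generalize hu : K.length % M = v at *
  have hq1 : 1 ≤ q := by
    rw [← hq]
    exact (Nat.one_le_div_iff hM).2 (by omega)
  have hq2 : q < m := by
    rw [← hq, Nat.div_lt_iff_lt_mul hM]
    omega
  have hsat : m ^ (h + 1) + 1 ≤ K.length + 1 + M → q + 1 = m := by
    intro h3
    have h4 : m - 1 ≤ q := by
      rw [← hq, Nat.le_div_iff_mul_le hM, Nat.sub_mul]
      omega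
    omega
  by_cases hv : w ≤ v + 1
  · obtain ⟨t, g1, g2, g3, g4⟩ := e1_node m r h (v + 1) (by omega) (hQ _ hv (by omega))
      (List.replicate q M) (fun a ha => by
        rw [List.eq_of_mem_replicate ha]
        exact ⟨hM, hP M (by omega) le_rfl⟩) (by simpa using hq1) (by simpa using hq2) K (by
        rw [List.sum_replicate, smul_eq_mul, mul_comm]
        omega)
    rw [List.length_replicate] at g3 g4
    exact ⟨t, g1, g2, by omega, fun h3 => g4 (hsat h3)⟩
  · obtain ⟨q', rfl⟩ : ∃ q', q = q' + 1 := ⟨q - 1, by omega⟩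
    have hmq : M * (q' + 1) = M * q' + M := by ring
    obtain ⟨t, g1, g2, g3, g4⟩ := e1_node m r h w hw (hQ _ le_rfl hwM)
      ((M + v + 1 - w) :: List.replicate q' M) (fun a ha => by
        rcases List.mem_cons.1 ha with rfl | ha
        · exact ⟨by omega, hP _ (by omega) (by omega)⟩
        · rw [List.eq_of_mem_replicate ha]
          exact ⟨hM, hP M (by omega) le_rfl⟩) (by simp) (by simpa using hq2) K (by
        rw [List.sum_cons, List.sum_replicate, smul_eq_mul, mul_comm q' M]
        omega)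
    rw [List.length_cons, List.length_replicate] at g3 g4
    exact ⟨t, g1, g2, by omega, fun h3 => g4 (hsat h3)⟩

private theorem e1_step2 (m r h : ℕ) (hm : 2 ≤ m) (hA : e1_A m r h) : e1_A m r (h + 1) := by
  have hC := e1_step1 m r h hm hA
  have hM : 0 < m ^ h := by positivity
  have hw : 0 < m ^ (h - 1) := by positivity
  have hmul : m ^ (h + 1) = m ^ h * m := pow_succ m h
  have h2M : m ^ h * 2 ≤ m ^ h * m := Nat.mul_le_mul_left _ hm
  refine ⟨fun L h1 h2 K hK => ?_, fun L h1 h2 => ?_⟩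
  · rw [Nat.add_sub_cancel] at h1
    obtain ⟨t, g1, g2, -, g4⟩ := hC K (by omega) (by omega)
    exact ⟨t, g1, g4 (by omega), g2⟩
  · rw [Nat.add_sub_cancel] at h1
    rcases Nat.eq_or_lt_of_le h1 with h3 | h3
    · rw [← h3]
      exact e1_unary m r h _ (by omega) (hA.1 _ (by omega) le_rfl)
    · intro K hK
      obtain ⟨t, g1, g2, -, -⟩ := hC K (by omega) (by omega)
      exact ⟨t, g1, g2⟩

private theorem e1_all (m r : ℕ) (hm : 2 ≤ m) (h : ℕ) : e1_A m r h := by
  induction h with
  | zero => exact e1_A0 m r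
  | succ h ih => exact e1_step2 m r h hm ih

/-- **E1** -/
theorem thm_E1 : St_E1 := by
  intro m r hm K
  rcases Nat.eq_zero_or_pos K.length with h0 | h0
  · exact ⟨0, .leaf, rfl, (List.length_eq_zero_iff.1 h0).symm, Or.inl rfl⟩
  · have h1 := Nat.pow_log_le_self m (x := K.length) (by omega)
    have h2 := Nat.lt_pow_succ_log_self (b := m) (by omega) K.length
    obtain ⟨t, g1, g2, g3, -⟩ := e1_step1 m r _ hm (e1_all m r hm (Nat.log m K.length)) K
      (by omega) h2
    exact ⟨_, t, g1, g2, Or.inr g3⟩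

end DMS
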