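import Pool.Agent.DMS.B7

namespace DMS

theorem nw_add (p : Par) (q : ℕ → ℕ → ℕ) (x y z : ℕ) (h : x ≤ y) (h' : y ≤ z) :
    nw p q x y + nw p q y z = nw p q x z := by
  classical
  unfold nw
  rw [← Finset.Ico_union_Ico_eq_Ico h h', Finset.filter_union, Finset.card_union_of_disjoint]
  apply Finset.disjoint_filter_filter
  exact Finset.Ico_disjoint_Ico_consecutive x y z

theorem Qd_mono {m g : ℕ} (S : Sys m g) : ∀ l, l < S.H → ∀ x y, x ≤ y → y ≤ S.n (l + 1) →
    Qd S.q l x ≤ Qd S.q l y ∧ Qd S.q l y ≤ S.n 1 := by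
  intro l
  induction l with
  | zero => intro _ x y hxy hy; exact ⟨hxy, hy⟩
  | succ l ih =>
    intro hl x y hxy hy
    have h1 := q_mono S hl x y hxy hy
    have h2 := q_mono S hl y (S.n (l + 1 + 1)) hy le_rfl
    rw [S.q_end (l + 1) hl] at h2
    exact ih (by omega) (S.q (l + 1) x) (S.q (l + 1) y) (by omega) (by omega)

theorem F_add {p : Par} (S : Sys p.m p.g) {l : ℕ} (hl : l < S.H) {x y z : ℕ} (h : x ≤ y)
    (h' : y ≤ z) (hz : z ≤ S.n (l + 1)) :
    F p S.q l x y + F p S.q l y z = F p S.q l x z := by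
  unfold F
  exact nw_add _ _ _ _ _ (Qd_mono S l hl x y h (by omega)).1 (Qd_mono S l hl y z h' hz).1

theorem F_succ (p : Par) (q : ℕ → ℕ → ℕ) (l x y : ℕ) :
    F p q (l + 1) x y = F p q l (q (l + 1) x) (q (l + 1) y) := rfl

end DMS
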