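import Pool.Agent.DMS.Defs

/-!
# DMS, statements A: the words of the hard tree, and counting in a system

Everywhere `m = p.m`, `g = p.g`, `b = p.b`, `a = m / 2`, `p.Ok` gives `1 ≤ g`, `10000 g ≤ m`,
`4 ≤ b`.  Levels: leaves have level `0`, the root of the hard tree has level `4 b + 1`.
-/

namespace DMS

/-- **W1** (recursion of the words).  Proof: `word p l = W p (4 b + 1 - l)`; for `l ≤ 4 b`,
`4 b + 1 - l = (4 b - l) + 1` and `4 b - (4 b - l) = l`, so
`word p l = (word p (l+1)).flatMap (fun τ => (List.range (sz p τ)).map (ch p l τ))`.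
General list facts for `w.flatMap h` (induction on `w`): its length is
`(w.map (length ∘ h)).sum`, and for `k < w.length`, `s < (h w[k]).length` the entry number
`((w.take k).map (length ∘ h)).sum + s` is `(h w[k])[s]`. -/
def St_W1 : Prop := ∀ p : Par,
  len p (4 * p.b + 1) = 1 ∧ V p (4 * p.b + 1) 0 = .Q ∧
  ∀ l, l ≤ 4 * p.b →
    c p l 0 = 0 ∧
    (∀ k, k < len p (l + 1) → c p l (k + 1) = c p l k + sz p (V p (l + 1) k)) ∧
    len p l = c p l (len p (l + 1)) ∧
    ∀ k, k < len p (l + 1) → ∀ s, s < sz p (V p (l + 1) k) →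
      V p l (c p l k + s) = ch p l (V p (l + 1) k) s

/-- **W2** (monotonicity and parents).  Proof from W1: `sz` is `m` or `m / 2`, so each step of
`c p l` is between `m / 2` and `m` and is positive (`m ≥ 10000`).  `par p l j` is
`Nat.findGreatest` of the property `c p l k ≤ j` on `k ≤ len p (l+1)`; the property holds for
`k = 0`, and it is downward closed. `par p l (c p l k) = k` since `c p l` is strictly increasing
up to `len p (l+1)`. -/
def St_W2 : Prop := ∀ p : Par, p.Ok → ∀ l, l ≤ 4 * p.b →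
  (∀ k k', k ≤ k' → k' ≤ len p (l + 1) →
    c p l k + p.m / 2 * (k' - k) ≤ c p l k' ∧ c p l k' ≤ c p l k + p.m * (k' - k)) ∧
  (∀ j, par p l j ≤ len p (l + 1) ∧ c p l (par p l j) ≤ j ∧
    (par p l j < len p (l + 1) → j < c p l (par p l j + 1))) ∧
  (∀ j j', j ≤ j' → par p l j ≤ par p l j') ∧
  (∀ k, k ≤ len p (l + 1) → par p l (c p l k) = k)

/-- **W3** (the left part).  Proof: by induction downwards from `l = 4 b`.  At `l = 4 b` the word
is the list of `ch p (4b) Q s`, `s < m`: `P, R, L, ...` (`ch Q 1 = alt 0 = R`, `ch Q 2 = alt 1 = L`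
because `m - 1 - 2 ≥ 21 g`), all entries from `1` on are `R, L, U`.  Step from `l + 1` to `l`
(`l + 1 ≤ 4 b`): the nodes `k < K (l+1)` have type `P` (if `2 b < l + 1`, then `K (l+1) = 1`) or
`C`; all of them and node `K (l+1)` (type `R`) have `m` children, which gives
`c p l k = m k` for `k ≤ K (l+1) + 1`.  If `2 b < l + 1`: the children of the node `P` are
`P` (or `C` if `l = 2 b`), then `R, L, R, L, ...`, so `K l = 1`.  If `l + 1 ≤ 2 b`: the
children of the `K (l+1)` nodes `C` are `m K (l+1) = K l` nodes `C`, and the next word is the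
word of a node of type `R`, which starts with `R, L` (`m - 2 ≥ 21 g`).  Children of `R, L, U`
nodes have types `R, L, U`. -/
def St_W3 : Prop := ∀ p : Par, p.Ok → ∀ l, l ≤ 4 * p.b →
  1 ≤ K p l ∧ K p l + p.m - 1 ≤ len p l ∧
  (∀ k, k < K p l → V p l k = if 2 * p.b < l then .P else .C) ∧
  (∀ k, K p l ≤ k → k < len p l → V p l k = .R ∨ V p l k = .L ∨ V p l k = .U) ∧
  V p l (K p l) = .R ∧ V p l (K p l + 1) = .L ∧
  (l + 1 ≤ 4 * p.b →
    K p l ≤ p.m * K p (l + 1) ∧ ∀ k, k ≤ K p (l + 1) + 1 → c p l k = p.m * k)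

/-- **W4** (local structure: letters are at least 21 apart; tight cuts are frequent).
Numerically checked for `(m, g) = (64,1), (65,1), (90,2), (91,2), (150,3)`.
Proof: let `l ≤ 4 b`.  By W1, node `j` of level `l` is `c p l k + s` with `k` the parent and
`s < sz` its number inside the word `ch p l (V p (l+1) k) ·`.  The words are
`R : R L R L ... ` (length `m - 21 g`) then `((L R)^10 U)^g`;
`L : ((R L)^10 U)^g` then `R L R L ...`; `U : (R L)^10 U` then `R L R L ...` (length `m/2`);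
`P : P R L R L ...`; `Q : P R L R L ... ((L R)^10 U)^g`, `C : C C C ...`.  All words of types
`R, L, U` start with `R, L, R, L, R, L` and have length at least `m / 2 ≥ 5000`.  Inside
one word and at the border of two words everything is a finite case check on residues modulo `2`
and `21` (`omega` after unfolding `alt`, `lb`, `rb`):
* two letters of the same word are at least `21` apart; a word of type `L` or `U` has its first
  letter at number `20`, a word of type `R` at a number at least `20` (`m - 21 g ≥ 100`), so two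
  letters in different words are at least `21` apart (the next word starts at distance at
  least `1` of the first letter);
* in three consecutive steps from any node `x ≥ K p l` there is an `R` followed by `L` or `U`
  (the only irregular places are `L L R L` at the beginning of the blocks of a word `R`,
  `L U R L`, and the borders `.. R | R L ..`, `.. L | R L ..`, `.. U | R L ..`);
* after a tight cut `t` (`V t` is `L` or `U`) the next one is `t + 2` or `t + 3`;
* before a tight cut `t ≠ K + 1` there is one at `t - 2` or `t - 3` (use the third property at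
  `x = t - 4` if `t ≥ K + 4`: it gives one in `{t-3, t-2, t-1}`, and `t - 1` is impossible since
  `V (t-1) = R`; the first nodes after the left part are `R, L, R, L` so `K + 3` is tight and
  `K + 2` is not);
* a letter `j` with `j + 5 < len`: in a word `L` or `U` the neighbours are
  `R L R L U R L R L`, in a word `R` they are `L R L R U L R L R L` or (last letter of the word,
  next word) `L R L R U R L R L`; in a word `Q` the same as in `R`. -/
def St_W4 : Prop := ∀ p : Par, p.Ok → ∀ l, l ≤ 4 * p.b →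
  Tight p l (K p l + 1) ∧
  (∀ j j', j < j' → j' < len p l → V p l j = .U → V p l j' = .U → j + 21 ≤ j') ∧
  (∀ x, K p l ≤ x → x + 3 < len p l → ∃ t, x + 1 ≤ t ∧ t ≤ x + 3 ∧ Tight p l t) ∧
  (∀ t, Tight p l t → t + 3 < len p l → Tight p l (t + 2) ∨ Tight p l (t + 3)) ∧
  (∀ t, Tight p l t → t = K p l + 1 ∨
    ∃ t', Tight p l t' ∧ (t = t' + 2 ∨ t = t' + 3)) ∧
  (∀ t, Tight p l t → K p l + 1 ≤ t) ∧
  ∀ j, j + 5 < len p l → V p l j = .U →
    ∃ x₁ x₂ y₁ y₂, Tight p l x₁ ∧ Tight p l x₂ ∧ Tight p l y₁ ∧ Tight p l y₂ ∧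
      x₁ < x₂ ∧ y₁ < y₂ ∧ j ≤ x₁ + 3 ∧ x₂ ≤ j ∧ j + 1 ≤ y₁ ∧ y₂ ≤ j + 5

/-- **W5** (letters near a tight cut of the next level).  Let `t` be tight of level `l + 1 ≤ 4b`
and `c₀ = c p l t`.  Then the nodes `c₀ + 20 - 21 (g - i)`, `i ≤ g` of level `l` are letters
(for `i < g` in the word of the node `t - 1` of type `R`, for `i = g` in the word of the node `t`
of type `L` or `U`); if `V p (l+1) t = L` the same holds for `i ≤ 2 g - 1`.  Moreover
`c₀ - 1` is a tight cut of level `l` (`R | U`), and `c₀ ≥ K p l + m - 1`,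
`c₀ + m / 2 ≤ len p l`.
Proof: W1 with the words of W4: in the word `R` the node at distance `21 e` (`e < g`) from the
right end is `U`, the node before it is `R`; in the word `L` node number `20 + 21 e` is `U`
(`e < g`), in the word `U` node number `20`.  `c₀ = c p l (t - 1) + m`, and
`c p l (t-1) ≥ c p l (K (l+1)) = m K (l+1) ≥ K l` by W3 (`t - 1 ≥ K (l+1)` by W4).
`c₀ + m/2 ≤ c p l (t+1) ≤ len`. -/
def St_W5 : Prop := ∀ p : Par, p.Ok → ∀ l, l + 1 ≤ 4 * p.b → ∀ t, Tight p (l + 1) t →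
  (∀ i, i ≤ p.g → V p l (c p l t + 20 - 21 * (p.g - i)) = .U) ∧
  (V p (l + 1) t = .L → ∀ i, i < p.g → V p l (c p l t + 20 + 21 * i) = .U) ∧
  Tight p l (c p l t - 1) ∧ K p l + p.m - 1 ≤ c p l t ∧ c p l t + p.m / 2 ≤ len p l ∧
  (c p l t = c p l (t - 1) + p.m)

/-- **W6** (counting letters).  Proof: induction on `y` from W1 (`sz = m` unless the type is `U`);
spacing from W4: in an interval of length at most `21` there is at most one letter, and in
general `21 (Lc - 1) < y - x`, by induction on the letters (or: the map `j ↦ j / 21` is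
injective on the letters of the interval). -/
def St_W6 : Prop := ∀ p : Par, p.Ok → ∀ l, l ≤ 4 * p.b →
  (∀ x y, x ≤ y → y ≤ len p (l + 1) →
    c p l y + (p.m - p.m / 2) * Lc p (l + 1) x y = c p l x + p.m * (y - x)) ∧
  (∀ x y, x ≤ y → y ≤ len p l → 21 * Lc p l x y ≤ y - x + 21) ∧
  (∀ x y, x ≤ y → y ≤ len p l → y ≤ x + 21 → Lc p l x y ≤ 1)

/-- **W7** (size of the hard tree).  `len p 0 ≤ m ^ (4 b + 1)`, `m ^ (2 b) < len p 0`, and the
left part has the leaf positions of a complete tree: `pos (c p) l k = m ^ l k` for `k ≤ K p l`,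
`l ≤ 2 b`; in general `pos (c p) l k ≤ m ^ l k` for `k ≤ len p l`, and
`pos (c p) l` is strictly increasing on `k ≤ len p l` (`l ≤ 4 b + 1`).
Proof: `len p l ≤ m len p (l+1)` by W1/W2 and `len p (4b+1) = 1`;
`len p 0 ≥ K p 0 + m - 1` by W3 and `K p 0 = m ^ (2 b)`;
`pos (c p) (l+1) k = pos (c p) l (c p l k)`, with `c p l k ≤ m k` and, in the left part,
`c p l k = m k ≤ m K (l+1) = K l` for `l + 1 ≤ 2 b` (W3). -/
def St_W7 : Prop := ∀ p : Par, p.Ok →
  len p 0 ≤ p.m ^ (4 * p.b + 1) ∧ p.m ^ (2 * p.b) < len p 0 ∧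
  (∀ l, l ≤ 2 * p.b → ∀ k, k ≤ K p l → pos (c p) l k = p.m ^ l * k) ∧
  (∀ l, l ≤ 4 * p.b + 1 → ∀ k, k ≤ len p l → pos (c p) l k ≤ p.m ^ l * k) ∧
  (∀ l, l ≤ 4 * p.b + 1 → ∀ k k', k < k' → k' ≤ len p l → pos (c p) l k < pos (c p) l k')

/-- **S1** (counting in a system).  Proof: `Sc + Uc = y - x` (filter and its complement);
`q l y - q l x` is the sum over `x ≤ j < y` of the sizes `q l (j+1) - q l j ∈ [1, m]`, the
saturated nodes have size `m`, the others size at most `m - 1`; additivity of `card` of filters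
of `Ico`. -/
def St_S1 : Prop := ∀ (m g : ℕ) (S : Sys m g), 1 ≤ g → 2 * g ≤ m → ∀ l, l < S.H →
  (∀ x y, x ≤ y → y ≤ S.n (l + 1) →
    Sc m S.q l x y + Uc m S.q l x y = y - x ∧
    S.q l x + m * Sc m S.q l x y + Uc m S.q l x y ≤ S.q l y ∧
    S.q l y + Uc m S.q l x y ≤ S.q l x + m * (y - x) ∧ S.q l y ≤ S.n l) ∧
  (∀ x y z, x ≤ y → y ≤ z → Sc m S.q l x y + Sc m S.q l y z = Sc m S.q l x z ∧
    Uc m S.q l x y + Uc m S.q l y z = Uc m S.q l x z) ∧
  (∀ l, l ≤ S.H → 1 ≤ S.n l)

/-- **S2** (unsaturated nodes are few).  Let `l + 1 < H`.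
(a) a node `k` of level `l + 2` has at most `g` unsaturated children: `Uc ≤ 1 ≤ g`, or
`m - g ≤ Sc` and `Sc + Uc = size ≤ m`.
(b) `m Uc ≤ m (k₂ - k₁) + 2 g (size)` for the children of the nodes `k₁ ≤ k < k₂`: for one node
either `Uc ≤ 1`, or `Uc ≤ g` and `size ≥ Sc ≥ m - g ≥ m / 2`; sum over `k`.
(c) for any interval `x ≤ y ≤ n (l+1)`: `Uc ≤ 2 g + Sc`.  A node `k` of level `l + 2` whose
children all lie in `[x, y)` has `Uc ≤ Sc` (if `Uc ≤ 1` use `s_pos`, otherwise
`Uc ≤ g ≤ m - g ≤ Sc`); the children of at most two further nodes meet `[x, y)` (those which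
contain `x` and `y - 1`), each with `Uc ≤ g`.  Formally: let `k₁` be the greatest `k` with
`q (l+1) k ≤ x` and prove by induction on `k ≥ k₁` that
`Uc x (q (l+1) k) ≤ g + Sc x (q (l+1) k)`, then add the last incomplete node. -/
def St_S2 : Prop := ∀ (m g : ℕ) (S : Sys m g), 1 ≤ g → 2 * g ≤ m → ∀ l, l + 1 < S.H →
  (∀ k, k < S.n (l + 2) → Uc m S.q l (S.q (l + 1) k) (S.q (l + 1) (k + 1)) ≤ g) ∧
  (∀ k₁ k₂, k₁ ≤ k₂ → k₂ ≤ S.n (l + 2) →
    m * Uc m S.q l (S.q (l + 1) k₁) (S.q (l + 1) k₂) ≤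
      m * (k₂ - k₁) + 2 * g * (S.q (l + 1) k₂ - S.q (l + 1) k₁)) ∧
  (∀ x y, x ≤ y → y ≤ S.n (l + 1) → Uc m S.q l x y ≤ 2 * g + Sc m S.q l x y)

/-- **S3** (leaves).  `pos q l` is strictly increasing on `k ≤ n l`, a node of level `l` has at
most `m ^ l` and at least `m ^ (l / 2)` leaves, and `pos q l (n l) = n 0`, `pos q l 0 = 0`.
Proof: induction on `l`.  Upper bound: `size ≤ m`.  Lower bound: a node of level `l + 2` has a
saturated child (`s_pos`), which has `m` children of level `l`; level `0`, `1`: at least one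
leaf. -/
def St_S3 : Prop := ∀ (m g : ℕ) (S : Sys m g), 1 ≤ g → 2 * g ≤ m →
  ∀ l, l ≤ S.H →
    pos S.q l 0 = 0 ∧ pos S.q l (S.n l) = S.n 0 ∧
    (∀ k k', k ≤ k' → k' ≤ S.n l →
      pos S.q l k' ≤ pos S.q l k + m ^ l * (k' - k) ∧
      pos S.q l k + m ^ (l / 2) * (k' - k) ≤ pos S.q l k')

/-- **S4** (the comparison maps).  `h0 : S.n 0 = len p 0 + 1`.  For `l ≤ H`, `l ≤ 4 b`:
`f l` is monotone on `k ≤ n l`, `f l 0 = 0`, `f l (n l) = len l`; and for `l < H`, `l + 1 ≤ 4 b`
and `k ≤ n (l+1)`: `c l (f (l+1) k) ≤ ph l k`, and `ph l k < c l (f (l+1) k + 1)` if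
`f (l+1) k < len (l+1)`.
Proof: induction on `l` with W1, W2 (`f 0 j = j - 1`, `f (l+1) k = par l (ph l k)`,
`par l (len l) = par l (c l (len (l+1))) = len (l+1)`, `q l` monotone).  The last
clauses: `ph l k ≤ len l`, and the leaf position: `pos (c p) l (f l k) + 1 ≤ pos q l k` if
`1 ≤ pos q l k`, and `pos q l k < pos (c p) l (f l k + 1) + 1` if `f l k < len l`. -/
def St_S4 : Prop := ∀ (p : Par) (S : Sys p.m p.g), p.Ok → S.n 0 = len p 0 + 1 →
  ∀ l, l ≤ S.H → l ≤ 4 * p.b →
    f p S.q l 0 = 0 ∧ f p S.q l (S.n l) = len p l ∧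
    (∀ x y, x ≤ y → y ≤ S.n l → f p S.q l x ≤ f p S.q l y ∧ f p S.q l y ≤ len p l) ∧
    (∀ k, k ≤ S.n l → 1 ≤ pos S.q l k → pos (c p) l (f p S.q l k) + 1 ≤ pos S.q l k) ∧
    (∀ k, k ≤ S.n l → f p S.q l k < len p l →
      pos S.q l k < pos (c p) l (f p S.q l k + 1) + 1) ∧
    (∀ l', l = l' + 1 →
      (∀ k, k ≤ S.n l → c p l' (f p S.q l k) ≤ ph p S.q l' k ∧
        (f p S.q l k < len p l → ph p S.q l' k < c p l' (f p S.q l k + 1)) ∧
        ph p S.q l' k ≤ len p l') ∧
      (∀ x y, x ≤ y → y ≤ S.n l → ph p S.q l' x ≤ ph p S.q l' y) ∧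
      ph p S.q l' 0 = 0 ∧ ph p S.q l' (S.n l) = len p l')

end DMS
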