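import Pool.Agent.DMS.StA

/-!
# DMS, statements B: events and what they cost

`m = p.m`, `g = p.g`, `b = p.b`, `a = m / 2`.  Context `Cx`: `p.Ok` and the system `S` has one
leaf more than the hard tree.  A cut of level `l + 1` is a number `x ≤ S.n (l + 1)`; node `x` lies
between the cuts `x` and `x + 1`.  `f = f p S.q`, `ph = ph p S.q`, `c = c p`.
Facts W1-W7, S1-S4 are in `StA`.
-/

namespace DMS

/-- The context of the core part. -/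
def Cx (p : Par) (S : Sys p.m p.g) : Prop := p.Ok ∧ S.n 0 = len p 0 + 1

/-- **B1** (window of a tight cut).  Let `t` be a tight cut of level `l + 1` and `x = X l t`.
Proof.  `X` is a `findGreatest`; `ph l` is monotone on `y ≤ n (l+1)` (S4), `ph l 0 = 0`, and
`ph l (n (l+1)) = len l ≥ c l t + m / 2` (node `t < len (l+1)` has at least `m/2` children, W1,
W2), so `x < n (l+1)`, the property holds at `x` and not at `x + 1`.  If `x` is not pinned then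
`ph l x + 21 g < c l t`, and this is `OV`.
If `y` is pinned at `t`: `f (l+1) y + 1 < t` would give
`ph l y < c l (f (l+1) y + 1) ≤ c l (t - 1) ≤ c l t - m/2`, and `f (l+1) y > t` would give
`ph l y ≥ c l (t + 1) ≥ c l t + m/2`; both contradict `Pin` (`m ≥ 10000 g`). -/
def St_B1 : Prop := ∀ (p : Par) (S : Sys p.m p.g), Cx p S → ∀ l, l < S.H → l + 1 ≤ 4 * p.b →
  ∀ t, Tight p (l + 1) t →
    X p S.q S.n l t < S.n (l + 1) ∧
    ph p S.q l (X p S.q S.n l t) < c p l t + 21 * p.g + 6 ∧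
    c p l t + 21 * p.g + 6 ≤ ph p S.q l (X p S.q S.n l t + 1) ∧
    (∀ y, y ≤ S.n (l + 1) → ph p S.q l y < c p l t + 21 * p.g + 6 → y ≤ X p S.q S.n l t) ∧
    (OV p S.q l (X p S.q S.n l t) t ∨ Pin p S.q l (X p S.q S.n l t) t) ∧
    ∀ y, y ≤ S.n (l + 1) → Pin p S.q l y t →
      t ≤ f p S.q (l + 1) y + 1 ∧ f p S.q (l + 1) y ≤ t ∧ y ≤ X p S.q S.n l t

/-- **B2** (short step).  Let `x < y` be cuts of level `l + 1` with `f y ≤ f x + 12`.  Then `D`, or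
`y - x ≤ (f y - f x) + 2 Uc + 2`.
Proof.  Put `n = f y - f x`, `C = ph y - ph x`, `C' = q y - q x`, `U = Uc`, `Sc = y - x - U`.
`C ≤ m (n + 1)` (S4, W2: `ph x ≥ c (f x)` and `ph y ≤ c (f y + 1)` or `ph y ≤ len`),
`C' ≥ m Sc + U` (S1).  If `y - x = n + 2 U + 2 + d`, `d ≥ 1`, then
`49 C' - 51 C ≥ 49 m (n + U + 2 + d) - 51 m (n + 1) ≥ 49 m (U + d) + 23 m`
(`n ≤ 12`) and `4400 (y - x) ≤ 4400 (14 + 2 U + d)`; with `m ≥ 10000` this gives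
`50 (C' - C) ≥ C + C' + 4400 (y - x)`. -/
def St_B2 : Prop := ∀ (p : Par) (S : Sys p.m p.g), Cx p S → ∀ l, l < S.H → l + 1 ≤ 4 * p.b →
  ∀ x y, x < y → y ≤ S.n (l + 1) → f p S.q (l + 1) y ≤ f p S.q (l + 1) x + 12 →
    D p S.q l x y ∨
      y - x + f p S.q (l + 1) x ≤ f p S.q (l + 1) y + 2 * Uc p.m S.q l x y + 2

/-- **B3** (big nodes).  A node `x` of level `l + 1` with `f (x+1) ≥ f x + 4`, or which covers the
windows of two tight cuts, is a `D` event.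
Proof.  `C' ≤ m`.  First case: `C = ph (x+1) - ph x ≥ c (f (x+1)) - c (f x + 1) ≥ 3 (m/2)`.
Second case: `t + 2 ≤ t'` (since `V (t' - 1) = R` and `V t` is `L` or `U`), and between `t` and
`t + 2` there is at most one letter (W6), so
`C ≥ c t' - c t ≥ c (t + 2) - c t ≥ m + m / 2`.  So `C ≥ 1.4 m` and
`49 C ≥ 51 m + 4400`. -/
def St_B3 : Prop := ∀ (p : Par) (S : Sys p.m p.g), Cx p S → ∀ l, l < S.H → l + 1 ≤ 4 * p.b →
  ∀ x, x < S.n (l + 1) →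
    (f p S.q (l + 1) x + 4 ≤ f p S.q (l + 1) (x + 1) → D p S.q l x (x + 1)) ∧
    ∀ t t', t < t' → OV p S.q l x t → OV p S.q l x t' → D p S.q l x (x + 1)

/-- **B4** (exact step).  Let `t < t' ≤ t + 3` be tight cuts of level `l + 1`, `x`, `y` cuts of
level `l + 1` pinned at `t`, `t'`.  Then `x < y`, and `D` or `t' - t ≤ y - x ≤ t' - t + 2 Uc`.
Proof.  `ph x < c t + 21 g + 6 ≤ c t' - 21 g ≤ ph y`, so `x < y`.  Put `n = t' - t ≤ 3`; by W6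
`c t' - c t = m n - (m - a) e` with `e ≤ 1`; `C = c t' - c t ± (42 g + 6)`.
Lower bound: if `y - x ≤ n - 1` then `C' ≤ m (n - 1)`, `C ≥ m (n - 1) + a - (42 g + 6)`, and
`49 C - 51 C' ≥ 49 (a - 42 g - 6) - 2 m (n-1) ≥ 4400 * 2`.
Upper bound: let `U = Uc`, `y - x - U = Sc = n + z`, `z ≥ U + 1`; `C' ≥ m (n + z)`,
`C ≤ m n + 42 g + 6`, `49 C' - 51 C ≥ 49 m z - 2 m n - 51 (42 g + 6)`, and
`4400 (y - x) ≤ 4400 (n + 2 z)`. -/
def St_B4 : Prop := ∀ (p : Par) (S : Sys p.m p.g), Cx p S → ∀ l, l < S.H → l + 1 ≤ 4 * p.b →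
  ∀ t t' x y, Tight p (l + 1) t → Tight p (l + 1) t' → t < t' → t' ≤ t + 3 →
    x ≤ S.n (l + 1) → y ≤ S.n (l + 1) → Pin p S.q l x t → Pin p S.q l y t' →
    x < y ∧ (D p S.q l x y ∨
      (t' - t ≤ y - x ∧ y - x ≤ t' - t + 2 * Uc p.m S.q l x y))

/-- **B5** (number of saturated nodes in an exact step).  Hypotheses of B4 and `l + 1 < H`.
Then `D`, or `Sc + Lc t t' ≤ t' - t`.
Proof.  Let `e = Lc (l+1) t t' ≤ 1`, `B = t' - t - e`, `Sc = B + z` and suppose `z ≥ 1`.  By W6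
`c t' - c t = m B + a e`, so `C ≤ m B + a e + 42 g + 6`; `C' ≥ m (B + z)`; `Uc ≤ 2 g + Sc`
(S2).  `49 C' - 51 C ≥ 49 m z - 2 m B - 51 a e - 51 (42 g + 6)
≥ (49 z - 31.5) m - 51 (42 g + 6)` and
`4400 (y - x) ≤ 4400 (2 (3 + z) + 2 g)`, `m ≥ 10000 g`. -/
def St_B5 : Prop := ∀ (p : Par) (S : Sys p.m p.g), Cx p S → ∀ l, l + 1 < S.H →
  l + 1 ≤ 4 * p.b → ∀ t t' x y, Tight p (l + 1) t → Tight p (l + 1) t' → t < t' →
    t' ≤ t + 3 → x ≤ S.n (l + 1) → y ≤ S.n (l + 1) → Pin p S.q l x t → Pin p S.q l y t' →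
    D p S.q l x y ∨ Sc p.m S.q l x y + Lc p (l + 1) t t' ≤ t' - t

/-- **B6** (a letter among saturated nodes).  Let `t < t' ≤ t + 8` be tight cuts of level `l + 1`
with exactly one letter between them, `x`, `y` pinned at `t`, `t'`, and all nodes of the system
between `x` and `y` saturated.  Then `x < y` and `D`.
Proof.  `n = t' - t`, `k = y - x ≥ 1`, `C' = m k`, `C = m (n - 1) + a ± (42 g + 6)` (W6).  If
`k ≤ n - 1` then `49 C - 51 C' ≥ 49 (a - 42 g - 6) - 2 m (n - 1) ≥ 10 m - 2500 g - 400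
≥ 4400 * 7 ≥ 4400 k`.  If `k ≥ n` then
`49 C' - 51 C - 4400 k` increases with `k` and is for `k = n` at least
`49 m - 2 m (n - 1) - 51 (a + 42 g + 6) - 4400 * 8 ≥ 9 m - 2500 g - 36000 ≥ 0`. -/
def St_B6 : Prop := ∀ (p : Par) (S : Sys p.m p.g), Cx p S → ∀ l, l < S.H → l + 1 ≤ 4 * p.b →
  ∀ t t' x y, Tight p (l + 1) t → Tight p (l + 1) t' → t < t' → t' ≤ t + 8 →
    Lc p (l + 1) t t' = 1 → x ≤ S.n (l + 1) → y ≤ S.n (l + 1) →
    Pin p S.q l x t → Pin p S.q l y t' → Uc p.m S.q l x y = 0 →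
    x < y ∧ D p S.q l x y

/-- **B7** (pigeonhole).  Let `J + 21 i`, `i ≤ g`, be letters of level `l + 1`, and for
each `i ≤ g` let `xs i`, `ys i` be cuts pinned at tight cuts `zs i ∈ [J + 21 i - 3, J + 21 i]`
and `ws i ∈ [J + 21 i + 1, J + 21 i + 5]`; let `x₀ ≤ xs i`, `ys i ≤ x₁` and
`Uc x₀ x₁ ≤ g`.  Then for some `i ≤ g`: `Uc (xs i) (ys i) = 0` and `D (xs i) (ys i)`.
Proof.  `ph (ys i) < c (ws i) + 21 g + 6 ≤ c (zs (i+1)) - 21 g ≤ ph (xs (i+1))`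
(`ws i + 1 ≤ zs (i+1)`, W2), so `ys i < xs (i+1)`; similarly `xs i < ys i`.  By induction
`∑_{i ≤ j} Uc (xs i) (ys i) ≤ Uc x₀ (ys j)` (S1).  If all `g + 1` numbers were positive,
`Uc x₀ x₁ ≥ g + 1`.  For the `i` with `Uc = 0` use B6: between `zs i` and `ws i` there is
exactly one letter (`J + 21 i`; the spacing of W4 excludes a second one: W6). -/
def St_B7 : Prop := ∀ (p : Par) (S : Sys p.m p.g), Cx p S → ∀ l, l < S.H → l + 1 ≤ 4 * p.b →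
  ∀ (J x₀ x₁ : ℕ) (xs ys zs ws : ℕ → ℕ), x₁ ≤ S.n (l + 1) → x₀ ≤ x₁ →
    (∀ i, i ≤ p.g → V p (l + 1) (J + 21 * i) = .U ∧
      Tight p (l + 1) (zs i) ∧ Tight p (l + 1) (ws i) ∧
      J + 21 * i ≤ zs i + 3 ∧ zs i ≤ J + 21 * i ∧ J + 21 * i + 1 ≤ ws i ∧
      ws i ≤ J + 21 * i + 5 ∧ Pin p S.q l (xs i) (zs i) ∧ Pin p S.q l (ys i) (ws i) ∧
      x₀ ≤ xs i ∧ ys i ≤ x₁ ∧ xs i ≤ S.n (l + 1) ∧ ys i ≤ S.n (l + 1)) →
    Uc p.m S.q l x₀ x₁ ≤ p.g →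
    ∃ i, i ≤ p.g ∧ xs i < ys i ∧ Uc p.m S.q l (xs i) (ys i) = 0 ∧
      D p S.q l (xs i) (ys i)

/-! ## The three claims -/

/-- overlap events of level `l + 2` cost `2 ^ l`. -/
def CO (p : Par) (S : Sys p.m p.g) (l : ℕ) : Prop :=
  ∀ x t, x < S.n (l + 2) → OV p S.q (l + 1) x t → 2 ^ l ≤ F p S.q (l + 1) x (x + 1)

/-- discrepancy events of level `l + 2` in the right part cost `2 ^ l` times their weight. -/
def CD (p : Par) (S : Sys p.m p.g) (l : ℕ) : Prop :=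
  ∀ x y, x < y → y ≤ S.n (l + 2) → K p (l + 2) ≤ f p S.q (l + 2) x → D p S.q (l + 1) x y →
    2 ^ l * ((ph p S.q (l + 1) y - ph p S.q (l + 1) x) +
      (S.q (l + 1) y - S.q (l + 1) x) + p.m * (y - x)) ≤ p.m * F p S.q (l + 1) x y

/-- nodes of level `l + 2` which start in the left part and cover many nodes of the right
part. -/
def CS (p : Par) (S : Sys p.m p.g) (l : ℕ) : Prop :=
  ∀ x, x < S.n (l + 2) → f p S.q (l + 2) x < K p (l + 2) →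
    2 ^ l * f p S.q (l + 2) (x + 1) ≤
      2 * F p S.q (l + 1) x (x + 1) + 2 ^ l * (K p (l + 2) + 8)

/-- **B8** (base of CO).  `2 ≤ H`.  Let node `x` of level `2` cover the window of `t`,
`x₀ = q 1 x`, `x₁ = q 1 (x+1)`; `F 1 x (x+1) = nw x₀ x₁`.  Suppose `nw x₀ x₁ = 0`: every node
`j`, `x₀ ≤ j < x₁`, of level `1` is `Exact`, with `k` say; then `f 1 j = k`
(`par 0 (c 0 k) = k`, W2) and `f 1 (j+1) = k + 1`, hence `f 1 (x₀ + s) = f 1 x₀ + s` for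
`s ≤ x₁ - x₀`.  The letters `J + 21 i`, `J = c 1 t + 20 - 21 g`, `i ≤ g`, of level `1` (W5) lie
between `f 1 x₀` (`< c 1 t - 21 g`) and `f 1 x₁` (`≥ c 1 t + 21 g + 6`), so each of them is
`f 1 j` for a node `j`, `x₀ ≤ j < x₁`, and then
`ph 0 (j+1) - ph 0 j = c 0 (k+1) - c 0 k = m / 2`; since `ph 0 j = q 0 j - 1`
(and `q 0 j ≥ 1` since `f 1 j ≥ 1`... `k ≥ 1` gives `c 0 k ≥ 1`) the node `j` is unsaturated.
So `Uc 0 x₀ x₁ ≥ g + 1`, contradicting S2 (a). -/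
def St_B8 : Prop := ∀ (p : Par) (S : Sys p.m p.g), Cx p S → 2 ≤ S.H → CO p S 0

/-- **B9** (base of CD).  `2 ≤ H`.  Let `x < y ≤ n 2`, `x₀ = q 1 x`, `x₁ = q 1 y`,
`C' = x₁ - x₀`, `C = ph 1 y - ph 1 x = f 1 x₁ - f 1 x₀`, `F = nw x₀ x₁`, and `D`.
(1) `F ≥ C' - C`: an exact node `j` has `f 1 (j+1) = f 1 j + 1` (see B8), and `f 1` is monotone,
so there are at most `C` exact nodes.
(2) `C' ≥ C` (strictly smaller is impossible).  Leaves: `q 0 x₁ - q 0 x₀ ≤ m C'`.  If `C ≥ 1`: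
`ph 0 x₁ - ph 0 x₀ ≥ c 0 (f 1 x₁) - c 0 (f 1 x₀ + 1) = m (C - 1) - (m - a) e` with
`e ≤ (C - 1) / 21 + 1` letters (W6), and `ph 0 = q 0 - 1` (both positive since `K 2 ≤ f 2 x`).
So `m (C - C') ≤ m + (m - a) ((C - 1) / 21 + 1)`, i.e. `C - C' ≤ 1.6 + 0.03 C`, while `D` with
`C' < C` says `50 (C - C') ≥ C + C' + 4400`, i.e. `C - C' ≥ 88 + 0.02 (C + C')
≥ 88 + 0.0385 C - ...`; contradiction.
(3) `D` and `C' ≥ C` give `50 F ≥ 50 (C' - C) ≥ C + C' + 4400 (y - x)`, hence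
`m F ≥ (C + C') + m (y - x)` since `m ≥ 50`. -/
def St_B9 : Prop := ∀ (p : Par) (S : Sys p.m p.g), Cx p S → 2 ≤ S.H → CD p S 0

/-- **B10** (base of CS).  A node `x` of level `2` with `f 2 x < K 2` has `f 2 (x+1) ≤ K 2 + 8`.
Proof with leaf positions: let `k = f 2 (x+1)`.  By S4
`pos (c p) 2 k + 1 ≤ pos q 2 (x+1)` and `pos q 2 x < pos (c p) 2 (f 2 x + 1) + 1
≤ pos (c p) 2 (K 2) + 1`, and `pos q 2 (x+1) - pos q 2 x ≤ m ^ 2` (S3), so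
`pos (c p) 2 k < pos (c p) 2 (K 2) + m ^ 2`.  By W2 (twice)
`pos (c p) 2 k - pos (c p) 2 (K 2) ≥ (m / 2) (m / 2) (k - K 2)`; if `k - K 2 ≥ 9` this is at
least `9 (m/2)^2 ≥ m ^ 2`. -/
def St_B10 : Prop := ∀ (p : Par) (S : Sys p.m p.g), Cx p S → 2 ≤ S.H → CS p S 0

/-- **B11** (counting with tight cuts).  Assume `CO l`, `CD l` (`l + 2 ≤ H`, `l + 2 ≤ 4 b`).
Let `x ≤ x₁ ≤ n (l+2)` be cuts of level `l + 2` in the right part (`K (l+2) ≤ f (l+2) x`).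
With `λ = 2 ^ l`, `F = F (l+1)`, `f = f (l+2)`, `U = Uc (l+1)`:
`λ |(x₁ - x) - (f x₁ - f x)| ≤ 2 λ U x x₁ + 30 F x x₁ + 26 λ`.
Proof.  `F` and `U` are additive over intervals and `F x y ≥ 0`.  Prove by strong induction on
`x₁ - x` this statement `P* x` together with
`P x t`: if `x` is pinned at the tight cut `t` (of level `l + 2`) then
`λ |(x₁ - x) - (f x₁ - t)| ≤ 2 λ U x x₁ + 30 F x x₁ + 13 λ`.
*Steps.* (short) if `x < y`, `f y ≤ f x + 12` then by B2 and CD (whose conclusion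
`λ (C + C' + m (y - x)) ≤ m F` gives `λ (y - x) ≤ F x y`):
`λ |(y - x) - (f y - f x)| ≤ 2 λ U x y + F x y + λ max (f y - f x, 2)`.
(node) if node `y` is an overlap event, `λ ≤ F y (y+1)` by CO, and
`λ |1 - (f (y+1) - f y)| ≤ 4 F y (y+1)`: clear if `f (y+1) - f y ≤ 3`; otherwise `D` (B3) and
CD: `λ (m/2) (f (y+1) - f y - 1) ≤ λ C ≤ m F`.
(exact) if `x`, `y` are pinned at `t < t' ≤ t + 3` then by B4, CD:
`λ |(y - x) - (t' - t)| ≤ 2 λ U x y + 4 F x y` (in the case `D`: `λ (y - x) ≤ F`,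
`λ (t' - t) ≤ 3 λ ≤ 3 F`).
*P x t.*  `f x ∈ {t-1, t}` (B1).  If `x = x₁` trivial.  If `f x₁ ≤ t + 3`: one short step.
Otherwise there is a tight cut `t₂ ∈ {t+2, t+3}` (W4, as `f x₁ ≤ len`), let `y = X t₂`; since
`ph x < c t₂ - 21 g` and `ph x₁ ≥ c (f x₁) ≥ c (t₂ + 1) ≥ c t₂ + 21 g + 6` we have
`x ≤ y < x₁`.  If `y` is pinned: exact step from `x` to `y`, then `P y t₂`.  If `OV y t₂`: short
step from `x` to `y` (if `x < y`; `f y ≤ t₂`, `≤ 4` nodes), node `y`, then `P* (y+1)`: the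
constants are
`λ + 4 λ + 26 λ` and `5 F x y + 4 F y (y+1)`, and `26 F y (y+1) ≥ 26 λ` pays for the
difference to `13 λ`.
*P* x.*  If `f x₁ ≤ f x + 5`: one short step.  Otherwise there is a tight cut
`t ∈ [f x + 2, f x + 4]` (W4 at `f x + 1 ≥ K`), `c t - 21 g > c (f x + 1) > ph x`, and
`c t + 21 g + 6 ≤ c (t + 1) ≤ c (f x₁) ≤ ph x₁`; `y = X t`, `x ≤ y < x₁`.  Pinned: short step from `x`
to `y`, then `P y t` (`|f y - t| ≤ 1`): `4 + 1 + 13 ≤ 26`.  `OV`: short step to `y`, node `y`,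
`P* (y+1)`; `26 F y (y+1) ≥ 26 λ` pays for the short step. -/
def St_B11 : Prop := ∀ (p : Par) (S : Sys p.m p.g), Cx p S → ∀ l, l + 2 ≤ S.H →
  l + 2 ≤ 4 * p.b → CO p S l → CD p S l →
  ∀ x x₁, x ≤ x₁ → x₁ ≤ S.n (l + 2) → K p (l + 2) ≤ f p S.q (l + 2) x →
    (2 : ℤ) ^ l * |((x₁ : ℤ) - x) - ((f p S.q (l + 2) x₁ : ℤ) - f p S.q (l + 2) x)| ≤
      2 * 2 ^ l * Uc p.m S.q (l + 1) x x₁ + 30 * F p S.q (l + 1) x x₁ + 26 * 2 ^ l

/-- **B12** (step for CD).  `CO l`, `CD l` imply `CD (l + 1)`.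
Proof.  Let `k₁ < k₂` be cuts of level `l + 3` with `D (l+2) k₁ k₂`; `x = q (l+2) k₁`,
`x₁ = q (l+2) k₂`, `C' = x₁ - x`, `C = ph (l+2) k₂ - ph (l+2) k₁ = f (l+2) x₁ - f (l+2) x`,
`k' = k₂ - k₁ ≥ 1`, `F (l+2) k₁ k₂ = F (l+1) x x₁` (definition of `Qd`).
`f (l+2) x = ph (l+2) k₁ ≥ c (l+2) (f (l+3) k₁) ≥ c (l+2) (K (l+3)) ≥ K (l+2)` (S4, W2, W3:
`c (l+2) (K (l+3)) = m K (l+3)`).  B11, `m U ≤ m k' + 2 g C'` (S2 (b)) and `D`:
`λ m (C + C' + 4400 k') ≤ 50 λ m |C' - C| ≤ 100 λ (m k' + 2 g C') + 1500 m F + 1300 λ m`, so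
`1500 m F ≥ λ ((m - 200 g) (C + C') + 3000 m k') ≥ 3000 λ (C + C' + m k')`, because
`m - 200 g ≥ 3000`. -/
def St_B12 : Prop := ∀ (p : Par) (S : Sys p.m p.g), Cx p S → ∀ l, l + 3 ≤ S.H →
  l + 3 ≤ 4 * p.b → CO p S l → CD p S l → CD p S (l + 1)

/-- **B13** (step for CO).  `CO l`, `CD l`, `CS l` imply `CO (l + 1)`.
Proof.  Let node `x` of level `l + 3` cover the window of `t` (tight of level `l + 3`),
`c₀ = c (l+2) t`, `x₀ = q (l+2) x`, `x₁ = q (l+2) (x+1)`: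
`f (l+2) x₀ + 21 g < c₀`, `c₀ + 21 g + 6 ≤ f (l+2) x₁`; `λ = 2 ^ l`.  We need
`F (l+1) x₀ x₁ ≥ 2 λ`.  Let `J = c₀ + 20 - 21 g`; the nodes `J + 21 i`, `i ≤ g` of level `l + 2` are
letters (W5), and W4 gives for each of them tight cuts `x₁ᵢ < x₂ᵢ` in `[J + 21 i - 3, J + 21 i]`
and `y₁ᵢ < y₂ᵢ` in `[J + 21 i + 1, J + 21 i + 5]`.  For a tight cut `z` of level `l + 2` with
`J - 3 ≤ z ≤ J + 21 g + 5 = c₀ + 25` we have
`ph x₀ < c (f x₀ + 1) ≤ c (z - 1) < c z - 21 g` and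
`c z + 21 g + 6 ≤ c (z + 1) ≤ c (f x₁) ≤ ph x₁`, so `x₀ ≤ X z < x₁` (B1), and `X z` is pinned
or `OV (X z) z`.
Case A: there are `z < z'` among these cuts with `OV (X z) z`, `OV (X z') z'`.
`X z ≤ X z'` by B1.  If `X z < X z'`: CO for the two nodes.  If `X z = X z' = w`: `D w (w+1)` by
B3.  If `f w ≥ K (l+2)`: CD gives
`λ (C + C' + m) ≤ m F w (w+1)` with `C ≥ m + m/2 - ...`: more precisely `C ≥ m`
(as in B3 `ph (w+1) - ph w ≥ m + m/2`), so `F ≥ 2 λ`.  If `f w < K (l+2)`: by CS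
`λ f (w+1) ≤ 2 F + λ (K + 8)` and `f (w+1) ≥ z' - 1 ≥ c₀ - 21 g ≥ K + m - 1 - 21 g ≥ K + 12`
(W5), so `F ≥ 2 λ`.
Case B: otherwise for each `i` at least one of `x₁ᵢ, x₂ᵢ` and at least one of `y₁ᵢ, y₂ᵢ` is
pinned (by `X`).  `Uc (l+1) x₀ x₁ ≤ g` (S2 (a)).  B7 gives a `D` event `u < v` with `Uc u v = 0`,
in the right part (`f u ≥ zs i - 1 ≥ K`), so by CD
`λ (C + C' + m (v - u)) ≤ m F u v` with `C' = m (v - u) ≥ m`, hence `F ≥ 2 λ`. -/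
def St_B13 : Prop := ∀ (p : Par) (S : Sys p.m p.g), Cx p S → ∀ l, l + 3 ≤ S.H →
  l + 3 ≤ 4 * p.b → CO p S l → CD p S l → CS p S l → CO p S (l + 1)

/-- **B14** (step for CS).  `CD l`, `CS l` imply `CS (l + 1)`.
Proof.  Let `x` be a node of level `l + 3` with `f (l+3) x < K (l+3)`, `o = f (l+3) (x+1) - K (l+3)`;
we may assume `o ≥ 9`.  Let `yl = q (l+2) x`, `y₁ = q (l+2) (x+1)`, `κ = c (l+2) (K (l+3)) =
m K (l+3) ≥ K (l+2)`; `f = f (l+2)`, `λ = 2 ^ l`, `F = F (l+1)`.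
`f y₁ = ph (l+2) (x+1) ≥ c (l+2) (K (l+3) + o) ≥ κ + (m/2) o`, and
`f yl = ph (l+2) x < c (l+2) (f (l+3) x + 1) ≤ κ`, so there is a least `y₀ ∈ [yl, y₁]` with
`K (l+2) ≤ f y₀`.  Put `A = 0` if `y₀ = yl`, otherwise `A = f y₀ - K (l+2)`; in the second
case `f (y₀ - 1) < K (l+2)` and CS gives `λ A ≤ 2 F (y₀-1) y₀ + 8 λ`.  In both cases
`A + (f y₁ - f y₀) ≥ (m/2) o`.  Let `N = f y₁ - f y₀`.
If `N ≥ 4 m`: then `y₀ < y₁`; the interval `y₀, y₁` has `C' ≤ m (y₁ - y₀) ≤ m ^ 2`,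
`C ≥ (m/2) (N - 1) ≥ (m/2) (4 m - 1)`, so it is a `D` event of level `l + 2` and CD gives
`λ (m/2) (N - 1) ≤ m F y₀ y₁`, hence `2 m F y₀ y₁ ≥ λ (m - 1) (N - 1)` (`2 (m/2) ≥ m - 1`).  So
`2 m F ≥ λ ((m - 1) (N - 1) + m (A - 8)) ≥ λ ((m - 1) (N + A) - 9 m) ≥
λ ((m - 1) (m/2) o - 9 m) ≥ 2 λ m (o - 8)`.
If `N < 4 m`: `A ≥ (m/2) o - 4 m`, `2 F ≥ λ (A - 8) ≥ λ ((m/2) o - 4 m - 8) ≥ 2 λ (o - 8)` since
`o ≥ 9`.  (`F` over `x` is at least the sum of the two parts.) -/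
def St_B14 : Prop := ∀ (p : Par) (S : Sys p.m p.g), Cx p S → ∀ l, l + 3 ≤ S.H →
  l + 3 ≤ 4 * p.b → CD p S l → CS p S l → CS p S (l + 1)

/-- **B15** (all claims).  Induction from B8, B9, B10, B12, B13, B14. -/
def St_B15 : Prop := ∀ (p : Par) (S : Sys p.m p.g), Cx p S → ∀ l, l + 2 ≤ S.H →
  l + 2 ≤ 4 * p.b → CO p S l ∧ CD p S l ∧ CS p S l

end DMS
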