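import Pool.Agent.DMS.StD

/-!
# DMS, statement E: dense trees exist for every list of keys

This shows that the lower bound of `St_MAIN` is not vacuous.
-/

namespace DMS

/-- **E1** (dense trees exist).  Every list of keys is the inorder list of a tree which satisfies
`Wf` and whose root has at least two children (or is a leaf).

Proof.  The number of leaves of the tree is `L = |K| + 1`.  For a height `h` write
`P h L` : for every list `K` with `|K| + 1 = L` there is `t` with `Wf m r h t`, `sat m t = true` and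
`inorder h t = K`; and
`Q h L` : the same without `sat m t = true`.

*Forests.*  Let `s` be a list of sizes, `s ≠ []`, with `P h s_i` for all `i`, and let `|K| + 1 = s.sum`.
Then there are `ks`, `cs` with `ks.length + 1 = cs.length = s.length`, all `c ∈ cs` satisfy `Wf m r h c`
and `sat m c`, and `weave ks (cs.map (inorder h)) = K`.  Induction on `s`: `s = [a]`: `K` itself
(`ks = []`); `s = a :: s'`: the first `a - 1` keys, then one separating key, then the rest
(`|rest| + 1 = s'.sum`; every `P h s_i` can be used only if `s_i ≥ 1`, which holds because we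
may assume `1 ≤ s_i`, as a hypothesis).  In the same way with one more child `u` at the END, with
`Q h u` instead of `P h u` (put it last: `s ++ [u]`).

*Nodes.*  If `2 ≤ j ≤ m`, `s` is a list of `j - 1` sizes `≥ 1` with `P h s_i` and `Q h u`, `1 ≤ u`, then
`Q (h+1) (s.sum + u)` by a tree with `j` children: the only possibly unsaturated child
is the last one, it has a brother and all its brothers are saturated.  If `j = m` this
tree is saturated, so `P (h+1) (s.sum + u)`.  One child: if `P h a` then `Q (h+1) a` (a unary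
node with a saturated child, `2 ≤ m`).

*Claim.*  For `1 ≤ h`: (a) `P h L` for `m^h - m^(h-1) + 1 ≤ L ≤ m^h`; (b) `Q h L` for
`m^(h-1) ≤ L ≤ m^h`; (c) for `m^(h-1) + 1 ≤ L ≤ m^h` the tree can be chosen with at least two
children.  Also `P 0 1` (the leaf).
`h = 1`: `L` leaves, all children are leaves (`sat`), `1 ≤ L ≤ m`; saturated iff `L = m`.
Step from `h` to `h + 1`: for `m^h + 1 ≤ L ≤ m^(h+1)` let `j` be such that
`(j-1) m^h < L ≤ j m^h`, so `2 ≤ j ≤ m`, and `u₀ = L - (j-1) m^h`, `1 ≤ u₀ ≤ m^h`.  If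
`m^(h-1) ≤ u₀` take the sizes `m^h` (`j - 1` times) and `u = u₀` (by (b)).  Otherwise
take `m^h - (m^(h-1) - u₀)` (by (a), it is at least `m^h - m^(h-1) + 1`), `m^h` (`j - 2` times),
and `u = m^(h-1)` (by (b)).  This is (c), hence (b) except for `L = m^h`, which is a unary
node over a tree of (a).  For (a): `L ≥ m^(h+1) - m^h + 1` gives `j = m`.
*End.*  `K = []`: the leaf, `h = 0`.  `|K| + 1 = L ≥ 2`: choose `h ≥ 1` with
`m^(h-1) < L ≤ m^h` and use (c). -/
def St_E1 : Prop := ∀ (m r : ℕ), 2 ≤ m → ∀ K : List ℕ,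
  ∃ (h : ℕ) (t : Tree), Wf m r h t ∧ inorder h t = K ∧ (h = 0 ∨ 2 ≤ t.kids.length)

/-- The final statement: dense trees exist for every finite set of keys, and insertion can force
`N ^ c` new nodes. -/
def St_FIN : Prop := ∀ m r : ℕ, r < m → 10000 * (m - r) ≤ m →
  (∀ S : Finset ℕ, ∃ (h : ℕ) (T : Tree), IsDense m r h T ∧ ∀ k, k ∈ inorder h T ↔ k ∈ S) ∧
  ∃ c : ℝ, 0 < c ∧ ∀ N₀ : ℕ, ∃ (h : ℕ) (T : Tree) (x : ℕ),
    IsDense m r h T ∧ N₀ ≤ (inorder h T).length ∧ x ∉ inorder h T ∧
    ∀ (h' : ℕ) (T' : Tree), IsDense m r h' T' →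
      (∀ k, k ∈ inorder h' T' ↔ k = x ∨ k ∈ inorder h T) →
      ((inorder h T).length : ℝ) ^ c ≤ newNodes h T h' T'

/-- assembly of the final statement (`Finset.sort`). -/
theorem fin_of (hE : St_E1) (hM : St_MAIN) : St_FIN := by
  intro m r hr hm
  refine ⟨fun S => ?_, hM m r hr hm⟩
  obtain ⟨h, t, h1, h2, h3⟩ := hE m r (by omega) (S.sort (· ≤ ·))
  refine ⟨h, t, ⟨h1, ?_, h3⟩, ?_⟩
  · rw [h2]
    exact (S.sortedLT_sort).pairwise
  · intro k
    rw [h2]
    exact Finset.mem_sort _

end DMS
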