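import Pool.Agent.DMS.StA

namespace DMS

theorem flatMap_len {α β : Type} (w : List α) (h : α → List β) :
    (w.flatMap h).length = (w.map fun a => (h a).length).sum := by
  rw [List.length_flatMap]

theorem flatMap_get {α β : Type} (h : α → List β) (d : β) : ∀ (w : List α) (k : ℕ) (a : α),
    w[k]? = some a → ∀ s, s < (h a).length →
    (w.flatMap h).getD (((w.take k).map fun a => (h a).length).sum + s) d = (h a).getD s d := by
  intro w
  induction w with
  | nil => intro k a hk; simp at hk
  | cons x xs ih =>
    intro k a hk s hs
    cases k with
    | zero =>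
      simp only [List.getElem?_cons_zero, Option.some.injEq] at hk
      subst hk
      simp only [List.take_zero, List.map_nil, List.sum_nil, zero_add, List.flatMap_cons]
      rw [List.getD_append _ _ _ _ hs]
    | succ k =>
      simp only [List.getElem?_cons_succ] at hk
      have h1 := ih k a hk s hs
      simp only [List.take_succ_cons, List.map_cons, List.sum_cons, List.flatMap_cons]
      rw [List.getD_append_right _ _ _ _ (by omega)]
      rw [← h1]
      congr 1
      omega

theorem word_succ (p : Par) {l : ℕ} (hl : l ≤ 4 * p.b) :
    word p l = (word p (l + 1)).flatMap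
      fun τ => (List.range (sz p τ)).map (ch p l τ) := by
  unfold word
  have h1 : 4 * p.b + 1 - l = (4 * p.b - l) + 1 := by omega
  have h2 : 4 * p.b + 1 - (l + 1) = 4 * p.b - l := by omega
  rw [h1, h2, W]
  have h3 : 4 * p.b - (4 * p.b - l) = l := by omega
  rw [h3]

theorem thm_W1 : St_W1 := by
  intro p
  refine ⟨?_, ?_, ?_⟩
  · simp [len, word, W]
  · simp [V, word, W]
  intro l hl
  have hw := word_succ p hl
  have hlen : ∀ τ, ((List.range (sz p τ)).map (ch p l τ)).length = sz p τ := by
    intro τ; simp
  refine ⟨by simp [c], ?_, ?_, ?_⟩
  · intro k hk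
    unfold c V
    rw [List.take_add_one]
    have : (word p (l + 1))[k]? = some ((word p (l + 1)).getD k .C) := by
      unfold len at hk
      rw [List.getD_eq_getElem _ _ hk, List.getElem?_eq_getElem hk]
    rw [this]
    simp
  · unfold len c
    rw [hw, flatMap_len]
    simp
  · intro k hk s hs
    unfold len at hk
    have hget : (word p (l + 1))[k]? = some (V p (l + 1) k) := by
      unfold V
      rw [List.getD_eq_getElem _ _ hk, List.getElem?_eq_getElem hk]
    have h1 := flatMap_get (fun τ => (List.range (sz p τ)).map (ch p l τ)) Ty.C
      (word p (l + 1)) k (V p (l + 1) k) hget s (by simpa using hs)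
    have h2 : V p l (c p l k + s) = (word p l).getD (c p l k + s) .C := rfl
    rw [h2, hw]
    have h3 : c p l k = (((word p (l + 1)).take k).map
        fun a => ((List.range (sz p a)).map (ch p l a)).length).sum := by
      unfold c
      simp
    rw [h3, h1]
    rw [List.getD_eq_getElem _ _ (by simpa using hs)]
    simp

end DMS
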