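import Pool.Agent.DMS.Basic

namespace DMS

/-- local structure of a word. -/
def WN (p : Par) (l : ℕ) (τ : Ty) (s : ℕ) : Prop :=
  (ch p l τ s = .R → ch p l τ (s + 1) = .L ∨ ch p l τ (s + 1) = .U) ∧
  (ch p l τ s = .L → ch p l τ (s + 1) = .R ∨
    (ch p l τ (s + 1) = .U ∧ s + 3 < sz p τ ∧ ch p l τ (s + 2) = .R ∧ ch p l τ (s + 3) = .L) ∨
    (ch p l τ (s + 1) = .L ∧ s + 3 < sz p τ ∧ ch p l τ (s + 2) = .R ∧
      (ch p l τ (s + 3) = .L ∨ ch p l τ (s + 3) = .U))) ∧
  (ch p l τ s = .U → s + 3 < sz p τ ∧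
    ((ch p l τ (s + 1) = .R ∧ ch p l τ (s + 2) = .L) ∨
     (ch p l τ (s + 1) = .L ∧ ch p l τ (s + 2) = .R ∧ ch p l τ (s + 3) = .L)))

theorem alt_R {s : ℕ} (h : s % 2 = 0) : alt s = .R := by simp [alt, h]
theorem alt_L {s : ℕ} (h : s % 2 = 1) : alt s = .L := by simp [alt, h]
theorem lb_U {s : ℕ} (h : s % 21 = 20) : lb s = .U := by simp [lb, h]
theorem lb_R {s : ℕ} (h : s % 21 ≠ 20) (h' : (s % 21) % 2 = 0) : lb s = .R := by
  simp [lb, h, h']
theorem lb_L {s : ℕ} (h' : (s % 21) % 2 = 1) : lb s = .L := by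
  unfold lb; rw [if_neg (by omega), if_neg (by omega)]
theorem rb_U {s : ℕ} (h : s % 21 = 0) : rb s = .U := by simp [rb, h]
theorem rb_L {s : ℕ} (h : s % 21 ≠ 0) (h' : (s % 21) % 2 = 0) : rb s = .L := by
  simp [rb, h, h']
theorem rb_R {s : ℕ} (h' : (s % 21) % 2 = 1) : rb s = .R := by
  unfold rb; rw [if_neg (by omega), if_pos h']

theorem alt_ne_U (s : ℕ) : alt s ≠ .U := by
  rcases alt_cases s with h | h <;> simp [h]

theorem WN_L (p : Par) (hok : p.Ok) (l s : ℕ) (hs : s + 1 < p.m) : WN p l .L s := by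
  obtain ⟨hg, hm, hb⟩ := hok
  have hsz : sz p .L = p.m := rfl
  unfold WN
  simp only [ch_L, hsz]
  rcases Nat.lt_or_ge s (21 * p.g) with h | h
  · -- in the blocks
    simp only [if_pos h]
    rcases lb_cases s with ⟨h1, h2⟩ | ⟨h1, h1', h2⟩ | ⟨h1, h2⟩
    · refine ⟨by simp [h2], by simp [h2], fun _ => ⟨by omega, Or.inl ?_⟩⟩
      rcases Nat.lt_or_ge (s + 1) (21 * p.g) with h3 | h3
      · rw [if_pos h3, if_pos (by omega)]
        exact ⟨lb_R (by omega) (by omega), lb_L (by omega)⟩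
      · rw [if_neg (by omega), if_neg (by omega)]
        exact ⟨alt_R (by omega), alt_L (by omega)⟩
    · refine ⟨fun _ => ?_, by simp [h2], by simp [h2]⟩
      left
      rw [if_pos (by omega)]
      exact lb_L (by omega)
    · refine ⟨by simp [h2], fun _ => ?_, by simp [h2]⟩
      rw [if_pos (by omega : s + 1 < 21 * p.g)]
      by_cases h3 : (s + 1) % 21 = 20
      · right; left
        refine ⟨lb_U h3, by omega, ?_⟩
        rcases Nat.lt_or_ge (s + 2) (21 * p.g) with h4 | h4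
        · rw [if_pos h4, if_pos (by omega)]
          exact ⟨lb_R (by omega) (by omega), lb_L (by omega)⟩
        · rw [if_neg (by omega), if_neg (by omega)]
          exact ⟨alt_R (by omega), alt_L (by omega)⟩
      · left
        exact lb_R h3 (by omega)
  · simp only [if_neg (by omega : ¬ s < 21 * p.g), if_neg (by omega : ¬ s + 1 < 21 * p.g)]
    rcases alt_cases (s - 21 * p.g) with ⟨h1, h2⟩ | ⟨h1, h2⟩
    · refine ⟨fun _ => Or.inl (alt_L (by omega)), by simp [h2], by simp [h2]⟩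
    · refine ⟨by simp [h2], fun _ => Or.inl (alt_R (by omega)), by simp [h2]⟩

theorem WN_U (p : Par) (hok : p.Ok) (l s : ℕ) (hs : s + 1 < p.m / 2) : WN p l .U s := by
  obtain ⟨hg, hm, hb⟩ := hok
  have hsz : sz p .U = p.m / 2 := rfl
  unfold WN
  simp only [ch_U, hsz]
  rcases Nat.lt_or_ge s 21 with h | h
  · simp only [if_pos h]
    rcases lb_cases s with ⟨h1, h2⟩ | ⟨h1, h1', h2⟩ | ⟨h1, h2⟩
    · refine ⟨by simp [h2], by simp [h2], fun _ => ⟨by omega, Or.inl ?_⟩⟩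
      rw [if_neg (by omega), if_neg (by omega)]
      exact ⟨alt_R (by omega), alt_L (by omega)⟩
    · refine ⟨fun _ => ?_, by simp [h2], by simp [h2]⟩
      left
      rw [if_pos (by omega)]
      exact lb_L (by omega)
    · refine ⟨by simp [h2], fun _ => ?_, by simp [h2]⟩
      rw [if_pos (by omega : s + 1 < 21)]
      by_cases h3 : (s + 1) % 21 = 20
      · right; left
        refine ⟨lb_U h3, by omega, ?_⟩
        rw [if_neg (by omega), if_neg (by omega)]
        exact ⟨alt_R (by omega), alt_L (by omega)⟩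
      · left
        exact lb_R h3 (by omega)
  · simp only [if_neg (by omega : ¬ s < 21), if_neg (by omega : ¬ s + 1 < 21)]
    rcases alt_cases (s - 21) with ⟨h1, h2⟩ | ⟨h1, h2⟩
    · refine ⟨fun _ => Or.inl (alt_L (by omega)), by simp [h2], by simp [h2]⟩
    · refine ⟨by simp [h2], fun _ => Or.inl (alt_R (by omega)), by simp [h2]⟩

theorem WN_P (p : Par) (_hok : p.Ok) (l s : ℕ) (hs0 : 1 ≤ s) (_hs : s + 1 < p.m) :
    WN p l .P s := by
  unfold WN
  simp only [ch_P]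
  rw [if_neg (by omega), if_neg (by omega)]
  rcases alt_cases (s - 1) with ⟨h1, h2⟩ | ⟨h1, h2⟩
  · refine ⟨fun _ => Or.inl (alt_L (by omega)), by simp [h2], by simp [h2]⟩
  · refine ⟨by simp [h2], fun _ => Or.inl (alt_R (by omega)), by simp [h2]⟩

/-- words `R` and `Q`: filler `F` then blocks from the right. -/
theorem WN_aux (p : Par) (hok : p.Ok) (G : ℕ → Ty) (s e : ℕ) (he : e ≤ 1)
    (hG : ∀ i, 1 ≤ i ∨ e = 0 → G i = if p.m - 1 - i < 21 * p.g then rb (p.m - 1 - i)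
      else alt (i - e))
    (hs0 : 1 ≤ s ∨ e = 0) (hs : s + 1 < p.m) :
    (G s = .R → G (s + 1) = .L ∨ G (s + 1) = .U) ∧
    (G s = .L → G (s + 1) = .R ∨
      (G (s + 1) = .U ∧ s + 3 < p.m ∧ G (s + 2) = .R ∧ G (s + 3) = .L) ∨
      (G (s + 1) = .L ∧ s + 3 < p.m ∧ G (s + 2) = .R ∧
        (G (s + 3) = .L ∨ G (s + 3) = .U))) ∧
    (G s = .U → s + 3 < p.m ∧
      ((G (s + 1) = .R ∧ G (s + 2) = .L) ∨
       (G (s + 1) = .L ∧ G (s + 2) = .R ∧ G (s + 3) = .L))) := by
  obtain ⟨hg, hm, hb⟩ := hok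
  rw [hG s hs0, hG (s + 1) (by omega), hG (s + 2) (by omega), hG (s + 3) (by omega)]
  rcases Nat.lt_or_ge (p.m - 1 - s) (21 * p.g) with h | h
  · rw [if_pos h, if_pos (by omega), if_pos (by omega), if_pos (by omega)]
    rcases rb_cases (p.m - 1 - s) with ⟨h1, h2⟩ | ⟨h1, h1', h2⟩ | ⟨h1, h2⟩
    · refine ⟨by simp [h2], by simp [h2], fun _ => ⟨by omega, Or.inr ?_⟩⟩
      exact ⟨rb_L (by omega) (by omega), rb_R (by omega), rb_L (by omega) (by omega)⟩
    · refine ⟨by simp [h2], fun _ => Or.inl (rb_R (by omega)), by simp [h2]⟩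
    · refine ⟨fun _ => ?_, by simp [h2], by simp [h2]⟩
      by_cases h3 : (p.m - 1 - (s + 1)) % 21 = 0
      · right; exact rb_U h3
      · left; exact rb_L h3 (by omega)
  · rw [if_neg (by omega : ¬ (p.m - 1 - s < 21 * p.g))]
    rcases alt_cases (s - e) with ⟨h1, h2⟩ | ⟨h1, h2⟩
    · refine ⟨fun _ => ?_, by simp [h2], by simp [h2]⟩
      left
      split_ifs with h3
      · exact rb_L (by omega) (by omega)
      · exact alt_L (by omega)
    · refine ⟨by simp [h2], fun _ => ?_, by simp [h2]⟩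
      by_cases h3 : p.m - 1 - (s + 1) < 21 * p.g
      · right; right
        rw [if_pos h3, if_pos (by omega), if_pos (by omega)]
        exact ⟨rb_L (by omega) (by omega), by omega, rb_R (by omega),
          Or.inl (rb_L (by omega) (by omega))⟩
      · left
        rw [if_neg h3]
        exact alt_R (by omega)

theorem WN_R (p : Par) (hok : p.Ok) (l s : ℕ) (hs : s + 1 < p.m) : WN p l .R s := by
  have := WN_aux p hok (ch p l .R) s 0 (by omega) (fun i _ => by rw [ch_R]; rfl)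
    (Or.inr rfl) hs
  exact this

theorem WN_Q (p : Par) (hok : p.Ok) (l s : ℕ) (hs0 : 1 ≤ s) (hs : s + 1 < p.m) :
    WN p l .Q s := by
  have := WN_aux p hok (ch p l .Q) s 1 le_rfl
    (fun i hi => by rw [ch_Q, if_neg (by omega)]) (Or.inl hs0) hs
  exact this

theorem start_RLU (p : Par) (hok : p.Ok) (l : ℕ) {τ : Ty} (hτ : τ = .R ∨ τ = .L ∨ τ = .U)
    {i : ℕ} (hi : i < 20) : ch p l τ i = alt i := by
  obtain ⟨hg, hm, hb⟩ := hok
  rcases hτ with rfl | rfl | rfl
  · rw [ch_R, if_neg (by omega)]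
  · rw [ch_L, if_pos (by omega)]
    rcases alt_cases i with ⟨h1, h2⟩ | ⟨h1, h2⟩
    · rw [h2, lb_R (by omega) (by omega)]
    · rw [h2, lb_L (by omega)]
  · rw [ch_U, if_pos (by omega)]
    rcases alt_cases i with ⟨h1, h2⟩ | ⟨h1, h2⟩
    · rw [h2, lb_R (by omega) (by omega)]
    · rw [h2, lb_L (by omega)]

end DMS
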